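import Pool.Agent.MP_1071ec_an.Mg.Par3
import Pool.Agent.MP_1071ec_an.Quad
import Pool.Agent.MP_28f8a1_an.H42.Bd

-- part MP_1071ec_an.Core
section

/-! The period-independent bounds. -/

set_option autoImplicit false

namespace Pool.Agent.MP_1071ec_an

open MeasureTheory Metric Set Real Filter Topology Polynomial
open Pool.Agent.MP_28f8a1_an Pool.Agent.MP_28f8a1_an.H42
open scoped ENNReal


variable {e : ℕ}

theorem exists_setup (he : 1 ≤ e) (Y : ℕ → Cy e) (hP : ∀ n, 2 ≤ (Y n).K.card)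
    (h1 : ∀ n, 1 / 2 ≤ ‖(Y n).ρ‖) (hρ : ∀ n, ‖(Y n).ρ‖ < 2) (h3 : ∀ n, (Y n).ρ ≠ 1)
    (h4 : ∀ δ > 0, ∀ᶠ n in atTop, (Y n).flux ≤ δ) {M : ℝ} (hM : 0 ≤ M)
    (h5 : ∀ n, (Y n).flux ≤ M * ‖(Y n).ρ - 1‖) :
    ∃ σ : Setup e, σ.Y = Y ∧ σ.𝒰 = hyperfilter ℕ := by
  classical
  choose Z hZ hZ' using fun n => (Y n).special he
  have hmin : ∀ n b, ∃ z, b ∈ (Y n).K → z ∈ (Z n).erase b ∧
      ∀ z' ∈ (Z n).erase b, ‖z - b‖ ≤ ‖z' - b‖ := fun n b => by
    obtain ⟨b', hb', hne⟩ := Finset.exists_mem_ne (hP n) b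
    obtain ⟨z, hz⟩ := Finset.exists_min_image ((Z n).erase b) (fun z => ‖z - b‖)
      ⟨b', Finset.mem_erase.mpr ⟨hne, (hZ' n b').mpr (Or.inl ((Y n).KB hb'))⟩⟩
    exact ⟨z, fun _ => hz⟩
  choose z hz using hmin
  have hiso : ∀ n, ∀ b ∈ (Y n).K, ∀ b' ∈ (Y n).B, b' ≠ b → ‖z n b - b‖ ≤ ‖b' - b‖ :=
    fun n b hb b' hb' hne =>
      (hz n b hb).2 b' (Finset.mem_erase.mpr ⟨hne, (hZ' n b').mpr (Or.inl hb')⟩)
  have hpos : ∀ n, ∀ b ∈ (Y n).K, 0 < ‖z n b - b‖ := fun n b hb =>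
    norm_pos_iff.mpr (sub_ne_zero.mpr (Finset.mem_erase.mp (hz n b hb).1).1)
  obtain ⟨s, hs⟩ := cover 13
  choose b hb hcov using fun n => hs (Y n).K
    (Z n ∪ (Finset.range (Y n).K.card).image (cn e (Y n).c)) (fun b => ‖z n b - b‖) (Y n).ne
    ((Finset.card_union_le _ _).trans (by
      have := Finset.card_image_le (s := Finset.range (Y n).K.card) (f := cn e (Y n).c)
      rw [Finset.card_range] at this
      linarith [hZ n])) (hpos n)
    fun b hb b' hb' => hiso n b hb b' ((Y n).KB hb')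
  choose p p0 p1 p2 p3 using fun n => (Y n).o.orb (b n) (hb n)
  set r : ℕ → ℝ := fun n => ‖z n (b n) - b n‖ with hr
  have hr0 : ∀ n, 0 < r n := fun n => hpos n _ (hb n)
  have hr1 : ∀ n, (r n : ℂ) ≠ 0 := fun n => Complex.ofReal_ne_zero.mpr (hr0 n).ne'
  have hn : ∀ n (y : ℂ), ‖(r n : ℂ) * y‖ = r n * ‖y‖ := fun n y => by
    rw [norm_mul, Complex.norm_real, Real.norm_eq_abs, abs_of_pos (hr0 n)]
  have hnull : ∀ W : ℕ → Set ℂ, (∀ n, ∀ y ∈ W n, b n + r n * y ∈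
      Z n ∪ (Finset.range (Y n).K.card).image (cn e (Y n).c)) →
      μH[1] (limSet (hyperfilter ℕ) W) = 0 := fun W hW => by
    refine limSet_null s fun n k => ?_
    obtain ⟨T, hT, h⟩ := hcov n k
    refine ⟨T.image fun w => (w - b n) / r n, Finset.card_image_le.trans hT, fun y hy hk => ?_⟩
    obtain ⟨w, hw, h5⟩ := h _ (hW n y hy) (by
      rw [add_sub_cancel_left, hn, mul_comm]
      exact mul_lt_mul_of_pos_right hk (hr0 n))
    refine ⟨_, Finset.mem_image_of_mem _ hw, lt_of_mul_lt_mul_left ?_ (hr0 n).le⟩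
    rw [← mul_assoc, ← hn, mul_one, show r n * (y - (w - b n) / r n) = b n + r n * y - w by
      have := hr1 n
      field_simp
      ring]
    exact h5
  have hge : ∀ n (y : ℂ), y ≠ 0 → b n + r n * y ∈ Z n → 1 ≤ ‖y‖ := fun n y hy h => by
    have := (hz n _ (hb n)).2 _ (Finset.mem_erase.mpr ⟨by simpa [hr1 n] using hy, h⟩)
    rw [add_sub_cancel_left, hn] at this
    exact le_of_mul_le_mul_left (by rwa [mul_one]) (hr0 n)
  refine ⟨
    { 𝒰 := hyperfilter ℕ, Y := Y, p := p, r := r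
      E := limSet (hyperfilter ℕ) fun n => {y | y ≠ 0 ∧ b n + r n * y ∈ Z n}
      F := limSet (hyperfilter ℕ) fun n => {y | ∃ j < (Y n).K.card, b n + r n * y = cn e (Y n).c j}
      pK := p1, pstep := p2, pinj := p3, rpos := hr0
      rle := fun n => ?_, cle := fun n => ((Y n).bounds he (hρ n)).1
      ble := fun n => ((Y n).bounds he (hρ n)).2 _ (p1 n 0)
      iso := fun n b' hb' hne => ?_, ρlo := h1, ρhi := fun n => (hρ n).le, ρne := h3
      small := fun R hR δ hδ => ?_, Ecl := limSet_closed _ _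
      rate := fun R hR => ⟨M, hM, fun n => ((Y n).mass he ((Y n).bounds he (hρ n)).1 hR).trans
        (ENNReal.ofReal_le_ofReal (h5 n))⟩
      Enull := hnull _ fun n y hy => Finset.mem_union_left _ hy.2
      E0 := fun h => ?_, Eaway := fun x hx => ?_
      Fnull := hnull _ fun n y ⟨j, hj, h⟩ => Finset.mem_union_right _
        (h ▸ Finset.mem_image_of_mem _ (Finset.mem_range.mpr hj))
      Faway := fun x hx => ?_, touch := fun n => ?_ }, rfl, rfl⟩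
  · obtain ⟨b', hb', hne⟩ := Finset.exists_mem_ne (hP n) (b n)
    have := ((Y n).bounds he (hρ n)).2
    linarith [hiso n _ (hb n) b' ((Y n).KB hb') hne, norm_sub_le b' (b n), this _ hb', this _ (hb n)]
  · rw [p0] at hne ⊢
    exact hiso n _ (hb n) b' hb' hne
  · have := h4 δ hδ
    rw [← Nat.cofinite_eq_atTop] at this
    filter_upwards [this.filter_mono hyperfilter_le_cofinite] with n hn
    exact ((Y n).mass he ((Y n).bounds he (hρ n)).1 hR).trans (ENNReal.ofReal_le_ofReal hn)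
  · obtain ⟨n, y, hy, h5⟩ := (h 1 one_pos).exists
    rw [sub_zero] at h5
    exact absurd (hge n y hy.1 hy.2) (not_le.mpr h5)
  · obtain ⟨ε, hε, h⟩ := limSet_away _ hx
    refine ⟨ε, hε, h.mono fun n hn y hy => ?_⟩
    rw [p0]
    by_cases h0 : y = 0
    · obtain ⟨k1, k2, k3⟩ := (Y n).chart ((Y n).KB (hb n)) (t := 0) (y := 0) fun _ => by simp
      have k4 := k3 1
      simp only [Eu, mul_zero, zero_mul, add_zero, (Y n).U_self (hb n)] at k1 k2 k4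
      simp only [h0, mul_zero, add_zero]
      exact ⟨fun _ => trivial, fun h => by simpa using k1.mpr h, fun h => by simpa using k2.mpr h,
        fun h => by have := k4.mpr h; norm_num at this⟩
    · have := (hZ' n _).not.mp fun h => hn y hy ⟨h0, h⟩
      push Not at this
      exact ⟨fun h => absurd h this.1, this.2⟩
  · obtain ⟨ε, hε, h⟩ := limSet_away _ hx
    exact ⟨ε, hε, h.mono fun n hn y hy j hj h => hn y hy ⟨j, hj, p0 n ▸ h⟩⟩
  · refine ⟨(z n (b n) - b n) / r n, ?_, ?_⟩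
    · rw [norm_div, Complex.norm_real, Real.norm_eq_abs, abs_of_pos (hr0 n), div_self (hr0 n).ne']
    · rw [p0, mul_div_cancel₀ _ (hr1 n), add_sub_cancel]
      exact (hZ' n _).mp (Finset.mem_erase.mp (hz n _ (hb n)).1).2

theorem inv_small {δ : ℝ} (hδ : 0 < δ) : ∀ᶠ n : ℕ in atTop, (1 : ℝ) / (n + 2) ≤ δ :=
  (tendsto_const_nhds.div_atTop
    (tendsto_atTop_add_const_right _ _ tendsto_natCast_atTop_atTop)).eventually (ge_mem_nhds hδ)

/-- Away from multiplier one the flux is bounded below. -/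
theorem core_ne (he : 1 ≤ e) {η : ℝ} (hη : 0 < η) : ∃ δ > 0, ∀ Y : Cy e, 2 ≤ Y.K.card →
    1 / 2 ≤ ‖Y.ρ‖ → ‖Y.ρ‖ < 2 → η ≤ ‖Y.ρ - 1‖ → δ ≤ Y.flux := by
  by_contra hc
  push Not at hc
  choose Y h0 h1 h2 h3 h4 using fun n : ℕ => hc (1 / (n + 2)) (by positivity)
  obtain ⟨σ, rfl, -⟩ := exists_setup he Y h0 h1 h2
    (fun n h => by simpa [h, hη.not_ge] using h3 n)
    (fun δ hδ => (inv_small hδ).mono fun n hn => (h4 n).le.trans hn) (M := η⁻¹) (by positivity)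
    fun n => by
      rw [← div_eq_inv_mul]
      refine (h4 n).le.trans (le_trans ?_ ((one_le_div hη).2 (h3 n)))
      rw [div_le_one (by positivity)]
      linarith [n.cast_nonneg (α := ℝ)]
  obtain ⟨ρ, hρ⟩ := t1294_ulim σ.𝒰 (f := fun n => (σ.Y n).ρ) (Eventually.of_forall σ.ρhi)
  refine σ.case_ne he hρ fun h => ?_
  have := ge_of_tendsto' (hρ.sub_const 1).norm h3
  simp [h, hη.not_ge] at this

theorem pow_lim {l : Filter ℕ} {u : ℕ → ℂ} {k : ℕ → ℕ} {x : ℂ} (hu : Tendsto u l (𝓝 0))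
    (hx : Tendsto (fun n => k n * u n) l (𝓝 x)) :
    Tendsto (fun n => (1 + u n) ^ k n) l (𝓝 (Complex.exp x)) := by
  have h1 : ∀ᶠ n in l, ‖u n‖ ≤ 1 / 2 := hu.norm.eventually (ge_mem_nhds (by simp))
  have h2 : Tendsto (fun n => k n * Complex.log (1 + u n) - k n * u n) l (𝓝 0) := by
    refine squeeze_zero_norm' (a := fun n => ‖k n * u n‖ * ‖u n‖) (h1.mono fun n hn => ?_)
      (by simpa using hx.norm.mul hu.norm)
    have h3 := Complex.norm_log_one_add_sub_self_le (z := u n) (by linarith)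
    have h4 : (1 - ‖u n‖)⁻¹ ≤ 2 := inv_le_of_inv_le₀ two_pos (by linarith)
    rw [← mul_sub, norm_mul, norm_mul, mul_assoc]
    refine mul_le_mul_of_nonneg_left (h3.trans ?_) (norm_nonneg _)
    nlinarith [sq_nonneg ‖u n‖]
  have h5 := (Complex.continuous_exp.tendsto _).comp (h2.add hx)
  rw [zero_add] at h5
  refine h5.congr' (h1.mono fun n hn => ?_)
  have h6 : 1 + u n ≠ 0 := fun h => by
    rw [eq_neg_of_add_eq_zero_right h] at hn
    norm_num at hn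
  simp only [Function.comp, sub_add_cancel]
  rw [Complex.exp_nat_mul, Complex.exp_log h6]

/-- The residue relation forces the limit ratio to be an integer. -/
theorem not_five (𝒰 : Ultrafilter ℕ) {l τ : ℕ → ℂ} {P j : ℕ → ℕ} {s : ℝ} (hs : s = 1 ∨ s = -1)
    (hP : Tendsto P 𝒰 atTop) (hj : ∀ n, j n ≤ P n) (hτ : Tendsto τ 𝒰 (𝓝 0))
    (h1 : ∀ᶠ n in (𝒰 : Filter ℕ), l n ^ P n - 1 ≠ 0 ∧ ‖P n * (l n ^ P n - 1)‖ = 5 / 4 * ‖τ n‖)
    (h2 : Tendsto (fun n => (l n ^ j n - 1) * (l n ^ P n - 1 - τ n) / (l n ^ P n - 1)) 𝒰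
      (𝓝 (2 * π * Complex.I * s))) : False := by
  have hP0 : ∀ᶠ n in (𝒰 : Filter ℕ), 1 ≤ P n := hP.eventually_ge_atTop 1
  have hPi : Tendsto (fun n => ((P n : ℂ))⁻¹) 𝒰 (𝓝 0) :=
    tendsto_inv_atTop_nhds_zero_nat.comp hP
  have h3 : ∀ᶠ n in (𝒰 : Filter ℕ), ‖τ n / (P n * (l n ^ P n - 1))‖ = 4 / 5 := by
    filter_upwards [h1, hP0] with n ⟨a1, a2⟩ a3
    have a4 : 0 < ‖P n * (l n ^ P n - 1)‖ :=
      norm_pos_iff.2 (mul_ne_zero (Nat.cast_ne_zero.2 (by omega)) a1)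
    rw [norm_div, div_eq_iff a4.ne', a2]
    ring
  obtain ⟨γ, hγ⟩ := t1294_ulim 𝒰 (h3.mono fun n hn => hn.le)
  have hγn : ‖γ‖ = 4 / 5 := tendsto_nhds_unique_of_eventuallyEq hγ.norm tendsto_const_nhds h3
  have hγ0 : 0 - γ ≠ 0 := by
    rw [zero_sub, neg_ne_zero, ← norm_pos_iff, hγn]
    norm_num
  have h4 : Tendsto (fun n => P n * (l n ^ j n - 1)) 𝒰 (𝓝 (2 * π * Complex.I * s / (0 - γ))) := by
    refine (h2.div (hPi.sub hγ) hγ0).congr' ?_
    filter_upwards [h1, hP0, (hPi.sub hγ).eventually_ne hγ0] with n ⟨a1, _⟩ a3 a4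
    have a5 : (P n : ℂ) ≠ 0 := Nat.cast_ne_zero.2 (by omega)
    simp only [Pi.div_apply]
    rw [div_eq_iff a4]
    field_simp
  have h5 : Tendsto (fun n => l n ^ j n - 1) 𝒰 (𝓝 0) := by
    have := hPi.mul h4
    rw [zero_mul] at this
    refine this.congr' (hP0.mono fun n hn => ?_)
    exact inv_mul_cancel_left₀ (Nat.cast_ne_zero.2 (by omega)) _
  have h6 : ∀ k : ℕ → ℕ, (∀ᶠ n in (𝒰 : Filter ℕ), k n ≤ P n) →
      Tendsto (fun n => k n * (l n ^ P n - 1)) 𝒰 (𝓝 0) := fun k hk => by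
    refine squeeze_zero_norm' (a := fun n => 5 / 4 * ‖τ n‖) ?_
      (by simpa using hτ.norm.const_mul (5 / 4))
    filter_upwards [h1, hk] with n ⟨_, a2⟩ a3
    rw [← a2, norm_mul, norm_mul, Complex.norm_natCast, Complex.norm_natCast]
    gcongr
  have h7 := pow_lim h5 h4
  have h8 := pow_lim (by simpa using h6 (fun _ => 1) hP0) (h6 j (Eventually.of_forall hj))
  simp only [add_sub_cancel, ← pow_mul, mul_comm (P _), Complex.exp_zero] at h7 h8
  obtain ⟨k, hk⟩ := Complex.exp_eq_one_iff.1 (tendsto_nhds_unique h7 h8)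
  rw [div_eq_iff hγ0] at hk
  have h9 : (s : ℂ) = k * (0 - γ) :=
    mul_left_cancel₀ Complex.two_pi_I_ne_zero (by linear_combination hk)
  have h10 := congrArg norm h9
  rw [norm_mul, zero_sub, norm_neg, hγn, Complex.norm_intCast, Complex.norm_real,
    show ‖s‖ = 1 by rcases hs with rfl | rfl <;> simp] at h10
  have h11 : (5 : ℤ) = 4 * |k| := by
    have : (5 : ℝ) = 4 * |(k : ℝ)| := by linarith
    exact_mod_cast this
  omega

/-- Close to multiplier one, a small flux excludes the ratio `5 / 4`. -/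
theorem core_one (he : 1 ≤ e) {M : ℝ} (hM : 0 ≤ M) : ∃ η > 0, ∃ q₀ : ℕ, ∀ Y : Cy e,
    q₀ ≤ Y.K.card → Y.ρ ≠ 1 → ‖Y.ρ - 1‖ ≤ η → Y.flux ≤ M * ‖Y.ρ - 1‖ →
    Y.s ≠ 0 ∧ ‖Y.K.card * (lam e Y.α ^ Y.K.card - 1)‖ ≠ 5 / 4 * ‖Y.ρ - 1‖ := by
  by_contra hc
  push Not at hc
  choose Y h0 h1 h2 h3 h4 using fun n : ℕ => hc (1 / (n + 2)) (by positivity) (n + 2)
  have h5 : ∀ n, ‖(Y n).ρ - 1‖ ≤ 1 / 2 := fun n => (h2 n).trans
    (one_div_le_one_div_of_le two_pos (by linarith [n.cast_nonneg (α := ℝ)]))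
  have h6 : Tendsto (fun n => (Y n).ρ - 1) atTop (𝓝 0) :=
    NormedAddGroup.tendsto_nhds_zero.2 fun δ hδ =>
      (inv_small (half_pos hδ)).mono fun n hn => by linarith [h2 n]
  obtain ⟨σ, rfl, h𝒰⟩ := exists_setup he Y (fun n => le_trans (by omega) (h0 n))
    (fun n => by linarith [h5 n, norm_le_norm_add_norm_sub (Y n).ρ 1, norm_one (α := ℂ)])
    (fun n => by linarith [h5 n, norm_le_norm_add_norm_sub' (Y n).ρ 1, norm_one (α := ℂ)]) h1
    (fun δ hδ => ((h6.norm.const_mul M).eventually (ge_mem_nhds (by simpa using hδ))).mono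
      fun n hn => (h3 n).trans hn) hM h3
  have hle : (σ.𝒰 : Filter ℕ) ≤ atTop := h𝒰 ▸ Nat.cofinite_eq_atTop ▸ hyperfilter_le_cofinite
  have hP : Tendsto (fun n => (σ.Y n).K.card) σ.𝒰 atTop :=
    (tendsto_atTop_mono h0 (tendsto_add_atTop_nat 2)).mono_left hle
  obtain ⟨j, s, hs, hj, h7⟩ := σ.case_one he (by simpa using (h6.add_const 1).mono_left hle) hP
  refine not_five σ.𝒰 hs hP hj (h6.mono_left hle)
    ((h7 1 one_pos).mono fun n hn => ⟨hn.2.1, h4 n hn.1⟩) (Metric.tendsto_nhds.2 fun ε hε => ?_)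
  refine (h7 _ (half_pos hε)).mono fun n hn => ?_
  rw [dist_eq_norm]
  linarith [hn.2.2]

end Pool.Agent.MP_1071ec_an

end

-- part MP_1071ec_an.Plane
section

/-! The curve of periodic points over the plane of the multiplier of a fixed point. -/

set_option autoImplicit false

namespace Pool.Agent.MP_1071ec_an

open MeasureTheory Metric Set Real Filter Topology Polynomial
open Pool.Agent.MP_28f8a1_an Pool.Agent.MP_28f8a1_an.H42
open scoped ENNReal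

/-- The parameter for which `l / 2` is a fixed point of multiplier `l`. -/
noncomputable def par (l : ℂ) : ℂ := l / 2 - l ^ 2 / 4

/-- The multiplier. -/
noncomputable def mu (q : ℕ) (x : ℂ × ℂ) : ℂ := Pd 1 (par x.1) x.2 q

/-- The points of exact period `q`. -/
def Per (q : ℕ) : Set (ℂ × ℂ) := {x | Function.minimalPeriod (fq 1 (par x.1)) x.2 = q}

/-- A compact part of the curve. -/
def Ec (q : ℕ) (r : ℝ) : Set (ℂ × ℂ) :=
  {x | (fq 1 (par x.1))^[q] x.2 = x.2 ∧ ‖mu q x‖ ≤ r ∧ (mu q x = 1 ∨ x ∈ Per q)}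

/-- The periodic point follows the parameter, and `D` is the derivative of the multiplier. -/
def Fol (q : ℕ) (x : ℂ × ℂ) (D : ℂ) : Prop :=
  ∃ (ψ : ℂ → ℂ) (d : ℂ), ψ x.1 = x.2 ∧ HasStrictDerivAt ψ d x.1 ∧
    (∀ᶠ l in 𝓝 x.1, (fq 1 (par l))^[q] (ψ l) = ψ l) ∧
    HasStrictDerivAt (fun l => mu q (l, ψ l)) D x.1

/-- `ψ` inverts the restriction of `μ` to `E` near `x`. -/
def Inv (E : Set (ℂ × ℂ)) (μ : ℂ × ℂ → ℂ) (x : ℂ × ℂ) (ψ : ℂ → ℂ × ℂ) : Prop :=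
  ContinuousAt ψ (μ x) ∧ (∀ᶠ w in 𝓝 (μ x), ψ w ∈ E ∧ μ (ψ w) = w) ∧
    ∀ᶠ y in 𝓝 x, y ∈ E → ψ (μ y) = y

/-- A continuous section of the restriction of `μ` to `E` over `V`. -/
def Sec (E : Set (ℂ × ℂ)) (μ : ℂ × ℂ → ℂ) (V : Set ℂ) (σ : ℂ → ℂ × ℂ) : Prop :=
  ContinuousOn σ V ∧ ∀ w ∈ V, σ w ∈ E ∧ μ (σ w) = w

/-- The part of the disc of radius `r` seen from `1` in the direction `u`. -/
def Hd (r : ℝ) (u : ℂ) : Set ℂ := {w | ‖w‖ < r ∧ 0 < ((w - 1) * starRingEnd ℂ u).re}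

theorem par_fix (l : ℂ) : fq 1 (par l) (l / 2) = l / 2 := by
  simp only [fq, par]
  ring

theorem par_deriv (l : ℂ) : HasStrictDerivAt par ((1 - l) / 2) l := by
  have := ((hasStrictDerivAt_id l).div_const 2).sub ((hasStrictDerivAt_pow 2 l).div_const 4)
  refine (this.congr_deriv ?_)
  push_cast
  ring

theorem lam_half (l : ℂ) : lam 1 (l / 2) = l := by
  simp only [lam]
  push_cast
  ring

/-! Compactness and finiteness for the curve of periodic points. -/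

section

theorem pcpt_par_cont : Continuous par := by
  unfold par
  fun_prop

theorem mu_cont (q : ℕ) : Continuous (mu q) := by
  obtain ⟨Q, q1, -, q3⟩ := t57_div (e := 1) q
  have h : mu q = fun x => Q (par x.1, x.2, x.2) := funext fun x => (q3 _ _).symm
  rw [h]
  exact q1.comp ((pcpt_par_cont.comp continuous_fst).prodMk (continuous_snd.prodMk continuous_snd))

theorem pcpt_big {c z : ℂ} (k : ℕ) (h : ∀ j < k, 1 ≤ ‖(fq 1 c)^[j] z‖) :
    2 ^ k ≤ ‖Pd 1 c z k‖ := by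
  induction k with
  | zero => simp [Pd_zero]
  | succ k ih =>
    have h1 := ih fun j hj => h j (by omega)
    have h2 := h k (by omega)
    rw [Pd_succ', norm_mul, norm_mul, pow_one, Complex.norm_natCast, pow_succ]
    have h3 : (0 : ℝ) ≤ 2 ^ k := by positivity
    push_cast
    nlinarith [mul_le_mul h2 h1 h3 (norm_nonneg _)]

theorem pcpt_two_le {q : ℕ} (hq : 0 < q) : (2 : ℝ) ≤ 2 ^ q :=
  le_self_pow₀ (by norm_num) hq.ne'

theorem per_bound {q : ℕ} (hq : 0 < q) {x : ℂ × ℂ} (h : (fq 1 (par x.1))^[q] x.2 = x.2)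
    (hm : ‖mu q x‖ < 2) : ‖x.1‖ ≤ 6 ∧ ‖x.2‖ ≤ 3 := by
  obtain ⟨l, z⟩ := x
  dsimp only [mu] at h hm ⊢
  obtain ⟨c, hc⟩ : ∃ c, par l = c := ⟨_, rfl⟩
  rw [hc] at h hm
  obtain ⟨i, -, hi⟩ : ∃ i < q, ‖(fq 1 c)^[i] z‖ < 1 := by
    by_contra hn
    push Not at hn
    linarith [pcpt_big q hn, pcpt_two_le hq]
  obtain ⟨j, -, hj⟩ := (Finset.range q).exists_max_image (fun j => ‖(fq 1 c)^[j] z‖)
    ⟨0, Finset.mem_range.2 hq⟩
  have hR : ∀ k, ‖(fq 1 c)^[k] z‖ ≤ ‖(fq 1 c)^[j] z‖ := fun k => by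
    have := hj (k % q) (Finset.mem_range.2 (Nat.mod_lt _ hq))
    rwa [Function.IsPeriodicPt.iterate_mod_apply h] at this
  have hs : ∀ k, (fq 1 c)^[k + 1] z = ((fq 1 c)^[k] z) ^ 2 + c := fun k => by
    rw [Function.iterate_succ_apply']
    rfl
  have a1 : ‖c‖ ≤ ‖(fq 1 c)^[j] z‖ + 1 := by
    have e : c = (fq 1 c)^[i + 1] z - ((fq 1 c)^[i] z) ^ 2 := by rw [hs]; ring
    have b := norm_sub_le ((fq 1 c)^[i + 1] z) (((fq 1 c)^[i] z) ^ 2)
    rw [← e, norm_pow] at b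
    nlinarith [hR (i + 1), norm_nonneg ((fq 1 c)^[i] z)]
  have a2 : ‖(fq 1 c)^[j] z‖ ≤ 3 := by
    have e : ((fq 1 c)^[j] z) ^ 2 = (fq 1 c)^[j + 1] z - c := by rw [hs]; ring
    have b := norm_sub_le ((fq 1 c)^[j + 1] z) c
    rw [← e, norm_pow] at b
    nlinarith [hR (j + 1)]
  refine ⟨?_, (hR 0).trans a2⟩
  have e : l ^ 2 = 2 * l - 4 * c := by rw [← hc, par]; ring
  have b := norm_sub_le (2 * l) (4 * c)
  rw [← e, norm_pow, norm_mul, norm_mul] at b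
  simp only [Complex.norm_ofNat] at b
  nlinarith

theorem Ec_compact {q : ℕ} (hq : 0 < q) {r : ℝ} (hr : r < 2) : IsCompact (Ec q r) := by
  obtain ⟨Q, q1, q2, q3⟩ := t57_div (e := 1) q
  have hc : ∀ k, Continuous fun x : ℂ × ℂ => (fq 1 (par x.1))^[k] x.2 := fun k =>
    (t57_cont k).comp ((pcpt_par_cont.comp continuous_fst).prodMk continuous_snd)
  have e : Ec q r = ({x : ℂ × ℂ | (fq 1 (par x.1))^[q] x.2 = x.2} ∩ {x | ‖mu q x‖ ≤ r}) ∩
      ⋂ d ∈ Ioo 0 q, {x : ℂ × ℂ | Q (par x.1, x.2, (fq 1 (par x.1))^[d] x.2) = 1} := by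
    ext x
    simp only [Ec, Per, mem_inter_iff, mem_ofPred_eq, mem_iInter, t57_per hq]
    constructor
    · rintro ⟨h1, h2, h3⟩
      refine ⟨⟨h1, h2⟩, fun d hd => ?_⟩
      by_cases h4 : (fq 1 (par x.1))^[d] x.2 = x.2
      · rw [h4, q3]
        exact h3.resolve_right fun h5 => h5.2 d hd h4
      · have h6 := q2 (par x.1) x.2 ((fq 1 (par x.1))^[d] x.2)
        rw [← Function.iterate_add_apply, add_comm, Function.iterate_add_apply, h1] at h6
        exact mul_right_cancel₀ (sub_ne_zero.2 h4) (by rw [← h6, one_mul])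
    · rintro ⟨⟨h1, h2⟩, h3⟩
      refine ⟨h1, h2, or_iff_not_imp_left.2 fun h4 => ⟨h1, fun d hd h5 => h4 ?_⟩⟩
      have h6 := h3 d hd
      rwa [h5, q3] at h6
  refine ((isCompact_closedBall (0 : ℂ) 6).prod (isCompact_closedBall (0 : ℂ) 3)).of_isClosed_subset
    ?_ fun x hx => ?_
  · rw [e]
    refine ((isClosed_eq (hc q) continuous_snd).inter
      (isClosed_le (mu_cont q).norm continuous_const)).inter
      (isClosed_biInter fun d _ => isClosed_eq ?_ continuous_const)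
    exact q1.comp ((pcpt_par_cont.comp continuous_fst).prodMk (continuous_snd.prodMk (hc d)))
  · obtain ⟨h1, h2⟩ := per_bound hq hx.1 (hx.2.1.trans_lt hr)
    exact ⟨mem_closedBall_zero_iff.2 h1, mem_closedBall_zero_iff.2 h2⟩

theorem pcpt_fibre (c : ℂ) : {l | par l = c}.Finite := by
  rcases {l | par l = c}.eq_empty_or_nonempty with h | ⟨m, hm⟩
  · rw [h]
    exact finite_empty
  · refine (toFinite {m, 2 - m}).subset fun l hl => ?_
    have h1 : par l = par m := (hl : par l = c).trans (hm : par m = c).symm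
    have h2 : (l - m) * (l - (2 - m)) = 0 := by
      simp only [par] at h1
      linear_combination -4 * h1
    rcases mul_eq_zero.1 h2 with h | h
    · exact Or.inl (sub_eq_zero.1 h)
    · exact Or.inr (sub_eq_zero.1 h)

theorem Ec_fin {q : ℕ} (hq : 0 < q) (r : ℝ) : {x ∈ Ec q r | mu q x = 1}.Finite := by
  refine ((t1323_fin (e := 1) le_rfl hq).biUnion fun c _ =>
    (pcpt_fibre c).prod (t1323_roots (e := 1) le_rfl hq c)).subset fun x hx => ?_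
  exact mem_biUnion (x := par x.1) ⟨x.2, hx.1.1, hx.2⟩ ⟨rfl, hx.1.1⟩

theorem per_ne_zero {q : ℕ} (hq : 2 ≤ q) {x : ℂ × ℂ} (hx : x ∈ Per q) (hm : ‖mu q x‖ < 2) :
    x.1 ≠ 0 := by
  intro h0
  obtain ⟨l, z⟩ := x
  have hc : par l = 0 := by
    rw [show l = 0 from h0]
    simp [par]
  obtain ⟨h1, h2⟩ := (t57_per (by omega : 0 < q)).1 hx
  dsimp only [mu] at h1 h2 hm
  rw [hc] at h1 h2 hm
  have hz : z ≠ 0 := by
    rintro rfl
    exact h2 1 ⟨one_pos, by omega⟩ (by simp [fq])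
  have hn : ∀ k, ‖(fq 1 0)^[k] z‖ = ‖z‖ ^ 2 ^ k := fun k => by
    induction k with
    | zero => simp
    | succ k ih => rw [Function.iterate_succ_apply', fq, add_zero, norm_pow, ih, ← pow_mul, pow_succ]
  obtain ⟨m, hm'⟩ : ∃ m, 2 ^ q = m + 1 + 1 :=
    ⟨2 ^ q - 2, by have := Nat.one_lt_two_pow (by omega : q ≠ 0); omega⟩
  have h3 := hn q
  rw [h1, hm', pow_succ] at h3
  have h4 : ‖z‖ ^ (m + 1) = 1 :=
    mul_right_cancel₀ (norm_ne_zero_iff.2 hz) (by rw [← h3, one_mul])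
  have h5 : ‖z‖ = 1 := (pow_eq_one_iff_of_nonneg (norm_nonneg _) (by omega)).1 h4
  have h6 := pcpt_big (c := 0) (z := z) q fun j _ => by rw [hn, h5, one_pow]
  linarith [pcpt_two_le (by omega : 0 < q)]

/-- The critical orbit polynomials. -/
noncomputable def pcptG : ℕ → ℤ[X]
  | 0 => 0
  | n + 1 => pcptG n ^ 2 + X

theorem pcptG_monic (n : ℕ) : (pcptG (n + 1)).Monic ∧ 1 ≤ (pcptG (n + 1)).natDegree := by
  induction n with
  | zero => simp [pcptG, monic_X]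
  | succ n ih =>
    have h1 : (X : ℤ[X]).natDegree < (pcptG (n + 1) ^ 2).natDegree := by
      rw [ih.1.natDegree_pow, natDegree_X]
      omega
    rw [pcptG]
    refine ⟨(ih.1.pow 2).add_of_left (degree_lt_degree h1), ?_⟩
    rw [natDegree_add_eq_left_of_natDegree_lt h1]
    rw [natDegree_X] at h1
    omega

theorem pcptG_eval (c : ℂ) (n : ℕ) : aeval c (pcptG n) = (fq 1 c)^[n] 0 := by
  induction n with
  | zero => simp [pcptG]
  | succ n ih => rw [Function.iterate_succ_apply', ← ih, pcptG, map_add, map_pow, aeval_X, fq]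

/-- Gleason's lemma. -/
theorem gleason {c : ℂ} {n : ℕ} (hn : 0 < n) (h : (fq 1 c)^[n] 0 = 0) :
    ∃ d : ℂ, d ≠ 0 ∧ HasStrictDerivAt (fun c' => (fq 1 c')^[n] 0) d c := by
  obtain ⟨m, rfl⟩ : ∃ m, n = m + 1 := ⟨n - 1, by omega⟩
  refine ⟨aeval c (derivative (pcptG (m + 1))), fun h0 => ?_, ?_⟩
  · have hc : IsIntegral ℤ c := ⟨pcptG (m + 1), (pcptG_monic m).1, by
      rw [← aeval_def, pcptG_eval, h]⟩
    have hw : IsIntegral ℤ (aeval c (pcptG m * derivative (pcptG m))) :=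
      adjoin_le_integralClosure hc (aeval_mem_adjoin_singleton ℤ c)
    have e : aeval c (pcptG m * derivative (pcptG m)) = algebraMap ℚ ℂ (-1 / 2) := by
      simp only [pcptG, derivative_X, derivative_sq, map_add, map_mul, map_one,
        aeval_C] at h0 ⊢
      simp only [eq_intCast, eq_ratCast] at h0 ⊢
      push_cast at h0 ⊢
      linear_combination h0 / 2
    rw [e, isIntegral_algebraMap_iff (algebraMap ℚ ℂ).injective] at hw
    obtain ⟨y, hy⟩ := IsIntegrallyClosed.isIntegral_iff.1 hw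
    have h2 : ((2 * y : ℤ) : ℚ) = ((-1 : ℤ) : ℚ) := by
      rw [eq_intCast] at hy
      push_cast
      linarith
    have h3 := Int.cast_injective h2
    omega
  · simpa only [pcptG_eval] using (pcptG (m + 1)).hasStrictDerivAt_aeval c

theorem pcpt_sp (c d : ℂ) (k : ℕ) : t1055_sp 1 c 0 d (k + 1) = t1055_sp 1 c 0 0 (k + 1) := by
  induction k with
  | zero => simp [t1055_sp, lam]
  | succ k ih => rw [t1055_sp, ih, t1055_sp.eq_2 1 c 0 0 (k + 1)]

theorem pcpt_Pd_ne {c z : ℂ} (k : ℕ) (h : ∀ j < k, (fq 1 c)^[j] z ≠ 0) : Pd 1 c z k ≠ 0 := by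
  induction k with
  | zero => simp [Pd_zero]
  | succ k ih =>
    rw [Pd_succ']
    exact mul_ne_zero (mul_ne_zero (by norm_num) (pow_ne_zero _ (h k (by omega))))
      (ih fun j hj => h j (by omega))

theorem pcpt_quarter (k : ℕ) : (fq 1 (par 1))^[k + 1] 0 ≠ 0 := by
  have h : ∀ k, ∃ t : ℝ, (fq 1 (par 1))^[k] 0 = t := fun k => by
    induction k with
    | zero => exact ⟨0, by simp⟩
    | succ k ih =>
      obtain ⟨t, ht⟩ := ih
      refine ⟨t ^ 2 + 1 / 4, ?_⟩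
      rw [Function.iterate_succ_apply', ht, fq, par]
      push_cast
      ring
  obtain ⟨t, ht⟩ := h k
  have e : (fq 1 (par 1))^[k + 1] 0 = ((t ^ 2 + 1 / 4 : ℝ) : ℂ) := by
    rw [Function.iterate_succ_apply', ht, fq, par]
    push_cast
    ring
  rw [e]
  exact Complex.ofReal_ne_zero.2 (by positivity)

/-- The multiplier has a simple zero at a centre. -/
theorem fol_zero {q : ℕ} (hq : 0 < q) {x : ℂ × ℂ} (hx : x ∈ Per q) (h0 : mu q x = 0) :
    ∃ D : ℂ, D ≠ 0 ∧ Fol q x D := by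
  obtain ⟨l, z⟩ := x
  have hper : Function.minimalPeriod (fq 1 (par l)) z = q := hx
  have h1 := ((t57_per hq).1 hper).1
  dsimp only [mu] at h0
  obtain ⟨ψ, d, rfl, hψ, hfix⟩ := t1055_follow h1 (by rw [h0]; exact zero_ne_one)
  obtain ⟨i, hi, hz⟩ : ∃ i < q, (fq 1 (par l))^[i] (ψ (par l)) = 0 := by
    by_contra hn
    push Not at hn
    exact pcpt_Pd_ne q hn h0
  have hne : ∀ j < q, j ≠ i → (fq 1 (par l))^[j] (ψ (par l)) ≠ 0 := fun j hj hji h =>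
    hji (Function.iterate_injOn_Iio_minimalPeriod (f := fq 1 (par l)) (x := ψ (par l))
      (by rw [hper]; exact hj) (by rw [hper]; exact hi) (h.trans hz.symm))
  obtain ⟨m, rfl⟩ : ∃ m, q = m + (i + 1) := ⟨q - (i + 1), by omega⟩
  have hA : ∀ j < i, (fq 1 (par l))^[j] (ψ (par l)) ≠ 0 := fun j hj =>
    hne j (by omega) (by omega)
  have hB : ∀ j < m, (fq 1 (par l))^[j] ((fq 1 (par l))^[i + 1] (ψ (par l))) ≠ 0 := fun j hj => by
    rw [← Function.iterate_add_apply]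
    exact hne _ (by omega) (by omega)
  have dA := t1055_mult_deriv (e := 1) le_rfl hψ i hA
  have dB := t1055_mult_deriv (e := 1) le_rfl (t1055_orbit_deriv (e := 1) hψ (i + 1)) m hB
  have dZ := t1055_orbit_deriv (e := 1) hψ i
  obtain ⟨ζ, hζ⟩ : ∃ ζ, t1055_sp 1 (par l) (ψ (par l)) d i = ζ := ⟨_, rfl⟩
  rw [hζ] at dZ
  have h00 : (fq 1 (par l))^[m + (i + 1)] 0 = 0 := by
    rw [← hz, ← Function.iterate_add_apply, add_comm, Function.iterate_add_apply, h1]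
  have hζ0 : ζ ≠ 0 := by
    obtain ⟨d', hd', hg⟩ := gleason hq h00
    have b1 := t1055_orbit_deriv (e := 1) dZ (m + (i + 1))
    have b2 := t1055_orbit_deriv (e := 1) (hasStrictDerivAt_const (par l) (0 : ℂ)) (m + (i + 1))
    have b3 := b2.hasDerivAt.unique hg.hasDerivAt
    have b4 := (b1.hasDerivAt.congr_of_eventuallyEq (f₁ := fun c' => (fq 1 c')^[i] (ψ c'))
      (hfix.mono fun c' h => by
        dsimp only
        rw [← Function.iterate_add_apply, add_comm, Function.iterate_add_apply, h])).unique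
      dZ.hasDerivAt
    rw [hz, ← add_assoc, pcpt_sp] at b4
    rw [← add_assoc] at b3
    rw [← b4, b3]
    exact hd'
  have hl : (1 - l) / 2 ≠ 0 := fun h => by
    have e : l = 1 := by linear_combination -2 * h
    rw [e] at h00
    exact pcpt_quarter (m + i) h00
  have dM : HasStrictDerivAt (fun c' => Pd 1 c' (ψ c') (m + (i + 1)))
      (Pd 1 (par l) ((fq 1 (par l))^[i + 1] (ψ (par l))) m *
        (2 * ζ * Pd 1 (par l) (ψ (par l)) i)) (par l) := by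
    have b := dB.fun_mul ((dZ.const_mul (2 : ℂ)).fun_mul dA)
    rw [hz] at b
    simp only [mul_zero, zero_mul, zero_add, add_zero] at b
    refine b.congr_of_eventuallyEq (Eventually.of_forall fun c' => ?_)
    dsimp only
    rw [Pd_add, Pd_succ']
    norm_num
  refine ⟨_, mul_ne_zero (mul_ne_zero (pcpt_Pd_ne m hB) (mul_ne_zero (mul_ne_zero two_ne_zero hζ0)
    (pcpt_Pd_ne i hA))) hl, fun l' => ψ (par l'), _, rfl, hψ.comp l (par_deriv l),
    (par_deriv l).hasDerivAt.continuousAt.eventually hfix, dM.comp l (par_deriv l)⟩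

end

/-! The cycle of a periodic point and the local inverse of the multiplier. -/

section

/-- The cycle of a periodic point. -/
theorem pinv_cyc {e : ℕ} (he : 1 ≤ e) {c z : ℂ} {n : ℕ} (hn : 0 < n)
    (hper : Function.minimalPeriod (fq e c) z = n) (h0 : Pd e c z n ≠ 0) (h1 : Pd e c z n ≠ 1) :
    ∃ (Y : Cyc e) (t : ℂ), Y.c = c ∧ Y.B.card = n ∧
      (∀ b ∈ Y.B, Function.minimalPeriod (fq e c) b = n) ∧ Y.ρ = Pd e c z n ∧
      t1055_rs e c z t n = t ∧ Y.S = ∑ j ∈ Finset.range n, t1055_rs e c z t j := by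
  classical
  have hz : (fq e c)^[n] z = z := hper ▸ Function.iterate_minimalPeriod
  have hinj : ∀ i < n, ∀ j < n, (fq e c)^[i] z = (fq e c)^[j] z → i = j := fun i hi j hj h =>
    Function.iterate_injOn_Iio_minimalPeriod (f := fq e c) (x := z) (by rw [hper]; exact hi)
      (by rw [hper]; exact hj) h
  obtain ⟨t, ht⟩ : ∃ t, t1055_rs e c z t n = t := by
    refine ⟨t1055_rs e c z 0 n * Pd e c z n / (Pd e c z n - 1), ?_⟩
    have := sub_ne_zero.2 h1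
    rw [t1055_rs_lin]
    field_simp
    ring
  set B := (Finset.range n).image (fun k => (fq e c)^[k] z) with hB
  have hmem : ∀ k, (fq e c)^[k] z ∈ B := fun k => Finset.mem_image.2
    ⟨k % n, Finset.mem_range.2 (Nat.mod_lt _ hn), hper ▸ Function.iterate_mod_minimalPeriod_eq⟩
  have hrep : ∀ b ∈ B, ∃ k < n, (fq e c)^[k] z = b := fun b hb => by
    obtain ⟨k, hk, h⟩ := Finset.mem_image.1 hb
    exact ⟨k, Finset.mem_range.1 hk, h⟩
  have hinj' : Set.InjOn (fun k => (fq e c)^[k] z) (Finset.range n : Set ℕ) := fun i hi j hj h =>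
    hinj i (by simpa using hi) j (by simpa using hj) h
  have hcard : B.card = n := by rw [hB, Finset.card_image_of_injOn hinj', Finset.card_range]
  have hfix : ∀ b ∈ B, (fq e c)^[n] b = b := fun b hb => by
    obtain ⟨k, -, rfl⟩ := hrep b hb
    rw [← Function.iterate_add_apply, add_comm, Function.iterate_add_apply, hz]
  have hmp : ∀ b ∈ B, Function.minimalPeriod (fq e c) b = n := fun b hb => by
    obtain ⟨k, -, hk⟩ := hrep b hb
    rw [← hk, Function.minimalPeriod_apply_iterate (Function.mk_mem_periodicPts hn hz), hper]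
  set a : ℂ → ℂ := fun b => ∑ k ∈ Finset.range n,
    if (fq e c)^[k] z = b then t1055_rs e c z t k else 0 with ha
  have haz : ∀ k < n, a ((fq e c)^[k] z) = t1055_rs e c z t k := fun k hk => by
    rw [ha]
    dsimp only
    rw [Finset.sum_eq_single_of_mem k (Finset.mem_range.2 hk), if_pos rfl]
    intro j hj hjk
    exact if_neg fun h => hjk (hinj j (Finset.mem_range.1 hj) k hk h)
  have haz' : ∀ k < n, a ((fq e c)^[k + 1] z) = t1055_rs e c z t (k + 1) := fun k hk => by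
    rcases (Nat.succ_le_of_lt hk).lt_or_eq with h | h
    · exact haz _ h
    · have h' : k + 1 = n := h
      rw [h', hz, ht]
      exact haz 0 hn
  refine ⟨⟨c, B, a, Pd e c z n, ⟨_, hmem 0⟩, ?_, ?_, ?_, ?_, ?_, ?_, ?_⟩, t, rfl, hcard, hmp, rfl,
    ht, ?_⟩
  · intro b hb
    obtain ⟨k, -, rfl⟩ := hrep b hb
    rw [← Function.iterate_succ_apply' (fq e c)]
    exact hmem _
  · intro b hb b' hb' h
    obtain ⟨m, hm⟩ : ∃ m, n = m + 1 := ⟨n - 1, by omega⟩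
    rw [← hfix b hb, ← hfix b' hb', hm, Function.iterate_succ_apply, Function.iterate_succ_apply, h]
  · intro b hb
    obtain ⟨k, hk, rfl⟩ := hrep b hb
    exact (t1055_ne0 he h0 hk).1
  · intro b hb
    obtain ⟨k, hk, rfl⟩ := hrep b hb
    rw [← Function.iterate_succ_apply' (fq e c), haz k hk]
    exact haz' k hk
  · rw [hcard]
    exact hfix
  · intro b hb
    obtain ⟨k, hk, rfl⟩ := hrep b hb
    have h2 := Pd_add (e := e) (c := c) z n k
    rw [add_comm, Pd_add, hz, mul_comm] at h2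
    rw [hcard]
    exact (mul_right_cancel₀ (t1055_ne0 he h0 hk).2 h2).symm
  · intro b hb
    have hb' := hfix b hb
    have hmp' := hmp b hb
    obtain ⟨k, -, hk⟩ := hrep b hb
    obtain ⟨m, hm⟩ : ∃ m, n = m + 1 := ⟨n - 1, by omega⟩
    have hback : ∀ i, (fq e c)^[i] ((fq e c)^[m * i] b) = b := fun i => by
      rw [← Function.iterate_add_apply, show i + m * i = n * i by rw [hm]; ring,
        Function.iterate_mul]
      exact Function.iterate_fixed hb' i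
    have hlt : ∀ i j, i < j → j < n → (fq e c)^[m * i] b ≠ (fq e c)^[m * j] b := by
      intro i j hij hj h
      have h2 := hback j
      obtain ⟨r, rfl⟩ : ∃ r, j = r + i := ⟨j - i, by omega⟩
      rw [← h, Function.iterate_add_apply, hback] at h2
      have h3 := Function.IsPeriodicPt.minimalPeriod_le (f := fq e c) (x := b) (n := r)
        (by omega) h2
      omega
    refine ⟨fun i => (fq e c)^[m * i] b, by simp, fun i => ?_, fun i => ?_, ?_⟩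
    · have h2 := hmem (m * i + k)
      rwa [Function.iterate_add_apply, hk] at h2
    · rw [← Function.iterate_succ_apply' (fq e c),
        show (m * (i + 1)).succ = m * i + n by rw [hm, Nat.succ_eq_add_one]; ring,
        Function.iterate_add_apply, hb']
    · rw [hcard]
      intro i hi j hj h
      rcases lt_trichotomy i j with h' | h' | h'
      · exact absurd h (hlt i j h' hj)
      · exact h'
      · exact absurd h.symm (hlt j i h' hi)
  · change ∑ b ∈ B, a b = _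
    rw [hB, Finset.sum_image hinj']
    exact Finset.sum_congr rfl fun k hk => haz k (Finset.mem_range.1 hk)

/-- The cycle of a periodic point and the derivative of its multiplier. -/
theorem cyc_of_per {e : ℕ} (he : 1 ≤ e) {c z : ℂ} {n : ℕ} (hn : 0 < n)
    (hper : Function.minimalPeriod (fq e c) z = n) (h0 : Pd e c z n ≠ 0) (h1 : Pd e c z n ≠ 1) :
    ∃ (Y : Cyc e) (ψ : ℂ → ℂ) (d : ℂ), Y.c = c ∧ Y.B.card = n ∧ Y.ρ = Pd e c z n ∧
      (∀ b ∈ Y.B, Function.minimalPeriod (fq e c) b = n) ∧ ψ c = z ∧ HasStrictDerivAt ψ d c ∧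
      (∀ᶠ c' in 𝓝 c, (fq e c')^[n] (ψ c') = ψ c') ∧
      HasStrictDerivAt (fun c' => Pd e c' (ψ c') n) (Y.ρ * Y.S) c := by
  have hz : (fq e c)^[n] z = z := hper ▸ Function.iterate_minimalPeriod
  obtain ⟨ψ, d, rfl, hψ, hfix⟩ := t1055_follow hz h1
  obtain ⟨Y, t, hc, hcard, hmp, hY, ht, hYS⟩ := pinv_cyc he hn hper h0 h1
  have hne : ∀ j < n, (fq e c)^[j] (ψ c) ≠ 0 := fun j hj => (t1055_ne0 he h0 hj).1
  have hd : t1055_sp e c (ψ c) d n = d :=
    ((t1055_orbit_deriv hψ n).hasDerivAt.congr_of_eventuallyEq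
      (hfix.mono fun _ h => h.symm)).unique hψ.hasDerivAt
  have htel := t1055_tele (e := e) (c := c) (z := ψ c) (t := t) (d := d) n hne
  rw [ht, hd, ← hYS] at htel
  have hμ := t1055_mult_deriv he hψ n hne
  rw [show ∑ j ∈ Finset.range n, e * t1055_sp e c (ψ c) d j / (fq e c)^[j] (ψ c) = Y.S by
    linear_combination htel, ← hY] at hμ
  exact ⟨Y, ψ, d, hc, hcard, hY, hmp, rfl, hψ, hfix, hμ⟩

/-- The same in the plane of the multiplier of the fixed point. -/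
theorem fol_cy {q : ℕ} (hq : 2 ≤ q) {x : ℂ × ℂ} (hx : x ∈ Per q) (h0 : mu q x ≠ 0)
    (h1 : mu q x ≠ 1) (hl : x.1 ≠ 0) : ∃ Y : Cy 1, Y.c = par x.1 ∧ Y.K.card = q ∧ Y.ρ = mu q x ∧
      Y.α = x.1 / 2 ∧ Fol q x (Y.ρ * Y.s / x.1) := by
  obtain ⟨o, ψ, d, hc, hcard, hρ, hmp, hz, hψ, hfix, hμ⟩ :=
    cyc_of_per (e := 1) le_rfl (by omega : 0 < q) hx h0 h1
  have hnot : x.1 / 2 ∉ o.B := fun hb => by
    have h2 := hmp _ hb
    rw [Function.minimalPeriod_eq_one_iff_isFixedPt.2 (par_fix x.1)] at h2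
    omega
  refine ⟨⟨o, x.1 / 2, by rw [hc]; exact par_fix x.1, hnot, div_ne_zero hl two_ne_zero⟩, hc, hcard,
    hρ, rfl, fun l => ψ (par l), _, hz, hψ.comp x.1 (par_deriv x.1),
    (par_deriv x.1).hasDerivAt.continuousAt.eventually hfix, ?_⟩
  refine (hμ.comp x.1 (par_deriv x.1)).congr_deriv ?_
  change o.ρ * o.S * ((1 - x.1) / 2) =
    o.ρ * (o.S * (x.1 / 2 * (1 - lam 1 (x.1 / 2)) / ((1 : ℕ) : ℂ))) / x.1
  rw [lam_half, Nat.cast_one]
  field_simp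

/-- The local inverse of the multiplier. -/
theorem inv_of_fol {q : ℕ} (hq : 0 < q) {r : ℝ} {x : ℂ × ℂ} (hx : x ∈ Per q) (hr : ‖mu q x‖ < r)
    (h1 : mu q x ≠ 1) {D : ℂ} (hD : D ≠ 0) (h : Fol q x D) :
    ∃ ψ, Inv (Ec q r) (mu q) x ψ ∧ HasDerivAt (fun w => (ψ w).1) D⁻¹ (mu q x) := by
  obtain ⟨l₀, z₀⟩ := x
  obtain ⟨ψ, d, hz, hψ, hfix, hμ⟩ := h
  dsimp only at hz hψ hfix hμ
  subst hz
  have hg := hμ.to_localInverse hD
  have hgl := hμ.eventually_left_inverse hD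
  have hgr := hμ.eventually_right_inverse hD
  generalize hμ.localInverse _ _ _ hD = g at hg hgl hgr
  have hgc : g (mu q (l₀, ψ l₀)) = l₀ := hgl.self_of_nhds
  have hψc : ContinuousAt ψ l₀ := hψ.hasDerivAt.continuousAt
  have hpc : ContinuousAt par l₀ := (par_deriv l₀).hasDerivAt.continuousAt
  have hgt : Tendsto g (𝓝 (mu q (l₀, ψ l₀))) (𝓝 l₀) := by
    have h := hg.hasDerivAt.continuousAt.tendsto
    rwa [hgc] at h
  have hsep : ∀ᶠ l in 𝓝 l₀, ∀ k ∈ Finset.Ioo 0 q, (fq 1 (par l))^[k] (ψ l) ≠ ψ l := by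
    refine (Finset.eventually_all _).2 fun k hk => ?_
    have h2 : (fq 1 (par l₀))^[k] (ψ l₀) - ψ l₀ ≠ 0 :=
      sub_ne_zero.2 (((t57_per hq).1 hx).2 k (by simpa using hk))
    have h4 : ContinuousAt (fun l => (fq 1 (par l))^[k] (ψ l) - ψ l) l₀ :=
      ((t57_cont (e := 1) k).continuousAt.comp (f := fun l => (par l, ψ l)) (hpc.prodMk hψc)).sub
        hψc
    exact (h4.eventually_ne h2).mono fun _ h => sub_ne_zero.1 h
  refine ⟨fun w => (g w, ψ (g w)), ⟨?_, ?_, ?_⟩, hg.hasDerivAt⟩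
  · have h2 : ContinuousAt g (mu q (l₀, ψ l₀)) := hg.hasDerivAt.continuousAt
    exact h2.prodMk (ContinuousAt.comp (hgc.symm ▸ hψc) h2)
  · filter_upwards [hgr, hgt.eventually hfix, hgt.eventually hsep,
      (continuous_norm.tendsto _).eventually (gt_mem_nhds hr)] with w h2 h3 h4 h5
    refine ⟨⟨h3, ?_, Or.inr ((t57_per hq).2 ⟨h3, fun k hk => h4 k (by simpa using hk)⟩)⟩, h2⟩
    rw [h2]
    exact h5.le
  · obtain ⟨Q, q1, q2, q3⟩ := t57_div (e := 1) q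
    have hf : Tendsto (Prod.fst : ℂ × ℂ → ℂ) (𝓝 (l₀, ψ l₀)) (𝓝 l₀) := continuous_fst.tendsto _
    have hQ : ContinuousAt (fun y : ℂ × ℂ => Q (par y.1, y.2, ψ y.1)) (l₀, ψ l₀) :=
      q1.continuousAt.comp (f := fun y : ℂ × ℂ => (par y.1, y.2, ψ y.1))
        ((ContinuousAt.comp (f := Prod.fst) (x := (l₀, ψ l₀)) hpc continuousAt_fst).prodMk
          (continuousAt_snd.prodMk
            (ContinuousAt.comp (f := Prod.fst) (x := (l₀, ψ l₀)) hψc continuousAt_fst)))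
    have hQ1 : Q (par l₀, ψ l₀, ψ l₀) ≠ 1 := by
      rw [q3]
      exact h1
    filter_upwards [hf.eventually hfix, hf.eventually hgl, hQ.eventually_ne hQ1] with y h2 h3 h4 hy
    obtain ⟨l, z⟩ := y
    have h5 := q2 (par l) z (ψ l)
    rw [h2, hy.1] at h5
    obtain rfl : ψ l = z := sub_eq_zero.1 ((mul_left_eq_self₀.1 h5.symm).resolve_left h4)
    dsimp only at h3 ⊢
    rw [h3]

/-- Sections are locally given by the local inverse. -/
theorem Sec.eq_inv {E : Set (ℂ × ℂ)} {μ : ℂ × ℂ → ℂ} {V : Set ℂ} {σ ψ : ℂ → ℂ × ℂ}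
    (hσ : Sec E μ V σ) (hV : IsOpen V) {w : ℂ} (hw : w ∈ V) (hψ : Inv E μ (σ w) ψ) :
    σ =ᶠ[𝓝 w] ψ := by
  filter_upwards [hV.mem_nhds hw,
    (hσ.1.continuousAt (hV.mem_nhds hw)).eventually hψ.2.2] with v hv h
  have h2 := h (hσ.2 v hv).1
  rw [(hσ.2 v hv).2] at h2
  exact h2.symm

/-- From the plane of `l` to the plane of `c`. -/
theorem transfer {X O C : Set (ℂ × ℂ)} (hX : IsPreconnected X) (hO : IsOpen O) (hC : IsClosed C)
    {x₀ : ℂ × ℂ} (h0 : x₀ ∈ O) (h1 : (par x₀.1, x₀.2) ∈ closure X)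
    (h : ∀ x : ℂ × ℂ, (par x.1, x.2) ∈ X → (x ∈ O ↔ x ∈ C)) :
    ∀ y ∈ X, ∃ x ∈ O, (par x.1, x.2) = y := by
  obtain ⟨p, hp, hd⟩ : ∃ p : ℂ[X], p.eval = par ∧ p.natDegree ≠ 0 := by
    refine ⟨Polynomial.C (1 / 2) * Polynomial.X - Polynomial.C (1 / 4) * Polynomial.X ^ 2, ?_,
      fun h => ?_⟩
    · funext l
      simp only [par, eval_sub, eval_mul, eval_C, eval_X, eval_pow]
      ring
    · have h2 := coeff_eq_zero_of_natDegree_lt (n := 1) (h.trans_lt one_pos)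
      simp [coeff_X_pow] at h2
  have ho : IsOpenMap (Prod.map par id : ℂ × ℂ → ℂ × ℂ) :=
    (hp ▸ (p.isOpenQuotientMap_eval hd).isOpenMap).prodMap IsOpenMap.id
  have hc : IsClosedMap (Prod.map par id : ℂ × ℂ → ℂ × ℂ) :=
    ((hp ▸ p.isProperMap_eval (natDegree_pos_iff_degree_pos.1 (Nat.pos_of_ne_zero hd))).prodMap
      isProperMap_id).isClosedMap
  have hco : ∀ y ∈ X, y ∈ Prod.map par id '' C → y ∈ Prod.map par id '' O := by
    rintro _ hy ⟨x, hx, rfl⟩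
    exact ⟨x, (h x hy).2 hx, rfl⟩
  intro y hy
  by_contra hno
  obtain ⟨u, hu, hu'⟩ := mem_closure_iff.1 h1 _ (ho O hO) ⟨x₀, h0, rfl⟩
  obtain ⟨_, hv, ⟨x, hx, rfl⟩, hv'⟩ := hX _ _ (ho O hO) (hc C hC).isOpen_compl
    (fun v hv => (em (v ∈ Prod.map par id '' C)).imp (hco v hv) id) ⟨u, hu', hu⟩
    ⟨y, hy, fun hh => hno (hco y hy hh)⟩
  exact hv' ⟨x, (h x hv).1 hx, rfl⟩

end

/-! The multiplier near the root. -/

section

/-- The `k`-th iterate of `u ↦ l * u + u ^ 2`, divided by `u`. -/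
noncomputable def proot_h (l : ℂ) : ℕ → ℂ[X]
  | 0 => 1
  | k + 1 => proot_h l k * (C l + X * proot_h l k)

theorem proot_iter (l u : ℂ) (k : ℕ) :
    (fq 1 (par l))^[k] (l / 2 + u) = l / 2 + u * (proot_h l k).eval u := by
  induction k with
  | zero => simp [proot_h]
  | succ k ih =>
    rw [Function.iterate_succ_apply', ih]
    simp only [proot_h, fq, par, eval_mul, eval_add, eval_C, eval_X]
    ring

theorem proot_zero (l : ℂ) (k : ℕ) : (proot_h l k).eval 0 = l ^ k := by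
  induction k with
  | zero => simp [proot_h]
  | succ k ih => simp [proot_h, ih, pow_succ]

theorem proot_mu (l u : ℂ) (k : ℕ) : mu k (l, l / 2 + u) =
    (proot_h l k).eval u + u * (derivative (proot_h l k)).eval u := by
  have h1 := (iter_deriv (e := 1) (c := par l) k (l / 2 + u)).comp u
    ((hasDerivAt_id u).const_add (l / 2))
  have h2 := ((hasDerivAt_id u).fun_mul ((proot_h l k).hasDerivAt u)).const_add (l / 2)
  have h3 : ((fq 1 (par l))^[k] ∘ HAdd.hAdd (l / 2)) =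
      fun v => l / 2 + id v * (proot_h l k).eval v := funext fun v => proot_iter l v k
  rw [h3] at h1
  have := h1.unique h2
  simpa [mu] using this

theorem proot_K (l₀ : ℂ) (k : ℕ) : ∃ K K' : ℂ × ℂ → ℂ, Continuous K ∧ Continuous K' ∧
    K (l₀, 0) * l₀ = k * l₀ ^ k ∧ ∀ x : ℂ × ℂ,
      (proot_h x.1 k).eval x.2 = (proot_h l₀ k).eval x.2 + (x.1 - l₀) * K x ∧
      (derivative (proot_h x.1 k)).eval x.2 =
        (derivative (proot_h l₀ k)).eval x.2 + (x.1 - l₀) * K' x := by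
  induction k with
  | zero => exact ⟨0, 0, continuous_zero, continuous_zero, by simp, fun x => by simp [proot_h]⟩
  | succ k ih =>
    obtain ⟨K, K', hK, hK', h0, h⟩ := ih
    have ha : Continuous fun x : ℂ × ℂ => (proot_h l₀ k).eval x.2 :=
      (proot_h l₀ k).continuous.comp continuous_snd
    have ha' : Continuous fun x : ℂ × ℂ => (derivative (proot_h l₀ k)).eval x.2 :=
      (derivative (proot_h l₀ k)).continuous.comp continuous_snd
    refine ⟨fun x => K x * (x.1 + x.2 * ((proot_h l₀ k).eval x.2 + (x.1 - l₀) * K x)) +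
        (proot_h l₀ k).eval x.2 * (1 + x.2 * K x),
      fun x => K' x * (x.1 + x.2 * ((proot_h l₀ k).eval x.2 + (x.1 - l₀) * K x)) +
        (derivative (proot_h l₀ k)).eval x.2 * (1 + x.2 * K x) +
        K x * ((proot_h l₀ k).eval x.2 + (x.1 - l₀) * K x +
          x.2 * ((derivative (proot_h l₀ k)).eval x.2 + (x.1 - l₀) * K' x)) +
        (proot_h l₀ k).eval x.2 * (K x + x.2 * K' x), by fun_prop, by fun_prop, ?_, fun x => ?_⟩
    · simp only [proot_zero]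
      push_cast
      linear_combination l₀ * h0
    · simp only [proot_h, derivative_mul, derivative_add, derivative_C, derivative_X, eval_mul,
        eval_add, eval_C, eval_X, eval_zero, eval_one, (h x).1, (h x).2]
      constructor <;> ring

theorem proot_order {q : ℕ} (hq : 0 < q) {l₀ : ℂ} (hl : IsPrimitiveRoot l₀ q) :
    ∃ (m : ℕ) (B : ℂ[X]), q ≤ m + 1 ∧ B.eval 0 ≠ 0 ∧ proot_h l₀ q = 1 + X ^ (m + 1) * B := by
  have hl0 : l₀ ≠ 0 := hl.ne_zero hq.ne'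
  have hne : proot_h l₀ q - 1 ≠ 0 := fun h => by
    refine Set.infinite_univ ((t1323_roots (e := 1) le_rfl hq (par l₀)).subset fun w _ => ?_)
    have := proot_iter l₀ (w - l₀ / 2) q
    rw [sub_eq_zero.1 h, eval_one, mul_one, add_sub_cancel] at this
    exact this
  obtain ⟨B, hB, hnd⟩ := exists_eq_pow_rootMultiplicity_mul_and_not_dvd _ hne 0
  generalize rootMultiplicity 0 (proot_h l₀ q - 1) = ν at hB
  rw [dvd_iff_isRoot] at hnd
  rw [C_0, sub_zero, sub_eq_iff_eq_add'] at hB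
  have hB0 : B.eval 0 ≠ 0 := hnd
  obtain rfl | ⟨m, rfl⟩ := ν.eq_zero_or_eq_succ_pred.imp_right fun h => (⟨_, h⟩ : ∃ m, ν = m + 1)
  · have := proot_zero l₀ q
    rw [hB, hl.pow_eq_one] at this
    simp [hB0] at this
  refine ⟨m, B, Nat.le_of_dvd m.succ_pos (hl.dvd_of_pow_eq_one _ ?_), hB0, hB⟩
  have hc := B.continuous
  have key : (fun u : ℂ => (l₀ + u) ^ (m + 2) * B.eval (u * (l₀ + u))) =
      fun u => B.eval u * (l₀ + 2 * u + u ^ (m + 2) * B.eval u) := by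
    refine Continuous.ext_on (dense_compl_singleton 0) (by fun_prop) (by fun_prop) fun u hu => ?_
    have h1 := proot_iter l₀ (u * (l₀ + u)) q
    have h2 : l₀ / 2 + u * (l₀ + u) = fq 1 (par l₀) (l₀ / 2 + u) := by
      simp only [fq, par]
      ring
    rw [h2, ← Function.iterate_succ_apply, Function.iterate_succ_apply', proot_iter, hB] at h1
    simp only [fq, par, eval_add, eval_mul, eval_pow, eval_X, eval_one, mul_pow] at h1
    refine mul_left_cancel₀ (pow_ne_zero (m + 2) (show u ≠ 0 from hu)) ?_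
    linear_combination -h1
  have h0 := congrFun key 0
  simp only [add_zero, zero_mul, mul_zero, zero_pow (show m + 2 ≠ 0 by omega)] at h0
  refine mul_left_cancel₀ (mul_ne_zero hB0 hl0) ?_
  linear_combination h0

/-- Near the root the cycle multiplier `ρ` satisfies `ρ - 1 ≈ -ν (l ^ q - 1)` with `ν ≥ q`. -/
theorem root_asym {q : ℕ} (hq : 0 < q) {l₀ : ℂ} (hl : IsPrimitiveRoot l₀ q) :
    ∀ᶠ x : ℂ × ℂ in 𝓝 (l₀, l₀ / 2), (fq 1 (par x.1))^[q] x.2 = x.2 → x.2 ≠ x.1 / 2 →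
      ‖q * (x.1 ^ q - 1)‖ ≤ 9 / 8 * ‖mu q x - 1‖ := by
  obtain ⟨m, B, hm, hB0, hB⟩ := proot_order hq hl
  obtain ⟨K, K', hK, hK', h0, h⟩ := proot_K l₀ q
  have hl0 : l₀ ≠ 0 := hl.ne_zero hq.ne'
  have hK0 : K (l₀, 0) ≠ 0 := fun hk => by
    rw [hk, zero_mul, hl.pow_eq_one, mul_one] at h0
    exact hq.ne' (Nat.cast_eq_zero.1 h0.symm)
  have hc := B.continuous
  have hc' := (derivative B).continuous
  let T : ℂ × ℂ → ℂ := fun y =>
    K y * ((m + 1 : ℕ) * B.eval y.2 + y.2 * (derivative B).eval y.2) - y.2 * K' y * B.eval y.2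
  have hT : Continuous T := by fun_prop
  have e1 : ∀ᶠ y : ℂ × ℂ in 𝓝 (l₀, 0), B.eval y.2 ≠ 0 :=
    (hc.comp continuous_snd).continuousAt.eventually_ne hB0
  have e2 : ∀ᶠ y : ℂ × ℂ in 𝓝 (l₀, 0), q * (‖K (y.1, 0)‖ * ‖B.eval y.2‖) < 9 / 8 * ‖T y‖ := by
    refine ContinuousAt.eventually_lt (by fun_prop) (by fun_prop) ?_
    have hp : 0 < ‖K (l₀, 0)‖ * ‖B.eval 0‖ := by positivity
    have hq' : (q : ℝ) ≤ (m + 1 : ℕ) := by exact_mod_cast hm
    have hm' : (0 : ℝ) < (m + 1 : ℕ) := by positivity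
    simp only [T, zero_mul, add_zero, sub_zero, norm_mul, Complex.norm_natCast]
    nlinarith [mul_le_mul_of_nonneg_right hq' hp.le, mul_pos hm' hp]
  have hφ : Tendsto (fun x : ℂ × ℂ => (x.1, x.2 - x.1 / 2)) (𝓝 (l₀, l₀ / 2)) (𝓝 (l₀, 0)) :=
    Continuous.tendsto' (by fun_prop) _ _ (by simp)
  filter_upwards [hφ.eventually e1, hφ.eventually e2] with x a1 a2 hfix hne
  obtain ⟨l, z⟩ := x
  obtain ⟨u, rfl⟩ : ∃ u, z = l / 2 + u := ⟨z - l / 2, by ring⟩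
  simp only [add_sub_cancel_left] at a1 a2 hfix hne ⊢
  have hu : u ≠ 0 := fun h => hne (by rw [h, add_zero])
  rw [proot_iter, add_right_inj] at hfix
  have hF : (proot_h l q).eval u = 1 := mul_left_cancel₀ hu (by rw [hfix, mul_one])
  have b1 := (h (l, u)).1
  have b2 := (h (l, u)).2
  have b3 := (h (l, 0)).1
  simp only [proot_zero, hl.pow_eq_one] at b3
  simp only [hF, hB, derivative_add, derivative_one, derivative_mul, derivative_X_pow, eval_add,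
    eval_mul, eval_pow, eval_X, eval_one, eval_C, eval_zero, Nat.add_sub_cancel] at b1 b2
  have b4 : (mu q (l, l / 2 + u) - 1) * B.eval u = -((l - l₀) * T (l, u)) := by
    rw [proot_mu, hF, b2]
    simp only [T]
    linear_combination
      -(((m + 1 : ℕ) : ℂ) * B.eval u + u * (derivative B).eval u) * b1
  have b5 : ‖mu q (l, l / 2 + u) - 1‖ * ‖B.eval u‖ = ‖l - l₀‖ * ‖T (l, u)‖ := by
    rw [← norm_mul, b4, norm_neg, norm_mul]
  have hp : 0 < ‖B.eval u‖ := norm_pos_iff.2 a1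
  refine le_of_mul_le_mul_right ?_ hp
  rw [mul_assoc, b5, b3, add_sub_cancel_left, norm_mul, norm_mul, Complex.norm_natCast]
  nlinarith [mul_le_mul_of_nonneg_left a2.le (norm_nonneg (l - l₀))]

theorem root_mem {q : ℕ} {l₀ : ℂ} (hl : l₀ ^ q = 1) {r : ℝ} (hr : 1 ≤ r) :
    (l₀, l₀ / 2) ∈ Ec q r ∧ mu q (l₀, l₀ / 2) = 1 := by
  have h1 := proot_mu l₀ 0 q
  have h2 := proot_iter l₀ 0 q
  rw [add_zero, zero_mul, add_zero] at h1 h2
  rw [proot_zero, hl] at h1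
  exact ⟨⟨h2, by rw [h1, norm_one]; exact hr, .inl h1⟩, h1⟩

end

/-! Sections of a covering of a punctured disc and their limits at the puncture. -/

section

theorem Hd_open (r : ℝ) (u : ℂ) : IsOpen (Hd r u) :=
  (isOpen_lt continuous_norm continuous_const).inter (isOpen_lt continuous_const
    (Complex.continuous_re.comp ((continuous_id.sub continuous_const).mul continuous_const)))

theorem Hd_convex (r : ℝ) (u : ℂ) : Convex ℝ (Hd r u) := by
  intro x hx y hy a b ha hb hab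
  refine ⟨mem_ball_zero_iff.1 (convex_ball (0 : ℂ) r (mem_ball_zero_iff.2 hx.1)
    (mem_ball_zero_iff.2 hy.1) ha hb hab), ?_⟩
  have e : (a • x + b • y - 1) * starRingEnd ℂ u =
      a • ((x - 1) * starRingEnd ℂ u) + b • ((y - 1) * starRingEnd ℂ u) := by
    have h1 : (a : ℂ) + b = 1 := by exact_mod_cast hab
    simp only [Complex.real_smul]
    linear_combination (starRingEnd ℂ u) * h1
  rw [e]
  exact convex_halfSpace_re_gt 0 hx.2 hy.2 ha hb hab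

theorem Hd_self {r : ℝ} {w : ℂ} (h : ‖w‖ < r) (h1 : w ≠ 1) : w ∈ Hd r (w - 1) := by
  refine ⟨h, ?_⟩
  rw [Complex.mul_conj, Complex.ofReal_re]
  exact Complex.normSq_pos.2 (sub_ne_zero.2 h1)

/-- The segment towards `1` stays in the set. -/
theorem Hd_seg {r : ℝ} (hr : 1 < r) {u v : ℂ} (h : 1 + v ∈ Hd r u) {t : ℝ} (ht : t ∈ Ioc (0 : ℝ) 1) :
    1 + t * v ∈ Hd r u := by
  constructor
  · have h1 := convex_ball (0 : ℂ) r (x := 1) (by simpa using hr) (mem_ball_zero_iff.2 h.1)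
      (sub_nonneg.2 ht.2) ht.1.le (sub_add_cancel 1 t)
    have e : (1 - t) • (1 : ℂ) + t • (1 + v) = 1 + t * v := by
      simp only [Complex.real_smul]
      push_cast
      ring
    rw [e] at h1
    exact mem_ball_zero_iff.1 h1
  · have h2 := h.2
    rw [add_sub_cancel_left] at h2 ⊢
    rw [mul_assoc, Complex.re_ofReal_mul]
    exact mul_pos ht.1 h2

theorem ptop_ne {r : ℝ} {u w : ℂ} (h : w ∈ Hd r u) : w ≠ 1 := by
  rintro rfl
  simpa using h.2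

theorem ptop_nhds {E : Set (ℂ × ℂ)} {μ : ℂ × ℂ → ℂ} {y : E} {ψ : ℂ → ℂ × ℂ} (h : Inv E μ y ψ) :
    𝓝 (μ y) ≤ map (fun z : E => μ z) (𝓝 y) := by
  refine le_map fun S hS => ?_
  obtain ⟨T, hT, hTS⟩ := (mem_nhds_subtype E y S).1 hS
  have h0 : ψ (μ y) = y := h.2.2.self_of_nhds y.2
  have h1 : ∀ᶠ w in 𝓝 (μ y), ψ w ∈ T := h.1.eventually (by rw [h0]; exact hT)
  filter_upwards [h1, h.2.1] with w hw hw'
  exact ⟨⟨ψ w, hw'.1⟩, hTS hw, hw'.2⟩

theorem sec_exists {E : Set (ℂ × ℂ)} (hE : IsCompact E) {μ : ℂ × ℂ → ℂ} (hμ : Continuous μ)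
    {V : Set ℂ} (hV : IsOpen V) (hc : Convex ℝ V)
    (h : ∀ x ∈ E, μ x ∈ V → ∃ ψ, Inv E μ x ψ) {x : ℂ × ℂ} (hx : x ∈ E) (hxV : μ x ∈ V) :
    ∃ σ, Sec E μ V σ ∧ σ (μ x) = x := by
  classical
  have : CompactSpace E := isCompact_iff_compactSpace.1 hE
  have hp : Continuous fun z : E => μ z := hμ.comp continuous_subtype_val
  have hl : IsLocalHomeomorphOn (fun z : E => μ z) ((fun z : E => μ z) ⁻¹' V) := by
    refine (isLocalHomeomorphOn_iff_isOpenEmbedding_restrict _).2 fun y hy => ?_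
    obtain ⟨ψ, hψ⟩ := h y y.2 hy
    have h1 : ∀ᶠ z : E in 𝓝 y, μ z ∈ V ∧ ψ (μ z) = z := by
      filter_upwards [hp.continuousAt.eventually (hV.mem_nhds hy),
        continuous_subtype_val.continuousAt.eventually hψ.2.2] with z h2 h3
      exact ⟨h2, h3 z.2⟩
    obtain ⟨U, hU, hUo, hyU⟩ := _root_.eventually_nhds_iff.1 h1
    refine ⟨U, hUo.mem_nhds hyU, .of_continuous_injective_isOpenMap
      (hp.comp continuous_subtype_val) (fun a b hab => ?_) (.of_nhds_le fun z => ?_)⟩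
    · have h2 : μ a = μ b := hab
      exact Subtype.ext (Subtype.ext (by rw [← (hU a a.2).2, h2, (hU b b.2).2]))
    · obtain ⟨φ, hφ⟩ := h z z.1.2 (hU z z.2).1
      refine (ptop_nhds hφ).trans ?_
      rw [← hUo.isOpenEmbedding_subtypeVal.map_nhds_eq, map_map]
      exact le_rfl
  have := hc.contractibleSpace ⟨_, hxV⟩
  have := hV.locallyPathConnectedSpace
  obtain ⟨F, ⟨h1, h2⟩, -⟩ := (IsCoveringMapOn.of_isLocalHomeomorphOn hp hl
    ).existsUnique_continuousMap_lifts (A := V) ⟨Subtype.val, continuous_subtype_val⟩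
      (a₀ := ⟨μ x, hxV⟩) (e₀ := ⟨x, hx⟩) rfl fun a => a.2
  refine ⟨fun w => if hw : w ∈ V then (F ⟨w, hw⟩).1 else x, ⟨?_, fun w hw => ?_⟩, ?_⟩
  · rw [continuousOn_iff_continuous_domRestrict]
    refine (continuous_subtype_val.comp F.continuous).congr fun w => ?_
    change (F w).1 = if hw : w.1 ∈ V then (F ⟨w.1, hw⟩).1 else x
    rw [dif_pos w.2]
  · simp only [dif_pos hw]
    exact ⟨(F ⟨w, hw⟩).2, congrFun h2 ⟨w, hw⟩⟩
  · simp only [dif_pos hxV, h1]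

/-- a locally constant property is constant on a connected set -/
theorem ptop_const {W : Set ℂ} (hW : IsPreconnected W) {Q : ℂ → Prop}
    (h : ∀ w ∈ W, ∀ᶠ w' in 𝓝[W] w, (Q w ↔ Q w')) {w w' : ℂ} (hw : w ∈ W) (hw' : w' ∈ W)
    (hQ : Q w) : Q w' :=
  (hW.induction₂ (fun a b => Q a ↔ Q b) h (fun _ _ _ _ _ _ h1 h2 => h1.trans h2)
    (fun _ _ _ _ h1 => h1.symm) hw hw').1 hQ

section
variable {E : Set (ℂ × ℂ)} {μ : ℂ × ℂ → ℂ} {r : ℝ}

theorem ptop_mono {V W : Set ℂ} {σ : ℂ → ℂ × ℂ} (h : Sec E μ V σ) (hW : W ⊆ V) : Sec E μ W σ :=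
  ⟨h.1.mono hW, fun w hw => h.2 w (hW hw)⟩

/-- near a point a section is the local inverse -/
theorem ptop_loc {W : Set ℂ} {σ ψ : ℂ → ℂ × ℂ} (h : Sec E μ W σ) {w : ℂ} (hw : w ∈ W)
    (hψ : Inv E μ (σ w) ψ) : ∀ᶠ w' in 𝓝[W] w, σ w' = ψ w' := by
  filter_upwards [(h.1 w hw).eventually hψ.2.2, self_mem_nhdsWithin] with w' h1 h2
  rw [← h1 (h.2 w' h2).1, (h.2 w' h2).2]

theorem ptop_uniq {W : Set ℂ} (hW : IsPreconnected W)
    (h : ∀ x ∈ E, μ x ∈ W → ∃ ψ, Inv E μ x ψ) {σ σ' : ℂ → ℂ × ℂ} (h1 : Sec E μ W σ)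
    (h2 : Sec E μ W σ') {w w' : ℂ} (hw : w ∈ W) (hw' : w' ∈ W) (he : σ w = σ' w) :
    σ w' = σ' w' := by
  refine ptop_const hW (Q := fun w => σ w = σ' w) (fun a ha => ?_) hw hw' he
  by_cases hq : σ a = σ' a
  · obtain ⟨ψ, hψ⟩ := h _ (h1.2 a ha).1 (by rw [(h1.2 a ha).2]; exact ha)
    filter_upwards [ptop_loc h1 ha hψ, ptop_loc h2 ha (hq ▸ hψ)] with b h3 h4
    exact iff_of_true hq (h3.trans h4.symm)
  · filter_upwards [((h1.1 a ha).sub (h2.1 a ha)).eventually_ne (sub_ne_zero.2 hq)] with b h3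
    exact iff_of_false hq (sub_ne_zero.1 h3)

theorem ptop_gap (hE : IsCompact E) (hμ : Continuous μ) {ε : ℝ} (hε : 0 < ε) :
    ∃ m > 0, ∀ x ∈ E, ‖μ x - 1‖ < m → ∃ z ∈ E, μ z = 1 ∧ dist x z < ε := by
  have hK : IsCompact (E \ ⋃ z ∈ {x ∈ E | μ x = 1}, ball z ε) :=
    hE.diff (isOpen_biUnion fun _ _ => isOpen_ball)
  obtain ⟨m, hm, h⟩ := hK.exists_forall_le' (f := fun x => ‖μ x - 1‖) (a := 0)
    (hμ.sub continuous_const).norm.continuousOn fun x hx => norm_pos_iff.2 fun h0 =>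
      hx.2 (mem_biUnion (show x ∈ {x ∈ E | μ x = 1} from ⟨hx.1, sub_eq_zero.1 h0⟩)
        (mem_ball_self hε))
  refine ⟨m, hm, fun x hx hxm => ?_⟩
  by_contra hc
  refine (h x ⟨hx, fun hx' => hc ?_⟩).not_gt hxm
  obtain ⟨z, hz, hxz⟩ := mem_iUnion₂.1 hx'
  exact ⟨z, hz.1, hz.2, hxz⟩

theorem ptop_sep {Z : Set (ℂ × ℂ)} (hf : Z.Finite) :
    ∃ ε > 0, ∀ z ∈ Z, ∀ z' ∈ Z, ∀ x, dist x z < ε → dist x z' < ε → z = z' := by
  have hK : IsCompact {p ∈ Z ×ˢ Z | p.1 ≠ p.2} :=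
    ((hf.prod hf).subset (sep_subset _ _)).isCompact
  obtain ⟨m, hm, h⟩ := hK.exists_forall_le' (f := fun p => dist p.1 p.2) (a := 0)
    continuous_dist.continuousOn fun p hp => dist_pos.2 hp.2
  refine ⟨m / 2, half_pos hm, fun z hz z' hz' x h1 h2 => ?_⟩
  by_contra hc
  have h3 : m ≤ dist z z' := h (z, z') ⟨⟨hz, hz'⟩, hc⟩
  linarith [dist_triangle_left z z' x]

/-- the segment from `1 + v` to `1` -/
theorem ptop_path (hr : 1 < r) {u v : ℂ} (h : 1 + v ∈ Hd r u) :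
    Tendsto (fun t : ℝ => 1 + (t : ℂ) * v) (𝓝[>] 0) (𝓝[Hd r u] 1) := by
  refine tendsto_nhdsWithin_iff.2 ⟨?_, ?_⟩
  · have hc : Continuous fun t : ℝ => 1 + (t : ℂ) * v :=
      continuous_const.add (Complex.continuous_ofReal.mul continuous_const)
    exact (hc.tendsto' 0 1 (by simp)).mono_left nhdsWithin_le_nhds
  · filter_upwards [Ioc_mem_nhdsGT one_pos] with t ht
    exact Hd_seg hr h ht

theorem ptop_tend (hE : IsCompact E) (hμ : Continuous μ) {ε m : ℝ} (hm : 0 < m)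
    (hsep : ∀ z ∈ {x ∈ E | μ x = 1}, ∀ z' ∈ {x ∈ E | μ x = 1}, ∀ x, dist x z < ε →
      dist x z' < ε → z = z')
    (hgap : ∀ x ∈ E, ‖μ x - 1‖ < m → ∃ z ∈ E, μ z = 1 ∧ dist x z < ε) {u w : ℂ}
    {σ : ℂ → ℂ × ℂ} (hσ : Sec E μ (Hd r u) σ) (hw : w ∈ Hd r u) (hwm : ‖w - 1‖ < m)
    {z : ℂ × ℂ} (hz : z ∈ E) (hz1 : μ z = 1) (hwz : dist (σ w) z < ε) :
    Tendsto σ (𝓝[Hd r u] 1) (𝓝 z) := by
  have h1 : ∀ w' ∈ Hd r u ∩ ball 1 m, dist (σ w') z < ε := by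
    intro w' hw'
    refine ptop_const ((Hd_convex r u).inter (convex_ball 1 m)).isPreconnected
      (Q := fun w => dist (σ w) z < ε) (fun a ha => ?_) ⟨hw, mem_ball_iff_norm.2 hwm⟩ hw' hwz
    obtain ⟨z', hz', hz1', ha'⟩ := hgap _ (hσ.2 a ha.1).1
      (by rw [(hσ.2 a ha.1).2]; exact mem_ball_iff_norm.1 ha.2)
    filter_upwards [((hσ.1 a ha.1).mono inter_subset_left).eventually
      (isOpen_ball.mem_nhds (mem_ball.2 ha'))] with b hb
    constructor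
    · intro h2
      rw [hsep z ⟨hz, hz1⟩ z' ⟨hz', hz1'⟩ _ h2 ha']
      exact hb
    · intro h2
      rw [hsep z ⟨hz, hz1⟩ z' ⟨hz', hz1'⟩ _ h2 hb]
      exact ha'
  have hε : 0 < ε := dist_nonneg.trans_lt hwz
  refine Metric.tendsto_nhds.2 fun δ hδ => ?_
  obtain ⟨m', hm', h2⟩ := ptop_gap hE hμ (lt_min hε hδ)
  filter_upwards [self_mem_nhdsWithin, mem_nhdsWithin_of_mem_nhds (ball_mem_nhds (1 : ℂ) hm),
    mem_nhdsWithin_of_mem_nhds (ball_mem_nhds (1 : ℂ) hm')] with a ha ha1 ha2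
  obtain ⟨z', hz', hz1', ha'⟩ := h2 _ (hσ.2 a ha).1
    (by rw [(hσ.2 a ha).2]; exact mem_ball_iff_norm.1 ha2)
  rw [hsep z ⟨hz, hz1⟩ z' ⟨hz', hz1'⟩ _ (h1 a ⟨ha, ha1⟩) (ha'.trans_le (min_le_left _ _))]
  exact ha'.trans_le (min_le_right _ _)

theorem ptop_exists_end (hE : IsCompact E) (hμ : Continuous μ) (hr : 1 < r)
    (hf : {x ∈ E | μ x = 1}.Finite) {u w : ℂ} {σ : ℂ → ℂ × ℂ} (hσ : Sec E μ (Hd r u) σ)
    (hw : w ∈ Hd r u) : ∃ z, Tendsto σ (𝓝[Hd r u] 1) (𝓝 z) := by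
  obtain ⟨ε, hε, hsep⟩ := ptop_sep hf
  obtain ⟨m, hm, hgap⟩ := ptop_gap hE hμ hε
  have hp := ptop_path hr (u := u) (v := w - 1) (by rwa [add_sub_cancel])
  obtain ⟨t, h1, h2⟩ := ((hp.eventually self_mem_nhdsWithin).and (hp.eventually
    (mem_nhdsWithin_of_mem_nhds (ball_mem_nhds (1 : ℂ) hm)))).exists
  have h3 := mem_ball_iff_norm.1 h2
  obtain ⟨z, hz, hz1, h4⟩ := hgap _ (hσ.2 _ h1).1 (by rw [(hσ.2 _ h1).2]; exact h3)
  exact ⟨z, ptop_tend hE hμ hm hsep hgap hσ h1 h3 hz hz1 h4⟩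

theorem ptop_indep (hr : 1 < r) (h : ∀ x ∈ E, ‖μ x‖ < r → μ x ≠ 1 → ∃ ψ, Inv E μ x ψ)
    {u u' w : ℂ} {σ σ' : ℂ → ℂ × ℂ} (hσ : Sec E μ (Hd r u) σ) (hσ' : Sec E μ (Hd r u') σ')
    (hw : w ∈ Hd r u) (hw' : w ∈ Hd r u') (he : σ w = σ' w) {z z' : ℂ × ℂ}
    (hz : Tendsto σ (𝓝[Hd r u] 1) (𝓝 z)) (hz' : Tendsto σ' (𝓝[Hd r u'] 1) (𝓝 z')) : z = z' := by
  have hp := ptop_path hr (u := u) (v := w - 1) (by rwa [add_sub_cancel])
  have hp' := ptop_path hr (u := u') (v := w - 1) (by rwa [add_sub_cancel])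
  refine tendsto_nhds_unique_of_eventuallyEq (hz.comp hp) (hz'.comp hp') ?_
  filter_upwards [hp.eventually self_mem_nhdsWithin, hp'.eventually self_mem_nhdsWithin]
    with t h1 h2
  exact ptop_uniq ((Hd_convex r u).inter (Hd_convex r u')).isPreconnected
    (fun x hx hx' => h x hx hx'.1.1 (ptop_ne hx'.1)) (ptop_mono hσ inter_subset_left)
    (ptop_mono hσ' inter_subset_right) ⟨hw, hw'⟩ ⟨h1, h2⟩ he

/-- the sections through `x` end at `z` -/
def PEnd (E : Set (ℂ × ℂ)) (μ : ℂ × ℂ → ℂ) (r : ℝ) (x z : ℂ × ℂ) : Prop :=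
  x ∈ E ∧ ‖μ x‖ < r ∧ μ x ≠ 1 ∧ ∀ u, μ x ∈ Hd r u →
    ∃ σ, Sec E μ (Hd r u) σ ∧ σ (μ x) = x ∧ Tendsto σ (𝓝[Hd r u] 1) (𝓝 z)

theorem ptop_end_uniq (hr : 1 < r) (h : ∀ x ∈ E, ‖μ x‖ < r → μ x ≠ 1 → ∃ ψ, Inv E μ x ψ)
    {x z z' : ℂ × ℂ} (h1 : PEnd E μ r x z) (h2 : PEnd E μ r x z') : z = z' := by
  have hu := Hd_self h1.2.1 h1.2.2.1
  obtain ⟨σ, a1, a2, a3⟩ := h1.2.2.2 _ hu
  obtain ⟨σ', b1, b2, b3⟩ := h2.2.2.2 _ hu
  exact ptop_indep hr h a1 b1 hu hu (a2.trans b2.symm) a3 b3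

theorem ptop_sec (hE : IsCompact E) (hμ : Continuous μ)
    (h : ∀ x ∈ E, ‖μ x‖ < r → μ x ≠ 1 → ∃ ψ, Inv E μ x ψ) {x : ℂ × ℂ} (hx : x ∈ E) {u : ℂ}
    (hu : μ x ∈ Hd r u) : ∃ σ, Sec E μ (Hd r u) σ ∧ σ (μ x) = x :=
  sec_exists hE hμ (Hd_open r u) (Hd_convex r u)
    (fun y hy hy' => h y hy hy'.1 (ptop_ne hy')) hx hu

theorem ptop_end_of (hE : IsCompact E) (hμ : Continuous μ) (hr : 1 < r)
    (h : ∀ x ∈ E, ‖μ x‖ < r → μ x ≠ 1 → ∃ ψ, Inv E μ x ψ) (hf : {x ∈ E | μ x = 1}.Finite)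
    {x z : ℂ × ℂ} (hx : x ∈ E) {u : ℂ} (hu : μ x ∈ Hd r u) {σ : ℂ → ℂ × ℂ}
    (hσ : Sec E μ (Hd r u) σ) (he : σ (μ x) = x) (hz : Tendsto σ (𝓝[Hd r u] 1) (𝓝 z)) :
    PEnd E μ r x z := by
  refine ⟨hx, hu.1, ptop_ne hu, fun u' hu' => ?_⟩
  obtain ⟨σ', h1, h2⟩ := ptop_sec hE hμ h hx hu'
  obtain ⟨z', h3⟩ := ptop_exists_end hE hμ hr hf h1 hu'
  rw [ptop_indep hr h hσ h1 hu hu' (he.trans h2.symm) hz h3]
  exact ⟨σ', h1, h2, h3⟩

theorem ptop_near (hE : IsCompact E) (hμ : Continuous μ) (hr : 1 < r)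
    (h : ∀ x ∈ E, ‖μ x‖ < r → μ x ≠ 1 → ∃ ψ, Inv E μ x ψ) (hf : {x ∈ E | μ x = 1}.Finite)
    {x : ℂ × ℂ} (hx : x ∈ E) (hxr : ‖μ x‖ < r) :
    ∃ z, (μ x = 1 → z = x) ∧ ∀ᶠ y in 𝓝 x, y ∈ E → (μ x = 1 → y ≠ x) → PEnd E μ r y z := by
  by_cases h1 : μ x = 1
  · obtain ⟨ε, hε, hsep⟩ := ptop_sep hf
    obtain ⟨m, hm, hgap⟩ := ptop_gap hE hμ hε
    refine ⟨x, fun _ => rfl, ?_⟩
    filter_upwards [ball_mem_nhds x hε,
      hμ.continuousAt.eventually (h1 ▸ ball_mem_nhds (1 : ℂ) hm : ball 1 m ∈ 𝓝 (μ x)),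
      hμ.norm.continuousAt.eventually (gt_mem_nhds hxr)] with y h2 h3 h4 hy hyx
    have h5 : μ y ≠ 1 := fun h6 =>
      hyx h1 (hsep y ⟨hy, h6⟩ x ⟨hx, h1⟩ y (by rwa [dist_self]) h2)
    have hu := Hd_self h4 h5
    obtain ⟨σ, h6, h7⟩ := ptop_sec hE hμ h hy hu
    exact ptop_end_of hE hμ hr h hf hy hu h6 h7
      (ptop_tend hE hμ hm hsep hgap h6 hu (mem_ball_iff_norm.1 h3) hx h1 (by rw [h7]; exact h2))
  · have hu := Hd_self hxr h1
    obtain ⟨σ, h2, h3⟩ := ptop_sec hE hμ h hx hu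
    obtain ⟨z, h4⟩ := ptop_exists_end hE hμ hr hf h2 hu
    obtain ⟨ψ, hψ⟩ := h x hx hxr h1
    have h5 := ptop_loc h2 hu (h3.symm ▸ hψ)
    rw [(Hd_open _ _).nhdsWithin_eq hu] at h5
    refine ⟨z, fun h6 => absurd h6 h1, ?_⟩
    filter_upwards [hμ.continuousAt.eventually h5, hψ.2.2,
      hμ.continuousAt.eventually ((Hd_open _ _).mem_nhds hu)] with y h6 h7 h8 hy _
    exact ptop_end_of hE hμ hr h hf hy h8 h2 (h6.trans (h7 hy)) h4

end

/-- The points whose sections end at `x₀` form an open and closed set. -/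
theorem ends {E : Set (ℂ × ℂ)} (hE : IsCompact E) {μ : ℂ × ℂ → ℂ} (hμ : Continuous μ) {r : ℝ}
    (hr : 1 < r) (h : ∀ x ∈ E, ‖μ x‖ < r → μ x ≠ 1 → ∃ ψ, Inv E μ x ψ)
    (hf : {x ∈ E | μ x = 1}.Finite) {x₀ : ℂ × ℂ} (h0 : x₀ ∈ E) (h1 : μ x₀ = 1) :
    ∃ O C : Set (ℂ × ℂ), IsOpen O ∧ IsClosed C ∧ x₀ ∈ O ∧
      ∀ x ∈ E, ‖μ x‖ < r → x ≠ x₀ → (x ∈ O ↔ x ∈ C) ∧ (x ∈ O → μ x ≠ 1 ∧ ∀ u, μ x ∈ Hd r u →
        ∃ σ, Sec E μ (Hd r u) σ ∧ σ (μ x) = x ∧ Tendsto σ (𝓝[Hd r u] 1) (𝓝 x₀)) := by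
  refine ⟨interior {y | y ∈ E → y ≠ x₀ → PEnd E μ r y x₀}, closure {y | PEnd E μ r y x₀},
    isOpen_interior, isClosed_closure, ?_, fun x hx hxr hne => ?_⟩
  · obtain ⟨z, h2, h3⟩ := ptop_near hE hμ hr h hf h0 (by rw [h1, norm_one]; exact hr)
    rw [h2 h1] at h3
    exact mem_interior_iff_mem_nhds.2 (h3.mono fun y hy h4 h5 => hy h4 fun _ => h5)
  have hO : x ∈ interior {y | y ∈ E → y ≠ x₀ → PEnd E μ r y x₀} → PEnd E μ r x x₀ :=
    fun h2 => interior_subset h2 hx hne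
  refine ⟨⟨fun h2 => subset_closure (hO h2), fun h2 => ?_⟩, fun h2 => (hO h2).2.2⟩
  obtain ⟨z, h3, h4⟩ := ptop_near hE hμ hr h hf hx hxr
  obtain ⟨y, h5, h6⟩ := ((mem_closure_iff_frequently.1 h2).and_eventually h4).exists
  have h7 : PEnd E μ r y x₀ := h5
  have h8 : z = x₀ := ptop_end_uniq hr h (h6 h7.1 fun h9 h10 => h7.2.2.1 (h10 ▸ h9)) h7
  rw [h8] at h3 h4
  exact mem_interior_iff_mem_nhds.2
    (h4.mono fun y hy h9 _ => hy h9 fun h10 => absurd (h3 h10).symm hne)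

end

/-! Two estimates for the inverse of the multiplier map. -/

section

theorem pboot_pow (z : ℂ) : ∀ n : ℕ, n * ‖z‖ ≤ 1 →
    ‖(1 + z) ^ n - 1 - n * z‖ ≤ (n * ‖z‖) ^ 2 := by
  intro n
  induction n with
  | zero => simp
  | succ n ih =>
    intro h
    have hz := norm_nonneg z
    have hn : (0 : ℝ) ≤ n := Nat.cast_nonneg n
    push_cast at h ⊢
    have h' : n * ‖z‖ ≤ 1 := by nlinarith
    have ih := ih h'
    have e : (1 + z) ^ (n + 1) - 1 - ((n : ℂ) + 1) * z =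
        (1 + z) * ((1 + z) ^ n - 1 - n * z) + n * z ^ 2 := by ring
    have h1 : ‖1 + z‖ ≤ 1 + ‖z‖ := by simpa using norm_add_le (1 : ℂ) z
    have h2 : ‖(1 + z) * ((1 + z) ^ n - 1 - n * z)‖ ≤ (1 + ‖z‖) * (n * ‖z‖) ^ 2 := by
      rw [norm_mul]
      exact mul_le_mul h1 ih (norm_nonneg _) (by positivity)
    have h3 : ‖(n : ℂ) * z ^ 2‖ = n * ‖z‖ ^ 2 := by simp
    rw [e]
    refine (norm_add_le _ _).trans ?_
    rw [h3]
    have h4 : n * ‖z‖ * (n * ‖z‖ ^ 2) ≤ 1 * (n * ‖z‖ ^ 2) :=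
      mul_le_mul_of_nonneg_right h' (by positivity)
    nlinarith [sq_nonneg ‖z‖, mul_nonneg hn (sq_nonneg ‖z‖)]

theorem pboot_max {x y : ℝ} (hy : 0 ≤ y) (hy1 : y ≤ 1 / 10) (hx : x ≤ 1 + y) :
    max 1 x ^ 2 - 1 ≤ 21 / 10 * y := by
  have h1 : max 1 x ≤ 1 + y := max_le (by linarith) hx
  have h0 : 0 ≤ max 1 x := le_trans zero_le_one (le_max_left _ _)
  nlinarith

theorem pboot_step {q : ℕ} (hq : 0 < q) {w l s : ℂ} (hw : ‖w‖ ≤ 1 / 100) (hs0 : s ≠ 0)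
    (he : ‖q * (l ^ q - 1)‖ = 5 / 4 * ‖w‖)
    (hge : 5 / 4 ≤ ‖(q : ℂ) ^ 2 * l ^ q / ((1 + w) * s)‖) :
    π * (max 1 ‖1 + w‖ ^ 2 - 1) + π * (‖s‖ * (max 1 ‖l‖ ^ 2 - 1)) ≤ 30 * ‖w‖ := by
  have hq1 : (1 : ℝ) ≤ q := by exact_mod_cast hq
  have hq0 : (0 : ℝ) < q := by linarith
  have hw0 := norm_nonneg w
  have he' : ‖l ^ q - 1‖ = 5 / 4 * ‖w‖ / q := by
    rw [norm_mul, Complex.norm_natCast] at he
    rw [eq_div_iff hq0.ne', ← he, mul_comm]
  have hlq : ‖l‖ ^ q ≤ 1 + 5 / 4 * ‖w‖ / q := by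
    have := norm_add_le (1 : ℂ) (l ^ q - 1)
    rw [add_sub_cancel, norm_one, norm_pow, he'] at this
    exact this
  have hdiv : 5 / 4 * ‖w‖ / q ≤ 5 / 4 * ‖w‖ := div_le_self (by positivity) hq1
  have hρ : 99 / 100 ≤ ‖1 + w‖ := by
    have := norm_sub_le (1 + w) w
    rw [add_sub_cancel_right, norm_one] at this
    linarith
  have hρ' : ‖1 + w‖ ≤ 1 + ‖w‖ := by simpa using norm_add_le (1 : ℂ) w
  have hsp : 0 < ‖s‖ := norm_pos_iff.mpr hs0
  rw [norm_div, norm_mul, norm_mul, norm_pow, norm_pow, Complex.norm_natCast,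
    le_div_iff₀ (by positivity)] at hge
  have hs : ‖s‖ ≤ (q : ℝ) ^ 2 := by
    have h1 : (q : ℝ) ^ 2 * ‖l‖ ^ q ≤ (q : ℝ) ^ 2 * (102 / 100) :=
      mul_le_mul_of_nonneg_left (by linarith) (by positivity)
    have h2 : 99 / 100 * ‖s‖ ≤ ‖1 + w‖ * ‖s‖ := mul_le_mul_of_nonneg_right hρ hsp.le
    nlinarith [sq_nonneg (q : ℝ)]
  set y : ℝ := 5 / 4 * ‖w‖ / q ^ 2 with hy
  have hy0 : 0 ≤ y := by positivity
  have hy1 : y ≤ 5 / 4 * ‖w‖ := div_le_self (by positivity) (one_le_pow₀ hq1)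
  have hl : ‖l‖ ≤ 1 + y := by
    by_contra hcon
    have h1 : (1 + y) ^ q < ‖l‖ ^ q := pow_lt_pow_left₀ (not_le.mp hcon) (by positivity) hq.ne'
    have h2 : 1 + q * y ≤ (1 + y) ^ q := one_add_mul_le_pow (by linarith) q
    have h3 : q * y = 5 / 4 * ‖w‖ / q := by
      rw [hy]
      field_simp
    linarith
  have a1 := pboot_max hw0 (by linarith) hρ'
  have a2 := pboot_max hy0 (by linarith) hl
  have a0 : 0 ≤ max 1 ‖l‖ ^ 2 - 1 := by
    have := one_le_pow₀ (n := 2) (le_max_left 1 ‖l‖)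
    linarith
  have a3 : ‖s‖ * (max 1 ‖l‖ ^ 2 - 1) ≤ (q : ℝ) ^ 2 * (21 / 10 * y) :=
    mul_le_mul hs a2 a0 (by positivity)
  have a4 : (q : ℝ) ^ 2 * (21 / 10 * y) = 21 / 8 * ‖w‖ := by
    rw [hy]
    field_simp
    ring
  have a5 : max 1 ‖1 + w‖ ^ 2 - 1 + ‖s‖ * (max 1 ‖l‖ ^ 2 - 1) ≤ 5 * ‖w‖ := by linarith
  have a6 := mul_le_mul_of_nonneg_left a5 pi_pos.le
  have a7 : π * (5 * ‖w‖) ≤ 4 * (5 * ‖w‖) := mul_le_mul_of_nonneg_right pi_le_four (by positivity)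
  linarith

/-- Continuity argument along the segment from `1` to `1 + v`. -/
theorem boot {q : ℕ} (hq : 0 < q) {v l₀ : ℂ} (hv0 : v ≠ 0) (hv : ‖v‖ ≤ 1 / 100) (hl : l₀ ^ q = 1)
    {L s : ℂ → ℂ} (hd : ∀ t ∈ Ioc (0 : ℝ) 1, s (1 + t * v) ≠ 0 ∧
      HasDerivAt L (L (1 + t * v) / ((1 + t * v) * s (1 + t * v))) (1 + t * v))
    (h0 : Tendsto (fun t : ℝ => L (1 + t * v)) (𝓝[>] 0) (𝓝 l₀))
    (h1 : ∀ᶠ t : ℝ in 𝓝[>] 0, ‖q * (L (1 + t * v) ^ q - 1)‖ ≤ 9 / 8 * ‖t * v‖)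
    (h2 : ∀ t ∈ Ioc (0 : ℝ) 1, π * (max 1 ‖1 + t * v‖ ^ 2 - 1) +
      π * (‖s (1 + t * v)‖ * (max 1 ‖L (1 + t * v)‖ ^ 2 - 1)) ≤ 30 * ‖t * v‖ →
      ‖q * (L (1 + t * v) ^ q - 1)‖ ≠ 5 / 4 * ‖t * v‖) :
    ‖L (1 + v) - l₀‖ ≤ 3 * ‖v‖ / q ^ 2 := by
  have hq1 : (1 : ℝ) ≤ q := by exact_mod_cast hq
  have hq0 : (0 : ℝ) < q := by linarith
  have hvp : 0 < ‖v‖ := norm_pos_iff.mpr hv0
  have hn : ∀ t : ℝ, 0 ≤ t → ‖(t : ℂ) * v‖ = t * ‖v‖ := fun t ht => by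
    rw [norm_mul, Complex.norm_real, Real.norm_of_nonneg ht]
  have hD : ∀ t ∈ Ioc (0 : ℝ) 1, HasDerivAt (fun t : ℝ => L (1 + t * v))
      (L (1 + t * v) / ((1 + t * v) * s (1 + t * v)) * v) t := fun t ht => by
    have a : HasDerivAt (fun z : ℂ => 1 + z * v) v t := by
      simpa using ((hasDerivAt_id (t : ℂ)).mul_const v).const_add 1
    exact (HasDerivAt.comp (t : ℂ) (h₂ := L) (h := fun z : ℂ => 1 + z * v) (hd t ht).2
      a).comp_ofReal
  have hG : ∀ t ∈ Ioc (0 : ℝ) 1, HasDerivAt (fun t : ℝ => (q : ℂ) * (L (1 + t * v) ^ q - 1))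
      ((q : ℂ) ^ 2 * L (1 + t * v) ^ q / ((1 + t * v) * s (1 + t * v)) * v) t := fun t ht => by
    refine ((((hD t ht).pow q).sub_const 1).const_mul (q : ℂ)).congr_deriv ?_
    obtain ⟨m, rfl⟩ := Nat.exists_eq_succ_of_ne_zero hq.ne'
    simp only [Nat.succ_eq_add_one, Nat.add_sub_cancel]
    ring
  by_contra hcon
  have hx : 0 < 3 * ‖v‖ / q ^ 2 := by positivity
  have h3 : ∀ᶠ t : ℝ in 𝓝[>] 0, ‖L (1 + t * v) - l₀‖ < 3 * ‖v‖ / q ^ 2 := by
    have := (tendsto_iff_norm_sub_tendsto_zero.mp h0).eventually (gt_mem_nhds hx)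
    exact this
  have h4 : ∀ᶠ t : ℝ in 𝓝[>] 0, t ∈ Ioc (0 : ℝ) 1 := Ioc_mem_nhdsGT one_pos
  obtain ⟨a, ha1, ha3, ha4⟩ := (h1.and (h3.and h4)).exists
  have hsub : ∀ t ∈ Icc a 1, t ∈ Ioc (0 : ℝ) 1 := fun t ht => ⟨ha4.1.trans_le ht.1, ht.2⟩
  have key : ∀ t ∈ Icc a 1, ‖(q : ℂ) * (L (1 + t * v) ^ q - 1)‖ ≤ 5 / 4 * ‖v‖ * t := by
    refine image_norm_le_of_norm_deriv_right_lt_deriv_boundary
      (f := fun t : ℝ => (q : ℂ) * (L (1 + t * v) ^ q - 1))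
      (fun t ht => (hG t (hsub t ht)).continuousAt.continuousWithinAt)
      (fun t ht => (hG t (hsub t (Ico_subset_Icc_self ht))).hasDerivWithinAt)
      (B := fun t => 5 / 4 * ‖v‖ * t) (B' := fun _ => 5 / 4 * ‖v‖) ?_
      (fun t => by simpa using (hasDerivAt_id t).const_mul (5 / 4 * ‖v‖)) ?_
    · rw [hn a ha4.1.le] at ha1
      have := mul_pos ha4.1 hvp
      linarith
    · intro t ht he
      have ht' := hsub t (Ico_subset_Icc_self ht)
      have he' : ‖(q : ℂ) * (L (1 + t * v) ^ q - 1)‖ = 5 / 4 * ‖(t : ℂ) * v‖ := by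
        rw [hn t ht'.1.le, he]
        ring
      by_contra hge
      rw [not_lt, norm_mul] at hge
      refine h2 t ht' (pboot_step hq ?_ (hd t ht').1 he' (le_of_mul_le_mul_right hge hvp)) he'
      rw [hn t ht'.1.le]
      nlinarith [ht'.2]
  have hc : ContinuousOn (fun t : ℝ => ‖L (1 + t * v) - l₀‖) (Icc a 1) := fun t ht =>
    ((hD t (hsub t ht)).continuousAt.continuousWithinAt.sub continuousWithinAt_const).norm
  obtain ⟨t, ht, he⟩ := intermediate_value_Icc ha4.2 hc (a := a) (b := 1)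
    (show 3 * ‖v‖ / q ^ 2 ∈ _ from ⟨ha3.le, by simpa using (not_le.mp hcon).le⟩)
  have hl1 : ‖l₀‖ = 1 := by
    have := congrArg norm hl
    rw [norm_pow, norm_one] at this
    exact (pow_eq_one_iff_of_nonneg (norm_nonneg _) hq.ne').mp this
  have hl0 : l₀ ≠ 0 := fun h => by simp [h] at hl1
  set l := L (1 + t * v) with hldef
  have hz : ‖(l - l₀) / l₀‖ = 3 * ‖v‖ / q ^ 2 := by
    rw [norm_div, hl1, div_one]
    exact he
  have hqz : q * ‖(l - l₀) / l₀‖ = 3 * ‖v‖ / q := by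
    rw [hz]
    field_simp
  have hy : 3 * ‖v‖ / q ≤ 3 / 100 := (div_le_self (by positivity) hq1).trans (by linarith)
  have hp := pboot_pow ((l - l₀) / l₀) q (by rw [hqz]; linarith)
  have e1 : (1 + (l - l₀) / l₀) ^ q = l ^ q := by
    have : 1 + (l - l₀) / l₀ = l / l₀ := by
      field_simp
      ring
    rw [this, div_pow, hl, div_one]
  rw [e1, hqz] at hp
  have k1 := key t ht
  rw [norm_mul, Complex.norm_natCast] at k1
  have k2 : ‖l ^ q - 1‖ ≤ 5 / 12 * (3 * ‖v‖ / q) := by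
    have : 5 / 12 * (3 * ‖v‖ / q) = 5 / 4 * ‖v‖ / q := by ring
    rw [this, le_div_iff₀ hq0]
    nlinarith [ht.2]
  have k3 := norm_sub_le (l ^ q - 1) (l ^ q - 1 - q * ((l - l₀) / l₀))
  rw [sub_sub_cancel, norm_mul, Complex.norm_natCast, hqz] at k3
  have k4 : 0 < 3 * ‖v‖ / q := by positivity
  nlinarith

theorem pboot_mem {η δ : ℝ} (hη : η ≤ 1 / 2) (hδ : 0 < δ) (hη0 : 0 < η) (hδη : δ ≤ η ^ 2 / 10)
    {w : ℂ} (h1 : ‖w‖ < 1 + δ) (h2 : ‖w‖ < 1 ∨ η / 2 ≤ ‖w - 1‖) : w ∈ Hd (1 + δ) (-1) := by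
  refine ⟨h1, ?_⟩
  have e : ((w - 1) * starRingEnd ℂ (-1)).re = 1 - w.re := by simp
  rw [e, sub_pos]
  rcases h2 with h2 | h2
  · exact (Complex.re_le_norm w).trans_lt h2
  · have a1 : ‖w‖ ^ 2 = w.re ^ 2 + w.im ^ 2 := by
      rw [Complex.sq_norm, Complex.normSq_apply]
      ring
    have a2 : ‖w - 1‖ ^ 2 = (w.re - 1) ^ 2 + w.im ^ 2 := by
      rw [Complex.sq_norm, Complex.normSq_apply]
      simp only [Complex.sub_re, Complex.one_re, Complex.sub_im, Complex.one_im]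
      ring
    have a3 : ‖w‖ ^ 2 < (1 + δ) ^ 2 := pow_lt_pow_left₀ h1 (norm_nonneg _) two_ne_zero
    have a4 : (η / 2) ^ 2 ≤ ‖w - 1‖ ^ 2 := pow_le_pow_left₀ (by positivity) h2 2
    have a5 : δ ≤ 1 / 40 := by nlinarith
    nlinarith

theorem pboot_zero {P : ℂ → ℂ} (hP : DifferentiableOn ℂ P (ball 0 1))
    (hpos : ∀ w ∈ ball (0 : ℂ) 1, 0 ≤ (P w).re) {a : ℝ} (ha0 : 0 ≤ a) (ha : a < 1) :
    (1 - a) * ‖P 0‖ ≤ (1 + a) * ‖P a‖ := by
  have hlt : ∀ w ∈ ball (0 : ℂ) 1, ‖w + a‖ < ‖1 + a * w‖ := fun w hw => by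
    rw [mem_ball_zero_iff] at hw
    have a1 : ‖w‖ ^ 2 = w.re ^ 2 + w.im ^ 2 := by
      rw [Complex.sq_norm, Complex.normSq_apply]
      ring
    have a3 : ‖w‖ ^ 2 < 1 := by nlinarith [norm_nonneg w]
    refine lt_of_pow_lt_pow_left₀ 2 (norm_nonneg _) ?_
    rw [Complex.sq_norm, Complex.sq_norm, Complex.normSq_apply, Complex.normSq_apply]
    simp only [Complex.add_re, Complex.ofReal_re, Complex.add_im, Complex.ofReal_im,
      Complex.one_re, Complex.one_im, Complex.mul_re, Complex.mul_im]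
    have a4 : 0 < (1 - a ^ 2) * (1 - (w.re ^ 2 + w.im ^ 2)) :=
      mul_pos (by nlinarith) (by linarith)
    nlinarith
  have hne : ∀ w ∈ ball (0 : ℂ) 1, 1 + a * w ≠ 0 := fun w hw =>
    norm_pos_iff.mp ((norm_nonneg _).trans_lt (hlt w hw))
  have hm : MapsTo (fun w : ℂ => (w + a) / (1 + a * w)) (ball 0 1) (ball 0 1) := fun w hw => by
    rw [mem_ball_zero_iff, norm_div, div_lt_one (norm_pos_iff.mpr (hne w hw))]
    exact hlt w hw
  have hd : DifferentiableOn ℂ (fun w : ℂ => (w + a) / (1 + a * w)) (ball 0 1) :=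
    DifferentiableOn.div (by fun_prop) (by fun_prop) hne
  have hna : ‖-(a : ℂ)‖ = a := by rw [norm_neg, Complex.norm_real, Real.norm_of_nonneg ha0]
  have := harnack (hP.comp hd hm) (fun w hw => hpos _ (hm hw)) (w := -(a : ℂ))
    (by rw [mem_ball_zero_iff, hna]; exact ha)
  rw [sub_zero, hna] at this
  simpa using this

/-- A chain of Harnack inequalities. -/
theorem harn {η δ : ℝ} (hη : η ≤ 1 / 2) (hδ : 0 < δ) (hη0 : 0 < η) (hδη : δ ≤ η ^ 2 / 10) :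
    ∃ K : ℝ, ∀ P : ℂ → ℂ, DifferentiableOn ℂ P (Hd (1 + δ) (-1)) →
      (∀ w ∈ Hd (1 + δ) (-1), w ≠ 0 → (‖w‖ < 1 ∨ η / 2 ≤ ‖w - 1‖) → 0 ≤ (P w).re) →
      ∀ w : ℂ, ‖w‖ ≤ 1 + δ / 2 → η ≤ ‖w - 1‖ →
        w ∈ Hd (1 + δ) (-1) ∧ ‖P w‖ ≤ K * ‖P (1 - η)‖ := by
  refine ⟨7 * (2 / δ * (2 / η)), fun P hP hpos w hw hw1 =>
    ⟨pboot_mem hη hδ hη0 hδη (by linarith) (Or.inr (by linarith)), ?_⟩⟩
  have hδ1 : δ ≤ η / 20 := by nlinarith
  have hsub : ball (0 : ℂ) 1 ⊆ Hd (1 + δ) (-1) := fun y hy =>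
    pboot_mem hη hδ hη0 hδη (by linarith [mem_ball_zero_iff.mp hy])
      (Or.inl (mem_ball_zero_iff.mp hy))
  have hP1 := hP.mono hsub
  have hpos1 : ∀ y ∈ ball (0 : ℂ) 1, 0 ≤ (P y).re := fun y hy => by
    by_cases hy0 : y = 0
    · subst hy0
      have hc : ContinuousAt P 0 :=
        (hP1.differentiableAt (ball_mem_nhds 0 one_pos)).continuousAt
      have ht : Tendsto (fun y => (P y).re) (𝓝[≠] 0) (𝓝 (P 0).re) :=
        ((Complex.continuous_re.tendsto _).comp hc).mono_left nhdsWithin_le_nhds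
      refine ge_of_tendsto ht ?_
      filter_upwards [self_mem_nhdsWithin, nhdsWithin_le_nhds (ball_mem_nhds (0 : ℂ) one_pos)]
        with y h1 h2
      exact hpos y (hsub h2) h1 (Or.inl (mem_ball_zero_iff.mp h2))
    · exact hpos y (hsub hy) hy0 (Or.inl (mem_ball_zero_iff.mp hy))
  have hN := norm_nonneg (P (1 - η))
  have s1 : ‖P 0‖ ≤ 2 / η * ‖P (1 - η)‖ := by
    have := pboot_zero hP1 hpos1 (a := 1 - η) (by linarith) (by linarith)
    push_cast at this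
    rw [div_mul_eq_mul_div, le_div_iff₀ hη0]
    nlinarith
  have s2 : ∀ y : ℂ, ‖y‖ ≤ 1 - δ → ‖P y‖ ≤ 2 / δ * (2 / η) * ‖P (1 - η)‖ := fun y hy => by
    have := harnack hP1 hpos1 (w := y) (mem_ball_zero_iff.mpr (by linarith))
    rw [sub_zero] at this
    have a : ‖P y‖ ≤ 2 / δ * ‖P 0‖ := by
      rw [div_mul_eq_mul_div, le_div_iff₀ hδ]
      nlinarith [norm_nonneg (P y), norm_nonneg (P 0)]
    rw [mul_assoc]
    exact a.trans (mul_le_mul_of_nonneg_left s1 (by positivity))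
  have hK : 0 ≤ 2 / δ * (2 / η) * ‖P (1 - η)‖ := by positivity
  by_cases hc : ‖w‖ ≤ 1 - δ
  · have := s2 w hc
    linarith
  rw [not_le] at hc
  have hw0 : 0 < ‖w‖ := by linarith
  set c : ℂ := (((1 - δ) / ‖w‖ : ℝ) : ℂ) * w with hcdef
  have c1 : ‖c‖ = 1 - δ := by
    rw [hcdef, norm_mul, Complex.norm_real,
      Real.norm_of_nonneg (div_nonneg (by linarith) hw0.le), div_mul_cancel₀ _ hw0.ne']
  have c2 : ‖w - c‖ ≤ 3 / 2 * δ := by
    have e : w - c = ((1 - (1 - δ) / ‖w‖ : ℝ) : ℂ) * w := by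
      rw [hcdef, Complex.ofReal_sub, Complex.ofReal_one]
      ring
    have : 0 ≤ 1 - (1 - δ) / ‖w‖ := sub_nonneg.mpr ((div_le_one hw0).mpr hc.le)
    rw [e, norm_mul, Complex.norm_real, Real.norm_of_nonneg this, sub_mul,
      div_mul_cancel₀ _ hw0.ne']
    linarith
  have c3 : ∀ y ∈ ball c (2 * δ), ‖y‖ < 1 + δ ∧ η / 2 ≤ ‖y - 1‖ ∧ y ≠ 0 := fun y hy => by
    rw [mem_ball, dist_eq_norm] at hy
    have b1 := norm_add_le (y - c) c
    rw [sub_add_cancel] at b1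
    have b2 : ‖w - 1‖ ≤ ‖w - c‖ + ‖y - c‖ + ‖y - 1‖ := by
      have : w - 1 = (w - c) - (y - c) + (y - 1) := by ring
      rw [this]
      exact (norm_add_le _ _).trans (add_le_add_left (norm_sub_le _ _) _)
    refine ⟨by linarith, by linarith, ?_⟩
    rintro rfl
    rw [zero_sub, norm_neg] at hy
    linarith
  have hsub2 : ball c (2 * δ) ⊆ Hd (1 + δ) (-1) := fun y hy =>
    pboot_mem hη hδ hη0 hδη (c3 y hy).1 (Or.inr (c3 y hy).2.1)
  have := harnack (hP.mono hsub2)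
    (fun y hy => hpos y (hsub2 hy) (c3 y hy).2.2 (Or.inr (c3 y hy).2.1)) (w := w)
    (by rw [mem_ball, dist_eq_norm]; linarith)
  have s3 : ‖P w‖ ≤ 7 * ‖P c‖ := by
    refine le_of_mul_le_mul_left ?_ (half_pos hδ)
    nlinarith [norm_nonneg (P w), norm_nonneg (P c)]
  have := s2 c c1.le
  linarith

end

end Pool.Agent.MP_1071ec_an

end

-- part MP_1071ec_an.Main
section

/-! The size of the satellite components. -/

set_option autoImplicit false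

namespace Pool.Agent.MP_1071ec_an

open MeasureTheory Metric Set Real Filter Topology Polynomial
open Pool.Agent.MP_28f8a1_an Pool.Agent.MP_28f8a1_an.H42
open scoped ENNReal

/-- The two dynamical facts about a point with multiplier `w`, fixed point multiplier `l` and
logarithmic derivative `s`. -/
def Good (η : ℝ) (q : ℕ) (w l s : ℂ) : Prop :=
  s ≠ 0 ∧ ((‖w‖ < 1 ∨ η / 2 ≤ ‖w - 1‖) → 1 ≤ ‖l‖) ∧
    (‖w - 1‖ ≤ η → π * (max 1 ‖w‖ ^ 2 - 1) + π * (‖s‖ * (max 1 ‖l‖ ^ 2 - 1)) ≤ 30 * ‖w - 1‖ →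
      ‖q * (l ^ q - 1)‖ ≠ 5 / 4 * ‖w - 1‖)

/-- The multiplier has no critical point in a collar of period-independent width. -/
theorem nondeg : ∃ (η δ : ℝ) (q₀ : ℕ), 0 < η ∧ η ≤ 1 / 100 ∧ 0 < δ ∧ δ ≤ η ^ 2 / 10 ∧ 2 ≤ q₀ ∧
    ∀ q, q₀ ≤ q → ∀ x ∈ Per q, ‖mu q x‖ < 1 + δ → mu q x ≠ 0 → mu q x ≠ 1 →
      ∃ s, Fol q x (mu q x * s / x.1) ∧ Good η q (mu q x) x.1 s := by
  obtain ⟨η₁, hη₁, q₁, h1⟩ := core_one (e := 1) le_rfl (M := 30) (by norm_num)
  set η := min η₁ (1 / 100) with hη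
  have hη0 : 0 < η := lt_min hη₁ (by norm_num)
  have hη1 : η ≤ 1 / 100 := min_le_right _ _
  obtain ⟨δ₀, hδ₀, h2⟩ := core_ne (e := 1) le_rfl (half_pos hη0)
  set δ := min (η ^ 2 / 10) (δ₀ / 20) with hδ
  have hδ1 : δ ≤ η ^ 2 / 10 := min_le_left _ _
  have hδ2 : δ ≤ δ₀ / 20 := min_le_right _ _
  have hδ0 : 0 < δ := lt_min (by positivity) (by positivity)
  have hδ3 : δ ≤ 1 / 10 := by nlinarith
  refine ⟨η, δ, max q₁ 2, hη0, hη1, hδ0, hδ1, le_max_right _ _, fun q hq x hx hr h0 h1' => ?_⟩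
  have hq2 : 2 ≤ q := (le_max_right _ _).trans hq
  have hm : ‖mu q x‖ < 2 := by linarith
  obtain ⟨Y, -, hK, hρ, hα, hF⟩ := fol_cy hq2 hx h0 h1' (per_ne_zero hq2 hx hm)
  have hfl : Y.flux = π * (max 1 ‖mu q x‖ ^ 2 - 1) + π * (‖Y.s‖ * (max 1 ‖x.1‖ ^ 2 - 1)) := by
    rw [Cy.flux, hρ, hα, lam_half]
  have hpi := pi_pos
  have hpi4 := pi_le_four
  have hG : (‖mu q x‖ ≤ 1 ∨ η / 2 ≤ ‖mu q x - 1‖) → 0 < ‖Y.s‖ * (max 1 ‖x.1‖ ^ 2 - 1) := by
    intro h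
    by_cases ha : ‖mu q x‖ ≤ 1
    · have := Y.flux_pos le_rfl (Y.bounds le_rfl (hρ ▸ hm)).1
      rw [hfl, max_eq_left ha] at this
      exact (mul_pos_iff_of_pos_left hpi).mp (by linarith)
    · have h3 := h2 Y (hK ▸ hq2) (by rw [hρ]; linarith) (hρ ▸ hm) (hρ ▸ h.resolve_left ha)
      have h4 := pboot_max hδ0.le hδ3 hr.le
      rw [hfl] at h3
      by_contra h5
      nlinarith
  have hone := h1 Y (hK ▸ (le_max_left _ _).trans hq) (hρ ▸ h1')
  rw [hρ, hK, hα, lam_half, hfl] at hone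
  rw [hρ] at hF
  refine ⟨Y.s, hF, fun hs => ?_, fun h => ?_, fun h h' => (hone (h.trans (min_le_left _ _)) h').2⟩
  · by_cases h : η / 2 ≤ ‖mu q x - 1‖
    · simpa [hs] using hG (Or.inr h)
    · have h3 : ‖mu q x‖ ≤ 1 + ‖mu q x - 1‖ := by
        simpa using norm_add_le 1 (mu q x - 1)
      have h4 := pboot_max (norm_nonneg _) (by linarith) h3
      refine (hone (by linarith [min_le_left η₁ (1 / 100)]) ?_).1 hs
      rw [hs, norm_zero, zero_mul, mul_zero, add_zero]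
      nlinarith [norm_nonneg (mu q x - 1)]
  · by_contra h3
    simpa [max_eq_left (not_le.mp h3).le] using hG (h.imp_left le_of_lt)

section

variable {η δ : ℝ} {q : ℕ}

/-- The hypothesis produced by `nondeg`. -/
def ND (η δ : ℝ) (q : ℕ) : Prop :=
  ∀ x ∈ Per q, ‖mu q x‖ < 1 + δ → mu q x ≠ 0 → mu q x ≠ 1 →
    ∃ s, Fol q x (mu q x * s / x.1) ∧ Good η q (mu q x) x.1 s

theorem inv_all (hq : 2 ≤ q) (hδ : δ ≤ 1) (h : ND η δ q) {x : ℂ × ℂ} (hx : x ∈ Ec q (1 + δ))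
    (hr : ‖mu q x‖ < 1 + δ) (h1 : mu q x ≠ 1) : x.1 ≠ 0 ∧ ∃ ψ, Inv (Ec q (1 + δ)) (mu q) x ψ ∧
      DifferentiableAt ℂ (fun w => (ψ w).1) (mu q x) ∧ (mu q x ≠ 0 → ∃ s,
        HasDerivAt (fun w => (ψ w).1) (x.1 / (mu q x * s)) (mu q x) ∧
          Good η q (mu q x) x.1 s) := by
  have hp : x ∈ Per q := hx.2.2.resolve_left h1
  have hl := per_ne_zero hq hp (by linarith)
  refine ⟨hl, ?_⟩
  by_cases h0 : mu q x = 0
  · obtain ⟨D, hD, hF⟩ := fol_zero (by omega) hp h0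
    obtain ⟨ψ, hψ, hd⟩ := inv_of_fol (by omega) hp hr h1 hD hF
    exact ⟨ψ, hψ, hd.differentiableAt, fun h => (h h0).elim⟩
  · obtain ⟨s, hF, hG⟩ := h x hp hr h0 h1
    obtain ⟨ψ, hψ, hd⟩ := inv_of_fol (by omega) hp hr h1
      (div_ne_zero (mul_ne_zero h0 hG.1) hl) hF
    rw [inv_div] at hd
    exact ⟨ψ, hψ, hd.differentiableAt, fun _ => ⟨s, hd, hG⟩⟩

theorem sec_deriv (hq : 2 ≤ q) (hδ : δ ≤ 1) (h : ND η δ q) {u : ℂ} {σ : ℂ → ℂ × ℂ}
    (hσ : Sec (Ec q (1 + δ)) (mu q) (Hd (1 + δ) u) σ) {w : ℂ} (hw : w ∈ Hd (1 + δ) u) :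
    (σ w).1 ≠ 0 ∧ DifferentiableAt ℂ (fun w => (σ w).1) w ∧ (w ≠ 0 → ∃ s,
      HasDerivAt (fun w => (σ w).1) ((σ w).1 / (w * s)) w ∧ Good η q w (σ w).1 s) := by
  obtain ⟨h1, h2⟩ := hσ.2 w hw
  obtain ⟨h3, ψ, hψ, h4, h5⟩ := inv_all hq hδ h h1 (h2.symm ▸ hw.1) (h2.symm ▸ ptop_ne hw)
  rw [h2] at h4 h5
  have h6 : (fun w => (σ w).1) =ᶠ[𝓝 w] fun w => (ψ w).1 :=
    (hσ.eq_inv (Hd_open _ _) hw hψ).mono fun v hv => by simp only [hv]
  refine ⟨h3, h4.congr_of_eventuallyEq h6, fun h0 => ?_⟩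
  obtain ⟨s, h7, h8⟩ := h5 h0
  exact ⟨s, h7.congr_of_eventuallyEq h6, h8⟩

/-- The estimate near the root. -/
theorem sec_near (hq : 2 ≤ q) (hδ0 : 0 < δ) (hδ : δ ≤ 1) (hη : η ≤ 1 / 100) (h : ND η δ q)
    {l₀ u v : ℂ} (hl : IsPrimitiveRoot l₀ q) {σ : ℂ → ℂ × ℂ}
    (hσ : Sec (Ec q (1 + δ)) (mu q) (Hd (1 + δ) u) σ)
    (ht : Tendsto σ (𝓝[Hd (1 + δ) u] 1) (𝓝 (l₀, l₀ / 2))) (hv : 1 + v ∈ Hd (1 + δ) u)
    (hvη : ‖v‖ ≤ η) : ‖(σ (1 + v)).1 - l₀‖ ≤ 3 * ‖v‖ / q ^ 2 := by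
  have hr : 1 < 1 + δ := by linarith
  have hv0 : v ≠ 0 := fun h0 => ptop_ne hv (by simp [h0])
  have hs : ∀ w, ∃ s, w ∈ Hd (1 + δ) u → w ≠ 0 →
      HasDerivAt (fun w => (σ w).1) ((σ w).1 / (w * s)) w ∧ Good η q w (σ w).1 s := by
    intro w
    by_cases hw : w ∈ Hd (1 + δ) u ∧ w ≠ 0
    · obtain ⟨s, hs⟩ := (sec_deriv hq hδ h hσ hw.1).2.2 hw.2
      exact ⟨s, fun _ _ => hs⟩
    · exact ⟨0, fun h1 h2 => (hw ⟨h1, h2⟩).elim⟩
  choose s hs using hs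
  have hsm : ∀ t ∈ Ioc (0 : ℝ) 1, ‖(t : ℂ) * v‖ ≤ η := fun t ht => by
    rw [norm_mul, Complex.norm_real, Real.norm_of_nonneg ht.1.le]
    nlinarith [norm_nonneg v, ht.1, ht.2]
  have hs' : ∀ t ∈ Ioc (0 : ℝ) 1, _ := fun t ht => hs (1 + t * v) (Hd_seg hr hv ht) fun h0 => by
    have h1 := hsm t ht
    rw [eq_neg_of_add_eq_zero_right h0, norm_neg, norm_one] at h1
    linarith
  have hp := ht.comp (ptop_path hr hv)
  refine boot (L := fun w => (σ w).1) (s := s) (by omega) hv0 (hvη.trans hη) hl.pow_eq_one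
    (fun t ht => ⟨(hs' t ht).2.1, (hs' t ht).1⟩) ((continuous_fst.tendsto _).comp hp) ?_
    fun t ht => ?_
  · filter_upwards [hp.eventually (root_asym (by omega) hl), Ioc_mem_nhdsGT zero_lt_one] with
      t h1 h2
    obtain ⟨h3, h4⟩ := hσ.2 _ (Hd_seg hr hv h2)
    have h5 := h3.2.2.resolve_left (h4.symm ▸ ptop_ne (Hd_seg hr hv h2))
    have h6 := h1 h3.1 fun h7 => by
      have h8 : Function.minimalPeriod (fq 1 (par (σ (1 + t * v)).1)) (σ (1 + t * v)).2 = 1 := by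
        rw [Function.minimalPeriod_eq_one_iff_isFixedPt]
        exact h7 ▸ par_fix _
      have h9 : _ = q := h5
      omega
    simpa only [Function.comp, h4, add_sub_cancel_left] using h6
  · simpa only [add_sub_cancel_left] using (hs' t ht).2.2.2 (by simpa using hsm t ht)

theorem re_nonneg {a l : ℂ} (ha : ‖a‖ = 1) (hl : 1 ≤ ‖l‖) : 0 ≤ (1 - a / l).re := by
  have h1 : ‖a / l‖ ≤ 1 := by
    rw [norm_div, ha]
    exact div_le_one_of_le₀ hl (by linarith)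
  simpa using (Complex.re_le_norm _).trans h1

end

/-- The estimate in the plane of the multiplier of the fixed point. -/
theorem main_l : ∃ (K δ : ℝ) (q₀ : ℕ), 0 < δ ∧ δ < 1 ∧ ∀ q, q₀ ≤ q → ∀ l₀, IsPrimitiveRoot l₀ q →
    ∃ O C : Set (ℂ × ℂ), IsOpen O ∧ IsClosed C ∧ (l₀, l₀ / 2) ∈ O ∧
      ∀ x ∈ Per q, ‖mu q x‖ < 1 + δ → (x ∈ O ↔ x ∈ C) ∧ (x ∈ O → ‖x.1 - l₀‖ ≤ K / q ^ 2) := by
  obtain ⟨η, δ, q₀, hη0, hη, hδ0, hδη, hq₀, h⟩ := nondeg
  have hδ : δ ≤ 1 := by nlinarith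
  obtain ⟨K, hK⟩ := harn (by linarith) hδ0 hη0 hδη
  refine ⟨6 * |K| + 1, δ / 2, q₀, half_pos hδ0, by linarith, fun q hq l₀ hl => ?_⟩
  have hq2 := hq₀.trans hq
  have hN : ND η δ q := h q hq
  have hr : 1 < 1 + δ := by linarith
  have hQ : (0 : ℝ) < (q : ℝ) ^ 2 := by positivity
  have hQ1 : (1 : ℝ) ≤ (q : ℝ) ^ 2 := one_le_pow₀ (by exact_mod_cast (by omega : 1 ≤ q))
  have hl1 : ‖l₀‖ = 1 := hl.norm'_eq_one (by omega)
  obtain ⟨O, C, hO, hC, h0, h1⟩ := ends (Ec_compact (q := q) (by omega) (r := 1 + δ) (by nlinarith))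
    (mu_cont q) hr (fun x hx h1 h2 => (inv_all hq2 hδ hN hx h1 h2).2.imp fun ψ h => h.1)
    (Ec_fin (by omega) _) (root_mem hl.pow_eq_one hr.le).1 (root_mem hl.pow_eq_one hr.le).2
  refine ⟨O, C, hO, hC, h0, fun x hx hm => ?_⟩
  have hm' : ‖mu q x‖ < 1 + δ := by linarith
  have hfix : (fq 1 (par x.1))^[q] x.2 = x.2 := by
    have := Function.iterate_minimalPeriod (f := fq 1 (par x.1)) (x := x.2)
    rwa [show _ = q from hx] at this
  obtain ⟨h2, h3⟩ := h1 x ⟨hfix, hm'.le, Or.inr hx⟩ hm' fun h => by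
    have h8 : Function.minimalPeriod (fq 1 (par x.1)) x.2 = 1 := by
      rw [Function.minimalPeriod_eq_one_iff_isFixedPt, h]
      exact par_fix _
    have h9 : _ = q := hx
    omega
  refine ⟨h2, fun hxO => ?_⟩
  obtain ⟨h4, h5⟩ := h3 hxO
  have hK0 := abs_nonneg K
  by_cases hn : ‖mu q x - 1‖ ≤ η
  · obtain ⟨σ, hσ, he, ht⟩ := h5 _ (Hd_self hm' h4)
    have h6 := sec_near hq2 hδ0 hδ hη hN hl hσ ht (v := mu q x - 1)
      (by simpa using Hd_self hm' h4) hn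
    rw [add_sub_cancel, he] at h6
    refine h6.trans (div_le_div_of_nonneg_right (by linarith) hQ.le)
  · have hmem : mu q x ∈ Hd (1 + δ) (-1) :=
      (hK 0 (differentiableOn_const 0) (fun _ _ _ _ => le_rfl) _ hm.le (not_le.mp hn).le).1
    obtain ⟨σ, hσ, he, ht⟩ := h5 _ hmem
    have h6 := (hK (fun w => 1 - l₀ / (σ w).1) (fun w hw => by
      obtain ⟨g1, g2, -⟩ := sec_deriv hq2 hδ hN hσ hw
      exact ((differentiableAt_const _).sub
        ((differentiableAt_const _).div g2 g1)).differentiableWithinAt) (fun w hw w0 hw' => by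
      obtain ⟨s, -, g⟩ := (sec_deriv hq2 hδ hN hσ hw).2.2 w0
      exact re_nonneg hl1 (g.2.1 hw')) _ hm.le (not_le.mp hn).le).2
    have hη' : ‖(-η : ℂ)‖ = η := by simp [abs_of_pos hη0]
    have hb : ‖(1 : ℂ) + -η‖ < 1 := by
      rw [show (1 : ℂ) + -η = (1 - η : ℝ) by push_cast; ring, Complex.norm_real,
        Real.norm_of_nonneg (by linarith)]
      linarith
    have hb' : (1 : ℂ) + -η ∈ Hd (1 + δ) (-1) :=
      pboot_mem (η := η) (by linarith) hδ0 hη0 hδη (by linarith) (Or.inl hb)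
    have h7 := sec_near hq2 hδ0 hδ hη hN hl hσ ht hb' hη'.le
    obtain ⟨s, -, g⟩ := (sec_deriv hq2 hδ hN hσ hb').2.2 fun h0 => by
      rw [eq_neg_of_add_eq_zero_right h0, norm_neg, norm_one] at hη'
      linarith
    have h8 := g.2.1 (Or.inl hb)
    rw [hη', ← sub_eq_add_neg] at h7
    rw [← sub_eq_add_neg] at h8
    simp only [he] at h6
    have h9 : ‖1 - l₀ / (σ (1 - η)).1‖ ≤ 1 / q ^ 2 := by
      have g0 : (σ (1 - η)).1 ≠ 0 := norm_pos_iff.mp (by linarith)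
      rw [one_sub_div g0, norm_div]
      refine (div_le_self (norm_nonneg _) h8).trans (h7.trans ?_)
      exact div_le_div_of_nonneg_right (by linarith) hQ.le
    have hx0 := per_ne_zero hq2 hx (by linarith)
    have hx6 := (per_bound (by omega) hfix (by linarith)).1
    rw [one_sub_div hx0, norm_div, div_le_iff₀ (norm_pos_iff.mpr hx0)] at h6
    calc ‖x.1 - l₀‖ ≤ |K| * (1 / q ^ 2) * 6 := by
          refine h6.trans (mul_le_mul ?_ hx6 (norm_nonneg _) (by positivity))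
          exact mul_le_mul (le_abs_self K) h9 (norm_nonneg _) hK0
      _ = 6 * |K| / q ^ 2 := by ring
      _ ≤ _ := div_le_div_of_nonneg_right (by linarith) hQ.le

theorem sin_lower {p q : ℕ} (hp : 0 < p) (hpq : p < q) : 2 / (q : ℝ) ≤ Real.sin (π * p / q) := by
  have hq : (0 : ℝ) < q := by exact_mod_cast hp.trans hpq
  have key : ∀ k : ℕ, 0 < k → 2 * k ≤ q → 2 / (q : ℝ) ≤ Real.sin (π * k / q) := by
    intro k hk hkq
    have h1 : (1 : ℝ) ≤ k := by exact_mod_cast hk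
    have h2 : (2 : ℝ) * k ≤ q := by exact_mod_cast hkq
    have h3 := Real.mul_le_sin (x := π * k / q) (by positivity) (by
      rw [div_le_div_iff₀ hq two_pos]
      nlinarith [pi_pos])
    refine le_trans ?_ h3
    rw [show 2 / π * (π * k / q) = 2 * k / q by field_simp]
    exact div_le_div_of_nonneg_right (by linarith) hq.le
  by_cases h : 2 * p ≤ q
  · exact key p hp h
  · have h1 := key (q - p) (by omega) (by omega)
    rwa [Nat.cast_sub hpq.le, show π * (q - p : ℝ) / q = π - π * p / q by field_simp,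
      Real.sin_pi_sub] at h1

theorem norm_one_sub {p q : ℕ} (hp : 0 < p) (hpq : p < q) :
    ‖1 - Complex.exp (2 * π * Complex.I * p / q)‖ = 2 * Real.sin (π * p / q) := by
  have hq : (0 : ℝ) < q := by exact_mod_cast hp.trans hpq
  have h0 := (div_pos two_pos hq).trans_le (sin_lower hp hpq)
  rw [norm_sub_rev, show 2 * π * Complex.I * p / q = Complex.I * (2 * (π * p / q) : ℝ) by
    push_cast; ring, Complex.norm_exp_I_mul_ofReal_sub_one, mul_div_cancel_left₀ _ two_ne_zero,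
    Real.norm_of_nonneg (by linarith)]

/-- The estimate in the parameter plane. -/
theorem main_c : ∃ K δ : ℝ, 0 < δ ∧ ∀ p q : ℕ, 0 < p → p < q → p.Coprime q →
    ∀ X : Set (ℂ × ℂ), IsPreconnected X →
      (∀ y ∈ X, Function.minimalPeriod (fq 1 y.1) y.2 = q ∧ ‖Pd 1 y.1 y.2 q‖ < 1 + δ) →
      (par (Complex.exp (2 * π * Complex.I * p / q)),
        Complex.exp (2 * π * Complex.I * p / q) / 2) ∈ closure X →
      ∀ y ∈ X, ‖y.1 - par (Complex.exp (2 * π * Complex.I * p / q))‖ ≤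
        K * Real.sin (π * p / q) / q ^ 2 := by
  obtain ⟨K, δ, q₀, hδ0, hδ, h⟩ := main_l
  refine ⟨|K| * (1 + |K|) + 7 * q₀ ^ 3, δ, hδ0, fun p q hp hpq hc X hX hy h0 y hyX => ?_⟩
  set l₀ := Complex.exp (2 * π * Complex.I * p / q) with hl₀
  have hq : (1 : ℝ) ≤ q := by exact_mod_cast hp.trans hpq
  have hs := sin_lower hp hpq
  have hs0 := (div_pos two_pos (by linarith)).trans_le hs
  have hn : ‖1 - l₀‖ = _ := norm_one_sub hp hpq
  set S := Real.sin (π * p / q)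
  have hl : IsPrimitiveRoot l₀ q := by
    rw [hl₀, mul_div_assoc]
    exact Complex.isPrimitiveRoot_exp_of_coprime p q (by omega) hc
  have hK0 := abs_nonneg K
  rw [div_le_iff₀ (by linarith)] at hs
  by_cases hq₀ : q₀ ≤ q
  · obtain ⟨O, C, hO, hC, h1, h2⟩ := h q hq₀ l₀ hl
    obtain ⟨x, hx, rfl⟩ := transfer hX hO hC h1 h0
      (fun x hx => (h2 x (hy _ hx).1 (hy _ hx).2).1) y hyX
    have h3 := ((h2 x (hy _ hyX).1 (hy _ hyX).2).2 hx).trans
      (div_le_div_of_nonneg_right (le_abs_self K) (by positivity))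
    have h4 : par x.1 - par l₀ = (x.1 - l₀) * ((1 - l₀) / 2 - (x.1 - l₀) / 4) := by
      simp only [par]
      ring
    have h5 : ‖(1 - l₀) / 2 - (x.1 - l₀) / 4‖ ≤ (1 + |K|) * S := by
      refine (norm_sub_le _ _).trans ?_
      rw [norm_div, norm_div, hn, Complex.norm_ofNat, Complex.norm_ofNat]
      have h6 : |K| / q ^ 2 ≤ |K| * S := by
        rw [div_le_iff₀ (by positivity), mul_assoc]
        exact le_mul_of_one_le_right hK0 (by nlinarith)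
      nlinarith
    calc ‖par x.1 - par l₀‖ ≤ |K| / q ^ 2 * ((1 + |K|) * S) := by
          rw [h4, norm_mul]
          exact mul_le_mul h3 h5 (norm_nonneg _) (by positivity)
      _ = |K| * (1 + |K|) * S / q ^ 2 := by ring
      _ ≤ _ := by gcongr; exact le_add_of_nonneg_right (by positivity)
  · obtain ⟨l, hl'⟩ : ∃ l, par l = y.1 := by
      obtain ⟨t, ht⟩ := IsAlgClosed.exists_pow_nat_eq (1 - 4 * y.1) two_pos
      exact ⟨1 - t, by simp only [par]; linear_combination (-1 / 4) * ht⟩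
    have hfix : (fq 1 (par l))^[q] y.2 = y.2 := by
      have := Function.iterate_minimalPeriod (f := fq 1 y.1) (x := y.2)
      rwa [(hy y hyX).1, ← hl'] at this
    have h1 : ‖l‖ ≤ 6 := (per_bound (x := (l, y.2)) (hp.trans hpq) hfix (by
      simp only [mu, hl']
      linarith [(hy y hyX).2])).1
    have h2 : ∀ a : ℂ, ‖par a‖ ≤ ‖a‖ / 2 + ‖a‖ ^ 2 / 4 := fun a => by
      have := norm_sub_le (a / 2) (a ^ 2 / 4)
      rwa [norm_div, norm_div, norm_pow, Complex.norm_ofNat, Complex.norm_ofNat] at this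
    have h3 := h2 l₀
    rw [hl.norm'_eq_one (by omega)] at h3
    have h4 : ‖y.1 - par l₀‖ ≤ 14 := by
      rw [← hl']
      nlinarith [norm_sub_le (par l) (par l₀), h2 l, norm_nonneg l]
    have h5 : (q : ℝ) ^ 3 ≤ q₀ ^ 3 := by gcongr; omega
    rw [le_div_iff₀ (by positivity)]
    have h6 : 14 * (q : ℝ) ^ 2 ≤ 7 * q ^ 3 * S := by nlinarith [sq_nonneg (q : ℝ)]
    nlinarith [mul_nonneg (mul_nonneg hK0 (add_nonneg zero_le_one hK0)) hs0.le,
      mul_le_mul_of_nonneg_right h5 hs0.le, mul_le_mul_of_nonneg_right h4 (sq_nonneg (q : ℝ))]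

end Pool.Agent.MP_1071ec_an

end
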