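import Pool.Agent.MP_1071ec_an.Quad
import Pool.Agent.MP_28f8a1_an.Mg.H42_Core

-- part MP_1071ec_an.Mass
section

/-! The total loss is small; telescoping along a branch. -/

set_option autoImplicit false

namespace Pool.Agent.MP_1071ec_an

open MeasureTheory Metric Set Real Filter Topology Polynomial
open Pool.Agent.MP_28f8a1_an Pool.Agent.MP_28f8a1_an.H42
open scoped ENNReal

namespace Cy

variable {e : ℕ} (Y : Cy e)

theorem t52_Pd {b : ℂ} (hb : b ∈ Y.B) (k : ℕ) : Pd e Y.c b k ≠ 0 := by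
  induction k with
  | zero => rw [Pd_zero]; exact one_ne_zero
  | succ k ih =>
    rw [Pd_succ']
    exact mul_ne_zero (mul_ne_zero (Nat.cast_ne_zero.mpr (Nat.succ_ne_zero e))
      (pow_ne_zero _ (Y.ne0 _ (Y.iter_mem hb k)))) ih

/-- The bound for the total loss. -/
noncomputable def flux : ℝ :=
  π * (max 1 ‖Y.ρ‖ ^ 2 - 1) + π * (‖Y.s‖ * (max 1 ‖lam e Y.α‖ ^ 2 - 1))

theorem t52_rad : ∃ r m : ℂ → ℝ, (∀ b ∈ Y.B, 0 < r b) ∧ (∀ b, 1 ≤ m b) ∧
    (∀ b ∈ Y.B, r b * ‖lam e b‖ ≤ m b * r (fq e Y.c b)) ∧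
    π * ∑ b ∈ Y.B, ‖Y.w b‖ * (m b ^ 2 - 1) = Y.flux := by
  classical
  obtain ⟨r, m, h1, h2, h3, h4⟩ := Y.o.t52_rad
  refine ⟨fun b => if b = Y.α then 1 else r b,
    fun b => if b = Y.α then max 1 ‖lam e Y.α‖ else m b, fun b hb => ?_, fun b => ?_,
    fun b hb => ?_, ?_⟩
  · rcases Y.mem_B.1 hb with rfl | hb
    · simp
    · simpa [Y.ne_α hb] using h1 b hb
  · dsimp only
    split_ifs
    exacts [le_max_left _ _, h2 b]
  · rcases Y.mem_B.1 hb with rfl | hb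
    · simp [Y.αfix]
    · simpa [Y.ne_α hb, Y.ne_α (Y.o.maps b hb)] using h3 b hb
  · dsimp only
    rw [B, Finset.sum_insert Y.αnot, Finset.sum_congr rfl fun b hb => by
      rw [Y.w_K hb, norm_one, one_mul, if_neg (Y.ne_α hb)], h4, Y.w_α, norm_neg, if_pos rfl, flux]
    ring

theorem t52_loc {η : ℝ} (hη : 0 < η) : ∃ δ > 0, ∀ b ∈ Y.B, ∀ z ∈ ball b δ,
    (z ∈ Y.B → z = b) ∧ ‖Y.U b z‖ ≤ ‖Y.w b‖ + η ∧
      ‖fq e Y.c z - fq e Y.c b‖ ≤ (1 + η) * ‖lam e b‖ * ‖z - b‖ := by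
  have h1 : ∀ b ∈ Y.B, ∀ᶠ δ in 𝓝[>] (0 : ℝ), ∀ z ∈ ball b δ,
      (z ∈ Y.B → z = b) ∧ ‖Y.U b z‖ ≤ ‖Y.w b‖ + η ∧
        ‖fq e Y.c z - fq e Y.c b‖ ≤ (1 + η) * ‖lam e b‖ * ‖z - b‖ := by
    intro b hb
    have hl : 0 < ‖lam e b‖ := norm_pos_iff.mpr (mul_ne_zero
      (Nat.cast_ne_zero.mpr (Nat.succ_ne_zero e)) (pow_ne_zero _ (Y.ne0 b hb)))
    have a1 : ∀ᶠ z in 𝓝 b, z ∈ Y.B → z = b := by
      have : ((Y.B : Set ℂ) \ {b})ᶜ ∈ 𝓝 b :=
        (Y.B.finite_toSet.subset sdiff_subset).isClosed.isOpen_compl.mem_nhds (by simp)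
      filter_upwards [this] with z hz hzB
      by_contra h
      exact hz ⟨hzB, h⟩
    have a2 : ∀ᶠ z in 𝓝 b, ‖Y.U b z‖ ≤ ‖Y.w b‖ + η := by
      have h2 := (Y.U_diff (b := b) (z := b) fun _ => rfl).continuousAt.norm
      refine (h2.eventually (ge_mem_nhds ?_))
      show ‖Y.U b b‖ < ‖Y.w b‖ + η
      rw [Y.U_self' hb]
      linarith
    have a3 : ∀ᶠ z in 𝓝 b, ‖fq e Y.c z - fq e Y.c b‖ ≤ (1 + η) * ‖lam e b‖ * ‖z - b‖ := by
      have h2 := (hasDerivAt_iff_isLittleO.mp (fq_deriv (e := e) (c := Y.c) b)).bound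
        (mul_pos hη hl)
      filter_upwards [h2] with z hz
      have h3 := norm_add_le (fq e Y.c z - fq e Y.c b - (z - b) • (((e + 1 : ℕ) : ℂ) * b ^ e))
        ((z - b) • (((e + 1 : ℕ) : ℂ) * b ^ e))
      have h4 : ‖(z - b) • (((e + 1 : ℕ) : ℂ) * b ^ e)‖ = ‖z - b‖ * ‖lam e b‖ := norm_smul _ _
      rw [sub_add_cancel, h4] at h3
      linarith
    obtain ⟨δ, hδ, h⟩ := Metric.eventually_nhds_iff_ball.mp (a1.and (a2.and a3))
    filter_upwards [Ioo_mem_nhdsGT hδ] with d hd z hz using h z (ball_subset_ball hd.2.le hz)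
  obtain ⟨δ, h2, h3⟩ :=
    (((Finset.eventually_all Y.B).mpr h1).and self_mem_nhdsWithin).exists
  exact ⟨δ, h3, h2⟩

/-- The loss plus the mass of an outer annulus. -/
noncomputable def out (R : ℝ) (y : ℂ) : ℝ :=
  Y.err y + (ball (0 : ℂ) (R - 1))ᶜ.indicator (fun y => ‖Y.q y‖) y

theorem t52_step (he : 1 ≤ e) (hc : ‖Y.c‖ ≤ 6) {R : ℝ} (hR : 7 ≤ R) {r m : ℂ → ℝ}
    (hr : ∀ b ∈ Y.B, 0 < r b) (hm : ∀ b, 1 ≤ m b)
    (hrm : ∀ b ∈ Y.B, r b * ‖lam e b‖ ≤ m b * r (fq e Y.c b)) {η δ ε : ℝ} (hη : 0 < η)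
    (hη1 : η < 1) (hε : 0 < ε) (hεδ : ∀ b ∈ Y.B, ε * r b ≤ δ)
    (hδ : ∀ b ∈ Y.B, ∀ z ∈ ball b δ, (z ∈ Y.B → z = b) ∧ ‖Y.U b z‖ ≤ ‖Y.w b‖ + η ∧
      ‖fq e Y.c z - fq e Y.c b‖ ≤ (1 + η) * ‖lam e b‖ * ‖z - b‖) :
    LI (ball 0 R \ ⋃ b ∈ Y.B, ball b (ε * r b)) (Y.out R) ≤ ENNReal.ofReal
      (∑ b ∈ Y.B, (‖Y.w b‖ + η) * π * ((m b / (1 - η)) ^ 2 - 1)) := by
  obtain ⟨X, hX⟩ : ∃ X : Set ℂ, X = ball 0 R \ ⋃ b ∈ Y.B, ball b (ε * r b) := ⟨_, rfl⟩
  have hXm : MeasurableSet X := hX ▸ measurableSet_ball.diff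
    (Finset.measurableSet_biUnion _ fun _ _ => measurableSet_ball)
  have hXs : X ⊆ ball 0 R := hX ▸ sdiff_subset
  have hm0 : ∀ b, 0 < m b := fun b => one_pos.trans_le (hm b)
  have h1η : 0 < 1 - η := by linarith
  have hle : ∀ b ∈ Y.B, ε * r b * ((1 - η) / m b) ≤ ε * r b := fun b hb =>
    mul_le_of_le_one_right (mul_pos hε (hr b hb)).le
      ((div_le_one (hm0 b)).mpr (by linarith [hm b]))
  have h1 := transfer (e := e) (c := Y.c) (E := fun _ => 0) Y.measurable_q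
    (B := insert Y.c (Y.B : Set ℂ)) ((Y.B.finite_toSet.insert _).measure_zero _)
    (fun y hy => by
      rw [add_zero]
      exact Y.q_id he (fun h => hy (Or.inr h)) fun h => hy (Or.inl h)) hXm
  have h2 : fq e Y.c ⁻¹' X ⊆ X ∩ ball 0 (R - 1) ∪
      ⋃ b ∈ Y.B, (ball b (ε * r b) \ ball b (ε * r b * ((1 - η) / m b))) := by
    intro z hz
    rw [mem_preimage, hX] at hz
    by_cases h : z ∈ ⋃ b ∈ Y.B, ball b (ε * r b)
    · obtain ⟨b, hb, hzb⟩ := mem_iUnion₂.mp h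
      refine Or.inr (mem_iUnion₂.mpr ⟨b, hb, hzb, fun h' => hz.2 ?_⟩)
      refine mem_iUnion₂.mpr ⟨fq e Y.c b, Y.maps b hb, ?_⟩
      rw [mem_ball, dist_eq_norm] at h' ⊢
      have a1 := (hδ b hb z (ball_subset_ball (hεδ b hb) hzb)).2.2
      have hl : 0 < ‖lam e b‖ := norm_pos_iff.mpr (lam_ne (Y.ne0 b hb))
      have a2 : (1 + η) * ‖lam e b‖ * ‖z - b‖ <
          (1 + η) * ‖lam e b‖ * (ε * r b * ((1 - η) / m b)) :=
        mul_lt_mul_of_pos_left h' (by positivity)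
      have a3 : r b * ‖lam e b‖ / m b ≤ r (fq e Y.c b) := by
        rw [div_le_iff₀ (hm0 b), mul_comm (r (fq e Y.c b))]
        exact hrm b hb
      have a4 : (1 + η) * ‖lam e b‖ * (ε * r b * ((1 - η) / m b)) =
          (1 - η ^ 2) * (ε * (r b * ‖lam e b‖ / m b)) := by ring
      have a5 : 0 ≤ ε * (r b * ‖lam e b‖ / m b) := by
        have := hr b hb
        have := hm0 b
        positivity
      have a6 := mul_le_mul_of_nonneg_left a3 hε.le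
      nlinarith [mul_nonneg (sq_nonneg η) a5]
    · have a1 : ‖z‖ < R - 1 := by
        by_contra a1
        push Not at a1
        have a2 := mem_ball_zero_iff.mp hz.1
        have a3 : ‖z ^ (e + 1)‖ ≤ ‖fq e Y.c z‖ + ‖Y.c‖ := by
          refine le_trans (le_of_eq ?_) (norm_sub_le _ _)
          rw [fq, add_sub_cancel_right]
        have a4 : ‖z‖ ^ 2 ≤ ‖z‖ ^ (e + 1) := pow_le_pow_right₀ (by linarith) (by omega)
        rw [norm_pow] at a3
        nlinarith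
      exact Or.inl ⟨hX ▸ ⟨mem_ball_zero_iff.mpr (by linarith), h⟩, mem_ball_zero_iff.mpr a1⟩
  have h3 : ∀ b ∈ Y.B, LI (ball b (ε * r b) \ ball b (ε * r b * ((1 - η) / m b)))
      (fun y => ‖Y.q y‖) ≤ ENNReal.ofReal ((‖Y.w b‖ + η) * π * ((m b / (1 - η)) ^ 2 - 1)) := by
    intro b hb
    have a0 := hr b hb
    have a0' := hm0 b
    have a1 : 0 < ε * r b * ((1 - η) / m b) := by positivity
    refine (t52_ann b a1 (hle b hb) (C := ‖Y.w b‖ + η) (by positivity) fun z hz hz' => ?_).trans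
      (le_of_eq ?_)
    · obtain ⟨a2, a3, -⟩ := hδ b hb z (ball_subset_ball (hεδ b hb) hz)
      have a4 : z ∉ Y.B := fun h => by
        rw [a2 h, sub_self, norm_zero] at hz'
        linarith
      rw [Y.q_eq hb a4, norm_div, norm_pow]
      exact div_le_div₀ (by positivity) a3 (by positivity) (pow_le_pow_left₀ a1.le hz' 2)
    · congr 4
      field_simp
  have h4 : LI (X ∩ ball 0 (R - 1)) (fun y => ‖Y.q y‖) ≠ ⊤ := by
    refine ne_top_of_le_ne_top ?_ ((LI_mono_set inter_subset_left _).trans (LI_mono hXm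
      (v := fun _ => ∑ b ∈ Y.B, (‖Y.w b‖ * ((ε * r b) ^ 2)⁻¹ + ‖Y.a b‖ * (ε * r b)⁻¹))
      fun z hz => ?_))
    · rw [LI_const]
      exact ENNReal.mul_ne_top ENNReal.ofReal_ne_top
        ((measure_mono hXs).trans_lt measure_ball_lt_top).ne
    · refine (norm_sum_le _ _).trans (Finset.sum_le_sum fun b hb => ?_)
      have a1 : ε * r b ≤ ‖z - b‖ := by
        by_contra h
        rw [hX] at hz
        exact hz.2 (mem_iUnion₂.mpr ⟨b, hb, by simpa [dist_eq_norm] using h⟩)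
      have a2 : 0 < ε * r b := mul_pos hε (hr b hb)
      refine (norm_add_le _ _).trans (add_le_add ?_ ?_)
      · rw [norm_mul, norm_inv, norm_pow]
        exact mul_le_mul_of_nonneg_left
          (inv_anti₀ (by positivity) (pow_le_pow_left₀ a2.le a1 2)) (norm_nonneg _)
      · rw [norm_mul, norm_inv]
        exact mul_le_mul_of_nonneg_left (inv_anti₀ a2 a1) (norm_nonneg _)
  have h5 : LI X (fun y => ‖Y.q y‖) + LI X Y.err =
      LI (X ∩ ball 0 (R - 1)) (fun y => ‖Y.q y‖) + LI X (Y.out R) := by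
    have a1 : LI X ((ball (0 : ℂ) (R - 1))ᶜ.indicator fun y => ‖Y.q y‖) =
        LI (X \ ball 0 (R - 1)) (fun y => ‖Y.q y‖) := by
      unfold LI
      rw [sdiff_eq, inter_comm, ← Measure.restrict_restrict measurableSet_ball.compl,
        ← lintegral_indicator measurableSet_ball.compl]
      refine lintegral_congr fun z => ?_
      by_cases h : z ∈ (ball (0 : ℂ) (R - 1))ᶜ
      · rw [indicator_of_mem h, indicator_of_mem h]
      · rw [indicator_of_notMem h, indicator_of_notMem h, ENNReal.ofReal_zero]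
    have a2 : LI X (Y.out R) = LI X Y.err +
        LI X ((ball (0 : ℂ) (R - 1))ᶜ.indicator fun y => ‖Y.q y‖) :=
      LI_add hXm (measurable_loss Y.measurable_q) (fun z _ => loss_nonneg _ _)
        fun z _ => indicator_nonneg (fun _ _ => norm_nonneg _) _
    have a3 : LI (X ∩ ball 0 (R - 1)) (fun y => ‖Y.q y‖) +
        LI (X \ ball 0 (R - 1)) (fun y => ‖Y.q y‖) = LI X (fun y => ‖Y.q y‖) :=
      lintegral_inter_add_sdiff _ _ measurableSet_ball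
    rw [a2, a1, ← a3]
    ring
  have h6 : ∀ b ∈ Y.B, 0 ≤ (‖Y.w b‖ + η) * π * ((m b / (1 - η)) ^ 2 - 1) := fun b _ =>
    mul_nonneg (by positivity) (sub_nonneg.mpr (one_le_pow₀
      ((one_le_div h1η).mpr (by linarith [hm b]))))
  have h7 := (LI_mono_set h2 fun y => ‖Y.q y‖).trans ((LI_union_le _ _ _).trans
    (add_le_add le_rfl ((LI_biUnion_le _ _ _).trans (Finset.sum_le_sum h3))))
  have h9 : LI X (fun _ => ‖(0 : ℂ)‖) = 0 := by simp [LI]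
  rw [h9, add_zero] at h1
  have h8 := (h5.symm.trans_le h1).trans h7
  rw [ENNReal.add_le_add_iff_left h4, ← ENNReal.ofReal_sum_of_nonneg h6] at h8
  exact hX ▸ h8

theorem t52_loss (he : 1 ≤ e) (hc : ‖Y.c‖ ≤ 6) {R : ℝ} (hR : 7 ≤ R) :
    LI (ball 0 R) (Y.out R) ≤ ENNReal.ofReal Y.flux := by
  obtain ⟨r, m, hr, hm, hrm, hs⟩ := Y.t52_rad
  have h1 : ∀ η ∈ Ioo (0 : ℝ) 1, LI (ball 0 R) (Y.out R) ≤ ENNReal.ofReal
      (∑ b ∈ Y.B, (‖Y.w b‖ + η) * π * ((m b / (1 - η)) ^ 2 - 1)) := by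
    intro η hη
    obtain ⟨δ, hδ0, hδ⟩ := Y.t52_loc hη.1
    obtain ⟨T, hT⟩ : ∃ T, T = ∑ b ∈ Y.B, r b := ⟨_, rfl⟩
    have hT0 : 0 < T := hT ▸ Finset.sum_pos hr ⟨_, Y.αB⟩
    have hrT : ∀ b ∈ Y.B, r b ≤ T := fun b hb =>
      hT ▸ Finset.single_le_sum (fun b hb => (hr b hb).le) hb
    have hε : ∀ n : ℕ, 0 < δ / T / (n + 1) := fun n => by positivity
    have h2 : ball (0 : ℂ) R \ Y.B ⊆
        ⋃ n : ℕ, (ball 0 R \ ⋃ b ∈ Y.B, ball b (δ / T / (n + 1) * r b)) := by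
      intro z hz
      have a1 : ∀ b ∈ Y.B, ∀ᶠ n : ℕ in atTop, δ / T / (n + 1) * r b < ‖z - b‖ := by
        intro b hb
        have a2 : Tendsto (fun n : ℕ => δ / T / (n + 1) * r b) atTop (𝓝 (0 * r b)) :=
          ((tendsto_natCast_atTop_atTop.atTop_add tendsto_const_nhds).const_div_atTop _).mul_const _
        refine a2.eventually (gt_mem_nhds ?_)
        rw [zero_mul]
        exact norm_pos_iff.mpr (sub_ne_zero.mpr fun h => hz.2 (h ▸ hb))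
      obtain ⟨n, hn⟩ := ((Finset.eventually_all Y.B).mpr a1).exists
      refine mem_iUnion.mpr ⟨n, hz.1, fun h => ?_⟩
      obtain ⟨b, hb, hzb⟩ := mem_iUnion₂.mp h
      rw [mem_ball, dist_eq_norm] at hzb
      exact absurd (hn b hb) (not_lt.mpr hzb.le)
    have h3 : LI (ball 0 R) (Y.out R) = LI (ball 0 R \ Y.B) (Y.out R) :=
      setLIntegral_congr (sdiff_null_ae_eq_self (Y.B.finite_toSet.measure_zero _)).symm
    rw [h3]
    refine (LI_mono_set h2 _).trans ?_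
    unfold LI
    rw [setLIntegral_iUnion_of_directed _ (Monotone.directed_le fun n n' hn => ?_)]
    · refine iSup_le fun n => Y.t52_step he hc hR hr hm hrm hη.1 hη.2 (hε n) (fun b hb => ?_) hδ
      have a1 : δ / T / (n + 1) ≤ δ / T := div_le_self (by positivity) (by simp)
      calc δ / T / (n + 1) * r b ≤ δ / T * T :=
            mul_le_mul a1 (hrT b hb) (hr b hb).le (by positivity)
        _ = δ := div_mul_cancel₀ _ hT0.ne'
    · refine sdiff_subset_sdiff_right (iUnion₂_mono fun b hb => ball_subset_ball ?_)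
      refine mul_le_mul_of_nonneg_right (div_le_div_of_nonneg_left (by positivity) (by positivity)
        ?_) (hr b hb).le
      exact_mod_cast Nat.succ_le_succ hn
  have h2 : ContinuousAt (fun η : ℝ => ENNReal.ofReal
      (∑ b ∈ Y.B, (‖Y.w b‖ + η) * π * ((m b / (1 - η)) ^ 2 - 1))) 0 := by
    refine ENNReal.continuous_ofReal.continuousAt.comp ?_
    refine tendsto_finsetSum _ fun b _ => ?_
    exact ContinuousAt.tendsto (f := fun η : ℝ => (‖Y.w b‖ + η) * π * ((m b / (1 - η)) ^ 2 - 1))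
      (by fun_prop (disch := norm_num))
  have h3 := ge_of_tendsto (h2.tendsto.mono_left (nhdsWithin_le_nhds (s := Ioi 0)))
    (by filter_upwards [Ioo_mem_nhdsGT one_pos] with η hη using h1 η hη)
  simp only [add_zero, sub_zero, div_one] at h3
  rw [← hs, Finset.mul_sum]
  exact h3.trans_eq (congrArg _ (Finset.sum_congr rfl fun b _ => by ring))

theorem mass (he : 1 ≤ e) (hc : ‖Y.c‖ ≤ 6) {R : ℝ} (hR : 7 ≤ R) :
    LI (ball 0 R) Y.err ≤ ENNReal.ofReal Y.flux :=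
  (LI_mono measurableSet_ball fun _ _ => le_add_of_nonneg_right
    (indicator_nonneg (fun _ _ => norm_nonneg _) _)).trans (Y.t52_loss he hc hR)

/-- The bound for the loss does not vanish. -/
theorem flux_pos (he : 1 ≤ e) (hc : ‖Y.c‖ ≤ 6) : 0 < Y.flux := by
  by_contra h
  have h1 := Y.t52_loss he hc (R := 8) (by norm_num)
  have hm : Measurable (Y.out 8) := (measurable_loss Y.measurable_q).add
    (Y.measurable_q.norm.indicator measurableSet_ball.compl)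
  rw [ENNReal.ofReal_of_nonpos (not_lt.mp h), nonpos_iff_eq_zero, LI,
    lintegral_eq_zero_iff hm.ennreal_ofReal, EventuallyEq,
    ae_restrict_iff' measurableSet_ball] at h1
  have h2 : ∀ᵐ z : ℂ, z ∉ (Y.B : Set ℂ) ∪ Y.N.roots.toFinset :=
    compl_mem_ae_iff.mpr ((Y.B.finite_toSet.union (Finset.finite_toSet _)).measure_zero _)
  have h3 : ∀ᵐ z : ℂ, z ∉ ball (15 / 2 : ℂ) (1 / 2) := by
    filter_upwards [h1, h2] with z g1 g2 g3
    rw [mem_ball, dist_eq_norm] at g3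
    have a0 : ‖(15 / 2 : ℂ)‖ = 15 / 2 := by simp
    have a1 := norm_le_norm_add_norm_sub' z (15 / 2)
    have a2 := norm_sub_norm_le (15 / 2 : ℂ) z
    rw [norm_sub_rev] at a2
    have a3 := g1 (mem_ball_zero_iff.mpr (by linarith))
    rw [Pi.zero_apply, ENNReal.ofReal_eq_zero, out, err, indicator_of_mem
      (show z ∈ (ball (0 : ℂ) (8 - 1))ᶜ by simp; linarith)] at a3
    have a4 : Y.q z = 0 := norm_le_zero_iff.mp (by linarith [loss_nonneg (e := e) (c := Y.c) Y.q z])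
    have a5 : z ∉ Y.B := fun h => g2 (Or.inl h)
    rw [Y.t1048_q a5, div_eq_zero_iff] at a4
    rcases a4 with a4 | a4
    · exact g2 (Or.inr (by simpa [mem_roots Y.t1048_N0] using a4))
    · rw [pow_eq_zero_iff two_ne_zero, Y.t1048_D Y.αB, eval_mul, mul_eq_zero] at a4
      rcases a4 with a4 | a4
      · simp only [eval_sub, eval_X, eval_C, sub_eq_zero] at a4
        exact a5 (a4 ▸ Y.αB)
      · exact Y.Db_ne (fun h => absurd h a5) a4
  exact (measure_ball_pos volume (15 / 2 : ℂ) one_half_pos).ne' (compl_mem_ae_iff.mp h3)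

theorem err_nonneg (y : ℂ) : 0 ≤ Y.err y := by
  exact loss_nonneg _ _

theorem measurable_err : Measurable Y.err := by
  exact measurable_loss Y.measurable_q

theorem t1053_step (he : 1 ≤ e) {w : ℂ} (hw : w ≠ 0) (hy : fq e Y.c w ∉ Y.B) :
    ‖tm e Y.q w‖ + ‖Y.q (fq e Y.c w) - tm e Y.q w‖ ≤
      ‖Y.q (fq e Y.c w)‖ + Y.err (fq e Y.c w) := by
  have hc : fq e Y.c w ≠ Y.c := by simpa [fq] using hw
  obtain ⟨S, h1, h2⟩ := loss_one (e := e) (c := Y.c) Y.q hw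
  have h3 := Y.q_id he hy hc
  rw [← h3] at h1 h2
  unfold err
  linarith

/-- Telescoping: any preimage `w` of `h z` contributes a term aligned with `q z`. -/
theorem tele (he : 1 ≤ e) {k : ℕ} {h : ℂ → ℂ} {O : Set ℂ} (hO : IsOpen O) (hb : Br e Y.c k h O)
    {z : ℂ} (hz : z ∈ O) (hzB : z ∉ Y.B) {w : ℂ} (hw : w ≠ 0) (hf : fq e Y.c w = h z) :
    ‖tm e Y.q w * deriv h z ^ 2‖ + ‖Y.q z - tm e Y.q w * deriv h z ^ 2‖ ≤
      ‖Y.q z‖ + Y.Err k h z := by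
  induction k generalizing h w with
  | zero =>
    have h1 : h z = z := hb.inv z hz
    have h2 : deriv h z = 1 := by simpa [Pd_zero] using hb.mul_deriv hO hz
    have h3 := Y.t1053_step he hw (by rwa [hf, h1])
    rw [hf, h1] at h3
    simpa [Err, h1, h2] using h3
  | succ k ih =>
    have hy : h z ∉ Y.B := fun h1 => hzB (hb.inv z hz ▸ Y.iter_mem h1 (k + 1))
    have h0 : h z ≠ 0 := hb.ne_zero he hO (Nat.succ_pos k) hz
    have h1 := ih (h := fun v => fq e Y.c (h v))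
      ⟨fq_diff.comp_differentiableOn hb.diff, fun v hv => hb.inv v hv⟩ h0 rfl
    have h2 : deriv (fun v => fq e Y.c (h v)) z = (e + 1 : ℕ) * h z ^ e * deriv h z :=
      ((fq_deriv (h z)).comp z (hb.diff.hasDerivAt (hO.mem_nhds hz))).deriv
    have hd : ((e + 1 : ℕ) : ℂ) ≠ 0 := Nat.cast_ne_zero.mpr (Nat.succ_ne_zero e)
    have h3 : tm e Y.q (h z) * deriv (fun v => fq e Y.c (h v)) z ^ 2 =
        Y.q (h z) * deriv h z ^ 2 := by
      rw [h2, tm]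
      field_simp
    have h4 := Y.t1053_step he hw (by rwa [hf])
    rw [hf] at h4
    have h5 := mul_le_mul_of_nonneg_right h4 (norm_nonneg (deriv h z ^ 2))
    rw [add_mul, add_mul, ← norm_mul, ← norm_mul, ← norm_mul, sub_mul, norm_pow] at h5
    have h6 : Y.Err (k + 1) h z =
        Y.Err k (fun v => fq e Y.c (h v)) z + ‖deriv h z‖ ^ 2 * Y.err (h z) := by
      unfold Err
      rw [Finset.sum_range_succ']
      rfl
    have h7 := norm_sub_le_norm_sub_add_norm_sub (Y.q z) (Y.q (h z) * deriv h z ^ 2)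
      (tm e Y.q w * deriv h z ^ 2)
    rw [h3] at h1
    rw [h6]
    linarith

end Cy

/-- The accumulated error along a branch is controlled by the total error. -/
theorem LI_Err {e : ℕ} (he : 1 ≤ e) {θ ε : ℝ} (hε : 0 < ε) (hθ : θ + ε ≤ 1) : ∃ m : ℕ,
    ∀ (Y : Cy e) (b : ℂ) (R R' : ℝ) (p : ℕ → ℂ) (k : ℕ) (h : ℂ → ℂ) (W : Set ℂ), 0 < R →
    ‖Y.c‖ ≤ 6 → 7 ≤ R' → ‖b‖ + R ≤ R' → p 0 = b → (∀ j, p j ∈ Y.K) →
    (∀ j, fq e Y.c (p (j + 1)) = p j) →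
    (∀ i < Y.K.card, ∀ j < Y.K.card, p i = p j → i = j) → k < Y.K.card →
    Br e Y.c k h (ball b R) → h b = p k → (∀ b' ∈ Y.K, b' ≠ b → ε * R ≤ ‖b - b'‖) →
    MeasurableSet W →
    (∀ z ∈ W, ‖z - b‖ ≤ θ * R ∧ ∀ b' ∈ Y.K, b' ≠ b → ε * R ≤ ‖z - b'‖) →
    LI W (Y.Err k h) ≤ m * LI (ball 0 R') Y.err := by
  classical
  obtain ⟨m, hm⟩ := overlap hε hθ
  refine ⟨m, fun Y b R R' p k h W hR hc hR' hbR hp0 hpB hp hpi hk hb hh hsep hW hWb => ?_⟩
  have hsub : W ⊆ ball b R := fun z hz => by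
    rw [mem_ball, dist_eq_norm]
    nlinarith [(hWb z hz).1, mul_pos hε hR]
  have hit : ∀ j i, (fq e Y.c)^[j] (p (i + j)) = p i := fun j => by
    induction j with
    | zero => exact fun _ => rfl
    | succ j ih => intro i; rw [Function.iterate_succ_apply, ← add_assoc, hp, ih]
  obtain ⟨g, hg⟩ : ∃ g : ℕ → ℂ → ℂ, g = fun j v => (fq e Y.c)^[j] (h v) := ⟨_, rfl⟩
  have hgb : ∀ j ∈ Finset.range (k + 1), Br e Y.c (k - j) (g j) (ball b R) := fun j hj => by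
    rw [hg]; exact hb.iter (Nat.lt_succ_iff.1 (Finset.mem_range.1 hj))
  have hgp : ∀ j ∈ Finset.range (k + 1), g j b = p (k - j) := fun j hj => by
    rw [hg, ← hit j (k - j), Nat.sub_add_cancel (Nat.lt_succ_iff.1 (Finset.mem_range.1 hj)), ← hh]
  have hcont : ∀ j ∈ Finset.range (k + 1), ContinuousOn (g j) W := fun j hj =>
    (hgb j hj).diff.continuousOn.mono hsub
  have hinj : ∀ j ∈ Finset.range (k + 1), InjOn (g j) W := fun j hj =>
    ((hgb j hj).univ isOpen_ball).inj.mono hsub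
  have hmeas : ∀ j ∈ Finset.range (k + 1), MeasurableSet (g j '' W) := fun j hj =>
    hW.image_of_continuousOn_injOn (hcont j hj) (hinj j hj)
  have hu : Measurable fun y => ENNReal.ofReal (Y.err y) := Y.measurable_err.ennreal_ofReal
  have e1 : LI W (Y.Err k h) = ∑ j ∈ Finset.range (k + 1), LI (g j '' W) Y.err := by
    rw [Finset.sum_congr rfl fun j hj => LI_image hW (h' := deriv (g j))
      (fun z hz => (hgb j hj).diff.hasDerivAt (isOpen_ball.mem_nhds (hsub hz))) (hinj j hj) Y.err]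
    unfold LI
    refine Eq.trans (lintegral_congr fun z => ?_) (lintegral_finsetSum' (μ := volume.restrict W)
      (f := fun j z => ENNReal.ofReal (‖deriv (g j) z‖ ^ 2 * Y.err (g j z))) _
      fun j hj => AEMeasurable.ennreal_ofReal
        (((measurable_deriv (g j)).norm.pow_const 2).aemeasurable.mul
          (Y.measurable_err.comp_aemeasurable ((hcont j hj).aemeasurable hW))))
    rw [hg]
    exact ENNReal.ofReal_sum_of_nonneg fun j _ => mul_nonneg (by positivity) (Y.err_nonneg _)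
  rw [e1]
  unfold LI
  rw [Finset.sum_congr rfl fun j hj => (lintegral_indicator (hmeas j hj) _).symm,
    ← lintegral_finsetSum _ fun j hj => hu.indicator (hmeas j hj),
    ← lintegral_indicator measurableSet_ball,
    ← lintegral_const_mul _ (hu.indicator measurableSet_ball)]
  refine lintegral_mono fun y => ?_
  obtain ⟨J, hJ⟩ : ∃ J, J = (Finset.range (k + 1)).filter fun j => y ∈ g j '' W := ⟨_, rfl⟩
  have hJ' : ∀ j ∈ J, j ∈ Finset.range (k + 1) ∧ y ∈ g j '' W := fun j hj => by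
    rw [hJ] at hj; exact Finset.mem_filter.1 hj
  have e2 : ∑ j ∈ Finset.range (k + 1), (g j '' W).indicator (fun y => ENNReal.ofReal (Y.err y)) y =
      J.card * ENNReal.ofReal (Y.err y) := by
    rw [hJ, ← nsmul_eq_mul, ← Finset.sum_const, Finset.sum_filter]
    exact Finset.sum_congr rfl fun j _ => indicator_apply _ _ _
  have hcard : J.card ≤ m := by
    refine hm b R {b' | b' ∈ Y.K ∧ b' ≠ b} J g y hR
      (fun j hj => (hgb j (hJ' j hj).1).univ isOpen_ball) (fun j hj j' hj' hne z hz hzz => ?_)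
      (fun t ht => hsep t ht.1 ht.2) fun j hj => ?_
    · have a1 := (hJ' j hj).1
      have a2 := (hJ' j' hj').1
      refine ⟨?_, fun hzb => hne ?_⟩
      · rw [← (hgb j a1).inv z hz, hzz, hgp j' a2]
        exact Y.iter_memK (hpB _) _
      · rw [hzb, hgp j a1, hgp j' a2] at hzz
        have := hpi _ (by omega) _ (by omega) hzz
        rw [Finset.mem_range] at a1 a2
        omega
    · obtain ⟨z, hz, hzy⟩ := (hJ' j hj).2
      exact ⟨z, (hWb z hz).1, fun t ht => (hWb z hz).2 t ht.1 ht.2, hzy⟩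
  rw [e2]
  rcases J.eq_empty_or_nonempty with h0 | ⟨j, hj⟩
  · simp [h0]
  · obtain ⟨a1, z, hz, rfl⟩ := hJ' j hj
    have hy : g j z ∈ ball (0 : ℂ) R' := by
      refine mem_ball_zero_iff.2 (back_ball he hc hR' (k - j) ?_)
      rw [(hgb j a1).inv z (hsub hz)]
      have a2 := mem_ball_iff_norm.1 (hsub hz)
      have a3 := norm_sub_norm_le z b
      linarith
    rw [indicator_of_mem hy]
    exact mul_le_mul_left (Nat.cast_le.2 hcard) _

variable {e : ℕ}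

/-- The ratio, in a form that is holomorphic at the base point. -/
noncomputable def rat (Y : Cy e) (b p : ℂ) (h Z ζ : ℂ → ℂ) (τ₁ τ : ℂ) : ℂ :=
  Y.U p (ζ τ) * (dslope Z τ₁ τ / dslope ζ τ₁ τ) ^ 2 * (deriv h (Z τ) / lam e (ζ τ)) ^ 2 /
    Y.U b (Z τ)

theorem loc_est (he : 1 ≤ e) (Y : Cy e) {b p : ℂ} (hb : b ∈ Y.B) (hp : p ∈ Y.B) {k : ℕ}
    {h : ℂ → ℂ} {R : ℝ} (hBr : Br e Y.c k h (ball b R)) {Z ζ : ℂ → ℂ} {O : Set ℂ} (hO : IsOpen O)
    (dZ : DifferentiableOn ℂ Z O) (dζ : DifferentiableOn ℂ ζ O) (hm : ∀ τ ∈ O, Z τ ∈ ball b R)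
    (hf : ∀ τ ∈ O, fq e Y.c (ζ τ) = h (Z τ)) {τ₁ : ℂ} (hτ₁ : τ₁ ∈ O) (hZ₁ : Z τ₁ = b)
    (hζ₁ : ζ τ₁ = p) {τ₀ : ℂ} {ε : ℝ} (hsub : ball τ₀ ε ⊆ O) (hinj : InjOn Z (ball τ₀ ε))
    {W : Set ℂ} (hW : MapsTo Z (ball τ₀ ε) W) {m C : ℝ} (hm0 : 0 < m)
    (hg : ∀ τ ∈ ball τ₀ ε, (Z τ ∈ Y.B → Z τ = b) ∧ m⁻¹ ≤ ‖Y.U b (Z τ)‖ ∧ ζ τ ≠ 0 ∧
      ‖Z τ - b‖ ≤ C * ‖deriv Z τ‖ ∧ dslope ζ τ₁ τ ≠ 0) :
    DifferentiableOn ℂ (rat Y b p h Z ζ τ₁) (ball τ₀ ε) ∧
      LI (ball τ₀ ε) (fun τ => ‖rat Y b p h Z ζ τ₁ τ‖ + ‖1 - rat Y b p h Z ζ τ₁ τ‖ - 1) ≤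
        ENNReal.ofReal (m * C ^ 2) * LI W (Y.Err k h) := by
  have hiter : ∀ τ ∈ O, (fq e Y.c)^[k + 1] (ζ τ) = Z τ := fun τ hτ => by
    rw [Function.iterate_succ_apply, hf τ hτ, hBr.inv _ (hm τ hτ)]
  have hU0 : ∀ τ ∈ ball τ₀ ε, Y.U b (Z τ) ≠ 0 := fun τ hτ h0 => by
    have := (hg τ hτ).2.1
    rw [h0, norm_zero] at this
    exact absurd (inv_pos.mpr hm0) (not_lt.mpr this)
  constructor
  · have d1 : DifferentiableOn ℂ (dslope Z τ₁) O :=
      (Complex.differentiableOn_dslope (hO.mem_nhds hτ₁)).mpr dZ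
    have d2 : DifferentiableOn ℂ (dslope ζ τ₁) O :=
      (Complex.differentiableOn_dslope (hO.mem_nhds hτ₁)).mpr dζ
    have d3 : DifferentiableOn ℂ (deriv h) (ball b R) := hBr.diff.deriv isOpen_ball
    intro τ hτ
    have hτO := hsub hτ
    have hn := hO.mem_nhds hτO
    obtain ⟨g1, -, g3, -, g5⟩ := hg τ hτ
    have hZ := dZ.differentiableAt hn
    have hζ := dζ.differentiableAt hn
    have e1 : DifferentiableAt ℂ (fun τ => Y.U p (ζ τ)) τ := by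
      refine (Y.U_diff fun hz => ?_).comp τ hζ
      refine Y.iter_inj hz hp (k + 1) ?_
      rw [hiter τ hτO, ← hζ₁, hiter τ₁ hτ₁, hZ₁]
      exact g1 (hiter τ hτO ▸ Y.iter_mem hz (k + 1))
    have e2 : DifferentiableAt ℂ (fun τ => Y.U b (Z τ)) τ := (Y.U_diff g1).comp τ hZ
    have e3 : DifferentiableAt ℂ (fun τ => deriv h (Z τ)) τ :=
      (d3.differentiableAt (isOpen_ball.mem_nhds (hm τ hτO))).comp τ hZ
    have e4 : DifferentiableAt ℂ (fun τ => lam e (ζ τ)) τ := by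
      unfold lam
      fun_prop
    exact (((e1.mul (((d1.differentiableAt hn).div (d2.differentiableAt hn) g5).pow 2)).mul
      ((e3.div e4 (lam_ne g3)).pow 2)).div e2 (hU0 τ hτ)).differentiableWithinAt
  · have hnull : volume {τ ∈ ball τ₀ ε | Z τ = b} = 0 := by
      refine Set.Subsingleton.measure_zero (fun x hx y hy => ?_) _
      exact hinj hx.1 hy.1 (hx.2.trans hy.2.symm)
    have hmC : 0 ≤ m * C ^ 2 := by positivity
    calc _ ≤ LI (ball τ₀ ε) (fun τ => m * C ^ 2 * (‖deriv Z τ‖ ^ 2 * Y.Err k h (Z τ))) := by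
          refine LI_mono_ae measurableSet_ball hnull fun τ hτ hτ' => ?_
          have hτO := hsub hτ
          obtain ⟨g1, g2, g3, g4, g5⟩ := hg τ hτ
          have hZb : Z τ ≠ b := fun h => hτ' ⟨hτ, h⟩
          have hZB : Z τ ∉ Y.B := fun h => hZb (g1 h)
          have hζB : ζ τ ∉ Y.B := fun h => hZB (hiter τ hτO ▸ Y.iter_mem h (k + 1))
          have hne : τ ≠ τ₁ := fun h => hZb (h ▸ hZ₁)
          have hζp : ζ τ - p ≠ 0 := sub_ne_zero.mpr fun h => hζB (h ▸ hp)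
          have hU := hU0 τ hτ
          have hZb' : Z τ - b ≠ 0 := sub_ne_zero.mpr hZb
          have hτ1 : τ - τ₁ ≠ 0 := sub_ne_zero.mpr hne
          have hl := lam_ne (e := e) g3
          have hq : Y.q (Z τ) ≠ 0 := by
            rw [Y.q_eq hb hZB]
            exact div_ne_zero hU (pow_ne_zero _ hZb')
          have hr : rat Y b p h Z ζ τ₁ τ =
              tm e Y.q (ζ τ) * deriv h (Z τ) ^ 2 / Y.q (Z τ) := by
            unfold rat tm
            rw [dslope_of_ne _ hne, dslope_of_ne _ hne, slope_def_field, slope_def_field, hZ₁, hζ₁,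
              Y.q_eq hb hZB, Y.q_eq hp hζB]
            change _ = _ / lam e (ζ τ) ^ 2 * _ / _
            field_simp
          have ht := Y.tele he isOpen_ball hBr (hm τ hτO) hZB g3 (hf τ hτO)
          have hq0 : 0 < ‖Y.q (Z τ)‖ := norm_pos_iff.mpr hq
          have hE : 0 ≤ Y.Err k h (Z τ) :=
            Finset.sum_nonneg fun j _ => mul_nonneg (by positivity) (Y.err_nonneg _)
          have h1 : ‖rat Y b p h Z ζ τ₁ τ‖ + ‖1 - rat Y b p h Z ζ τ₁ τ‖ - 1 ≤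
              Y.Err k h (Z τ) * ‖Y.q (Z τ)‖⁻¹ := by
            rw [hr, one_sub_div hq, norm_div, norm_div, ← add_div, sub_le_iff_le_add,
              div_le_iff₀ hq0, add_mul, inv_mul_cancel_right₀ hq0.ne', one_mul]
            linarith
          have h2 : ‖Y.q (Z τ)‖⁻¹ ≤ m * C ^ 2 * ‖deriv Z τ‖ ^ 2 := by
            rw [Y.q_eq hb hZB, norm_div, norm_pow, inv_div, div_eq_mul_inv]
            have h3 : ‖Y.U b (Z τ)‖⁻¹ ≤ m := inv_le_of_inv_le₀ hm0 g2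
            have h4 : ‖Z τ - b‖ ^ 2 ≤ (C * ‖deriv Z τ‖) ^ 2 := by gcongr
            calc _ ≤ (C * ‖deriv Z τ‖) ^ 2 * m := by gcongr
              _ = _ := by ring
          calc _ ≤ _ := h1
            _ ≤ Y.Err k h (Z τ) * (m * C ^ 2 * ‖deriv Z τ‖ ^ 2) := by gcongr
            _ = _ := by ring
      _ = ENNReal.ofReal (m * C ^ 2) * LI (Z '' ball τ₀ ε) (Y.Err k h) := by
          rw [LI_const_mul _ hmC, LI_image measurableSet_ball
            (fun τ hτ => dZ.hasDerivAt (hO.mem_nhds (hsub hτ))) hinj]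
      _ ≤ _ := by
          gcongr
          exact LI_mono_set hW.image_subset _

end Pool.Agent.MP_1071ec_an

end

-- part MP_1071ec_an.Seq
section

/-! Sequences of cycles whose differentials lose little mass; univalent pull-backs. -/

set_option autoImplicit false

namespace Pool.Agent.MP_1071ec_an

open MeasureTheory Metric Set Real Filter Topology Polynomial
open Pool.Agent.MP_28f8a1_an Pool.Agent.MP_28f8a1_an.H42
open scoped ENNReal


/-- A sequence of cycles with base points, scales and exceptional limit sets. -/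
structure Setup (e : ℕ) where
  𝒰 : Ultrafilter ℕ
  Y : ℕ → Cy e
  p : ℕ → ℕ → ℂ
  r : ℕ → ℝ
  E : Set ℂ
  F : Set ℂ
  pK : ∀ n k, p n k ∈ (Y n).K
  pstep : ∀ n k, fq e (Y n).c (p n (k + 1)) = p n k
  pinj : ∀ n, ∀ i < (Y n).K.card, ∀ j < (Y n).K.card, p n i = p n j → i = j
  rpos : ∀ n, 0 < r n
  rle : ∀ n, r n ≤ 6
  cle : ∀ n, ‖(Y n).c‖ ≤ 6
  ble : ∀ n, ‖p n 0‖ ≤ 3
  iso : ∀ n, ∀ b ∈ (Y n).B, b ≠ p n 0 → r n ≤ ‖b - p n 0‖
  ρlo : ∀ n, 1 / 2 ≤ ‖(Y n).ρ‖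
  ρhi : ∀ n, ‖(Y n).ρ‖ ≤ 2
  ρne : ∀ n, (Y n).ρ ≠ 1
  small : ∀ R, 7 ≤ R → ∀ δ > 0, ∀ᶠ n in (𝒰 : Filter ℕ),
    LI (ball 0 R) (Y n).err ≤ ENNReal.ofReal δ
  rate : ∀ R, 7 ≤ R → ∃ C, 0 ≤ C ∧ ∀ n,
    LI (ball 0 R) (Y n).err ≤ ENNReal.ofReal (C * ‖(Y n).ρ - 1‖)
  Ecl : IsClosed E
  Enull : μH[1] E = 0
  E0 : (0 : ℂ) ∉ E
  Eaway : ∀ x ∉ E, ∃ ε > 0, ∀ᶠ n in (𝒰 : Filter ℕ), ∀ y ∈ ball x ε,
    (p n 0 + r n * y ∈ (Y n).B → p n 0 + r n * y = p n 0) ∧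
    (Y n).N.eval (p n 0 + r n * y) ≠ 0 ∧ (Y n).M.eval (p n 0 + r n * y) ≠ 0 ∧
    ((Y n).M ^ 2 - C 1 * (Y n).N ^ 3).eval (p n 0 + r n * y) ≠ 0
  Fnull : μH[1] F = 0
  Faway : ∀ x ∉ F, ∃ ε > 0, ∀ᶠ n in (𝒰 : Filter ℕ), ∀ y ∈ ball x ε, ∀ j < (Y n).K.card,
    p n 0 + r n * y ≠ cn e (Y n).c j
  touch : ∀ n, ∃ y : ℂ, ‖y‖ = 1 ∧ (p n 0 + r n * y ∈ (Y n).B ∨
    (Y n).N.eval (p n 0 + r n * y) = 0 ∨ (Y n).M.eval (p n 0 + r n * y) = 0 ∨
    ((Y n).M ^ 2 - C 1 * (Y n).N ^ 3).eval (p n 0 + r n * y) = 0)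

namespace Setup

variable {e : ℕ} (σ : Setup e)

theorem pmem (n k : ℕ) : σ.p n k ∈ (σ.Y n).B := (σ.Y n).KB (σ.pK n k)

/-- The rescaled differential times the square of the coordinate. -/
noncomputable def u (n : ℕ) (y : ℂ) : ℂ := (σ.Y n).U (σ.p n 0) (σ.p n 0 + σ.r n * y)

theorem u_zero (n : ℕ) : σ.u n 0 = 1 := by
  simp [u, (σ.Y n).U_self (σ.pK n 0)]

theorem u_diff {n : ℕ} {y : ℂ}
    (h : σ.p n 0 + σ.r n * y ∈ (σ.Y n).B → σ.p n 0 + σ.r n * y = σ.p n 0) :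
    DifferentiableAt ℂ (σ.u n) y :=
  ((σ.Y n).U_diff h).comp y (by fun_prop)

theorem p_iter (n k j : ℕ) : (fq e (σ.Y n).c)^[k] (σ.p n (j + k)) = σ.p n j := by
  induction k with
  | zero => rfl
  | succ k ih => rw [Function.iterate_succ_apply, ← add_assoc, σ.pstep, ih]

theorem p_card (n : ℕ) : σ.p n (σ.Y n).K.card = σ.p n 0 := by
  have := σ.p_iter n (σ.Y n).K.card 0
  rwa [zero_add, (σ.Y n).fix _ (σ.pK n _)] at this

theorem u_bounds : ∀ x ∉ σ.E, ∃ ε > 0, ∃ m > 0, ∀ᶠ n in (σ.𝒰 : Filter ℕ), ∀ y ∈ ball x ε,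
    (σ.p n 0 + σ.r n * y ∈ (σ.Y n).B → σ.p n 0 + σ.r n * y = σ.p n 0) ∧
      m⁻¹ ≤ ‖σ.u n y‖ ∧ ‖σ.u n y‖ ≤ m := by
  intro x hx
  have hc := preconn_diff isOpen_univ isPreconnected_univ σ.Ecl σ.Enull
  obtain ⟨ε, hε, m, hm, h1⟩ := two_sided (l := σ.𝒰) hc ⟨mem_univ _, σ.E0⟩ σ.u_zero (fun x hx => by
    obtain ⟨ε, hε, h⟩ := σ.Eaway x hx.2
    refine ⟨ε, hε, h.mono fun n hn => ⟨fun y hy => (σ.u_diff (hn y hy).1).differentiableWithinAt,
      fun y hy => ?_⟩⟩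
    obtain ⟨g1, g2, g3, g4⟩ := hn y hy
    obtain ⟨k1, k2, k3⟩ := (σ.Y n).chart (σ.pmem n 0) g1
    refine ⟨fun h => g2 (k1.mp h), fun h => g3 (k2.mp h), fun h => g4 ((k3 1).mp ?_)⟩
    rw [one_mul]
    exact h) x ⟨mem_univ _, hx⟩
  obtain ⟨ε', hε', h2⟩ := σ.Eaway x hx
  refine ⟨min ε ε', lt_min hε hε', m, hm, ?_⟩
  filter_upwards [h1, h2] with n g1 g2 y hy
  exact ⟨(g2 y (ball_subset_ball (min_le_right _ _) hy)).1,
    g1 y (ball_subset_ball (min_le_left _ _) hy)⟩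

theorem norm_r (n : ℕ) (y : ℂ) : ‖(σ.r n : ℂ) * y‖ = σ.r n * ‖y‖ := by
  rw [norm_mul, Complex.norm_real, Real.norm_eq_abs, abs_of_pos (σ.rpos n)]

/-- The accumulated error near a good point, uniformly in the branch. -/
theorem loss_le (he : 1 ≤ e) {L : ℝ} {x : ℂ} (hx : x ∉ σ.E) (hxL : ‖x‖ < L) :
    ∃ ε > 0, ∃ m > 0, ∃ M : ℕ, ‖x‖ + ε < L ∧ ∀ᶠ n in (σ.𝒰 : Filter ℕ),
      (∀ y ∈ ball x ε, (σ.p n 0 + σ.r n * y ∈ (σ.Y n).B → σ.p n 0 + σ.r n * y = σ.p n 0) ∧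
        m⁻¹ ≤ ‖σ.u n y‖) ∧
      ∀ k < (σ.Y n).K.card, ∀ h, Br e (σ.Y n).c k h (ball (σ.p n 0) (L * σ.r n)) →
        h (σ.p n 0) = σ.p n k →
        LI (ball (σ.p n 0 + σ.r n * x) (ε * σ.r n)) ((σ.Y n).Err k h) ≤
          M * LI (ball 0 (7 + 6 * L)) (σ.Y n).err := by
  obtain ⟨ε₁, hε₁, m, hm, h1⟩ := σ.u_bounds x hx
  have hL : 0 < L := (norm_nonneg _).trans_lt hxL
  obtain ⟨ε, hε, e1, e2, e3⟩ : ∃ ε > 0, 2 * ε ≤ ε₁ ∧ 2 * ε ≤ L - ‖x‖ ∧ ε ≤ 1 :=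
    ⟨min (min (ε₁ / 2) ((L - ‖x‖) / 2)) 1, by
      have : 0 < L - ‖x‖ := by linarith
      positivity,
      by linarith [min_le_left (min (ε₁ / 2) ((L - ‖x‖) / 2)) 1,
        min_le_left (ε₁ / 2) ((L - ‖x‖) / 2)],
      by linarith [min_le_left (min (ε₁ / 2) ((L - ‖x‖) / 2)) 1,
        min_le_right (ε₁ / 2) ((L - ‖x‖) / 2)], min_le_right _ _⟩
  obtain ⟨M, hM⟩ := LI_Err he (θ := (‖x‖ + ε) / L) (ε := ε / L) (by positivity)
    (by rw [← add_div, div_le_one hL]; linarith)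
  refine ⟨ε, hε, m, hm, M, by linarith, ?_⟩
  filter_upwards [h1] with n g1
  have hr := σ.rpos n
  refine ⟨fun y hy => ?_, fun k hk h hb hh => ?_⟩
  · have := g1 y (ball_subset_ball (by linarith) hy)
    exact ⟨this.1, this.2.1⟩
  have a1 : ε / L * (L * σ.r n) = ε * σ.r n := by field_simp
  have a2 : (‖x‖ + ε) / L * (L * σ.r n) = (‖x‖ + ε) * σ.r n := by field_simp
  refine hM (σ.Y n) (σ.p n 0) (L * σ.r n) (7 + 6 * L) (σ.p n) k h _ (by positivity) (σ.cle n)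
    (by linarith) (by nlinarith [σ.ble n, σ.rle n]) rfl (σ.pK n) (σ.pstep n) (σ.pinj n) hk hb hh
    (fun b' hb' hne => ?_) measurableSet_ball (fun z hz => ⟨?_, fun b' hb' hne => ?_⟩)
  · rw [a1, norm_sub_rev]
    exact le_trans (by nlinarith) (σ.iso n b' ((σ.Y n).KB hb') hne)
  · rw [a2]
    rw [mem_ball, dist_eq_norm] at hz
    calc ‖z - σ.p n 0‖ = ‖(z - (σ.p n 0 + σ.r n * x)) + σ.r n * x‖ := by ring_nf
      _ ≤ ‖z - (σ.p n 0 + σ.r n * x)‖ + ‖(σ.r n : ℂ) * x‖ := norm_add_le _ _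
      _ ≤ _ := by rw [σ.norm_r]; nlinarith
  · rw [a1]
    rw [mem_ball, dist_eq_norm] at hz
    by_contra hlt
    push Not at hlt
    have hr' : (σ.r n : ℂ) ≠ 0 := Complex.ofReal_ne_zero.mpr hr.ne'
    have hy : σ.p n 0 + σ.r n * ((b' - σ.p n 0) / σ.r n) = b' := by field_simp; ring
    refine hne (hy ▸ (g1 ((b' - σ.p n 0) / σ.r n) ?_).1 (hy.symm ▸ (σ.Y n).KB hb'))
    rw [mem_ball, dist_eq_norm]
    refine lt_of_mul_lt_mul_left ?_ hr.le
    rw [← σ.norm_r]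
    calc _ = ‖(z - (σ.p n 0 + σ.r n * x)) - (z - b')‖ := by congr 1; field_simp; ring
      _ ≤ _ := norm_sub_le _ _
      _ < _ := by nlinarith

theorem τ_le (n : ℕ) : ‖(σ.Y n).ρ - 1‖ ≤ 3 := by
  have := norm_sub_le (σ.Y n).ρ 1
  rw [norm_one] at this
  linarith [σ.ρhi n]

theorem τ_pos (n : ℕ) : 0 < ‖(σ.Y n).ρ - 1‖ := norm_pos_iff.mpr (sub_ne_zero.mpr (σ.ρne n))

theorem small_loss' (he : 1 ≤ e) {L : ℝ} {x : ℂ} (hx : x ∉ σ.E) (hxL : ‖x‖ < L) :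
    ∃ ε > 0, ∃ m > 0, ‖x‖ + ε < L ∧ ∀ δ > 0, ∀ᶠ n in (σ.𝒰 : Filter ℕ),
      (∀ y ∈ ball x ε, (σ.p n 0 + σ.r n * y ∈ (σ.Y n).B → σ.p n 0 + σ.r n * y = σ.p n 0) ∧
        m⁻¹ ≤ ‖σ.u n y‖) ∧
      ∀ k < (σ.Y n).K.card, ∀ h, Br e (σ.Y n).c k h (ball (σ.p n 0) (L * σ.r n)) →
        h (σ.p n 0) = σ.p n k →
        LI (ball (σ.p n 0 + σ.r n * x) (ε * σ.r n)) ((σ.Y n).Err k h) ≤ ENNReal.ofReal δ := by
  obtain ⟨ε, hε, m, hm, M, h1, h2⟩ := σ.loss_le he hx hxL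
  have hL : 0 < L := (norm_nonneg _).trans_lt hxL
  refine ⟨ε, hε, m, hm, h1, fun δ hδ => ?_⟩
  filter_upwards [h2, σ.small (7 + 6 * L) (by linarith) (δ / (M + 1)) (by positivity)]
    with n g1 g2
  refine ⟨g1.1, fun k hk h hb hh => (g1.2 k hk h hb hh).trans ?_⟩
  calc (M : ℝ≥0∞) * _ ≤ ENNReal.ofReal M * ENNReal.ofReal (δ / (M + 1)) := by
        rw [ENNReal.ofReal_natCast]
        gcongr
    _ ≤ _ := by
        rw [← ENNReal.ofReal_mul (by positivity)]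
        refine ENNReal.ofReal_le_ofReal ?_
        rw [mul_div_assoc', div_le_iff₀ (by positivity)]
        nlinarith

end Setup

variable {e : ℕ}

theorem rat_self (Y : Cy e) {b p : ℂ} (hb : b ∈ Y.K) (hp : p ∈ Y.K) {h Z ζ : ℂ → ℂ} {τ₁ : ℂ}
    (hZ : Z τ₁ = b) (hζ : ζ τ₁ = p) (h0 : deriv ζ τ₁ ≠ 0)
    (hc : lam e (ζ τ₁) * deriv ζ τ₁ = deriv h (Z τ₁) * deriv Z τ₁) :
    rat Y b p h Z ζ τ₁ τ₁ = 1 := by
  have hl : lam e (ζ τ₁) ≠ 0 := lam_ne (hζ ▸ Y.ne0 p (Y.KB hp))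
  unfold rat
  rw [dslope_same, dslope_same, mul_assoc, ← mul_pow, div_mul_div_comm, mul_comm (deriv Z τ₁),
    ← hc, mul_comm (deriv ζ τ₁), div_self (mul_ne_zero hl h0), hZ, hζ, Y.U_self hb, Y.U_self hp]
  simp

namespace Setup

variable (σ : Setup e)

/-- The affine chart at the base point. -/
noncomputable def A (n : ℕ) (y : ℂ) : ℂ := σ.p n 0 + σ.r n * y

theorem A_deriv (n : ℕ) (y : ℂ) : HasDerivAt (σ.A n) (σ.r n) y := by
  have := ((hasDerivAt_id y).const_mul (σ.r n : ℂ)).const_add (σ.p n 0)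
  rw [mul_one] at this
  exact this

theorem A_zero (n : ℕ) : σ.A n 0 = σ.p n 0 := by simp [A]

theorem r_ne (n : ℕ) : (σ.r n : ℂ) ≠ 0 := Complex.ofReal_ne_zero.mpr (σ.rpos n).ne'

theorem A_inj (n : ℕ) : Function.Injective (σ.A n) := fun _ _ h =>
  mul_left_cancel₀ (σ.r_ne n) (add_left_cancel h)

theorem A_mem {n : ℕ} {x y : ℂ} {ε : ℝ} : σ.A n y ∈ ball (σ.A n x) (ε * σ.r n) ↔ y ∈ ball x ε := by
  rw [mem_ball, mem_ball, dist_eq_norm, dist_eq_norm,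
    show σ.A n y - σ.A n x = σ.r n * (y - x) by simp only [A]; ring, σ.norm_r, mul_comm ε,
    mul_lt_mul_iff_right₀ (σ.rpos n)]

theorem A_mem0 {n : ℕ} {y : ℂ} {L : ℝ} : σ.A n y ∈ ball (σ.p n 0) (L * σ.r n) ↔ ‖y‖ < L := by
  rw [← σ.A_zero n, σ.A_mem, mem_ball_zero_iff]

/-- The ratio for an unbranched pull-back. -/
noncomputable def α (n k : ℕ) (h : ℂ → ℂ) : ℂ → ℂ :=
  rat (σ.Y n) (σ.p n 0) (σ.p n (k + 1)) (fun v => fq e (σ.Y n).c (h v)) (σ.A n)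
    (fun y => h (σ.A n y)) 0

theorem hA_deriv {n k : ℕ} {h : ℂ → ℂ} {L : ℝ}
    (hb : Br e (σ.Y n).c k h (ball (σ.p n 0) (L * σ.r n))) {y : ℂ} (hy : y ∈ ball (0 : ℂ) L) :
    HasDerivAt (fun y => h (σ.A n y)) (deriv h (σ.A n y) * σ.r n) y :=
  (hb.diff.hasDerivAt (isOpen_ball.mem_nhds (σ.A_mem0.mpr (mem_ball_zero_iff.mp hy)))).comp y
    (σ.A_deriv n y)

theorem loc_unb (he : 1 ≤ e) {n k : ℕ} {h : ℂ → ℂ} {L : ℝ} (hL : 0 < L)
    (g2 : Br e (σ.Y n).c (k + 1) h (ball (σ.p n 0) (L * σ.r n)))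
    (g3 : h (σ.p n 0) = σ.p n (k + 1)) {x : ℂ} {ε m C : ℝ} (hm : 0 < m)
    (hsub : ball x ε ⊆ ball 0 L) (g4 : ∀ y ∈ ball x ε,
      (σ.A n y ∈ (σ.Y n).B → σ.A n y = σ.p n 0) ∧ m⁻¹ ≤ ‖σ.u n y‖ ∧ ‖y‖ ≤ C) :
    DifferentiableOn ℂ (fun y => 1 - σ.α n k h y) (ball x ε) ∧
      LI (ball x ε) (fun y => ‖1 - σ.α n k h y‖ - (1 - σ.α n k h y).re) ≤
        ENNReal.ofReal (m * C ^ 2) *
          LI (ball (σ.A n x) (ε * σ.r n)) ((σ.Y n).Err k fun v => fq e (σ.Y n).c (h v)) := by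
  have hu := g2.univ isOpen_ball
  obtain ⟨k1, k2⟩ := loc_est he (σ.Y n) (σ.pmem n 0) (σ.pmem n (k + 1))
    (g2.iter (j := 1) (by omega)) isOpen_ball
    (fun y _ => (σ.A_deriv n y).differentiableAt.differentiableWithinAt)
    (fun y hy => (σ.hA_deriv g2 hy).differentiableAt.differentiableWithinAt)
    (fun y hy => σ.A_mem0.mpr (mem_ball_zero_iff.mp hy)) (fun _ _ => rfl) (mem_ball_self hL)
    (σ.A_zero n) (by rw [σ.A_zero, g3]) hsub (σ.A_inj n).injOn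
    (W := ball (σ.A n x) (ε * σ.r n)) (fun y hy => σ.A_mem.mpr hy) hm (C := C) (fun y hy => by
      have hyL := mem_ball_zero_iff.mp (hsub hy)
      have hyA := σ.A_mem0 (n := n).mpr hyL
      refine ⟨(g4 y hy).1, (g4 y hy).2.1, g2.ne_zero he isOpen_ball (by omega) hyA, ?_, ?_⟩
      · rw [(σ.A_deriv n y).deriv, A, add_sub_cancel_left, norm_mul, mul_comm]
        gcongr
        exact (g4 y hy).2.2
      · by_cases h0 : y = 0
        · rw [h0, dslope_same, (σ.hA_deriv g2 (mem_ball_self hL)).deriv]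
          exact mul_ne_zero (hu.ne _ (h0 ▸ hyA)) (σ.r_ne n)
        · rw [dslope_of_ne _ h0, slope_def_field]
          refine div_ne_zero (sub_ne_zero.mpr fun h1 => h0 (σ.A_inj n ?_)) (by simpa using h0)
          exact hu.inj hyA (σ.A_mem0.mpr (by simpa using hL)) h1)
  exact ⟨(differentiableOn_const _).sub k1,
    (LI_mono measurableSet_ball fun y _ => neg_le_two' _).trans k2⟩

theorem unb_est (he : 1 ≤ e) {L : ℝ} (hL : 0 < L) {k : ℕ → ℕ} {h : ℕ → ℂ → ℂ}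
    (hh : ∀ᶠ n in (σ.𝒰 : Filter ℕ), k n < (σ.Y n).K.card ∧
      Br e (σ.Y n).c (k n + 1) (h n) (ball (σ.p n 0) (L * σ.r n)) ∧
      h n (σ.p n 0) = σ.p n (k n + 1)) :
    (∀ x ∈ ball (0 : ℂ) L \ σ.E, ∃ ε > 0, ∃ C, 0 ≤ C ∧ ∀ᶠ n in (σ.𝒰 : Filter ℕ),
      DifferentiableOn ℂ (fun y => 1 - σ.α n (k n) (h n) y) (ball x ε) ∧
      LI (ball x ε) (fun y => ‖1 - σ.α n (k n) (h n) y‖ - (1 - σ.α n (k n) (h n) y).re) ≤
        ENNReal.ofReal C * LI (ball 0 (7 + 6 * L)) (σ.Y n).err) ∧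
    ∀ᶠ n in (σ.𝒰 : Filter ℕ), 1 - σ.α n (k n) (h n) 0 = 0 := by
  refine ⟨fun x hx => ?_, ?_⟩
  · obtain ⟨ε, hε, m, hm, M, hxε, h1⟩ := σ.loss_le he hx.2 (mem_ball_zero_iff.mp hx.1)
    refine ⟨ε, hε, m * L ^ 2 * M, by positivity, ?_⟩
    filter_upwards [hh, h1] with n ⟨g1, g2, g3⟩ ⟨g4, g5⟩
    have hsub : ball x ε ⊆ ball 0 L := fun y hy => by
      rw [mem_ball_zero_iff]
      rw [mem_ball, dist_eq_norm] at hy
      linarith [norm_le_norm_add_norm_sub' y x]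
    obtain ⟨k1, k2⟩ := σ.loc_unb he hL g2 g3 hm hsub (C := L) fun y hy =>
      ⟨(g4 y hy).1, (g4 y hy).2, (mem_ball_zero_iff.mp (hsub hy)).le⟩
    refine ⟨k1, k2.trans ?_⟩
    rw [ENNReal.ofReal_mul (p := m * L ^ 2) (by positivity), ENNReal.ofReal_natCast, mul_assoc]
    exact mul_le_mul_right (g5 _ g1 (fun v => fq e (σ.Y n).c (h n v)) (g2.iter (j := 1) (by omega))
      (by rw [g3, σ.pstep])) _
  · filter_upwards [hh] with n ⟨_, g2, g3⟩
    have hA : σ.A n 0 ∈ ball (σ.p n 0) (L * σ.r n) := σ.A_mem0.mpr (by simpa using hL)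
    have b1 : Br e (σ.Y n).c (k n) (fun v => fq e (σ.Y n).c (h n v))
        (ball (σ.p n 0) (L * σ.r n)) := g2.iter (j := 1) (by omega)
    rw [α, rat_self (σ.Y n) (σ.pK n 0) (σ.pK n _) (σ.A_zero n) (by rw [σ.A_zero, g3]), sub_self]
    · rw [(σ.hA_deriv g2 (mem_ball_self hL)).deriv]
      exact mul_ne_zero ((g2.univ isOpen_ball).ne _ hA) (σ.r_ne n)
    · exact chain_rule isOpen_ball
        (fun y _ => (σ.A_deriv n y).differentiableAt.differentiableWithinAt)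
        (fun y hy => (σ.hA_deriv g2 hy).differentiableAt.differentiableWithinAt) (fun _ _ => rfl)
        (mem_ball_self hL) (b1.diff.differentiableAt (isOpen_ball.mem_nhds hA))

theorem unbranched' (he : 1 ≤ e) {L : ℝ} {k : ℕ → ℕ} {h : ℕ → ℂ → ℂ}
    (hh : ∀ᶠ n in (σ.𝒰 : Filter ℕ), k n < (σ.Y n).K.card ∧
      Br e (σ.Y n).c (k n + 1) (h n) (ball (σ.p n 0) (L * σ.r n)) ∧
      h n (σ.p n 0) = σ.p n (k n + 1)) :
    ∀ x ∉ σ.E, ‖x‖ < L → ∃ ε > 0, ∀ δ > 0, ∀ᶠ n in (σ.𝒰 : Filter ℕ), ∀ y ∈ ball x ε,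
      ‖1 - σ.α n (k n) (h n) y‖ ≤ δ := by
  intro x hx hxL
  have hL : 0 < L := (norm_nonneg _).trans_lt hxL
  obtain ⟨h1, h2⟩ := σ.unb_est he hL hh
  refine align (l := σ.𝒰) (α := fun n y => 1 - σ.α n (k n) (h n) y)
    (preconn_diff isOpen_ball (convex_ball (0 : ℂ) L).isPreconnected σ.Ecl σ.Enull)
    (fun x hx => ?_) (x₀ := 0) ⟨mem_ball_self hL, σ.E0⟩ h2 x ⟨mem_ball_zero_iff.mpr hxL, hx⟩
  obtain ⟨ε, hε, C, hC, h3⟩ := h1 x hx
  refine ⟨ε, hε, fun δ hδ => ?_⟩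
  filter_upwards [h3, σ.small (7 + 6 * L) (by linarith) (δ / (C + 1)) (by positivity)]
    with n g1 g2
  exact ⟨g1.1, scale_small hC hδ g1.2 g2⟩

/-- The branched pull-back in a uniformising coordinate. -/
theorem branch_data (n : ℕ) {L : ℝ} {k : ℕ} {h : ℂ → ℂ} {x : ℂ}
    (hb : Br e (σ.Y n).c k h (ball (σ.p n 0) (L * σ.r n))) (h0 : h (σ.p n 0) = σ.p n k)
    (hx : ‖x‖ < L) (hc : h (σ.A n x) = (σ.Y n).c) :
    x ≠ 0 ∧ ∃ ζ : ℂ → ℂ, DifferentiableOn ℂ ζ {τ | ‖x * (1 - τ ^ (e + 1))‖ < L} ∧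
      (∀ τ, ‖x * (1 - τ ^ (e + 1))‖ < L →
        fq e (σ.Y n).c (ζ τ) = h (σ.A n (x * (1 - τ ^ (e + 1))))) ∧
      (∀ τ, τ ≠ 0 → ζ τ ≠ 0) ∧ ∀ τ, τ ^ (e + 1) = 1 → ζ τ = τ * σ.p n (k + 1) := by
  have hL : 0 < L := (norm_nonneg _).trans_lt hx
  have hp := (σ.Y n).ne0 _ (σ.pmem n (k + 1))
  have hpow : σ.p n (k + 1) ^ (e + 1) = σ.p n k - (σ.Y n).c := by
    rw [← σ.pstep n k, fq, add_sub_cancel_right]
  have hx0 : x ≠ 0 := by
    rintro rfl
    rw [σ.A_zero, h0] at hc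
    rw [hc, sub_self] at hpow
    exact pow_ne_zero _ hp hpow
  refine ⟨hx0, ?_⟩
  have hu := hb.univ isOpen_ball
  have hxA : σ.A n x ∈ ball (σ.p n 0) (L * σ.r n) := σ.A_mem0.mpr hx
  have dv : DifferentiableOn ℂ (dslope h (σ.A n x)) (ball (σ.p n 0) (L * σ.r n)) :=
    (Complex.differentiableOn_dslope (isOpen_ball.mem_nhds hxA)).mpr hb.diff
  have hv : ∀ z, h z - (σ.Y n).c = (z - σ.A n x) * dslope h (σ.A n x) z := fun z => by
    rw [← hc, ← smul_eq_mul, sub_smul_dslope]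
  obtain ⟨Λ, dΛ, hΛ⟩ := exists_log dv fun z hz => by
    by_cases h1 : z = σ.A n x
    · rw [h1, dslope_same]
      exact hu.ne _ hxA
    · intro h2
      have := hv z
      rw [h2, mul_zero, sub_eq_zero, ← hc] at this
      exact h1 (hu.inj hz hxA this)
  refine ⟨fun τ => τ * σ.p n (k + 1) *
    Complex.exp ((Λ (σ.A n (x * (1 - τ ^ (e + 1)))) - Λ (σ.p n 0)) / (e + 1 : ℕ)), ?_, ?_, ?_, ?_⟩
  · intro τ hτ
    have h1 : DifferentiableAt ℂ (fun τ => Λ (σ.A n (x * (1 - τ ^ (e + 1))))) τ := by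
      refine (dΛ.differentiableAt (isOpen_ball.mem_nhds (σ.A_mem0.mpr hτ))).comp τ
        (f := fun τ => σ.A n (x * (1 - τ ^ (e + 1)))) ?_
      unfold A
      fun_prop
    exact ((differentiableAt_id.mul_const _).mul
      ((h1.sub_const _).div_const _).cexp).differentiableWithinAt
  · intro τ hτ
    have hb0 : σ.p n 0 ∈ ball (σ.p n 0) (L * σ.r n) := mem_ball_self (mul_pos hL (σ.rpos n))
    have h1 := hv (σ.A n (x * (1 - τ ^ (e + 1))))
    have h2 := hv (σ.p n 0)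
    rw [← hΛ _ (σ.A_mem0.mpr hτ)] at h1
    rw [← hΛ _ hb0, h0, ← hpow] at h2
    have hd : ((e + 1 : ℕ) : ℂ) ≠ 0 := Nat.cast_ne_zero.mpr (Nat.succ_ne_zero e)
    rw [fq, mul_pow, mul_pow, ← Complex.exp_nat_mul, mul_div_cancel₀ _ hd, Complex.exp_sub, h2,
      ← eq_sub_iff_add_eq, h1]
    have := Complex.exp_ne_zero (Λ (σ.p n 0))
    simp only [A]
    field_simp
    ring
  · intro τ hτ
    exact mul_ne_zero (mul_ne_zero hτ hp) (Complex.exp_ne_zero _)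
  · intro τ hτ
    simp [hτ, σ.A_zero]

theorem no_branching (he : 1 ≤ e) {L : ℝ} (hF : ∀ x ∈ σ.F, ‖x‖ ≠ L) {k : ℕ → ℕ} {h : ℕ → ℂ → ℂ}
    {x : ℕ → ℂ} (hh : ∀ᶠ n in (σ.𝒰 : Filter ℕ), k n < (σ.Y n).K.card ∧
      Br e (σ.Y n).c (k n) (h n) (ball (σ.p n 0) (L * σ.r n)) ∧
      h n (σ.p n 0) = σ.p n (k n) ∧ ‖x n‖ < L ∧ h n (σ.A n (x n)) = (σ.Y n).c) : False := by
  obtain ⟨x₀, hx₀, hlim⟩ := (isCompact_closedBall (0 : ℂ) L).ultrafilter_le_nhds (σ.𝒰.map x) (by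
    rw [Ultrafilter.coe_map, le_principal_iff, Filter.mem_map]
    filter_upwards [hh] with n hn
    exact mem_closedBall_zero_iff.mpr hn.2.2.2.1.le)
  replace hlim : Tendsto x σ.𝒰 (𝓝 x₀) := hlim
  have hxL : ‖x₀‖ < L := by
    refine lt_of_le_of_ne (mem_closedBall_zero_iff.mp hx₀) (hF _ ?_)
    by_contra hc
    obtain ⟨ε, hε, h1⟩ := σ.Faway _ hc
    obtain ⟨n, ⟨g1, g2, -, g4, g5⟩, g6, g7⟩ :=
      (hh.and (h1.and (hlim.eventually (ball_mem_nhds x₀ hε)))).exists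
    refine g6 _ g7 _ g1 ?_
    have := g2.inv _ (σ.A_mem0.mpr g4)
    rw [g5] at this
    exact this.symm
  have hL : 0 < L := (norm_nonneg _).trans_lt hxL
  have hex : ∀ n, ∃ ζ : ℂ → ℂ, (k n < (σ.Y n).K.card ∧
      Br e (σ.Y n).c (k n) (h n) (ball (σ.p n 0) (L * σ.r n)) ∧
      h n (σ.p n 0) = σ.p n (k n) ∧ ‖x n‖ < L ∧ h n (σ.A n (x n)) = (σ.Y n).c) →
      x n ≠ 0 ∧ DifferentiableOn ℂ ζ {τ | ‖x n * (1 - τ ^ (e + 1))‖ < L} ∧
      (∀ τ, ‖x n * (1 - τ ^ (e + 1))‖ < L →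
        fq e (σ.Y n).c (ζ τ) = h n (σ.A n (x n * (1 - τ ^ (e + 1))))) ∧
      (∀ τ, τ ≠ 0 → ζ τ ≠ 0) ∧ ∀ τ, τ ^ (e + 1) = 1 → ζ τ = τ * σ.p n (k n + 1) := by
    intro n
    by_cases hn : k n < (σ.Y n).K.card ∧
      Br e (σ.Y n).c (k n) (h n) (ball (σ.p n 0) (L * σ.r n)) ∧
      h n (σ.p n 0) = σ.p n (k n) ∧ ‖x n‖ < L ∧ h n (σ.A n (x n)) = (σ.Y n).c
    · obtain ⟨h1, ζ, h2⟩ := σ.branch_data n hn.2.1 hn.2.2.1 hn.2.2.2.1 hn.2.2.2.2
      exact ⟨ζ, fun _ => ⟨h1, h2⟩⟩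
    · exact ⟨0, fun h => absurd h hn⟩
  choose ζ hζ using hex
  set Z : ℕ → ℂ → ℂ := fun n τ => σ.A n (x n * (1 - τ ^ (e + 1))) with hZ
  have dZ : ∀ n τ, HasDerivAt (Z n) (σ.r n * (x n * -lam e τ)) τ := fun n τ => by
    refine (σ.A_deriv n _).comp τ (h := fun τ => x n * (1 - τ ^ (e + 1))) ?_
    simpa [lam] using ((hasDerivAt_pow (e + 1) τ).const_sub 1).const_mul (x n)
  have hO : ∀ n, IsOpen {τ : ℂ | ‖x n * (1 - τ ^ (e + 1))‖ < L} := fun n =>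
    isOpen_lt (by fun_prop) continuous_const
  have hZ1 : ∀ n τ, τ ^ (e + 1) = 1 → Z n τ = σ.p n 0 := fun n τ hτ => by
    simp [hZ, hτ, σ.A_zero]
  have h1O : ∀ n, (1 : ℂ) ∈ {τ : ℂ | ‖x n * (1 - τ ^ (e + 1))‖ < L} := fun n => by simpa using hL
  have hroot : ∀ τ : ℂ, τ ^ (e + 1) = 1 → τ ∈ {τ : ℂ | τ ≠ 0 ∧ ‖x₀ * (1 - τ ^ (e + 1))‖ < L ∧
      x₀ * (1 - τ ^ (e + 1)) ∉ σ.E} := fun τ hτ => by
    refine ⟨?_, by simpa [hτ] using hL, by simpa [hτ] using σ.E0⟩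
    rintro rfl
    simp at hτ
  have hchain : ∀ᶠ n in (σ.𝒰 : Filter ℕ), deriv (ζ n) 1 ≠ 0 ∧
      lam e (ζ n 1) * deriv (ζ n) 1 = deriv (h n) (Z n 1) * deriv (Z n) 1 := by
    filter_upwards [hh] with n hn
    obtain ⟨g1, g2, g3, -, -⟩ := hζ n hn
    have hA : Z n 1 ∈ ball (σ.p n 0) (L * σ.r n) := σ.A_mem0.mpr (h1O n)
    have := chain_rule (hO n) (fun τ _ => (dZ n τ).differentiableAt.differentiableWithinAt) g2 g3
      (h1O n) (hn.2.1.diff.differentiableAt (isOpen_ball.mem_nhds hA))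
    refine ⟨fun h0 => ?_, this⟩
    rw [h0, mul_zero, (dZ n 1).deriv] at this
    exact mul_ne_zero ((hn.2.1.univ isOpen_ball).ne _ hA) (mul_ne_zero (σ.r_ne n)
      (mul_ne_zero g1 (neg_ne_zero.mpr (lam_ne one_ne_zero)))) this.symm
  have hom : om e ≠ 1 := (om_prim e).ne_one (by omega)
  obtain ⟨ε, hε, hfin⟩ := align (l := σ.𝒰)
    (α := fun n => rat (σ.Y n) (σ.p n 0) (σ.p n (k n + 1)) (h n) (Z n) (ζ n) 1)
    (preconn_branch σ.Ecl σ.Enull σ.E0 e hxL) (fun τ₀ hτ₀ => by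
      obtain ⟨ε₁, hε₁, m, hm, hxε, h1⟩ := σ.small_loss' he hτ₀.2.2 hτ₀.2.1
      obtain ⟨ε₂, hε₂, K, hinj, hK⟩ := H42.Setup.pow_local (e := e) hτ₀.1
      have hc : ContinuousAt (fun w : ℂ × ℂ => w.1 * (1 - w.2 ^ (e + 1))) (x₀, τ₀) := by fun_prop
      obtain ⟨ε₃, hε₃, h3⟩ := Metric.eventually_nhds_iff_ball.mp
        (hc.eventually (ball_mem_nhds _ hε₁))
      refine ⟨min ε₂ ε₃, lt_min hε₂ hε₃, fun δ hδ => ?_⟩
      filter_upwards [hh, hchain, h1 (δ / (m * K ^ 2 + 1)) (by positivity),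
        hlim.eventually (ball_mem_nhds x₀ hε₃)] with n hn ⟨c1, _⟩ ⟨g4, g5⟩ g6
      obtain ⟨k1, k2, k3, k4, k5⟩ := hζ n hn
      have hb2 : ball τ₀ (min ε₂ ε₃) ⊆ ball τ₀ ε₂ := ball_subset_ball (min_le_left _ _)
      have hin : ∀ τ ∈ ball τ₀ (min ε₂ ε₃),
          x n * (1 - τ ^ (e + 1)) ∈ ball (x₀ * (1 - τ₀ ^ (e + 1))) ε₁ := fun τ hτ =>
        h3 (x n, τ) (by
          rw [← ball_prod_same]
          exact ⟨g6, ball_subset_ball (min_le_right _ _) hτ⟩)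
      have hsub : ball τ₀ (min ε₂ ε₃) ⊆ {τ : ℂ | ‖x n * (1 - τ ^ (e + 1))‖ < L} := fun τ hτ => by
        have := hin τ hτ
        rw [mem_ball, dist_eq_norm] at this
        have h4 := norm_le_norm_add_norm_sub' (x n * (1 - τ ^ (e + 1))) (x₀ * (1 - τ₀ ^ (e + 1)))
        change _ < L
        linarith
      obtain ⟨l1, l2⟩ := loc_est he (σ.Y n) (σ.pmem n 0) (σ.pmem n (k n + 1)) hn.2.1 (hO n)
        (fun τ _ => (dZ n τ).differentiableAt.differentiableWithinAt) k2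
        (fun τ hτ => σ.A_mem0.mpr hτ) k3 (h1O n) (hZ1 n 1 (one_pow _))
        (by rw [k5 1 (one_pow _), one_mul]) hsub
        (fun a ha b hb hab => hinj (hb2 ha) (hb2 hb)
          (sub_right_injective (mul_left_cancel₀ k1 (σ.A_inj n hab))))
        (W := ball (σ.A n (x₀ * (1 - τ₀ ^ (e + 1)))) (ε₁ * σ.r n))
        (fun τ hτ => σ.A_mem.mpr (hin τ hτ)) hm (C := K) (fun τ hτ => by
          refine ⟨(g4 _ (hin τ hτ)).1, (g4 _ (hin τ hτ)).2, k4 τ (hK τ (hb2 hτ)).1, ?_, ?_⟩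
          · rw [(dZ n τ).deriv]
            simp only [hZ, A, add_sub_cancel_left, norm_mul, norm_neg]
            calc _ ≤ ‖(σ.r n : ℂ)‖ * (‖x n‖ * (K * ‖lam e τ‖)) := by
                  gcongr
                  exact (hK τ (hb2 hτ)).2
              _ = _ := by ring
          · by_cases h0 : τ = 1
            · rwa [h0, dslope_same]
            · rw [dslope_of_ne _ h0, slope_def_field]
              refine div_ne_zero (sub_ne_zero.mpr fun h1 => h0 ?_) (sub_ne_zero.mpr h0)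
              have a1 := k3 τ (hsub hτ)
              rw [h1, k3 1 (h1O n)] at a1
              have a2 := σ.A_inj n ((hn.2.1.univ isOpen_ball).inj (σ.A_mem0.mpr (h1O n))
                (σ.A_mem0.mpr (hsub hτ)) a1)
              have a3 : τ ^ (e + 1) = 1 := by
                have := sub_right_injective (mul_left_cancel₀ k1 a2)
                rw [← this, one_pow]
              rw [k5 τ a3, k5 1 (one_pow _)] at h1
              exact mul_right_cancel₀ ((σ.Y n).ne0 _ (σ.pmem n _)) h1)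
      refine ⟨l1, (LI_mono measurableSet_ball fun y _ => neg_le_two _).trans ?_⟩
      exact scale_small (by positivity) hδ l2 (g5 _ hn.1 _ hn.2.1 hn.2.2.1))
    (hroot _ (om_prim e).pow_eq_one) (Eventually.of_forall fun n => by
      simp only [rat]
      rw [dslope_of_ne (Z n) hom, slope_def_field, hZ1 n _ (om_prim e).pow_eq_one,
        hZ1 n 1 (one_pow _)]
      simp) 1 (hroot 1 (one_pow _))
  obtain ⟨n, hn, ⟨c1, c2⟩, c3⟩ := (hh.and (hchain.and (hfin (1 / 2) (by norm_num)))).exists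
  have := c3 1 (mem_ball_self hε)
  rw [rat_self (σ.Y n) (σ.pK n 0) (σ.pK n _) (hZ1 n 1 (one_pow _))
    (by rw [(hζ n hn).2.2.2.2 1 (one_pow _), one_mul]) c1 c2] at this
  norm_num at this

/-- Univalent pull-backs along the whole cycle exist at every scale. -/
theorem branches (he : 1 ≤ e) (L : ℝ) : ∀ᶠ n in (σ.𝒰 : Filter ℕ), ∀ k ≤ (σ.Y n).K.card,
    ∃ h, Br e (σ.Y n).c k h (ball (σ.p n 0) (L * σ.r n)) ∧ h (σ.p n 0) = σ.p n k := by
  obtain ⟨L', ⟨h1, -⟩, hF⟩ := good_radius σ.Fnull (lt_add_one (max L 0))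
  have hL : 0 < L' := (le_max_right _ _).trans_lt h1
  by_contra hc
  rw [← Ultrafilter.eventually_not] at hc
  have hex : ∀ n, ∃ (k : ℕ) (h : ℂ → ℂ) (x : ℂ), (¬∀ k ≤ (σ.Y n).K.card,
      ∃ h, Br e (σ.Y n).c k h (ball (σ.p n 0) (L * σ.r n)) ∧ h (σ.p n 0) = σ.p n k) →
      k < (σ.Y n).K.card ∧ Br e (σ.Y n).c k h (ball (σ.p n 0) (L' * σ.r n)) ∧
      h (σ.p n 0) = σ.p n k ∧ ‖x‖ < L' ∧ h (σ.A n x) = (σ.Y n).c := by
    intro n
    by_contra hn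
    push Not at hn
    obtain ⟨⟨k, hk, hno⟩, -⟩ := hn 0 0 0
    have key : ∀ j ≤ (σ.Y n).K.card, ∃ h, Br e (σ.Y n).c j h (ball (σ.p n 0) (L' * σ.r n)) ∧
        h (σ.p n 0) = σ.p n j := by
      intro j
      induction j with
      | zero => exact fun _ => ⟨id, ⟨differentiableOn_id, fun _ _ => rfl⟩, rfl⟩
      | succ j ih =>
        intro hj
        obtain ⟨h, hb, h0⟩ := ih (by omega)
        refine br_succ (mul_pos hL (σ.rpos n)) hb (fun z hz hzc => ?_) (by rw [σ.pstep, h0])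
        have hz' : σ.A n ((z - σ.p n 0) / σ.r n) = z := by
          have := σ.r_ne n
          simp only [A]
          field_simp
          ring
        exact (hn j h ((z - σ.p n 0) / σ.r n)).2 (by omega) hb h0
          (σ.A_mem0.mp (hz'.symm ▸ hz)) (hz'.symm ▸ hzc)
    obtain ⟨h, hb, h0⟩ := key k hk
    have hsub : ball (σ.p n 0) (L * σ.r n) ⊆ ball (σ.p n 0) (L' * σ.r n) :=
      ball_subset_ball (mul_le_mul_of_nonneg_right ((le_max_left _ _).trans h1.le) (σ.rpos n).le)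
    exact hno h ⟨hb.diff.mono hsub, fun z hz => hb.inv z (hsub hz)⟩ h0
  choose k h x hx using hex
  exact σ.no_branching he hF (hc.mono hx)

end Setup

end Pool.Agent.MP_1071ec_an

end

-- part MP_1071ec_an.Limit
section

/-! The entire limit; the case that the multipliers stay away from one. -/

set_option autoImplicit false

namespace Pool.Agent.MP_1071ec_an

open MeasureTheory Metric Set Real Filter Topology Polynomial
open Pool.Agent.MP_28f8a1_an Pool.Agent.MP_28f8a1_an.H42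
open scoped ENNReal


variable {e : ℕ}

namespace Setup

variable (σ : Setup e)

/-- The scale at the `k`-th point of the backward orbit. -/
noncomputable def t (n k : ℕ) : ℂ := σ.r n / Pd e (σ.Y n).c (σ.p n k) k

/-- The differential in the affine chart at the `k`-th point. -/
noncomputable def v (n k : ℕ) (y : ℂ) : ℂ := (σ.Y n).U (σ.p n k) (σ.p n k + σ.t n k * y)

theorem t_eq {n k : ℕ} {h : ℂ → ℂ} {R : ℝ} (hR : 0 < R) (hb : Br e (σ.Y n).c k h (ball (σ.p n 0) R))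
    (h0 : h (σ.p n 0) = σ.p n k) : σ.t n k = deriv h (σ.p n 0) * σ.r n ∧ σ.t n k ≠ 0 := by
  have := hb.mul_deriv isOpen_ball (mem_ball_self hR)
  rw [h0] at this
  have h1 : σ.t n k = deriv h (σ.p n 0) * σ.r n := by
    rw [t, div_eq_inv_mul, ← eq_inv_of_mul_eq_one_right this]
  exact ⟨h1, h1 ▸ mul_ne_zero (right_ne_zero_of_mul_eq_one this) (σ.r_ne n)⟩

/-- No other point of the cycle stays at bounded distance. -/
def Alone : Prop := ∀ L : ℝ, ∀ᶠ n in (σ.𝒰 : Filter ℕ), ∀ z ∈ (σ.Y n).B,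
    ‖z - σ.p n 0‖ < L * σ.r n → z = σ.p n 0

theorem alone (he : 1 ≤ e) {η : ℝ} (hη : 0 < η)
    (hne : ∀ᶠ n in (σ.𝒰 : Filter ℕ), η ≤ ‖(σ.Y n).ρ - 1‖) : σ.Alone := by
  intro L
  obtain ⟨s, hs, hs1, hs2⟩ : ∃ s > 0, s < η ∧ s ≤ 1 :=
    ⟨min (η / 2) 1, lt_min (half_pos hη) one_pos,
      (min_le_left _ _).trans_lt (half_lt_self hη), min_le_right _ _⟩
  filter_upwards [σ.branches he (34 * |L| / s + 1), hne] with n hn hη' z hz hzL
  obtain ⟨G, hG, hG0⟩ := hn _ le_rfl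
  rw [σ.p_card] at hG0
  have hr := σ.rpos n
  have hR : 0 < (34 * |L| / s + 1) * σ.r n := by positivity
  have hu := hG.univ isOpen_ball
  have hd := hG.mul_deriv isOpen_ball (mem_ball_self hR)
  rw [hG0, (σ.Y n).mult _ (σ.pK n 0)] at hd
  have hρ := (σ.Y n).rho_ne
  have hn1 : ‖(σ.Y n).ρ‖ * ‖deriv G (σ.p n 0)‖ = 1 := by rw [← norm_mul, hd, norm_one]
  have hn2 : 1 / 2 ≤ ‖deriv G (σ.p n 0)‖ := by
    nlinarith [σ.ρhi n, norm_nonneg (deriv G (σ.p n 0))]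
  have hL : ‖z - σ.p n 0‖ < |L| * σ.r n := hzL.trans_le (by gcongr; exact le_abs_self L)
  have h34 : 34 * |L| ≤ 34 * |L| / s := by
    rw [le_div_iff₀ hs]
    nlinarith [abs_nonneg L]
  obtain ⟨z', hz', hGz⟩ := koebe hR hu (show z ∈ _ by
    rw [mem_ball, dist_eq_norm, hG0]
    refine hL.trans_le ?_
    have : 1 / 2 * ((34 * |L| / s + 1) * σ.r n) ≤
        ‖deriv G (σ.p n 0)‖ * ((34 * |L| / s + 1) * σ.r n) := by gcongr
    nlinarith [abs_nonneg L, mul_le_mul_of_nonneg_right h34 hr.le])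
  have hzz : z' = z := by rw [← hG.inv z' hz', hGz, (σ.Y n).fixB z hz]
  rw [hzz] at hGz
  have := lin_val hR hu (z := z) (η := s) (by linarith) (by
    have : s * ((34 * |L| / s + 1) * σ.r n) = (34 * |L| + s) * σ.r n := by field_simp
    nlinarith)
  rw [hGz, hG0] at this
  by_contra hne
  have h0 : 0 < ‖z - σ.p n 0‖ := norm_pos_iff.mpr (sub_ne_zero.mpr hne)
  have h1 : z - σ.p n 0 - deriv G (σ.p n 0) * (z - σ.p n 0) =
      ((σ.Y n).ρ - 1) * deriv G (σ.p n 0) * (z - σ.p n 0) := by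
    linear_combination (-(z - σ.p n 0)) * hd
  rw [h1, norm_mul, norm_mul] at this
  have h2 := le_of_mul_le_mul_right (le_of_mul_le_mul_right this h0) (by linarith)
  linarith

theorem u_diffOn (ha : σ.Alone) (L : ℝ) : ∀ᶠ n in (σ.𝒰 : Filter ℕ),
    DifferentiableOn ℂ (σ.u n) (ball 0 L) := by
  filter_upwards [ha L] with n hn y hy
  refine (σ.u_diff fun h => hn _ h ?_).differentiableWithinAt
  have := σ.A_mem0 (n := n).mpr (mem_ball_zero_iff.mp hy)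
  rwa [mem_ball, dist_eq_norm] at this

theorem u_sphere {s : ℝ} (hs : ∀ x ∈ σ.E, ‖x‖ ≠ s) : ∃ m : ℝ, ∀ᶠ n in (σ.𝒰 : Filter ℕ),
    ∀ y ∈ sphere (0 : ℂ) s, ‖σ.u n y‖ ≤ m := by
  refine (isCompact_sphere (0 : ℂ) s).induction_on
    (p := fun K => ∃ m : ℝ, ∀ᶠ n in (σ.𝒰 : Filter ℕ), ∀ y ∈ K, ‖σ.u n y‖ ≤ m)
    ⟨0, by simp⟩ ?_ ?_ ?_
  · rintro K K' hK ⟨m, hm⟩
    exact ⟨m, hm.mono fun n hn y hy => hn y (hK hy)⟩
  · rintro K K' ⟨m, hm⟩ ⟨m', hm'⟩
    refine ⟨max m m', ?_⟩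
    filter_upwards [hm, hm'] with n h1 h2 y hy
    exact hy.elim (fun h => (h1 y h).trans (le_max_left _ _))
      fun h => (h2 y h).trans (le_max_right _ _)
  · intro x hx
    obtain ⟨ε, hε, m, -, h⟩ := σ.u_bounds x fun h => hs x h (mem_sphere_zero_iff_norm.mp hx)
    exact ⟨ball x ε, mem_nhdsWithin_of_mem_nhds (ball_mem_nhds x hε), m,
      h.mono fun n hn y hy => (hn y hy).2.2⟩

theorem limit (ha : σ.Alone) : ∃ U : ℂ → ℂ, Differentiable ℂ U ∧ ∀ L η : ℝ, 0 < η →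
    ∀ᶠ n in (σ.𝒰 : Filter ℕ), ∀ y ∈ ball (0 : ℂ) L, ‖σ.u n y - U y‖ ≤ η := by
  refine montel σ.𝒰 fun L => ?_
  obtain ⟨s, ⟨h1, h2⟩, hs⟩ := good_radius σ.Enull (lt_add_one (max L 0))
  obtain ⟨m, hm⟩ := σ.u_sphere hs
  refine ⟨m, ?_⟩
  filter_upwards [hm, σ.u_diffOn ha (max L 0 + 1)] with n g1 g2
  refine ⟨g2.mono (ball_subset_ball (by linarith [le_max_left L 0])), fun y hy => ?_⟩
  refine max_disc ((le_max_right _ _).trans_lt h1) h2 g2 (fun y hy => g1 y ?_) y ?_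
  · simpa using hy
  · rw [sub_zero]
    linarith [mem_ball_zero_iff.mp hy, le_max_left L 0]

/-- The charts at the other points of the cycle contain no further point of the cycle. -/
theorem alone' (he : 1 ≤ e) (ha : σ.Alone) (L : ℝ) : ∀ᶠ n in (σ.𝒰 : Filter ℕ), ∀ k ≤ (σ.Y n).K.card,
    σ.t n k ≠ 0 ∧ ∀ y : ℂ, ‖y‖ < L → σ.p n k + σ.t n k * y ∈ (σ.Y n).B →
      σ.p n k + σ.t n k * y = σ.p n k := by
  filter_upwards [σ.branches he (4 * |L| + 1), ha (4 * |L| + 1)] with n h1 h2 k hk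
  obtain ⟨h, hb, h0⟩ := h1 k hk
  have hr := σ.rpos n
  have hR : 0 < (4 * |L| + 1) * σ.r n := by positivity
  obtain ⟨t1, t2⟩ := σ.t_eq hR hb h0
  refine ⟨t2, fun y hy hB => ?_⟩
  obtain ⟨z, hz, hzz⟩ := koebe hR (hb.univ isOpen_ball) (show σ.p n k + σ.t n k * y ∈ _ by
    have h3 : 0 < ‖deriv h (σ.p n 0)‖ :=
      norm_pos_iff.mpr ((hb.univ isOpen_ball).ne _ (mem_ball_self hR))
    rw [mem_ball, dist_eq_norm, h0, add_sub_cancel_left, t1, mul_assoc, norm_mul, σ.norm_r,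
      mul_div_assoc]
    refine mul_lt_mul_of_pos_left ?_ h3
    nlinarith [le_abs_self L])
  have h3 : z ∈ (σ.Y n).B := by
    rw [← hb.inv z hz, hzz]
    exact (σ.Y n).iter_mem hB k
  rw [← hzz, h2 z h3 (by rwa [mem_ball, dist_eq_norm] at hz), h0]

/-- The same limit is seen from every point of the cycle. -/
theorem limit' (he : 1 ≤ e) (hal : σ.Alone) {U : ℂ → ℂ} (hU : Differentiable ℂ U)
    (hlim : ∀ L η : ℝ, 0 < η →
    ∀ᶠ n in (σ.𝒰 : Filter ℕ), ∀ y ∈ ball (0 : ℂ) L, ‖σ.u n y - U y‖ ≤ η) (L : ℝ) {η : ℝ}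
    (hη : 0 < η) : ∀ᶠ n in (σ.𝒰 : Filter ℕ), ∀ k < (σ.Y n).K.card,
      ∀ y ∈ ball (0 : ℂ) L, ‖σ.v n (k + 1) y - U y‖ ≤ η := by
  obtain ⟨s, ⟨h1, -⟩, hs⟩ := good_radius σ.Enull (lt_add_one (4 * |L|))
  have hs0 : 0 < s := lt_of_le_of_lt (by positivity) h1
  obtain ⟨m, hm⟩ := σ.u_sphere hs
  obtain ⟨δ, hδ, hcont⟩ := Metric.uniformContinuousOn_iff.mp
    ((isCompact_closedBall (0 : ℂ) s).uniformContinuousOn_of_continuous
      hU.continuous.continuousOn) (η / 3) (by positivity)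
  obtain ⟨a, ha, a1, a2, a3⟩ : ∃ a > 0, a ≤ 1 / 10 ∧ 10 * a * |m| ≤ η / 3 ∧ a * s < δ := by
    have c1 : ContinuousAt (fun a : ℝ => 10 * a * |m|) 0 := by fun_prop
    have c2 : ContinuousAt (fun a : ℝ => a * s) 0 := by fun_prop
    have e1 := c1.eventually (gt_mem_nhds (show 10 * (0 : ℝ) * |m| < η / 3 by simpa using hη))
    have e2 := c2.eventually (gt_mem_nhds (show (0 : ℝ) * s < δ by simpa using hδ))
    have e3 : ∀ᶠ a : ℝ in 𝓝 0, a < 1 / 10 := gt_mem_nhds (by norm_num)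
    obtain ⟨a, ⟨g1, g2, g3⟩, g4⟩ :=
      (((e1.and (e2.and e3)).filter_mono nhdsWithin_le_nhds).and
        (self_mem_nhdsWithin (a := (0 : ℝ)) (s := Ioi 0))).exists
    exact ⟨a, g4, g3.le, g1.le, g2⟩
  set R := 34 * s / a with hR
  have hsR : s < R := by
    rw [hR, lt_div_iff₀ ha]
    nlinarith
  by_contra hc
  rw [← Ultrafilter.eventually_not] at hc
  have hex : ∀ n, ∃ (k : ℕ) (h : ℂ → ℂ) (y : ℂ), ((¬∀ k < (σ.Y n).K.card,
      ∀ y ∈ ball (0 : ℂ) L, ‖σ.v n (k + 1) y - U y‖ ≤ η) ∧ ∀ k ≤ (σ.Y n).K.card,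
      ∃ h, Br e (σ.Y n).c k h (ball (σ.p n 0) (R * σ.r n)) ∧ h (σ.p n 0) = σ.p n k) →
      (k < (σ.Y n).K.card ∧ Br e (σ.Y n).c (k + 1) h (ball (σ.p n 0) (R * σ.r n)) ∧
        h (σ.p n 0) = σ.p n (k + 1)) ∧ ‖y‖ < L ∧ η < ‖σ.v n (k + 1) y - U y‖ := by
    intro n
    by_contra hn
    push Not at hn
    obtain ⟨⟨⟨k, hk, y, hy, g1⟩, g2⟩, -⟩ := hn 0 0 0
    obtain ⟨h, hb, h0⟩ := g2 (k + 1) hk
    exact absurd ((hn k h y).2 ⟨hk, hb, h0⟩ (mem_ball_zero_iff.mp hy)) (not_le.mpr g1)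
  choose k h y hx using hex
  have hev := (hc.and (σ.branches he R)).mono hx
  have hα : ∀ᶠ n in (σ.𝒰 : Filter ℕ), ∀ x ∈ sphere (0 : ℂ) s, ‖1 - σ.α n (k n) (h n) x‖ ≤ a := by
    refine ev_compact (isCompact_sphere _ _) fun x hx => ?_
    have hxs := mem_sphere_zero_iff_norm.mp hx
    obtain ⟨ε, hε, g⟩ := σ.unbranched' he (hev.mono fun n hn => hn.1) x (fun h => hs x h hxs)
      (hxs ▸ hsR)
    exact ⟨ε, hε, g a ha⟩
  obtain ⟨n, ⟨⟨g1, hb, h0⟩, g2, g3⟩, g4, g5, g6, g7⟩ :=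
    (hev.and (hα.and (hm.and ((hlim R (η / 3) (by positivity)).and (hal R))))).exists
  have hr := σ.rpos n
  have hR0 : 0 < R * σ.r n := mul_pos (hs0.trans hsR) hr
  have hu := hb.univ isOpen_ball
  obtain ⟨t1, t2⟩ := σ.t_eq hR0 hb h0
  have hd0 : deriv (h n) (σ.p n 0) ≠ 0 := hu.ne _ (mem_ball_self hR0)
  have h34 : ∀ x : ℂ, ‖x‖ ≤ s → 34 * ‖σ.A n x - σ.p n 0‖ ≤ a * (R * σ.r n) := fun x hx => by
    rw [A, add_sub_cancel_left, σ.norm_r, hR, show a * (34 * s / a * σ.r n) = 34 * (σ.r n * s) by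
      field_simp]
    gcongr
  have hval : ∀ x : ℂ, ‖x‖ ≤ s →
      ‖h n (σ.A n x) - σ.p n (k n + 1) - σ.t n (k n + 1) * x‖ ≤ a * (‖σ.t n (k n + 1)‖ * ‖x‖) :=
    fun x hx => by
      have := lin_val hR0 hu (η := a) (by linarith) (h34 x hx)
      rw [h0, A, add_sub_cancel_left, ← mul_assoc, ← t1, mul_assoc, ← norm_mul, ← mul_assoc, ← t1,
        norm_mul] at this
      exact this
  have hW : ∀ x : ℂ, ‖x - 0‖ ≤ s →
      ‖(σ.Y n).U (σ.p n (k n + 1)) (h n (σ.A n x)) - U x‖ ≤ 10 * a * |m| + η / 3 := by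
    refine max_disc hs0 hsR (fun x hx => ?_) fun x hx => ?_
    · have hxA := σ.A_mem0 (n := n).mpr (mem_ball_zero_iff.mp hx)
      refine (DifferentiableAt.sub (((σ.Y n).U_diff fun hB => ?_).comp x
        ((hb.diff.differentiableAt (isOpen_ball.mem_nhds hxA)).comp x
          (σ.A_deriv n x).differentiableAt)) (hU x)).differentiableWithinAt
      have : σ.A n x ∈ (σ.Y n).B := by
        rw [← hb.inv _ hxA]
        exact (σ.Y n).iter_mem hB _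
      change h n (σ.A n x) = _
      rw [g7 _ this (by rwa [mem_ball, dist_eq_norm] at hxA), h0]
    · rw [sub_zero] at hx
      have hx0 : x ≠ 0 := by
        rintro rfl
        simp at hx
        exact hs0.ne hx
      have hxA := σ.A_mem0 (n := n).mpr (hx ▸ hsR)
      have htx : σ.t n (k n + 1) * x ≠ 0 := mul_ne_zero t2 hx0
      have hz0 := hb.ne_zero he isOpen_ball (by omega) hxA
      have hne : h n (σ.A n x) - σ.p n (k n + 1) ≠ 0 := by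
        rw [← h0]
        refine sub_ne_zero.mpr fun h1 => hx0 (σ.A_inj n ?_)
        rw [σ.A_zero]
        exact hu.inj hxA (mem_ball_self hR0) h1
      have hu0 : σ.u n x ≠ 0 := by
        intro h1
        have := g4 x (mem_sphere_zero_iff_norm.mpr hx)
        change ‖1 - _ / σ.u n x‖ ≤ a at this
        rw [h1, div_zero, sub_zero, norm_one] at this
        linarith
      refine H42.Setup.ratio_est (a := σ.α n (k n) (h n) x) (u := σ.u n x)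
        (θ₁ := (h n (σ.A n x) - σ.p n (k n + 1)) / (σ.t n (k n + 1) * x))
        (θ₂ := deriv (h n) (σ.A n x) / deriv (h n) (σ.p n 0)) ha a1 ?_ ?_
        (g4 x (mem_sphere_zero_iff_norm.mpr hx))
        ((g5 x (mem_sphere_zero_iff_norm.mpr hx)).trans (le_abs_self m))
        (g6 x (mem_ball_zero_iff.mpr (hx ▸ hsR))) ?_
      · rw [div_sub_one htx, norm_div, div_le_iff₀ (norm_pos_iff.mpr htx), norm_mul]
        exact hval x hx.le
      · rw [div_sub_one hd0, norm_div, div_le_iff₀ (norm_pos_iff.mpr hd0)]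
        exact lin_deriv hR0 hu (by linarith) (h34 x hx.le)
      · have hder : deriv (fun v => fq e (σ.Y n).c (h n v)) (σ.A n x) =
            lam e (h n (σ.A n x)) * deriv (h n) (σ.A n x) :=
          ((fq_deriv _).comp _ (hb.diff.hasDerivAt (isOpen_ball.mem_nhds hxA))).deriv
        have hl := lam_ne (e := e) hz0
        have hr' := σ.r_ne n
        change _ = _ / σ.u n x * _ * _
        rw [dslope_of_ne _ hx0, dslope_of_ne _ hx0, slope_def_field, slope_def_field, hder,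
          σ.A_zero, h0, t1, show σ.A n x - σ.p n 0 = σ.r n * x by simp [A], sub_zero]
        field_simp
  have hs' : 0 < s * σ.r n := mul_pos hs0 hr
  obtain ⟨z, hz, hzz⟩ := koebe hs' (hu.mono (ball_subset_ball (by gcongr)))
    (show σ.p n (k n + 1) + σ.t n (k n + 1) * y n ∈ _ by
      rw [mem_ball, dist_eq_norm, h0, add_sub_cancel_left, t1, mul_assoc, norm_mul, σ.norm_r,
        mul_div_assoc]
      refine mul_lt_mul_of_pos_left ?_ (norm_pos_iff.mpr hd0)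
      nlinarith [le_abs_self L])
  have hz' : σ.A n ((z - σ.p n 0) / σ.r n) = z := by
    have := σ.r_ne n
    simp only [A]
    field_simp
    ring
  set x := (z - σ.p n 0) / σ.r n
  have hxs : ‖x‖ < s := σ.A_mem0.mp (hz'.symm ▸ hz)
  have k1 := hW x (by rw [sub_zero]; exact hxs.le)
  have k2 := hval x hxs.le
  rw [hz', hzz] at k1 k2
  rw [add_sub_cancel_left, ← mul_sub, norm_mul, mul_left_comm] at k2
  have k3 := le_of_mul_le_mul_left k2 (norm_pos_iff.mpr t2)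
  have k4 := hcont x (mem_closedBall_zero_iff.mpr hxs.le) (y n)
    (mem_closedBall_zero_iff.mpr (by linarith [le_abs_self L, abs_nonneg L])) (by
      rw [dist_eq_norm, norm_sub_rev]
      nlinarith)
  rw [dist_eq_norm] at k4
  have k5 := norm_sub_le_norm_sub_add_norm_sub (σ.v n (k n + 1) (y n)) (U x) (U (y n))
  change ‖σ.v n (k n + 1) (y n) - U x‖ ≤ _ at k1
  linarith



/-- Solutions near every point of `T` in every chart give many different points. -/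
theorem count (he : 1 ≤ e) (ha : σ.Alone) (T : Finset ℂ) {Q : ℕ → ℂ → Prop}
    (h : ∀ x ∈ T, ∀ ε > 0, ∀ᶠ n in (σ.𝒰 : Filter ℕ), ∀ k < (σ.Y n).K.card, ∃ y ∈ ball x ε,
      Q n (σ.p n (k + 1) + σ.t n (k + 1) * y)) :
    ∃ n, ∃ Z : Finset ℂ, Z.card = T.card * (σ.Y n).K.card ∧ ∀ z ∈ Z, Q n z := by
  classical
  obtain ⟨ε, hε, hε1, hsep⟩ : ∃ ε > 0, ε ≤ 1 ∧ ∀ x ∈ T, ∀ x' ∈ T, x ≠ x' → 2 * ε ≤ ‖x - x'‖ := by
    have : ∀ᶠ ε : ℝ in 𝓝 0, ∀ w ∈ T ×ˢ T, w.1 ≠ w.2 → 2 * ε ≤ ‖w.1 - w.2‖ := by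
      refine (Filter.eventually_all_finset _).mpr fun w _ => ?_
      by_cases hw : w.1 = w.2
      · exact Eventually.of_forall fun _ h => absurd hw h
      · have c1 : ContinuousAt (fun a : ℝ => 2 * a) 0 := by fun_prop
        exact (c1.eventually (gt_mem_nhds (show 2 * (0 : ℝ) < ‖w.1 - w.2‖ by
          simpa [sub_eq_zero] using hw))).mono fun a ha _ => ha.le
    obtain ⟨a, ⟨g1, g2⟩, g3⟩ := (((this.and (gt_mem_nhds (zero_lt_one' ℝ))).filter_mono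
      nhdsWithin_le_nhds).and (self_mem_nhdsWithin (a := (0 : ℝ)) (s := Ioi 0))).exists
    exact ⟨a, g3, g2.le, fun x hx x' hx' => g1 (x, x') (Finset.mk_mem_product hx hx')⟩
  obtain ⟨L, hL⟩ := T.finite_toSet.isBounded.subset_ball 0
  obtain ⟨n, g1, g2⟩ := (((Filter.eventually_all_finset T).mpr fun x hx => h x hx ε hε).and
    (σ.alone' he ha (2 * (L + 1)))).exists
  have hex : ∀ w : ℂ × ℕ, ∃ y, w ∈ T ×ˢ Finset.range (σ.Y n).K.card → y ∈ ball w.1 ε ∧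
      Q n (σ.p n (w.2 + 1) + σ.t n (w.2 + 1) * y) := fun w => by
    by_cases hw : w ∈ T ×ˢ Finset.range (σ.Y n).K.card
    · obtain ⟨y, hy⟩ := g1 w.1 (Finset.mem_product.mp hw).1 w.2
        (Finset.mem_range.mp (Finset.mem_product.mp hw).2)
      exact ⟨y, fun _ => hy⟩
    · exact ⟨0, fun h => absurd h hw⟩
  choose y hy using hex
  have hyL : ∀ w ∈ T ×ˢ Finset.range (σ.Y n).K.card, ‖y w‖ < L + 1 := fun w hw => by
    have a1 := (hy w hw).1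
    have a2 := mem_ball_zero_iff.mp (hL (Finset.mem_product.mp hw).1)
    rw [mem_ball, dist_eq_norm] at a1
    linarith [norm_le_norm_add_norm_sub' (y w) w.1]
  have key : ∀ w ∈ T ×ˢ Finset.range (σ.Y n).K.card, ∀ w' ∈ T ×ˢ Finset.range (σ.Y n).K.card,
      ‖σ.t n (w'.2 + 1)‖ ≤ ‖σ.t n (w.2 + 1)‖ →
      σ.p n (w.2 + 1) + σ.t n (w.2 + 1) * y w = σ.p n (w'.2 + 1) + σ.t n (w'.2 + 1) * y w' →
      w = w' := by
    intro w hw w' hw' hle heq
    have k1 := Finset.mem_range.mp (Finset.mem_product.mp hw).2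
    have k2 := Finset.mem_range.mp (Finset.mem_product.mp hw').2
    obtain ⟨t0, ht⟩ := g2 (w.2 + 1) k1
    have h1 : σ.p n (w.2 + 1) + σ.t n (w.2 + 1) *
        (y w - σ.t n (w'.2 + 1) / σ.t n (w.2 + 1) * y w') = σ.p n (w'.2 + 1) := by
      field_simp
      linear_combination heq
    have h2 := ht (y w - σ.t n (w'.2 + 1) / σ.t n (w.2 + 1) * y w') (by
      refine (norm_sub_le _ _).trans_lt ?_
      rw [norm_mul, norm_div]
      have a1 : ‖σ.t n (w'.2 + 1)‖ / ‖σ.t n (w.2 + 1)‖ ≤ 1 := div_le_one_of_le₀ hle (norm_nonneg _)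
      nlinarith [hyL w hw, hyL w' hw', norm_nonneg (y w')]) (h1 ▸ σ.pmem n _)
    rw [h1] at h2
    have h3 : w'.2 = w.2 := σ.pinj n _ k2 _ k1 (by rw [← σ.pstep, h2, σ.pstep])
    rw [h3] at heq
    have h4 := mul_left_cancel₀ t0 (add_left_cancel heq)
    refine Prod.ext ?_ h3.symm
    by_contra hne
    have a1 := hsep _ (Finset.mem_product.mp hw).1 _ (Finset.mem_product.mp hw').1 hne
    have a2 := (hy w hw).1
    have a3 := (hy w' hw').1
    rw [mem_ball, dist_eq_norm] at a2 a3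
    rw [← h4] at a3
    have := norm_sub_le_norm_sub_add_norm_sub w.1 (y w) w'.1
    rw [norm_sub_rev] at a2
    linarith
  refine ⟨n, (T ×ˢ Finset.range (σ.Y n).K.card).image
    fun w => σ.p n (w.2 + 1) + σ.t n (w.2 + 1) * y w, ?_, fun z hz => ?_⟩
  · rw [Finset.card_image_of_injOn, Finset.card_product, Finset.card_range]
    intro w hw w' hw' heq
    rcases le_total ‖σ.t n (w'.2 + 1)‖ ‖σ.t n (w.2 + 1)‖ with hle | hle
    · exact key w hw w' hw' hle heq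
    · exact (key w' hw' w hw hle heq.symm).symm
  · obtain ⟨w, hw, rfl⟩ := Finset.mem_image.mp hz
    exact (hy w hw).2

theorem lim_zero {U : ℂ → ℂ} (hlim : ∀ L η : ℝ, 0 < η →
    ∀ᶠ n in (σ.𝒰 : Filter ℕ), ∀ y ∈ ball (0 : ℂ) L, ‖σ.u n y - U y‖ ≤ η) : U 0 = 1 := by
  refine eq_of_norm_sub_le_zero (le_of_forall_pos_le_add fun η hη => ?_)
  obtain ⟨n, hn⟩ := (hlim 1 η hη).exists
  have := hn 0 (mem_ball_self one_pos)
  rwa [σ.u_zero, norm_sub_rev, ← zero_add η] at this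

theorem sol (he : 1 ≤ e) (ha : σ.Alone) {U : ℂ → ℂ} (hU : Differentiable ℂ U)
    (hlim : ∀ L η : ℝ, 0 < η →
      ∀ᶠ n in (σ.𝒰 : Filter ℕ), ∀ y ∈ ball (0 : ℂ) L, ‖σ.u n y - U y‖ ≤ η) :
    ∀ w : ℂ, w ≠ 4 → ∀ x : ℂ, ∀ ε > 0, ∀ᶠ n in (σ.𝒰 : Filter ℕ), ∀ k < (σ.Y n).K.card,
      (U x = 0 → ∃ y ∈ ball x ε, (σ.Y n).N.eval (σ.p n (k + 1) + σ.t n (k + 1) * y) = 0) ∧
      (Eu U x ^ 2 = w * U x ^ 3 → ∃ y ∈ ball x ε, ((σ.Y n).M ^ 2 - C w * (σ.Y n).N ^ 3).eval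
        (σ.p n (k + 1) + σ.t n (k + 1) * y) = 0) := by
  have hU0 := σ.lim_zero hlim
  intro w hw x ε hε
  obtain ⟨η, hη, h1⟩ := hurwitz hU hU0 hw x (lt_min hε one_pos)
  filter_upwards [σ.limit' he ha hU hlim (‖x‖ + 2) hη, σ.alone' he ha (‖x‖ + 2)] with n g1 g2 k hk
  obtain ⟨-, g3⟩ := g2 (k + 1) hk
  obtain ⟨a1, a2⟩ := h1 (σ.v n (k + 1)) (fun y hy =>
    (((σ.Y n).U_diff (g3 y (mem_ball_zero_iff.mp hy))).comp y
      (by fun_prop)).differentiableWithinAt) (g1 k hk)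
  have hy : ∀ y ∈ ball x (min ε 1), ‖y‖ < ‖x‖ + 2 := fun y hy => by
    rw [mem_ball, dist_eq_norm] at hy
    linarith [norm_le_norm_add_norm_sub' y x, min_le_right ε 1]
  refine ⟨fun h => ?_, fun h => ?_⟩
  · obtain ⟨y, b1, b2⟩ := a1 h
    exact ⟨y, ball_subset_ball (min_le_left _ _) b1,
      ((σ.Y n).chart (σ.pmem n _) (g3 y (hy y b1))).1.mp b2⟩
  · obtain ⟨y, b1, b2⟩ := a2 h
    exact ⟨y, ball_subset_ball (min_le_left _ _) b1,
      (((σ.Y n).chart (σ.pmem n _) (g3 y (hy y b1))).2.2 w).mp b2⟩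

theorem finish (he : 1 ≤ e) (ha : σ.Alone) {U : ℂ → ℂ} (hU : Differentiable ℂ U)
    (hlim : ∀ L η : ℝ, 0 < η →
      ∀ᶠ n in (σ.𝒰 : Filter ℕ), ∀ y ∈ ball (0 : ℂ) L, ‖σ.u n y - U y‖ ≤ η)
    (hne : ∀ x, U x ≠ 0) : False := by
  classical
  have hU0 := σ.lim_zero hlim
  have hsol := σ.sol he ha hU hlim
  have hone := entire_one hU hU0 hne fun w hw T hT => by
    obtain ⟨n, Z, h1, h2⟩ := σ.count he ha T
      (Q := fun n z => ((σ.Y n).M ^ 2 - C w * (σ.Y n).N ^ 3).eval z = 0)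
      (fun x hx ε hε => (hsol w hw x ε hε).mono fun n hn k hk => (hn k hk).2 (hT x hx))
    have := (σ.Y n).W_card he hw h2
    rw [h1] at this
    have := lt_of_mul_lt_mul_right this (Nat.zero_le _)
    omega
  obtain ⟨η, hη, h1⟩ := near_one
  obtain ⟨n, g1, g2, g3⟩ := ((hlim 2 η hη).and ((σ.u_diffOn ha 2).and (ha 2))).exists
  obtain ⟨y, hy, h2⟩ := σ.touch n
  obtain ⟨a1, a2, a3⟩ := h1 (σ.u n) g2 (fun y hy => hone y ▸ g1 y hy) y hy
  have hr := σ.rpos n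
  have hB : σ.p n 0 + σ.r n * y ∉ (σ.Y n).B := fun h => by
    have := g3 _ h (by rw [add_sub_cancel_left, σ.norm_r, hy]; linarith)
    rw [add_eq_left, mul_eq_zero] at this
    rcases this with h | h
    · exact σ.r_ne n h
    · simp [h] at hy
  obtain ⟨k1, k2, k3⟩ := (σ.Y n).chart (σ.pmem n 0) (t := σ.r n) (y := y) fun h => absurd h hB
  rcases h2 with h | h | h | h
  · exact hB h
  · exact a1 (k1.mpr h)
  · exact a2 (k2.mpr h)
  · exact a3 (((k3 1).mpr h).trans (one_mul _))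

/-- The case that the multipliers stay away from `1`. -/
theorem case_ne (he : 1 ≤ e) {ρ : ℂ} (hρ : Tendsto (fun n => (σ.Y n).ρ) σ.𝒰 (𝓝 ρ))
    (hρ1 : ρ ≠ 1) : False := by
  classical
  have hη : 0 < ‖ρ - 1‖ := norm_pos_iff.mpr (sub_ne_zero.mpr hρ1)
  have ha := σ.alone he (half_pos hη) (((hρ.sub_const 1).norm.eventually
    (lt_mem_nhds (half_lt_self hη))).mono fun n hn => hn.le)
  obtain ⟨U, hU, hlim⟩ := σ.limit ha
  have hU0 := σ.lim_zero hlim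
  have hsol := σ.sol he ha hU hlim
  refine σ.finish he ha hU hlim ?_
  intro x hx
  have hx0 : x ≠ 0 := by
    rintro rfl
    simp [hU0] at hx
  have hρ0 : ρ ≠ 0 := norm_pos_iff.mp
    (one_half_pos.trans_le (ge_of_tendsto' hρ.norm σ.ρlo))
  have ht : Tendsto (fun n => x / (σ.Y n).ρ) σ.𝒰 (𝓝 (x / ρ)) := tendsto_const_nhds.div hρ hρ0
  have hx' : U (x / ρ) = 0 := by
    refine norm_le_zero_iff.mp (le_of_forall_pos_le_add fun η hη => ?_)
    obtain ⟨n, g1, g2, g3, g4⟩ := ((σ.limit' he ha hU hlim (‖x‖ + 1) (η := η / 3) (by positivity)).and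
      ((hlim (‖x / ρ‖ + 1) (η / 3) (by positivity)).and
        ((ht.norm.eventually (gt_mem_nhds (lt_add_one _))).and
          (((hU.continuous.tendsto _).comp ht).eventually
            (ball_mem_nhds _ (show 0 < η / 3 by positivity)))))).exists
    have hP : 0 < (σ.Y n).K.card := (σ.Y n).ne.card_pos
    have a1 := g1 ((σ.Y n).K.card - 1) (by omega) x (by simp)
    rw [Nat.sub_add_cancel hP, v, t, σ.p_card, (σ.Y n).mult _ (σ.pK n 0), hx, sub_zero,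
      div_mul_eq_mul_div, mul_div_assoc] at a1
    have a2 := g2 _ (mem_ball_zero_iff.mpr g3)
    rw [dist_eq_norm, norm_sub_rev] at g4
    have a3 := norm_sub_le_norm_sub_add_norm_sub (U (x / ρ)) (U (x / (σ.Y n).ρ))
      (σ.u n (x / (σ.Y n).ρ))
    have a4 := norm_le_norm_add_norm_sub' (U (x / ρ)) (σ.u n (x / (σ.Y n).ρ))
    rw [norm_sub_rev] at a2
    change ‖σ.u n (x / (σ.Y n).ρ)‖ ≤ _ at a1
    change ‖U (x / ρ) - U (x / (σ.Y n).ρ)‖ < _ at g4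
    linarith
  have hxx : x ≠ x / ρ := fun h => hρ1 (by
    field_simp at h
    exact h)
  obtain ⟨n, Z, h1, h2⟩ := σ.count he ha {x, x / ρ} (Q := fun n z => (σ.Y n).N.eval z = 0)
    (fun x' hx'' ε hε => (hsol 0 (by norm_num) x' ε hε).mono fun n hn k hk => (hn k hk).1 (by
      rcases Finset.mem_insert.mp hx'' with rfl | h
      · exact hx
      · rw [Finset.mem_singleton.mp h, hx']))
  rw [Finset.card_pair hxx] at h1
  exact absurd ((σ.Y n).N_card he h2) (by omega)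

end Setup

end Pool.Agent.MP_1071ec_an

end

-- part MP_1071ec_an.Par
section

/-! The case that the multipliers tend to `1`. -/

set_option autoImplicit false

namespace Pool.Agent.MP_1071ec_an

open MeasureTheory Metric Set Real Filter Topology Polynomial
open Pool.Agent.MP_28f8a1_an Pool.Agent.MP_28f8a1_an.H42
open scoped ENNReal

/-- The accumulated error under a multiplicity bound. -/
theorem LI_Err' {e : ℕ} (he : 1 ≤ e) (Y : Cy e) {b : ℂ} {R : ℝ} {k m : ℕ} {h : ℂ → ℂ} {W : Set ℂ}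
    (hc : ‖Y.c‖ ≤ 6) (hR : ‖b‖ + R ≤ 7) (hb : Br e Y.c k h (ball b R)) (hW : MeasurableSet W)
    (hsub : W ⊆ ball b R) (hm : ∀ (v : ℂ) (J : Finset ℕ),
      (∀ j ∈ J, j ≤ k ∧ ∃ z ∈ W, (fq e Y.c)^[j] (h z) = v) → J.card ≤ m) :
    LI W (Y.Err k h) ≤ m * LI (ball 0 7) Y.err := by
  classical
  obtain ⟨g, hg⟩ : ∃ g : ℕ → ℂ → ℂ, g = fun j v => (fq e Y.c)^[j] (h v) := ⟨_, rfl⟩
  have hgb : ∀ j ∈ Finset.range (k + 1), Br e Y.c (k - j) (g j) (ball b R) := fun j hj => by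
    rw [hg]; exact hb.iter (Nat.lt_succ_iff.1 (Finset.mem_range.1 hj))
  have hcont : ∀ j ∈ Finset.range (k + 1), ContinuousOn (g j) W := fun j hj =>
    (hgb j hj).diff.continuousOn.mono hsub
  have hinj : ∀ j ∈ Finset.range (k + 1), InjOn (g j) W := fun j hj =>
    ((hgb j hj).univ isOpen_ball).inj.mono hsub
  have hmeas : ∀ j ∈ Finset.range (k + 1), MeasurableSet (g j '' W) := fun j hj =>
    hW.image_of_continuousOn_injOn (hcont j hj) (hinj j hj)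
  have hu : Measurable fun y => ENNReal.ofReal (Y.err y) := Y.measurable_err.ennreal_ofReal
  have e1 : LI W (Y.Err k h) = ∑ j ∈ Finset.range (k + 1), LI (g j '' W) Y.err := by
    rw [Finset.sum_congr rfl fun j hj => LI_image hW (h' := deriv (g j))
      (fun z hz => (hgb j hj).diff.hasDerivAt (isOpen_ball.mem_nhds (hsub hz))) (hinj j hj) Y.err]
    unfold LI
    refine Eq.trans (lintegral_congr fun z => ?_) (lintegral_finsetSum' (μ := volume.restrict W)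
      (f := fun j z => ENNReal.ofReal (‖deriv (g j) z‖ ^ 2 * Y.err (g j z))) _
      fun j hj => AEMeasurable.ennreal_ofReal
        (((measurable_deriv (g j)).norm.pow_const 2).aemeasurable.mul
          (Y.measurable_err.comp_aemeasurable ((hcont j hj).aemeasurable hW))))
    rw [hg]
    exact ENNReal.ofReal_sum_of_nonneg fun j _ => mul_nonneg (by positivity) (Y.err_nonneg _)
  rw [e1]
  unfold LI
  rw [Finset.sum_congr rfl fun j hj => (lintegral_indicator (hmeas j hj) _).symm,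
    ← lintegral_finsetSum _ fun j hj => hu.indicator (hmeas j hj),
    ← lintegral_indicator measurableSet_ball,
    ← lintegral_const_mul _ (hu.indicator measurableSet_ball)]
  refine lintegral_mono fun y => ?_
  obtain ⟨J, hJ⟩ : ∃ J, J = (Finset.range (k + 1)).filter fun j => y ∈ g j '' W := ⟨_, rfl⟩
  have hJ' : ∀ j ∈ J, j ∈ Finset.range (k + 1) ∧ y ∈ g j '' W := fun j hj => by
    rw [hJ] at hj; exact Finset.mem_filter.1 hj
  have e2 : ∑ j ∈ Finset.range (k + 1), (g j '' W).indicator (fun y => ENNReal.ofReal (Y.err y)) y =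
      J.card * ENNReal.ofReal (Y.err y) := by
    rw [hJ, ← nsmul_eq_mul, ← Finset.sum_const, Finset.sum_filter]
    exact Finset.sum_congr rfl fun j _ => indicator_apply _ _ _
  have hcard : J.card ≤ m := by
    refine hm y J fun j hj => ?_
    obtain ⟨a1, z, hz, hzy⟩ := hJ' j hj
    rw [hg] at hzy
    exact ⟨Nat.lt_succ_iff.1 (Finset.mem_range.1 a1), z, hz, hzy⟩
  rw [e2]
  rcases J.eq_empty_or_nonempty with h0 | ⟨j, hj⟩
  · simp [h0]
  · obtain ⟨a1, z, hz, rfl⟩ := hJ' j hj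
    have hy : g j z ∈ ball (0 : ℂ) 7 := by
      refine mem_ball_zero_iff.2 (back_ball he hc le_rfl (k - j) ?_)
      rw [(hgb j a1).inv z (hsub hz)]
      have a2 := mem_ball_iff_norm.1 (hsub hz)
      have a3 := norm_sub_norm_le z b
      linarith
    rw [indicator_of_mem hy]
    exact mul_le_mul_left (Nat.cast_le.2 hcard) _

theorem t1322_U {e : ℕ} (Y : Cy e) {b : ℂ} (hb : b ∈ Y.K) : deriv (Y.U b) b = Y.a b := by
  have h0 : (Y.Db b).eval b ≠ 0 := Y.Db_ne fun _ => rfl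
  have h1 : (derivative Y.N).eval b =
      Y.a b * (Y.Db b).eval b ^ 2 + 2 * (Y.Db b).eval b * (derivative (Y.Db b)).eval b := by
    rw [Cy.N, derivative_sum, eval_finsetSum, Finset.sum_eq_single_of_mem b (Y.KB hb)]
    · simp [derivative_mul, derivative_pow, Y.w_K hb]
    · intro b' _ hne
      have : (Y.Db b').eval b = 0 := by
        rw [Cy.Db, eval_prod]
        exact Finset.prod_eq_zero (Finset.mem_erase.2 ⟨hne.symm, Y.KB hb⟩) (by simp)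
      simp [derivative_mul, derivative_pow, this]
  have h2 := (Y.N.hasDerivAt b).fun_div (((Y.Db b).hasDerivAt b).fun_pow 2) (pow_ne_zero 2 h0)
  refine h2.deriv.trans ?_
  rw [h1, Y.t1048_N hb]
  field_simp
  ring

theorem Cy.psi_at {e : ℕ} (Y : Cy e) (hρ : Y.ρ ≠ 1) {Ψ : ℂ[X]}
    (h : ∀ z ∉ Y.B, Ψ.eval z = (((fq e Y.c)^[Y.K.card] z - z) / (Y.ρ - 1)) ^ 2 * Y.q z)
    {b : ℂ} (hb : b ∈ Y.K) :
    Ψ.eval b = 1 ∧ deriv (fun z => Ψ.eval z) b = (1 - Y.ρ) * deriv (Y.U b) b := by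
  have hτ : Y.ρ - 1 ≠ 0 := sub_ne_zero.2 hρ
  obtain ⟨p, hp⟩ := t1322_poly e Y.c Y.K.card
  obtain ⟨G, hG⟩ : X - C b ∣ p - X := dvd_iff_isRoot.2 (by simp [hp, Y.fix b hb])
  have hP : ∀ z, Pd e Y.c z Y.K.card = (derivative p).eval z := fun z => by
    rw [Pd, ← funext hp]
    exact p.deriv
  have hG1 : derivative p = 1 + (G + (X - C b) * derivative G) := by
    have := congrArg derivative hG
    simp only [derivative_sub, derivative_mul, derivative_X, derivative_C] at this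
    linear_combination this
  have g0 : G.eval b = Y.ρ - 1 := by
    rw [← Y.mult b hb, hP, hG1]
    simp
  have g1 : 2 * (derivative G).eval b = Y.a b * Y.ρ - Y.a b * Y.ρ ^ 2 := by
    obtain ⟨d, h1, h2⟩ := t1322_two Y.o hb Y.K.card
    rw [Y.fix b hb, Y.mult b hb, ← Y.a_K hb] at h2
    rw [funext hP] at h1
    have h3 := h1.unique ((derivative p).hasDerivAt b)
    rw [hG1] at h3
    simp [derivative_mul] at h3
    linear_combination h2 - h3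
  have hU := Y.U_diff (b := b) (z := b) fun _ => rfl
  have hD := (((G.hasDerivAt b).div_const (Y.ρ - 1)).fun_pow 2).fun_mul hU.hasDerivAt
  have e1 : (fun z => Ψ.eval z) =ᶠ[𝓝[≠] b] fun z => (G.eval z / (Y.ρ - 1)) ^ 2 * Y.U b z := by
    have h1 : ∀ᶠ z in 𝓝 b, z ∉ Y.B.erase b :=
      (Y.B.erase b).finite_toSet.isClosed.isOpen_compl.mem_nhds (by simp)
    filter_upwards [nhdsWithin_le_nhds h1, self_mem_nhdsWithin] with z h2 h3
    have h4 : z ∉ Y.B := fun h5 => h2 (Finset.mem_erase.2 ⟨h3, h5⟩)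
    have h5 := congrArg (eval z) hG
    have h6 : z - b ≠ 0 := sub_ne_zero.2 h3
    simp only [eval_sub, eval_mul, eval_X, eval_C, hp] at h5
    rw [h z h4, Y.q_eq (Y.KB hb) h4, h5]
    field_simp
  have e2 : (fun z => Ψ.eval z) =ᶠ[𝓝 b] fun z => (G.eval z / (Y.ρ - 1)) ^ 2 * Y.U b z :=
    (Ψ.continuous.continuousAt.eventuallyEq_nhds_iff_eventuallyEq_nhdsNE hD.continuousAt).1 e1
  refine ⟨?_, ?_⟩
  · rw [e2.eq_of_nhds, g0, div_self hτ, Y.U_self hb]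
    simp
  · rw [e2.deriv_eq, hD.deriv, g0, div_self hτ, Y.U_self hb, t1322_U Y hb]
    field_simp
    linear_combination g1

theorem Cy.q_cnt {e : ℕ} (he : 1 ≤ e) (Y : Cy e) :
    (∀ T : Finset ℂ, (∀ z ∈ T, z ∉ Y.B ∧ Y.q z = 0) → T.card < 2 * Y.K.card) ∧
      ∀ w : ℂ, w ≠ 4 → ∀ T : Finset ℂ,
        (∀ z ∈ T, z ∉ Y.B ∧ deriv Y.q z ^ 2 = w * Y.q z ^ 3) → T.card < 6 * Y.K.card := by
  have hD : ∀ z ∉ Y.B, Y.D.eval z ≠ 0 := fun z hz => by
    have hb := Y.αB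
    rw [Y.t1048_D hb, eval_mul]
    exact mul_ne_zero (by simpa [sub_eq_zero] using fun h : z = Y.α => hz (h ▸ hb))
      (Y.Db_ne fun h => absurd h hz)
  refine ⟨fun T hT => Y.N_card he fun z hz => ?_, fun w hw T hT => Y.W_card he hw fun z hz => ?_⟩
  · obtain ⟨h1, h2⟩ := hT z hz
    rwa [Y.t1048_q h1, div_eq_zero_iff, or_iff_left (pow_ne_zero 2 (hD z h1))] at h2
  · obtain ⟨h1, h2⟩ := hT z hz
    have h0 := hD z h1
    have e1 : Y.q =ᶠ[𝓝 z] fun v => Y.N.eval v / Y.D.eval v ^ 2 := by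
      filter_upwards [Y.B.finite_toSet.isClosed.isOpen_compl.mem_nhds h1] with v hv
      exact Y.t1048_q hv
    have h3 := (Y.N.hasDerivAt z).fun_div ((Y.D.hasDerivAt z).fun_pow 2) (pow_ne_zero 2 h0)
    have h4 : deriv Y.q z = -Y.M.eval z / Y.D.eval z ^ 3 := by
      rw [e1.deriv_eq, h3.deriv, Cy.M]
      simp only [eval_sub, eval_mul, eval_ofNat]
      field_simp
      ring
    rw [h4, Y.t1048_q h1, div_pow, div_pow, ← mul_div_assoc, ← pow_mul, ← pow_mul,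
      div_left_inj' (pow_ne_zero _ h0), neg_sq] at h2
    simp only [eval_sub, eval_pow, eval_mul, eval_C, sub_eq_zero, h2]


variable {e : ℕ}

theorem Cy.poly (Y : Cy e) (hρ : Y.ρ ≠ 1) : ∃ Φ Ψ Φ₀ : ℂ[X],
    (∀ z, Φ.eval z = (fq e Y.c)^[Y.K.card] z - z) ∧
    (∀ z ∉ Y.B, Ψ.eval z = (Φ.eval z / (Y.ρ - 1)) ^ 2 * Y.q z) ∧
    (∀ z, Φ.eval z = (z - Y.α) * Φ₀.eval z) ∧
    ∀ z, Ψ.eval z ≠ 0 → Y.N.eval z ≠ 0 ∧ (Φ₀.eval z = 0 → z ∈ Y.K) := by
  have h1 : ∀ z, ((X ^ (e + 1) + C Y.c : ℂ[X]).comp^[Y.K.card] X - X).eval z =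
      (fq e Y.c)^[Y.K.card] z - z := fun z => by
    rw [eval_sub, iterate_comp_eval, eval_X]
    congr 2
    funext x
    simp [fq]
  obtain ⟨H, hH⟩ : Y.D ∣ (X ^ (e + 1) + C Y.c : ℂ[X]).comp^[Y.K.card] X - X := by
    refine Finset.prod_dvd_of_coprime (fun a _ b _ hab => ?_) fun b hb => ?_
    · exact isCoprime_X_sub_C_of_isUnit_sub (sub_ne_zero.mpr hab).isUnit
    · rw [dvd_iff_isRoot, IsRoot, h1, Y.fixB b hb, sub_self]
  have hD : ∀ z ∉ Y.B, Y.D.eval z ≠ 0 := fun z hz => by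
    rw [Cy.D, eval_prod]
    refine Finset.prod_ne_zero_iff.2 fun b hb => ?_
    simp only [eval_sub, eval_X, eval_C, sub_ne_zero]
    rintro rfl
    exact hz hb
  have hτ := sub_ne_zero.mpr hρ
  refine ⟨_, C ((Y.ρ - 1)⁻¹ ^ 2) * H ^ 2 * Y.N, Y.Db Y.α * H, h1, fun z hz => ?_, fun z => ?_,
    fun z hz => ?_⟩
  · have := hD z hz
    rw [hH, Y.t1048_q hz]
    simp only [eval_mul, eval_C, eval_pow]
    field_simp
  · rw [hH, Y.t1048_D Y.αB]
    simp [mul_assoc]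
  · simp only [eval_mul, eval_C, eval_pow] at hz
    refine ⟨right_ne_zero_of_mul hz, fun h => ?_⟩
    by_contra hB
    rw [eval_mul, mul_eq_zero] at h
    rcases h with h | h
    · exact Y.Db_ne (fun h1 => (Y.mem_B.1 h1).resolve_right hB) h
    · simp [h] at hz

namespace Setup

variable (σ : Setup e)

theorem unbranched (he : 1 ≤ e) {L : ℝ} {k : ℕ → ℕ} {h : ℕ → ℂ → ℂ}
    (hh : ∀ᶠ n in (σ.𝒰 : Filter ℕ), k n < (σ.Y n).K.card ∧
      Br e (σ.Y n).c (k n + 1) (h n) (ball (σ.p n 0) (L * σ.r n)) ∧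
      h n (σ.p n 0) = σ.p n (k n + 1)) :
    ∀ x ∉ σ.E, ‖x‖ < L → ∃ ε > 0, ∃ C : ℝ, ∀ᶠ n in (σ.𝒰 : Filter ℕ), ∀ y ∈ ball x ε,
      ‖1 - σ.α n (k n) (h n) y‖ ≤ C * ‖(σ.Y n).ρ - 1‖ := by
  intro x hx hxL
  have hL : 0 < L := (norm_nonneg _).trans_lt hxL
  obtain ⟨h1, h2⟩ := σ.unb_est he hL hh
  obtain ⟨C', hC', h4⟩ := σ.rate (7 + 6 * L) (by linarith)
  have hτ : ∀ (n : ℕ) (a : ℂ), ‖(‖(σ.Y n).ρ - 1‖⁻¹ : ℝ) * a‖ = ‖(σ.Y n).ρ - 1‖⁻¹ * ‖a‖ :=
    fun n a => by rw [norm_mul, Complex.norm_real, Real.norm_eq_abs, abs_of_nonneg (by positivity)]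
  obtain ⟨ε, hε, C, hs⟩ := align_bd (l := σ.𝒰)
    (α := fun n y => (‖(σ.Y n).ρ - 1‖⁻¹ : ℝ) * (1 - σ.α n (k n) (h n) y))
    (preconn_diff isOpen_ball (convex_ball (0 : ℂ) L).isPreconnected σ.Ecl σ.Enull)
    (fun x hx => by
      obtain ⟨ε, hε, C, hC, h3⟩ := h1 x hx
      refine ⟨ε, hε, C * C', h3.mono fun n g1 => ⟨g1.1.const_mul _, ?_⟩⟩
      have hτ0 := σ.τ_pos n
      refine (LI_mono (v := fun y => ‖(σ.Y n).ρ - 1‖⁻¹ * (‖1 - σ.α n (k n) (h n) y‖ -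
        (1 - σ.α n (k n) (h n) y).re)) measurableSet_ball fun y _ => ?_).trans ?_
      · rw [hτ, Complex.re_ofReal_mul, ← mul_sub]
      · rw [LI_const_mul _ (by positivity)]
        refine (mul_le_mul_right (g1.2.trans (mul_le_mul_right (h4 n) _)) _).trans_eq ?_
        rw [← ENNReal.ofReal_mul hC, ← ENNReal.ofReal_mul (by positivity)]
        congr 1
        field_simp)
    (x₀ := 0) ⟨mem_ball_self hL, σ.E0⟩ (h2.mono fun n hn => by rw [hn, mul_zero]) x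
    ⟨mem_ball_zero_iff.mpr hxL, hx⟩
  refine ⟨ε, hε, C, hs.mono fun n hn y hy => ?_⟩
  have := hn y hy
  rwa [hτ, inv_mul_le_iff₀ (σ.τ_pos n), mul_comm] at this

/-- The return map. -/
noncomputable def Fr (n : ℕ) : ℂ → ℂ := (fq e (σ.Y n).c)^[(σ.Y n).K.card]

noncomputable def Φ (n : ℕ) : ℂ[X] := ((σ.Y n).poly (σ.ρne n)).choose

noncomputable def Ψ (n : ℕ) : ℂ[X] := ((σ.Y n).poly (σ.ρne n)).choose_spec.choose

noncomputable def Φ₀ (n : ℕ) : ℂ[X] := ((σ.Y n).poly (σ.ρne n)).choose_spec.choose_spec.choose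

theorem Φ_eq (n : ℕ) (z : ℂ) : (σ.Φ n).eval z = σ.Fr n z - z :=
  ((σ.Y n).poly (σ.ρne n)).choose_spec.choose_spec.choose_spec.1 z

theorem Ψ_eq (n : ℕ) {z : ℂ} (hz : z ∉ (σ.Y n).B) :
    (σ.Ψ n).eval z = ((σ.Fr n z - z) / ((σ.Y n).ρ - 1)) ^ 2 * (σ.Y n).q z :=
  σ.Φ_eq n z ▸ ((σ.Y n).poly (σ.ρne n)).choose_spec.choose_spec.choose_spec.2.1 z hz

theorem Φ_fac (n : ℕ) (z : ℂ) : (σ.Φ n).eval z = (z - (σ.Y n).α) * (σ.Φ₀ n).eval z :=
  ((σ.Y n).poly (σ.ρne n)).choose_spec.choose_spec.choose_spec.2.2.1 z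

theorem Ψ_ne (n : ℕ) {z : ℂ} (hz : (σ.Ψ n).eval z ≠ 0) :
    (σ.Y n).N.eval z ≠ 0 ∧ ((σ.Φ₀ n).eval z = 0 → z ∈ (σ.Y n).K) :=
  ((σ.Y n).poly (σ.ρne n)).choose_spec.choose_spec.choose_spec.2.2.2 z hz

theorem A_div (n : ℕ) (z : ℂ) : σ.A n ((z - σ.p n 0) / σ.r n) = z := by
  have := σ.r_ne n
  simp only [A]
  field_simp
  ring

theorem G_deriv {n : ℕ} {G : ℂ → ℂ} {R : ℝ} (hR : 0 < R)
    (hG : Br e (σ.Y n).c (σ.Y n).K.card G (ball (σ.p n 0) R)) (h0 : G (σ.p n 0) = σ.p n 0) :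
    deriv G (σ.p n 0) = (σ.Y n).ρ⁻¹ ∧ 1 / 2 ≤ ‖deriv G (σ.p n 0)‖ ∧ ‖deriv G (σ.p n 0)‖ ≤ 2 := by
  have hd := hG.mul_deriv isOpen_ball (mem_ball_self hR)
  rw [h0, (σ.Y n).mult _ (σ.pK n 0)] at hd
  have hn1 : ‖(σ.Y n).ρ‖ * ‖deriv G (σ.p n 0)‖ = 1 := by rw [← norm_mul, hd, norm_one]
  refine ⟨eq_inv_of_mul_eq_one_right hd, ?_, ?_⟩ <;>
    nlinarith [σ.ρhi n, σ.ρlo n, norm_nonneg (deriv G (σ.p n 0))]

theorem ret_inv {n : ℕ} {G : ℂ → ℂ} {R s : ℝ} (hs : s ≤ R)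
    (hG : Br e (σ.Y n).c (σ.Y n).K.card G (ball (σ.p n 0) (R * σ.r n)))
    (h0 : G (σ.p n 0) = σ.p n 0) {y : ℂ} (hy : 8 * ‖y‖ < s) :
    σ.Fr n (σ.A n y) ∈ ball (σ.p n 0) (s * σ.r n) ∧ G (σ.Fr n (σ.A n y)) = σ.A n y := by
  have hr := σ.rpos n
  have hs0 : 0 < s := lt_of_le_of_lt (by positivity) hy
  have hsub : ball (σ.p n 0) (s * σ.r n) ⊆ ball (σ.p n 0) (R * σ.r n) :=
    ball_subset_ball (by gcongr)
  obtain ⟨-, h1, -⟩ := σ.G_deriv (mul_pos (hs0.trans_le hs) hr) hG h0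
  obtain ⟨z, hz, hzz⟩ := koebe (mul_pos hs0 hr) ((hG.univ isOpen_ball).mono hsub)
    (show σ.A n y ∈ _ by
      rw [mem_ball, dist_eq_norm, h0, A, add_sub_cancel_left, σ.norm_r]
      have : 1 / 2 * (s * σ.r n) ≤ ‖deriv G (σ.p n 0)‖ * (s * σ.r n) := by gcongr
      nlinarith)
  have : σ.Fr n (σ.A n y) = z := by rw [← hzz, Fr, hG.inv z (hsub hz)]
  rw [this]
  exact ⟨hz, hzz⟩

theorem near_id (he : 1 ≤ e) (hρ : Tendsto (fun n => (σ.Y n).ρ) σ.𝒰 (𝓝 1)) (L : ℝ) {η : ℝ}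
    (hη : 0 < η) : ∀ᶠ n in (σ.𝒰 : Filter ℕ), ∀ y ∈ ball (0 : ℂ) L,
      ‖(σ.Fr n (σ.A n y) - σ.A n y) / σ.r n‖ ≤ η := by
  set s := 8 * |L| + 1 with hs
  have hs0 : 0 < s := by positivity
  obtain ⟨a, ha, a1, a2⟩ : ∃ a > 0, a ≤ 1 ∧ 3 * a * s ≤ η :=
    ⟨min 1 (η / (3 * s)), by positivity, min_le_left _ _, by
      have := (le_div_iff₀ (by positivity)).mp (min_le_right 1 (η / (3 * s)))
      linarith⟩
  have ht : Tendsto (fun n => ‖(σ.Y n).ρ⁻¹ - 1‖) σ.𝒰 (𝓝 0) := by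
    simpa using ((hρ.inv₀ one_ne_zero).sub_const 1).norm
  filter_upwards [σ.branches he (34 * s / a), ht.eventually (gt_mem_nhds ha)] with n hn h2 y hy
  obtain ⟨G, hG, h0⟩ := hn _ le_rfl
  rw [σ.p_card] at h0
  have hr := σ.rpos n
  have hR : 0 < 34 * s / a * σ.r n := by positivity
  obtain ⟨d1, -, d3⟩ := σ.G_deriv hR hG h0
  obtain ⟨h3, h4⟩ := σ.ret_inv (s := s) (by rw [le_div_iff₀ ha]; nlinarith) hG h0 (y := y) (by
    linarith [mem_ball_zero_iff.mp hy, le_abs_self L])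
  rw [mem_ball, dist_eq_norm] at h3
  have h5 := lin_val hR (hG.univ isOpen_ball) (η := a) (z := σ.Fr n (σ.A n y)) (by linarith) (by
    rw [show a * (34 * s / a * σ.r n) = 34 * (s * σ.r n) by field_simp]
    linarith)
  rw [h4, h0] at h5
  rw [norm_div, Complex.norm_real, Real.norm_eq_abs, abs_of_pos hr, div_le_iff₀ hr, norm_sub_rev]
  calc _ = ‖(σ.A n y - σ.p n 0 - deriv G (σ.p n 0) * (σ.Fr n (σ.A n y) - σ.p n 0)) +
        ((σ.Y n).ρ⁻¹ - 1) * (σ.Fr n (σ.A n y) - σ.p n 0)‖ := by rw [d1]; ring_nf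
    _ ≤ a * 2 * (s * σ.r n) + a * (s * σ.r n) := by
        refine (norm_add_le _ _).trans (add_le_add (h5.trans ?_) ?_)
        · gcongr
        · rw [norm_mul]
          gcongr
    _ ≤ _ := by nlinarith

theorem α_eq (he : 1 ≤ e) {n k : ℕ} {h : ℂ → ℂ} {R : ℝ}
    (hb : Br e (σ.Y n).c (k + 1) h (ball (σ.p n 0) (R * σ.r n)))
    (h0 : h (σ.p n 0) = σ.p n (k + 1)) {x : ℂ} (hx0 : x ≠ 0) (hx : ‖x‖ < R) (hu0 : σ.u n x ≠ 0) :
    h (σ.A n x) - σ.p n (k + 1) ≠ 0 ∧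
      σ.α n k h x * σ.u n x * (h (σ.A n x) - σ.p n (k + 1)) ^ 2 =
        (σ.Y n).U (σ.p n (k + 1)) (h (σ.A n x)) * (σ.r n * x) ^ 2 * deriv h (σ.A n x) ^ 2 := by
  have hxA := σ.A_mem0 (n := n).mpr hx
  have hR0 : 0 < R * σ.r n := mul_pos ((norm_nonneg _).trans_lt hx) (σ.rpos n)
  have hz0 := hb.ne_zero he isOpen_ball (by omega) hxA
  have hne : h (σ.A n x) - σ.p n (k + 1) ≠ 0 := by
    rw [← h0]
    refine sub_ne_zero.mpr fun h1 => hx0 (σ.A_inj n ?_)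
    rw [σ.A_zero]
    exact (hb.univ isOpen_ball).inj hxA (mem_ball_self hR0) h1
  refine ⟨hne, ?_⟩
  have hder : deriv (fun v => fq e (σ.Y n).c (h v)) (σ.A n x) =
      lam e (h (σ.A n x)) * deriv h (σ.A n x) :=
    ((fq_deriv _).comp _ (hb.diff.hasDerivAt (isOpen_ball.mem_nhds hxA))).deriv
  have hl := lam_ne (e := e) hz0
  change _ / σ.u n x * _ * _ = _
  rw [dslope_of_ne _ hx0, dslope_of_ne _ hx0, slope_def_field, slope_def_field, hder,
    σ.A_zero, h0, show σ.A n x - σ.p n 0 = σ.r n * x by simp [A], sub_zero]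
  field_simp

theorem sphere_B {s : ℝ} (hs : ∀ x ∈ σ.E, ‖x‖ ≠ s) : ∀ᶠ n in (σ.𝒰 : Filter ℕ),
    ∀ y ∈ sphere (0 : ℂ) s, σ.A n y ∈ (σ.Y n).B → σ.A n y = σ.p n 0 :=
  ev_compact (isCompact_sphere _ _) fun x hx => by
    obtain ⟨ε, hε, g⟩ := σ.Eaway x fun h => hs x h (mem_sphere_zero_iff_norm.mp hx)
    exact ⟨ε, hε, g.mono fun n hn y hy => (hn y hy).1⟩

theorem Fr_diff (n : ℕ) : Differentiable ℂ (σ.Fr n) := iter_diff _

/-- The limit vector field in the chart at the base point. -/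
theorem field (he : 1 ≤ e) (hρ : Tendsto (fun n => (σ.Y n).ρ) σ.𝒰 (𝓝 1)) :
    ∃ W V : ℂ → ℂ, Differentiable ℂ W ∧ Differentiable ℂ V ∧ deriv W 0 = 1 ∧ deriv V 0 = 0 ∧
      (∀ L η : ℝ, 0 < η → ∀ᶠ n in (σ.𝒰 : Filter ℕ), ∀ y ∈ ball (0 : ℂ) L,
        ‖(σ.Fr n (σ.A n y) - σ.A n y) / σ.r n / ((σ.Y n).ρ - 1) - W y‖ ≤ η) ∧
      ∀ L η : ℝ, 0 < η → ∀ᶠ n in (σ.𝒰 : Filter ℕ), ∀ y ∈ ball (0 : ℂ) L,
        ‖(σ.Ψ n).eval (σ.A n y) - V y‖ ≤ η := by
  set h : ℕ → ℂ → ℂ := fun n y => (σ.Fr n (σ.A n y) - σ.A n y) / σ.r n with hh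
  have hd : ∀ n y, HasDerivAt (h n) (Pd e (σ.Y n).c (σ.A n y) (σ.Y n).K.card - 1) y :=
    fun n y => by
      have := ((((iter_deriv (e := e) (c := (σ.Y n).c) (σ.Y n).K.card (σ.A n y)).comp y
        (σ.A_deriv n y)).sub (σ.A_deriv n y)).div_const (σ.r n : ℂ))
      refine this.congr_deriv ?_
      have := σ.r_ne n
      field_simp
  have hA : ∀ n y, σ.A n (y + h n y) = σ.Fr n (σ.A n y) := fun n y => by
    have := σ.r_ne n
    simp only [hh, A]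
    field_simp
    ring
  have h0 : ∀ n, h n 0 = 0 := fun n => by
    simp only [hh, σ.A_zero, Fr, (σ.Y n).fix _ (σ.pK n 0), sub_self, zero_div]
  have h1 : ∀ n, deriv (h n) 0 = (σ.Y n).ρ - 1 := fun n => by
    rw [(hd n 0).deriv, σ.A_zero, (σ.Y n).mult _ (σ.pK n 0)]
  have hτ : ∀ n, (σ.Y n).ρ - 1 ≠ 0 := fun n => sub_ne_zero.mpr (σ.ρne n)
  obtain ⟨W, hW, c1⟩ := vector_field_bd σ.𝒰 σ.Ecl σ.Enull σ.E0 (h := h) (u := σ.u) hτ
    (fun n y => (hd n y).differentiableAt) h0 h1 (fun L η hη => σ.near_id he hρ L hη) σ.u_zero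
    (fun x hx => by
      obtain ⟨ε₁, hε₁, m, hm, b1⟩ := σ.u_bounds x hx
      set R := 8 * ‖x‖ + 9 with hR
      have hex : ∀ n, ∃ G : ℂ → ℂ, (∀ k ≤ (σ.Y n).K.card, ∃ h,
          Br e (σ.Y n).c k h (ball (σ.p n 0) (R * σ.r n)) ∧ h (σ.p n 0) = σ.p n k) →
          (σ.Y n).K.card - 1 < (σ.Y n).K.card ∧
            Br e (σ.Y n).c ((σ.Y n).K.card - 1 + 1) G (ball (σ.p n 0) (R * σ.r n)) ∧
            G (σ.p n 0) = σ.p n ((σ.Y n).K.card - 1 + 1) := fun n => by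
        have hP := (σ.Y n).ne.card_pos
        by_cases hn : ∀ k ≤ (σ.Y n).K.card, ∃ h,
          Br e (σ.Y n).c k h (ball (σ.p n 0) (R * σ.r n)) ∧ h (σ.p n 0) = σ.p n k
        · obtain ⟨G, hG⟩ := hn ((σ.Y n).K.card - 1 + 1) (by omega)
          exact ⟨G, fun _ => ⟨by omega, hG⟩⟩
        · exact ⟨0, fun h => absurd h hn⟩
      choose G hG using hex
      have hev := (σ.branches he R).mono hG
      obtain ⟨ε₂, hε₂, C, b2⟩ := σ.unbranched he hev x hx (by linarith [norm_nonneg x])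
      obtain ⟨ε, hε, e1, e2, e3⟩ : ∃ ε > 0, 2 * ε ≤ ε₁ ∧ 2 * ε ≤ ε₂ ∧ ε ≤ 1 :=
        ⟨min (min (ε₁ / 2) (ε₂ / 2)) 1, by positivity,
          by linarith [min_le_left (min (ε₁ / 2) (ε₂ / 2)) 1, min_le_left (ε₁ / 2) (ε₂ / 2)],
          by linarith [min_le_left (min (ε₁ / 2) (ε₂ / 2)) 1, min_le_right (ε₁ / 2) (ε₂ / 2)],
          min_le_right _ _⟩
      refine ⟨ε, hε, m, hm, C, ?_⟩
      filter_upwards [b1, b2, hev, σ.near_id he hρ (‖x‖ + 1) hε] with n g1 g2 ⟨_, g3, g4⟩ g5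
      have hsub : ball x ε ⊆ ball x ε₁ := ball_subset_ball (by linarith)
      refine ⟨fun y hy => (σ.u_diff (g1 y (hsub hy)).1).differentiableWithinAt,
        fun y hy => ⟨(g1 y (hsub hy)).2.1, (g1 y (hsub hy)).2.2, fun hy0 => ?_⟩⟩
      have hP := (σ.Y n).ne.card_pos
      have hyx : ‖y - x‖ < ε := by rwa [mem_ball, dist_eq_norm] at hy
      have hy1 : ‖y‖ < ‖x‖ + 1 := by linarith [norm_le_norm_add_norm_sub' y x]
      have hy2 : ‖y + h n y - x‖ < 2 * ε := by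
        have := g5 y (mem_ball_zero_iff.mpr hy1)
        have h2 := norm_add_le (y - x) (h n y)
        rw [show y - x + h n y = y + h n y - x by ring] at h2
        change ‖h n y‖ ≤ ε at this
        linarith
      have hu0 : σ.u n (y + h n y) ≠ 0 := norm_pos_iff.mp ((inv_pos.mpr hm).trans_le
        (g1 _ (by rw [mem_ball, dist_eq_norm]; linarith)).2.1)
      have g3' := g3
      have g4' := g4
      rw [Nat.sub_add_cancel hP] at g3' g4'
      rw [σ.p_card] at g4'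
      obtain ⟨k1, k2⟩ := σ.ret_inv le_rfl g3' g4' (y := y) (by linarith)
      have hy3 : y + h n y ≠ 0 := fun h3 => hy0 (σ.A_inj n (by
        rw [← k2, ← hA, h3, σ.A_zero, g4']))
      obtain ⟨-, k3⟩ := σ.α_eq he g3 g4 hy3 (σ.A_mem0.mp (hA n y ▸ k1)) hu0
      have k4 := g3'.mul_deriv isOpen_ball k1
      rw [Nat.sub_add_cancel hP, σ.p_card, hA, k2, show σ.A n y - σ.p n 0 = σ.r n * y by
        simp [A]] at k3
      rw [k2] at k4
      refine ⟨_, g2 _ (by rw [mem_ball, dist_eq_norm]; linarith), ?_⟩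
      rw [(hd n y).deriv, add_sub_cancel]
      change _ = σ.u n y * _ * _ at k3
      have := σ.r_ne n
      field_simp
      field_simp at k3
      linear_combination (-Pd e (σ.Y n).c (σ.A n y) (σ.Y n).K.card ^ 2) * k3 -
        (σ.u n y * (y + h n y) ^ 2 * (1 + Pd e (σ.Y n).c (σ.A n y) (σ.Y n).K.card *
          deriv (G n) (σ.Fr n (σ.A n y)))) * k4)
  have dΨ : ∀ n, Differentiable ℂ fun y => (σ.Ψ n).eval (σ.A n y) := fun n y =>
    (σ.Ψ n).differentiableAt.comp y (σ.A_deriv n y).differentiableAt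
  obtain ⟨V, hV, c2⟩ := montel σ.𝒰 (u := fun n y => (σ.Ψ n).eval (σ.A n y)) fun L => by
    obtain ⟨s, ⟨s1, s2⟩, hs⟩ := good_radius σ.Enull (lt_add_one (max L 0))
    have hs0 : 0 < s := (le_max_right _ _).trans_lt s1
    obtain ⟨m, hm⟩ := σ.u_sphere hs
    obtain ⟨m', hm'⟩ := (isCompact_sphere (0 : ℂ) s).exists_bound_of_continuousOn
      hW.continuous.continuousOn
    refine ⟨(m' + 1) ^ 2 * (m / s ^ 2), ?_⟩
    filter_upwards [hm, c1 (s + 1) 1 one_pos, σ.sphere_B hs] with n g1 g2 g3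
    refine ⟨(dΨ n).differentiableOn, fun y hy => max_disc (x := 0) hs0 (lt_add_one s)
      (dΨ n).differentiableOn (fun y hy => ?_) y ?_⟩
    · rw [sub_zero] at hy
      have y1 := mem_sphere_zero_iff_norm.mpr hy
      have y3 : y ≠ 0 := norm_pos_iff.mp (hy ▸ hs0)
      have hB : σ.A n y ∉ (σ.Y n).B := fun hB => y3 (σ.A_inj n (by
        rw [σ.A_zero]
        exact g3 y y1 hB))
      have e1 : (σ.Ψ n).eval (σ.A n y) = (h n y / ((σ.Y n).ρ - 1)) ^ 2 * (σ.u n y / y ^ 2) := by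
        rw [σ.Ψ_eq n hB, (σ.Y n).q_eq (σ.pmem n 0) hB,
          show σ.A n y - σ.p n 0 = σ.r n * y by simp [A]]
        change _ = (_ / _ / _) ^ 2 * ((σ.Y n).U _ (σ.A n y) / _)
        have := σ.r_ne n
        field_simp
      have e2 : ‖h n y / ((σ.Y n).ρ - 1)‖ ≤ m' + 1 := by
        linarith [norm_le_norm_add_norm_sub' (h n y / ((σ.Y n).ρ - 1)) (W y), hm' y y1,
          g2 y (mem_ball_zero_iff.mpr (by linarith))]
      rw [e1, norm_mul, norm_pow, norm_div (σ.u n y), norm_pow, hy]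
      have := g1 y y1
      gcongr
    · rw [sub_zero]
      linarith [mem_ball_zero_iff.mp hy, le_max_left L 0]
  refine ⟨W, V, hW, hV, ?_, ?_, c1, c2⟩
  · refine eq_of_norm_sub_le_zero (le_of_forall_pos_le_add fun η hη => ?_)
    obtain ⟨n, hn⟩ := (c1 2 η hη).exists
    have := deriv_close (fun y => (hd n y).differentiableAt.div_const _) hW hn
    rw [deriv_div_const, h1, div_self (hτ n), norm_sub_rev] at this
    linarith
  · obtain ⟨ε, hε, m, hm, b1⟩ := σ.u_bounds 0 σ.E0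
    have ht : Tendsto (fun n => ‖1 - (σ.Y n).ρ‖ * (m / (ε / 2))) σ.𝒰 (𝓝 0) := by
      simpa using ((hρ.const_sub 1).norm.mul_const (m / (ε / 2)))
    refine norm_le_zero_iff.mp (le_of_forall_pos_le_add fun η hη => ?_)
    obtain ⟨n, g1, g2, g3⟩ := ((c2 2 (η / 2) (half_pos hη)).and
      (b1.and (ht.eventually (gt_mem_nhds (half_pos hη))))).exists
    have k1 := deriv_close (dΨ n) hV g1
    have k2 := Complex.norm_deriv_le_of_forall_mem_sphere_norm_le (c := 0) (R := ε / 2) (C := m)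
      (f := σ.u n) (half_pos hε)
      (DifferentiableOn.diffContOnCl_ball (U := ball 0 ε)
        (fun y hy => (σ.u_diff (g2 y hy).1).differentiableWithinAt)
        (closedBall_subset_ball (half_lt_self hε)))
      (fun y hy => (g2 y (sphere_subset_ball (half_lt_self hε) hy)).2.2)
    have k3 : deriv (fun y => (σ.Ψ n).eval (σ.A n y)) 0 = (1 - (σ.Y n).ρ) * deriv (σ.u n) 0 := by
      have a1 := ((σ.Ψ n).differentiableAt (x := σ.A n 0)).hasDerivAt.comp 0 (σ.A_deriv n 0)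
      have a2 := (((σ.Y n).U_diff (b := σ.p n 0) (z := σ.A n 0)
        fun _ => σ.A_zero n).hasDerivAt.comp 0 (σ.A_deriv n 0))
      rw [σ.A_zero] at a1 a2
      refine a1.deriv.trans ?_
      rw [((σ.Y n).psi_at (σ.ρne n) (fun z hz => σ.Ψ_eq n hz) (σ.pK n 0)).2,
        mul_assoc]
      exact congrArg _ a2.deriv.symm
    have k4 := norm_le_norm_add_norm_sub (deriv (fun y => (σ.Ψ n).eval (σ.A n y)) 0) (deriv V 0)
    rw [k3, norm_mul] at k4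
    rw [k3] at k1
    have : ‖1 - (σ.Y n).ρ‖ * ‖deriv (σ.u n) 0‖ ≤ ‖1 - (σ.Y n).ρ‖ * (m / (ε / 2)) := by gcongr
    linarith

theorem all_α (he : 1 ≤ e) {s R a : ℝ} (hs : ∀ x ∈ σ.E, ‖x‖ ≠ s) (hsR : s < R) (ha : 0 < a) :
    ∀ᶠ n in (σ.𝒰 : Filter ℕ), ∀ k < (σ.Y n).K.card, ∀ h,
      Br e (σ.Y n).c (k + 1) h (ball (σ.p n 0) (R * σ.r n)) → h (σ.p n 0) = σ.p n (k + 1) →
      ∀ x ∈ sphere (0 : ℂ) s, ‖1 - σ.α n k h x‖ ≤ a := by
  by_contra hc
  rw [← Ultrafilter.eventually_not] at hc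
  have hex : ∀ n, ∃ (k : ℕ) (h : ℂ → ℂ), (¬∀ k < (σ.Y n).K.card, ∀ h,
      Br e (σ.Y n).c (k + 1) h (ball (σ.p n 0) (R * σ.r n)) → h (σ.p n 0) = σ.p n (k + 1) →
      ∀ x ∈ sphere (0 : ℂ) s, ‖1 - σ.α n k h x‖ ≤ a) →
      (k < (σ.Y n).K.card ∧ Br e (σ.Y n).c (k + 1) h (ball (σ.p n 0) (R * σ.r n)) ∧
        h (σ.p n 0) = σ.p n (k + 1)) ∧ ¬∀ x ∈ sphere (0 : ℂ) s, ‖1 - σ.α n k h x‖ ≤ a := by
    intro n
    by_contra hn
    push Not at hn
    obtain ⟨⟨k, hk, h, g1, g2, x, g3, g4⟩, -⟩ := hn 0 0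
    exact absurd ((hn k h).2 ⟨hk, g1, g2⟩ x g3) (not_le.mpr g4)
  choose k h hx using hex
  have hev := hc.mono hx
  have hα : ∀ᶠ n in (σ.𝒰 : Filter ℕ), ∀ x ∈ sphere (0 : ℂ) s, ‖1 - σ.α n (k n) (h n) x‖ ≤ a := by
    refine ev_compact (isCompact_sphere _ _) fun x hx => ?_
    have hxs := mem_sphere_zero_iff_norm.mp hx
    obtain ⟨ε, hε, g⟩ := σ.unbranched' he (hev.mono fun n hn => hn.1) x (fun h => hs x h hxs)
      (hxs ▸ hsR)
    exact ⟨ε, hε, g a ha⟩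
  obtain ⟨n, g1, g2⟩ := (hev.and hα).exists
  exact g1.2 g2

/-- Inverse branches commute with the return map. -/
theorem comm {n k : ℕ} {G h : ℂ → ℂ} {R : ℝ}
    (hG : Br e (σ.Y n).c (σ.Y n).K.card G (ball (σ.p n 0) (R * σ.r n)))
    (hG0 : G (σ.p n 0) = σ.p n 0) (hb : Br e (σ.Y n).c k h (ball (σ.p n 0) (R * σ.r n)))
    (h0 : h (σ.p n 0) = σ.p n k) {x : ℂ} (hx : 8 * ‖x‖ < R / 34) :
    σ.Fr n (h (σ.A n x)) = h (σ.Fr n (σ.A n x)) := by
  have hr := σ.rpos n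
  have hR : 0 < R := by linarith [norm_nonneg x]
  have hsub : ball (σ.p n 0) (R / 34 * σ.r n) ⊆ ball (σ.p n 0) (R * σ.r n) :=
    ball_subset_ball (by nlinarith)
  obtain ⟨-, -, d3⟩ := σ.G_deriv (mul_pos hR hr) hG hG0
  have hm : MapsTo G (ball (σ.p n 0) (R / 34 * σ.r n)) (ball (σ.p n 0) (R * σ.r n)) :=
    fun z hz => by
      rw [mem_ball, dist_eq_norm] at hz ⊢
      have := lin_val_le (mul_pos hR hr) (hG.univ isOpen_ball) (z := z) (by linarith)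
      rw [hG0] at this
      nlinarith [norm_nonneg (z - σ.p n 0)]
  have b1 : Br e (σ.Y n).c k (fun z => σ.Fr n (h (G z))) (ball (σ.p n 0) (R / 34 * σ.r n)) :=
    ⟨(σ.Fr_diff n).comp_differentiableOn (hb.diff.comp (hG.diff.mono hsub) hm), fun z hz => by
      rw [Fr, ← Function.iterate_add_apply, add_comm, Function.iterate_add_apply,
        hb.inv _ (hm hz), hG.inv _ (hsub hz)]⟩
  have b2 : Br e (σ.Y n).c k h (ball (σ.p n 0) (R / 34 * σ.r n)) :=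
    ⟨hb.diff.mono hsub, fun z hz => hb.inv z (hsub hz)⟩
  obtain ⟨k1, k2⟩ := σ.ret_inv (s := R / 34) (by linarith) hG hG0 hx
  have := b1.unique b2 (mem_ball_self (by positivity))
    (by rw [hG0, h0, Fr, (σ.Y n).fix _ (σ.pK n k)]) k1
  simpa only [k2] using this

end Setup

end Pool.Agent.MP_1071ec_an

end
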