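import Pool.Agent.MP_28f8a1_an.Mg.H42_Fam
import Pool.Agent.MP_28f8a1_an.Mg.H42_Rigid
import Pool.Agent.MP_28f8a1_an.H42.Field
import Pool.Agent.MP_1071ec_an.Mg.Par

-- part MP_1071ec_an.Fam
section

/-! Families of charts with common limits and one further pole. -/

set_option autoImplicit false

namespace Pool.Agent.MP_1071ec_an

open MeasureTheory Metric Set Real Filter Topology Polynomial
open Pool.Agent.MP_28f8a1_an Pool.Agent.MP_28f8a1_an.H42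
open scoped ENNReal
open Pool.Agent.MP_28f8a1_an.H42.Fam (t1318_uc t1318_iso t1318_rad t1319_mem t1319_box t1319_static)


/-- Points `b n k` with scales `t n k` from which `Φ n` and `Ψ n` look like `W` and `V`. -/
structure Fam where
  𝒰 : Ultrafilter ℕ
  P : ℕ → ℕ
  b : ℕ → ℕ → ℂ
  t : ℕ → ℕ → ℂ
  Φ : ℕ → ℂ[X]
  Ψ : ℕ → ℂ[X]
  τ : ℕ → ℂ
  q : ℕ → ℂ → ℂ
  W : ℂ → ℂ
  V : ℂ → ℂ
  a : ℕ → ℂ
  Φ₀ : ℕ → ℂ[X]
  q₀ : ℕ → ℂ → ℂ
  hP : ∀ n, 0 < P n
  hτ : ∀ n, τ n ≠ 0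
  hb : ∀ n, ∀ k < P n, (Φ n).eval (b n k) = 0 ∧ (Ψ n).eval (b n k) = 1
  hinj : ∀ n, ∀ i < P n, ∀ j < P n, b n i = b n j → i = j
  hΦ : ∀ n z, (Φ n).eval z = (z - a n) * (Φ₀ n).eval z
  hz : ∀ n z, (Ψ n).eval z ≠ 0 → (Φ₀ n).eval z = 0 → ∃ k < P n, b n k = z
  hq : ∀ n z, ((∀ k < P n, b n k ≠ z) ∧ a n ≠ z) → DifferentiableAt ℂ (q n) z ∧
    (Ψ n).eval z = ((Φ n).eval z / τ n) ^ 2 * q n z
  hq₀ : ∀ n z, (∀ k < P n, b n k ≠ z) → DifferentiableAt ℂ (q₀ n) z ∧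
    (a n ≠ z → q₀ n z = (z - a n) ^ 2 * q n z)
  cnt0 : ∀ n, ∀ T : Finset ℂ,
    (∀ z ∈ T, ((∀ k < P n, b n k ≠ z) ∧ a n ≠ z) ∧ q n z = 0) → T.card < 2 * P n
  cnt1 : ∀ n, ∀ w : ℂ, w ≠ 4 → ∀ T : Finset ℂ, (∀ z ∈ T, ((∀ k < P n, b n k ≠ z) ∧ a n ≠ z) ∧
    deriv (q n) z ^ 2 = w * q n z ^ 3) → T.card < 6 * P n
  far : ∀ L : ℝ, ∀ᶠ n in (𝒰 : Filter ℕ), ∀ k < P n, L * ‖t n k‖ ≤ ‖a n - b n k‖
  hW : Differentiable ℂ W
  hV : Differentiable ℂ V
  W1 : deriv W 0 = 1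
  hc : ∀ L η : ℝ, 0 < η → ∀ᶠ n in (𝒰 : Filter ℕ), ∀ k < P n, t n k ≠ 0 ∧
    ∀ y ∈ ball (0 : ℂ) L, ‖(Φ n).eval (b n k + t n k * y) / (τ n * t n k) - W y‖ ≤ η ∧
      ‖(Ψ n).eval (b n k + t n k * y) - V y‖ ≤ η

namespace Fam

variable (F : Fam)

/-- The point is not a pole. -/
def Off (n : ℕ) (z : ℂ) : Prop := (∀ k < F.P n, F.b n k ≠ z) ∧ F.a n ≠ z

theorem far' (L : ℝ) : ∀ᶠ n in (F.𝒰 : Filter ℕ), ∀ k < F.P n, ∀ y ∈ ball (0 : ℂ) L,
    F.a n ≠ F.b n k + F.t n k * y := by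
  filter_upwards [F.far L, F.hc 1 1 one_pos] with n h1 h2 k hk y hy h
  have h3 := h1 k hk
  rw [h, add_sub_cancel_left, norm_mul, mul_comm] at h3
  exact absurd (le_of_mul_le_mul_left h3 (norm_pos_iff.2 (h2 k hk).1))
    (not_le.2 (mem_ball_zero_iff.1 hy))

/-- `R` is the limit of the differentials. -/
def Lim (R : ℂ → ℂ) : Prop :=
  ∀ x ∉ Zs F.W F.V, ∃ ε > 0, ∀ η > 0, ∀ᶠ n in (F.𝒰 : Filter ℕ), ∀ k < F.P n, ∀ y ∈ ball x ε,
    F.Off n (F.b n k + F.t n k * y) ∧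
      ‖F.t n k ^ 2 * F.q n (F.b n k + F.t n k * y) - R y‖ ≤ η

/-- Every point lies over `S` in at most `K` charts. -/
def Mult (K : ℕ) (S : Set ℂ) : Prop :=
  ∀ L : ℝ, ∀ᶠ n in (F.𝒰 : Filter ℕ), ∀ (v : ℂ) (J : Finset ℕ),
    (∀ k ∈ J, k < F.P n ∧ ∃ y ∈ S, ‖y‖ < L ∧ F.b n k + F.t n k * y = v) → J.card ≤ K

theorem zero : F.W 0 = 0 ∧ F.V 0 = 1 := by
  have h : ∀ η : ℝ, 0 < η → ‖F.W 0‖ ≤ η ∧ ‖1 - F.V 0‖ ≤ η := fun η hη => by
    obtain ⟨n, hn⟩ := (F.hc 1 η hη).exists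
    have := (hn 0 (F.hP n)).2 0 (mem_ball_self one_pos)
    simpa [(F.hb n 0 (F.hP n)).1, (F.hb n 0 (F.hP n)).2] using this
  refine ⟨norm_le_zero_iff.1 (le_of_forall_pos_le_add fun η hη => by simpa using (h η hη).1), ?_⟩
  exact (sub_eq_zero.1 (norm_le_zero_iff.1
    (le_of_forall_pos_le_add fun η hη => by simpa using (h η hη).2))).symm

/-- Separation of the points. -/
theorem sep : ∃ e : ℝ, 0 < e ∧ ∀ᶠ n in (F.𝒰 : Filter ℕ), ∀ i < F.P n, ∀ j < F.P n,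
    ‖F.b n j - F.b n i‖ ≤ e * ‖F.t n i‖ → j = i := by
  obtain ⟨e, he, h⟩ := t1294_loc F.hW F.zero.1 F.W1
  refine ⟨e, he, (F.hc 1 (1 / 4) (by norm_num)).mono fun n hn i hi j hj hij => ?_⟩
  obtain ⟨ht, hy⟩ := hn i hi
  have h2 := h _ (t1294_diff (F.Φ n) (F.b n i) (F.t n i) (F.τ n))
    (by simp [t1294_w, (F.hb n i hi).1])
    (fun y h3 => (hy y h3).1) ((F.b n j - F.b n i) / F.t n i)
    (by rwa [norm_div, div_le_iff₀ (norm_pos_iff.2 ht)])
    (by simp [t1294_w, mul_div_cancel₀ _ ht, (F.hb n j hj).1])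
  exact F.hinj n j hj i hi (sub_eq_zero.1 ((div_eq_zero_iff.1 h2).resolve_right ht))

/-- Points of the family are seen near `Zs`. -/
theorem near_Z (L : ℝ) {ε : ℝ} (hε : 0 < ε) : ∀ᶠ n in (F.𝒰 : Filter ℕ), ∀ i < F.P n, ∀ j < F.P n,
    ‖F.b n j - F.b n i‖ ≤ L * ‖F.t n i‖ →
      ∃ x ∈ Zs F.W F.V, ‖F.b n j - F.b n i - F.t n i * x‖ ≤ ε * ‖F.t n i‖ := by
  have hK : IsCompact (closedBall (0 : ℂ) L \ ⋃ x ∈ Zs F.W F.V, ball x ε) :=
    (isCompact_closedBall _ _).diff (isOpen_biUnion fun _ _ => isOpen_ball)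
  have c1 := F.hW.continuous
  have c2 := F.hV.continuous
  obtain ⟨m, hm, hmin⟩ := hK.exists_forall_le' (f := fun y => ‖F.W y‖ + ‖1 - F.V y‖) (a := 0)
    (by fun_prop) (fun y hy => by
      refine lt_of_le_of_ne (by positivity) fun h0 => hy.2 ?_
      have a1 : ‖F.W y‖ = 0 := by linarith [norm_nonneg (F.W y), norm_nonneg (1 - F.V y)]
      have a2 : ‖1 - F.V y‖ = 0 := by linarith [norm_nonneg (F.W y), norm_nonneg (1 - F.V y)]
      refine mem_iUnion₂.2 ⟨y, ⟨norm_eq_zero.1 a1, ?_⟩, mem_ball_self hε⟩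
      rw [← sub_eq_zero.1 (norm_eq_zero.1 a2)]
      exact one_ne_zero)
  refine (F.hc (L + 1) (m / 3) (by positivity)).mono fun n hn i hi j hj hij => ?_
  obtain ⟨ht, hy⟩ := hn i hi
  have ht0 := norm_pos_iff.2 ht
  have h1 : ‖(F.b n j - F.b n i) / F.t n i‖ ≤ L := by rwa [norm_div, div_le_iff₀ ht0]
  have h2 := hy _ (mem_ball_zero_iff.2 (h1.trans_lt (lt_add_one L)))
  rw [mul_div_cancel₀ _ ht, add_sub_cancel, (F.hb n j hj).1, (F.hb n j hj).2, zero_div, zero_sub,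
    norm_neg] at h2
  by_contra hcon
  have h3 := hmin ((F.b n j - F.b n i) / F.t n i) ⟨mem_closedBall_zero_iff.2 h1, fun h4 => by
    obtain ⟨x, hx, h5⟩ := mem_iUnion₂.1 h4
    rw [mem_ball, dist_eq_norm, div_sub' ht, norm_div, div_lt_iff₀ ht0] at h5
    exact hcon ⟨x, hx, h5.le⟩⟩
  linarith [h2.1, h2.2]

/-- Points of `Zs` come from points of the family. -/
theorem Z_near {x : ℂ} (hx : x ∈ Zs F.W F.V) {ε : ℝ} (hε : 0 < ε) :
    ∀ᶠ n in (F.𝒰 : Filter ℕ), ∀ i < F.P n, ∃ j < F.P n,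
      ‖F.b n j - F.b n i - F.t n i * x‖ ≤ ε * ‖F.t n i‖ := by
  have hv : 0 < ‖F.V x‖ := norm_pos_iff.2 hx.2
  obtain ⟨δ, hδ, hd⟩ := Metric.continuous_iff.1 F.hV.continuous x (‖F.V x‖ / 2) (by positivity)
  obtain ⟨η, hη, h⟩ := hurwitz_zero F.hW F.W1 hx.1 (lt_min hε (lt_min one_pos hδ))
  filter_upwards [F.hc (‖x‖ + 2) (min η (‖F.V x‖ / 4)) (by positivity), F.far' (‖x‖ + 2)]
    with n hn hf k hk
  obtain ⟨ht, hy⟩ := hn k hk
  obtain ⟨y, h1, h2⟩ := h _ (t1294_diff (F.Φ n) (F.b n k) (F.t n k) (F.τ n))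
    fun y h3 => (hy y h3).1.trans (min_le_left _ _)
  rw [mem_ball, lt_min_iff, lt_min_iff] at h1
  have h5 := hd y h1.2.2
  rw [dist_eq_norm] at h1 h5
  have h6 : y ∈ ball (0 : ℂ) (‖x‖ + 2) := mem_ball_zero_iff.2 (by
    linarith [norm_le_norm_add_norm_sub' y x, h1.2.1])
  have h3 := (hy y h6).2.trans (min_le_right _ _)
  obtain ⟨j, hj, h4⟩ := F.hz n (F.b n k + F.t n k * y) (fun h0 => by
    rw [h0, zero_sub, norm_neg] at h3
    linarith [norm_le_norm_add_norm_sub (F.V y) (F.V x)])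
    ((mul_eq_zero.1 ((F.hΦ n _).symm.trans ((div_eq_zero_iff.1 h2).resolve_right
      (mul_ne_zero (F.hτ n) ht)))).resolve_left (sub_ne_zero.2 (hf k hk y h6).symm))
  refine ⟨j, hj, ?_⟩
  rw [h4, add_sub_cancel_left, ← mul_sub, norm_mul, mul_comm]
  exact mul_le_mul_of_nonneg_right h1.1.le (norm_nonneg _)

/-- Limits of pairs of neighbouring charts. -/
theorem pair {k j : ℕ → ℕ} {J : ℝ} (h : ∀ᶠ n in (F.𝒰 : Filter ℕ), k n < F.P n ∧ j n < F.P n ∧
      ‖F.b n (j n) - F.b n (k n)‖ ≤ J * ‖F.t n (k n)‖) :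
    ∃ x μ : ℂ, Tendsto (fun n => (F.b n (j n) - F.b n (k n)) / F.t n (k n)) F.𝒰 (𝓝 x) ∧
      Tendsto (fun n => F.t n (j n) / F.t n (k n)) F.𝒰 (𝓝 μ) ∧ Symm F.W F.V x μ := by
  obtain ⟨e, he, hs⟩ := F.sep
  have ht : ∀ᶠ n in (F.𝒰 : Filter ℕ), F.t n (k n) ≠ 0 ∧ F.t n (j n) ≠ 0 := by
    filter_upwards [h, F.hc 1 1 one_pos] with n a1 a2
    exact ⟨(a2 _ a1.1).1, (a2 _ a1.2.1).1⟩
  obtain ⟨x, hx⟩ := t1294_ulim F.𝒰 (f := fun n => (F.b n (j n) - F.b n (k n)) / F.t n (k n))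
    (R := J) (by
    filter_upwards [h, ht] with n a1 a2
    rw [norm_div, div_le_iff₀ (norm_pos_iff.2 a2.1)]
    exact a1.2.2)
  obtain ⟨μ, hμ⟩ := t1294_ulim F.𝒰 (f := fun n => F.t n (j n) / F.t n (k n))
    (R := max 1 (J / e)) (by
    filter_upwards [h, ht, hs] with n a1 a2 a3
    by_cases h1 : ‖F.b n (k n) - F.b n (j n)‖ ≤ e * ‖F.t n (j n)‖
    · rw [← a3 _ a1.2.1 _ a1.1 h1, div_self a2.1, norm_one]
      exact le_max_left _ _
    · refine le_trans ?_ (le_max_right _ _)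
      rw [norm_sub_rev] at h1
      rw [norm_div, div_le_div_iff₀ (norm_pos_iff.2 a2.1) he]
      linarith [a1.2.2])
  have e1 : ∀ᶠ n in (F.𝒰 : Filter ℕ), ∀ y, F.b n (k n) + F.t n (k n) *
      ((F.b n (j n) - F.b n (k n)) / F.t n (k n) + F.t n (j n) / F.t n (k n) * y) =
        F.b n (j n) + F.t n (j n) * y := by
    filter_upwards [ht] with n ⟨a1, a2⟩ y
    field_simp
    ring
  have wk : ∀ L η : ℝ, 0 < η → ∀ᶠ n in (F.𝒰 : Filter ℕ), ∀ y ∈ ball (0 : ℂ) L,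
      ‖t1294_w (F.Φ n) (F.b n (k n)) (F.t n (k n)) (F.τ n) y - F.W y‖ ≤ η := fun L η hη => by
    filter_upwards [h, F.hc L η hη] with n a1 a2 y hy
    exact ((a2 _ a1.1).2 y hy).1
  have hVe : ∀ y, F.V (x + μ * y) = F.V y := fun y => by
    refine tendsto_nhds_unique_of_eventuallyEq (l := (F.𝒰 : Filter ℕ))
      (t1279_lim (F := fun n y => (F.Ψ n).eval (F.b n (k n) + F.t n (k n) * y)) F.hV.continuous
        (fun L η hη => ?_) (hx.add (hμ.mul_const y)))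
      (t1279_lim (F := fun n y => (F.Ψ n).eval (F.b n (j n) + F.t n (j n) * y)) F.hV.continuous
        (fun L η hη => ?_) (tendsto_const_nhds (x := y))) (e1.mono fun n hn => ?_)
    · filter_upwards [h, F.hc L η hη] with n a1 a2 y hy
      exact ((a2 _ a1.1).2 y hy).2
    · filter_upwards [h, F.hc L η hη] with n a1 a2 y hy
      exact ((a2 _ a1.2.1).2 y hy).2
    · simp only [hn y]
  refine ⟨x, μ, hx, hμ, ?_⟩
  by_cases hne : ∃ x, x ≠ 0 ∧ F.W x = 0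
  · obtain ⟨a, b⟩ := pair_limit (l := F.𝒰) F.hW
      (w := fun n => t1294_w (F.Φ n) (F.b n (k n)) (F.t n (k n)) (F.τ n))
      (w' := fun n => t1294_w (F.Φ n) (F.b n (j n)) (F.t n (j n)) (F.τ n))
      (fun n => t1294_diff _ _ _ _) wk (fun L η hη => by
        filter_upwards [h, F.hc L η hη] with n a1 a2 y hy
        exact ((a2 _ a1.2.1).2 y hy).1) hx hμ (by
        filter_upwards [ht, e1] with n ⟨a1, a2⟩ a4
        refine ⟨div_ne_zero a2 a1, fun y => ?_⟩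
        have a3 := F.hτ n
        simp only [t1294_w, a4 y]
        field_simp) F.zero.1 F.W1 hne
    exact ⟨a, fun y => ⟨b y, hVe y⟩⟩
  · have h0 : F.W x = 0 := by
      refine tendsto_nhds_unique_of_eventuallyEq (l := (F.𝒰 : Filter ℕ))
        (t1279_lim F.hW.continuous wk hx) (tendsto_const_nhds (x := 0)) ?_
      filter_upwards [h, ht] with n a1 a2
      simp [t1294_w, mul_div_cancel₀ _ a2.1, (F.hb n _ a1.2.1).1]
    obtain rfl : x = 0 := by
      by_contra hx0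
      exact hne ⟨x, hx0, h0⟩
    obtain rfl : μ = 1 := by
      refine tendsto_nhds_unique_of_eventuallyEq (l := (F.𝒰 : Filter ℕ)) hμ
        (tendsto_const_nhds (x := 1)) ?_
      filter_upwards [h, ht, hs, Metric.tendsto_nhds.1 hx e he] with n a1 a2 a3 a4
      rw [dist_zero_right, norm_div, div_lt_iff₀ (norm_pos_iff.2 a2.1)] at a4
      rw [a3 _ a1.1 _ a1.2.1 a4.le, div_self a2.1]
    exact ⟨one_ne_zero, fun y => by simp⟩

theorem sym : ∀ x ∈ Zs F.W F.V, ∃ μ, Symm F.W F.V x μ := by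
  intro x hx
  choose j hj hmin using fun n => Finset.exists_min_image (Finset.range (F.P n))
    (fun j => ‖F.b n j - F.b n 0 - F.t n 0 * x‖) ⟨0, Finset.mem_range.2 (F.hP n)⟩
  have h1 : ∀ ε : ℝ, 0 < ε → ∀ᶠ n in (F.𝒰 : Filter ℕ),
      ‖F.b n (j n) - F.b n 0 - F.t n 0 * x‖ ≤ ε * ‖F.t n 0‖ := fun ε hε =>
    (F.Z_near hx hε).mono fun n hn => by
      obtain ⟨i, hi, h⟩ := hn 0 (F.hP n)
      exact (hmin n i (Finset.mem_range.2 hi)).trans h
  obtain ⟨x', μ, h2, -, h3⟩ := F.pair (k := fun _ => 0) (j := j) (J := 1 + ‖x‖)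
    ((h1 1 one_pos).mono fun n hn => ⟨F.hP n, Finset.mem_range.1 (hj n), by
      have := norm_le_norm_sub_add (F.b n (j n) - F.b n 0) (F.t n 0 * x)
      rw [norm_mul] at this
      linarith⟩)
  have h5 : Tendsto (fun n => (F.b n (j n) - F.b n 0) / F.t n 0) F.𝒰 (𝓝 x) := by
    refine Metric.tendsto_nhds.2 fun ε hε => ?_
    filter_upwards [h1 (ε / 2) (by positivity), F.hc 1 1 one_pos] with n a1 a2
    have a3 := (a2 0 (F.hP n)).1
    rw [dist_eq_norm, div_sub' a3, norm_div]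
    exact ((div_le_iff₀ (norm_pos_iff.2 a3)).2 a1).trans_lt (by linarith)
  exact ⟨μ, tendsto_nhds_unique h2 h5 ▸ h3⟩

theorem t1318_diff {n k : ℕ} {U : Set ℂ}
    (h : ∀ y ∈ U, F.Off n (F.b n k + F.t n k * y)) :
    DifferentiableOn ℂ (fun y => F.t n k ^ 2 * F.q n (F.b n k + F.t n k * y)) U := fun y hy =>
  (((F.hq n _ (h y hy)).1.comp y (f := fun y => F.b n k + F.t n k * y)
    (by fun_prop)).const_mul _).differentiableWithinAt

theorem t1318_cpt {K : Set ℂ} (hK : IsCompact K) (hW : ∀ y ∈ K, F.W y ≠ 0) {η : ℝ} (hη : 0 < η) :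
    ∀ᶠ n in (F.𝒰 : Filter ℕ), ∀ k < F.P n, ∀ y ∈ K,
      F.Off n (F.b n k + F.t n k * y) →
      ‖F.t n k ^ 2 * F.q n (F.b n k + F.t n k * y) - F.V y / F.W y ^ 2‖ ≤ η := by
  obtain ⟨δ, hδ, H⟩ := t1318_uc hK F.hW.continuous.continuousOn F.hV.continuous.continuousOn
    (h := fun p => p.2 / p.1 ^ 2) (fun y hy =>
      continuousAt_snd.div (continuousAt_fst.pow 2) (pow_ne_zero 2 (hW y hy))) hη
  obtain ⟨μ, hμ, H'⟩ := hK.exists_forall_le' F.hW.continuous.norm.continuousOn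
    fun y hy => norm_pos_iff.2 (hW y hy)
  obtain ⟨L, hL⟩ := hK.isBounded.subset_ball 0
  filter_upwards [F.hc L (min δ (μ / 2)) (lt_min hδ (half_pos hμ))] with n hn k hk y hy hb
  obtain ⟨t0, h1⟩ := hn k hk
  obtain ⟨h2, h3⟩ := h1 y (hL hy)
  have h4 := H y hy _ _ (h2.trans (min_le_left _ _)) (h3.trans (min_le_left _ _))
  have h5 : (F.Φ n).eval (F.b n k + F.t n k * y) ≠ 0 := fun e => by
    rw [e, zero_div, zero_sub, norm_neg] at h2
    linarith [H' y hy, min_le_right δ (μ / 2)]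
  have := F.hτ n
  refine le_of_eq_of_le ?_ h4
  congr 2
  simp only [(F.hq n _ hb).2]
  field_simp

theorem t1318_far {x : ℂ} (hx : x ∉ Zs F.W F.V) : ∃ ε > 0, ∀ᶠ n in (F.𝒰 : Filter ℕ), ∀ k < F.P n,
    ∀ y ∈ ball x ε, F.Off n (F.b n k + F.t n k * y) := by
  have hc : Continuous fun y => ‖F.W y‖ + ‖1 - F.V y‖ :=
    F.hW.continuous.norm.add (continuous_const.sub F.hV.continuous).norm
  have h0 : 0 < ‖F.W x‖ + ‖1 - F.V x‖ := by
    by_cases h : F.W x = 0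
    · rw [not_not.1 fun e => hx ⟨h, e⟩, h]; simp
    · exact add_pos_of_pos_of_nonneg (norm_pos_iff.2 h) (norm_nonneg _)
  obtain ⟨ε, hε, H⟩ := Metric.eventually_nhds_iff_ball.1
    (hc.continuousAt.eventually (lt_mem_nhds (half_lt_self h0)))
  obtain ⟨L, hL⟩ := (isBounded_ball (x := x) (r := ε)).subset_ball 0
  refine ⟨ε, hε, ?_⟩
  filter_upwards [F.hc L _ (half_pos (half_pos h0)), F.far' L] with n hn hf k hk y hy
  refine ⟨fun j hj e => ?_, hf k hk y (hL hy)⟩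
  obtain ⟨h2, h3⟩ := (hn k hk).2 y (hL hy)
  rw [← e, (F.hb n j hj).1, zero_div, zero_sub, norm_neg] at h2
  rw [← e, (F.hb n j hj).2] at h3
  linarith [H y hy]

theorem lim : ∃ R : ℂ → ℂ, DifferentiableOn ℂ R (Zs F.W F.V)ᶜ ∧
    (∀ y ∉ Zs F.W F.V, F.W y ^ 2 * R y = F.V y) ∧ F.Lim R := by
  classical
  set g : ℂ → ℂ := fun y => F.V y / F.W y ^ 2 with hg
  set R : ℂ → ℂ := fun y => if F.W y = 0 then limUnder (𝓝[≠] y) g else g y with hR
  obtain ⟨c, hc⟩ : ∃ c, F.W c ≠ 0 := by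
    by_contra h
    push Not at h
    simpa [show F.W = fun _ => 0 from funext h] using F.W1
  have hgd : ∀ y, F.W y ≠ 0 → DifferentiableAt ℂ g y := fun y h =>
    (F.hV y).div ((F.hW y).pow 2) (pow_ne_zero 2 h)
  have key : ∀ x ∉ Zs F.W F.V, ∃ ε > 0, DifferentiableOn ℂ R (ball x ε) ∧
      ∀ η > 0, ∀ᶠ n in (F.𝒰 : Filter ℕ), ∀ k < F.P n, ∀ y ∈ ball x ε,
      F.Off n (F.b n k + F.t n k * y) ∧
        ‖F.t n k ^ 2 * F.q n (F.b n k + F.t n k * y) - R y‖ ≤ η := by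
    intro x hx
    obtain ⟨ε, hε, h1⟩ := F.t1318_far hx
    obtain ⟨r, hr, hrε, h2⟩ := t1318_rad (t1318_iso F.hW hc x) hε
    have hs : r / 2 < r := half_lt_self hr
    have hsb : sphere x (r / 2) ⊆ ball x r := sphere_subset_ball hs
    have h3 : ∀ y ∈ sphere x (r / 2), F.W y ≠ 0 := fun y hy =>
      h2 y (hsb hy) (ne_of_mem_sphere hy (half_pos hr).ne')
    have h4 := fun η hη => F.t1318_cpt (isCompact_sphere x (r / 2)) h3 (η := η) hη
    have hRd : DifferentiableOn ℂ R (ball x r) := by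
      have e : ∀ y ∈ ball x r, y ≠ x → R y = g y := fun y hy h => if_neg (h2 y hy h)
      intro y hy
      by_cases hW : F.W y = 0
      swap
      · refine ((hgd y hW).congr_of_eventuallyEq ?_).differentiableWithinAt
        exact (F.hW.continuous.continuousAt.eventually_ne hW).mono fun z hz => if_neg hz
      obtain rfl : y = x := not_not.1 fun h => h2 y hy h hW
      obtain ⟨M, hM⟩ := (isCompact_sphere y (r / 2)).exists_bound_of_continuousOn (f := g)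
        fun z hz => (hgd z (h3 z hz)).continuousAt.continuousWithinAt
      have hb := ball_mem_nhds y (half_pos hr)
      have := Complex.differentiableOn_update_limUnder_of_bddAbove (f := g) hb
        (fun z hz => (hgd z (h2 z (ball_subset_ball hs.le hz.1) hz.2)).differentiableWithinAt)
        ⟨M + 1 + 1, by
          rintro _ ⟨z, hz, rfl⟩
          have hz' := ball_subset_ball hs.le hz.1
          obtain ⟨n, a1, a2, a3⟩ := (h1.and ((h4 1 one_pos).and (F.t1318_cpt isCompact_singleton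
            (K := {z}) (fun w hw => hw ▸ h2 z hz' hz.2) one_pos))).exists
          have a4 : ∀ w ∈ ball y r, _ := fun w hw => a1 0 (F.hP n) w (ball_subset_ball hrε hw)
          have a5 := max_disc (half_pos hr) hs (F.t1318_diff a4) (m := M + 1) (fun w hw => by
            have hw' := mem_sphere_iff_norm.2 hw
            linarith [norm_le_norm_add_norm_sub' (F.t n 0 ^ 2 * F.q n (F.b n 0 + F.t n 0 * w)) (g w),
              a2 0 (F.hP n) w hw' (a4 w (hsb hw')), hM w hw']) z (mem_ball_iff_norm.1 hz.1).le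
          have a6 := a3 0 (F.hP n) z rfl (a4 z hz')
          rw [norm_sub_rev] at a6
          linarith [norm_le_norm_add_norm_sub' (g z) (F.t n 0 ^ 2 * F.q n (F.b n 0 + F.t n 0 * z)),
            show (norm ∘ g) z = ‖g z‖ from rfl]⟩
      refine ((this.differentiableAt hb).congr_of_eventuallyEq ?_).differentiableWithinAt
      filter_upwards [ball_mem_nhds y hr] with z hz
      by_cases h : z = y
      · rw [h, Function.update_self]; exact if_pos hW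
      · rw [Function.update_of_ne h]; exact e z hz h
    refine ⟨r / 2, half_pos hr, hRd.mono (ball_subset_ball hs.le), fun η hη => ?_⟩
    filter_upwards [h1, h4 η hη] with n a1 a2 k hk y hy
    have a4 : ∀ w ∈ ball x r, _ := fun w hw => a1 k hk w (ball_subset_ball hrε hw)
    refine ⟨a4 y (ball_subset_ball hs.le hy), max_disc (half_pos hr) hs
      ((F.t1318_diff a4).sub hRd) (fun w hw => ?_) y (mem_ball_iff_norm.1 hy).le⟩
    have hw' := mem_sphere_iff_norm.2 hw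
    have := a2 k hk w hw' (a4 w (hsb hw'))
    rwa [show F.V w / F.W w ^ 2 = R w from (if_neg (h3 w hw')).symm] at this
  refine ⟨R, fun x hx => ?_, fun y hy => ?_, fun x hx => ?_⟩
  · obtain ⟨ε, hε, h, -⟩ := key x hx
    exact (h.differentiableAt (ball_mem_nhds x hε)).differentiableWithinAt
  · by_cases h : F.W y = 0
    · rw [h, not_not.1 fun e => hy ⟨h, e⟩]; simp
    · rw [show R y = g y from if_neg h, hg]; field_simp
  · obtain ⟨ε, hε, -, h⟩ := key x hx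
    exact ⟨ε, hε, h⟩

theorem mult {S : Set ℂ} (T : Finset ℂ) (h : ∀ x μ, Symm F.W F.V x μ → ∀ y ∈ closure S,
    ∀ y' ∈ closure S, y = x + μ * y' → x ∈ T) : F.Mult T.card S := by
  intro L
  by_contra hc
  have h1 := (Ultrafilter.eventually_not.2 hc).mono fun n hn =>
    (by
      by_contra hk
      refine hn fun v J hJ => ?_
      by_contra hl
      rw [not_le] at hl
      obtain ⟨k, hkJ, hmax⟩ := J.exists_max_image (fun k => ‖F.t n k‖)
        (Finset.card_pos.1 (by omega))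
      obtain ⟨y₀, a1, a2, a3⟩ := (hJ k hkJ).2
      have hle : T.card + 1 ≤ J.card := hl
      let f : Fin (T.card + 1) → J := fun a => J.equivFin.symm (Fin.castLE hle a)
      have hf : Function.Injective fun a => (f a : ℕ) := fun a b hab =>
        Fin.castLE_injective hle (J.equivFin.symm.injective (Subtype.ext hab))
      choose y hy using fun a => (hJ (f a) (f a).2).2
      exact hk ⟨(k, y₀, fun a => f a, y), (hJ k hkJ).1, a1, a2, hf, fun a =>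
        ⟨(hJ _ (f a).2).1, (hy a).1, (hy a).2.1, hmax _ (f a).2, (hy a).2.2.trans a3.symm⟩⟩ :
      ∃ p : ℕ × ℂ × (Fin (T.card + 1) → ℕ) × (Fin (T.card + 1) → ℂ), p.1 < F.P n ∧ p.2.1 ∈ S ∧
        ‖p.2.1‖ < L ∧ Function.Injective p.2.2.1 ∧ ∀ a, p.2.2.1 a < F.P n ∧ p.2.2.2 a ∈ S ∧
          ‖p.2.2.2 a‖ < L ∧ ‖F.t n (p.2.2.1 a)‖ ≤ ‖F.t n p.1‖ ∧
          F.b n (p.2.2.1 a) + F.t n (p.2.2.1 a) * p.2.2.2 a = F.b n p.1 + F.t n p.1 * p.2.1)
  obtain ⟨p, hp⟩ := h1.choice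
  obtain ⟨e, he, hs⟩ := F.sep
  have hpair := fun a => F.pair (k := fun n => (p n).1) (j := fun n => (p n).2.2.1 a)
    (J := 2 * L) (hp.mono fun n ⟨a1, _, a3, _, a5⟩ => ⟨a1, (a5 a).1, by
      obtain ⟨-, -, b3, b4, b5⟩ := a5 a
      have e1 : F.b n ((p n).2.2.1 a) - F.b n (p n).1 =
          F.t n (p n).1 * (p n).2.1 - F.t n ((p n).2.2.1 a) * (p n).2.2.2 a := by
        linear_combination b5
      rw [e1]
      refine (norm_sub_le _ _).trans ?_
      rw [norm_mul, norm_mul]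
      have c1 := mul_le_mul_of_nonneg_left a3.le (norm_nonneg (F.t n (p n).1))
      have c2 := mul_le_mul b4 b3.le (norm_nonneg _) (norm_nonneg _)
      linarith⟩)
  choose x μ hx hμ hsym using hpair
  obtain ⟨Y, hY⟩ := t1294_ulim F.𝒰 (f := fun n => (p n).2.1) (R := L)
    (hp.mono fun n hn => hn.2.2.1.le)
  have hT : ∀ a, x a ∈ T := fun a => by
    obtain ⟨Y', hY'⟩ := t1294_ulim F.𝒰 (f := fun n => (p n).2.2.2 a) (R := L)
      (hp.mono fun n hn => (hn.2.2.2.2 a).2.2.1.le)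
    refine h _ _ (hsym a) Y (mem_closure_of_tendsto hY (hp.mono fun n hn => hn.2.1)) Y'
      (mem_closure_of_tendsto hY' (hp.mono fun n hn => (hn.2.2.2.2 a).2.1)) ?_
    refine tendsto_nhds_unique_of_eventuallyEq (l := (F.𝒰 : Filter ℕ)) hY
      ((hx a).add ((hμ a).mul hY')) ?_
    filter_upwards [hp, F.hc 1 1 one_pos] with n a1 a2
    have b1 := (a2 _ a1.1).1
    have b2 := (a1.2.2.2.2 a).2.2.2.2
    field_simp
    linear_combination -b2
  obtain ⟨a, a', haa, hxx⟩ := Fintype.exists_ne_map_eq_of_card_lt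
    (fun a => (⟨x a, hT a⟩ : T)) (by simp)
  have hxe : x a = x a' := congrArg Subtype.val hxx
  have h2 := ((hx a').sub (hx a)).div (hμ a) (hsym a).1
  rw [hxe, sub_self, zero_div] at h2
  obtain ⟨n, b1, b2, b3, b4⟩ := (hp.and ((Metric.tendsto_nhds.1 h2 e he).and
    (hs.and (F.hc 1 1 one_pos)))).exists
  have c1 := (b4 _ b1.1).1
  have c2 := (b4 _ (b1.2.2.2.2 a).1).1
  have e2 : ((F.b n ((p n).2.2.1 a') - F.b n (p n).1) / F.t n (p n).1 -
      (F.b n ((p n).2.2.1 a) - F.b n (p n).1) / F.t n (p n).1) /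
        (F.t n ((p n).2.2.1 a) / F.t n (p n).1) =
      (F.b n ((p n).2.2.1 a') - F.b n ((p n).2.2.1 a)) / F.t n ((p n).2.2.1 a) := by
    field_simp
    ring
  rw [dist_zero_right, Pi.div_apply, e2, norm_div, div_lt_iff₀ (norm_pos_iff.2 c2)] at b2
  exact haa (b1.2.2.2.1 (b3 _ (b1.2.2.2.2 a).1 _ (b1.2.2.2.2 a').1 b2.le)).symm

theorem t1318_sol {R : ℂ → ℂ} (h : Trio F.W F.V R) (hl : F.Lim R) {x : ℂ} (hx : x ∉ Zs F.W F.V)
    {H : ℂ × ℂ → ℂ} (hH : Differentiable ℂ H) (h0 : H (deriv R x, R x) = 0)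
    (hi : ∀ᶠ z in 𝓝[≠] x, H (deriv R z, R z) ≠ 0) {ε : ℝ} (hε : 0 < ε) :
    ∀ᶠ n in (F.𝒰 : Filter ℕ), ∀ k < F.P n, ∃ y ∈ ball x ε,
      F.Off n (F.b n k + F.t n k * y) ∧
      H (F.t n k ^ 3 * deriv (F.q n) (F.b n k + F.t n k * y),
        F.t n k ^ 2 * F.q n (F.b n k + F.t n k * y)) = 0 := by
  obtain ⟨ε₁, hε₁, h1⟩ := hl x hx
  obtain ⟨ε₂, hε₂, h2⟩ := Metric.isOpen_iff.1 h.closed.2.1.isOpen_compl x hx
  obtain ⟨r, hr, hr', h3⟩ := t1318_rad hi (lt_min hε (lt_min hε₁ hε₂))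
  simp only [le_min_iff] at hr'
  have hR := h.hR.mono ((ball_subset_ball hr'.2.2).trans h2)
  have hs : 0 < r / 3 := by positivity
  have hcb : closedBall x (r / 3) ⊆ ball x r := closedBall_subset_ball (by linarith)
  have c1 := (hR.deriv isOpen_ball).continuousOn.mono hcb
  have c2 := hR.continuousOn.mono hcb
  obtain ⟨μ, hμ, h4⟩ := (isCompact_sphere x (r / 3)).exists_forall_le'
    ((hH.continuous.comp_continuousOn (c1.prodMk c2)).mono sphere_subset_closedBall).norm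
    fun y hy => norm_pos_iff.2 (h3 y (hcb (sphere_subset_closedBall hy)) (ne_of_mem_sphere hy hs.ne'))
  obtain ⟨δ, hδ, h5⟩ := t1318_uc (isCompact_closedBall x (r / 3)) c1 c2
    (fun y _ => hH.continuous.continuousAt) (show 0 < μ / 3 by positivity)
  filter_upwards [h1 (min δ (δ * (r / 3))) (by positivity)] with n hn k hk
  have a1 : ∀ y ∈ ball x r, _ := fun y hy => hn k hk y (ball_subset_ball hr'.2.1 hy)
  have a2 := F.t1318_diff fun y hy => (a1 y hy).1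
  set f := fun y => F.t n k ^ 2 * F.q n (F.b n k + F.t n k * y) with hf
  have a3 : ∀ y ∈ closedBall x (r / 3), ‖H (deriv f y, f y) - H (deriv R y, R y)‖ ≤ μ / 3 := by
    intro y hy
    have hsub : closedBall y (r / 3) ⊆ ball x r :=
      closedBall_subset_ball' (by linarith [mem_closedBall.1 hy])
    have hn := isOpen_ball.mem_nhds (hcb hy)
    refine h5 y hy _ _ ?_ ((a1 y (hcb hy)).2.trans (min_le_left _ _))
    rw [← deriv_sub (a2.differentiableAt hn) (hR.differentiableAt hn)]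
    refine (Complex.norm_deriv_le_of_forall_mem_sphere_norm_le hs
      ((a2.sub hR).diffContOnCl_ball hsub) (C := δ * (r / 3)) fun z hz =>
      (a1 z (hsub (sphere_subset_closedBall hz))).2.trans (min_le_right _ _)).trans_eq ?_
    field_simp
  obtain ⟨y, hy, a4⟩ := t37_zero_of_lt (g := fun y => H (deriv f y, f y)) hs
    ((hH.comp_differentiableOn ((a2.deriv isOpen_ball).prodMk a2)).diffContOnCl_ball hcb)
    fun w hw => by
      have b1 := a3 x (mem_closedBall_self hs.le)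
      have b2 := a3 w (sphere_subset_closedBall hw)
      have b3 : μ ≤ ‖H (deriv R w, R w)‖ := h4 w hw
      rw [h0, sub_zero] at b1
      rw [norm_sub_rev] at b2
      linarith [norm_le_norm_add_norm_sub' (H (deriv R w, R w)) (H (deriv f w, f w))]
  have hy' := hcb (ball_subset_closedBall hy)
  refine ⟨y, ball_subset_ball hr'.1 hy', (a1 y hy').1, ?_⟩
  have b1 : HasDerivAt f _ y := ((F.hq n _ (a1 y hy').1).1.hasDerivAt.comp y
    (((hasDerivAt_id' y).const_mul (F.t n k)).const_add (F.b n k))).const_mul (F.t n k ^ 2)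
  rw [← a4, b1.deriv]
  congr 2
  ring

theorem t1318_count {K : ℕ} {S : Set ℂ} (hS : IsOpen S) (hm : F.Mult K S) (T : Finset ℂ)
    (hT : ∀ x ∈ T, x ∈ S) {Q : ℕ → ℂ → Prop}
    (h : ∀ x ∈ T, ∀ ε > 0, ∀ᶠ n in (F.𝒰 : Filter ℕ), ∀ k < F.P n, ∃ y ∈ ball x ε,
      F.t n k ≠ 0 → Q n (F.b n k + F.t n k * y)) :
    ∃ n, ∃ Z : Finset ℂ, T.card * F.P n ≤ K * Z.card ∧ ∀ z ∈ Z, Q n z := by
  classical
  obtain ⟨ε, hε, ⟨hε1, hsub⟩, hsep⟩ : ∃ ε > 0, (ε ≤ 1 ∧ ∀ x ∈ T, ball x ε ⊆ S) ∧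
      ∀ w ∈ T ×ˢ T, w.1 ≠ w.2 → 2 * ε ≤ ‖w.1 - w.2‖ := by
    have e1 : ∀ᶠ ε : ℝ in 𝓝 0, ∀ w ∈ T ×ˢ T, w.1 ≠ w.2 → 2 * ε ≤ ‖w.1 - w.2‖ := by
      refine (Filter.eventually_all_finset _).mpr fun w _ => ?_
      by_cases hw : w.1 = w.2
      · exact Eventually.of_forall fun _ h => absurd hw h
      · have c1 : ContinuousAt (fun a : ℝ => 2 * a) 0 := by fun_prop
        exact (c1.eventually (gt_mem_nhds (show 2 * (0 : ℝ) < ‖w.1 - w.2‖ by
          simpa [sub_eq_zero] using hw))).mono fun a ha _ => ha.le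
    have e2 : ∀ᶠ ε : ℝ in 𝓝 0, ∀ x ∈ T, ball x ε ⊆ S :=
      (Filter.eventually_all_finset _).mpr fun x hx =>
        eventually_ball_subset (hS.mem_nhds (hT x hx))
    obtain ⟨a, ⟨g1, g2, g4⟩, g3⟩ := (((e1.and (e2.and (gt_mem_nhds (zero_lt_one' ℝ)))).filter_mono
      nhdsWithin_le_nhds).and (self_mem_nhdsWithin (a := (0 : ℝ)) (s := Ioi 0))).exists
    exact ⟨a, g3, ⟨g4.le, g2⟩, g1⟩
  obtain ⟨L, hL⟩ := T.finite_toSet.isBounded.subset_ball 0
  obtain ⟨n, g1, g2, g3⟩ := (((Filter.eventually_all_finset T).mpr fun x hx => h x hx ε hε).and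
    ((hm (L + 1)).and (F.hc 1 1 one_pos))).exists
  choose! y hy hy' using g1
  set φ : ℂ × ℕ → ℂ := fun w => F.b n w.2 + F.t n w.2 * y w.1 w.2 with hφ
  refine ⟨n, (T ×ˢ Finset.range (F.P n)).image φ, ?_, fun z hz => ?_⟩
  · rw [← Finset.card_range (F.P n), ← Finset.card_product, Finset.card_range]
    refine Finset.card_le_mul_card_image _ K fun v _ => ?_
    rw [← Finset.card_image_of_injOn (f := Prod.snd)]
    · refine g2 v _ fun k hk => ?_
      obtain ⟨w, hw, rfl⟩ := Finset.mem_image.1 hk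
      simp only [Finset.mem_filter, Finset.mem_product, Finset.mem_range] at hw
      have a1 := hy w.1 hw.1.1 w.2 hw.1.2
      refine ⟨hw.1.2, _, hsub _ hw.1.1 a1, ?_, hw.2⟩
      have a2 := mem_ball_zero_iff.mp (hL hw.1.1)
      rw [mem_ball, dist_eq_norm] at a1
      linarith [norm_le_norm_add_norm_sub' (y w.1 w.2) w.1]
    · rintro ⟨x, k⟩ hw ⟨x', k'⟩ hw' (rfl : k = k')
      simp only [Finset.coe_filter, Finset.mem_product, Finset.mem_range, mem_ofPred_eq] at hw hw'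
      have a0 : y x k = y x' k :=
        mul_left_cancel₀ (g3 k hw.1.2).1 (add_left_cancel (hw.2.trans hw'.2.symm))
      refine Prod.ext (not_not.1 fun hne => ?_) rfl
      have a1 := hsep (x, x') (Finset.mk_mem_product hw.1.1 hw'.1.1) hne
      have a2 := mem_ball_iff_norm'.1 (hy x hw.1.1 k hw.1.2)
      have a3 := mem_ball_iff_norm.1 (hy x' hw'.1.1 k hw.1.2)
      rw [← a0] at a3
      linarith [norm_sub_le_norm_sub_add_norm_sub x (y x k) x']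
  · obtain ⟨w, hw, rfl⟩ := Finset.mem_image.mp hz
    simp only [Finset.mem_product, Finset.mem_range] at hw
    exact hy' _ hw.1 _ hw.2 (g3 _ hw.2).1

theorem cnt {R : ℂ → ℂ} (h : Trio F.W F.V R) (hl : F.Lim R) {K : ℕ} {S : Set ℂ} (hS : IsOpen S)
    (hK : 0 < K) (hm : F.Mult K S) : Cnt F.W F.V R K S := by
  have ho := h.closed.2.1.isOpen_compl
  have fin : ∀ {a c p z : ℕ}, a * p ≤ K * z → z < c * p → a < c * K := fun {a c p z} h1 h2 =>
    lt_of_mul_lt_mul_right (a := p) (h1.trans_lt (by nlinarith)) (Nat.zero_le _)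
  refine ⟨fun T hT => ?_, fun w hw T hT => ?_⟩
  · obtain ⟨n, Z, a1, a2⟩ := F.t1318_count hS hm T (fun x hx => (hT x hx).1.1)
      (Q := fun n z => F.Off n z ∧ F.q n z = 0) fun x hx ε hε => by
        have hx' := (hT x hx).1.2
        refine (F.t1318_sol h hl hx' differentiable_snd (hT x hx).2 ?_ hε).mono
          fun n hn k hk => (hn k hk).imp fun y hy => ⟨hy.1, fun t0 => ⟨hy.2.1,
            (mul_eq_zero.1 hy.2.2).resolve_left (pow_ne_zero 2 t0)⟩⟩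
        filter_upwards [t1318_iso h.hV (h.V0.trans_ne one_ne_zero) x,
          nhdsWithin_le_nhds (ho.mem_nhds hx')] with z b1 b2 (e : R z = 0)
        exact b1 (by rw [← h.eq z b2, e, mul_zero])
    exact fin a1 (F.cnt0 n Z a2)
  · obtain ⟨n, Z, a1, a2⟩ := F.t1318_count hS hm T (fun x hx => (hT x hx).1.1)
      (Q := fun n z => F.Off n z ∧ deriv (F.q n) z ^ 2 = w * F.q n z ^ 3)
      fun x hx ε hε => by
        have hx' := (hT x hx).1.2
        refine (F.t1318_sol h hl hx' (H := fun p => p.1 ^ 2 - w * p.2 ^ 3) (by fun_prop)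
          (sub_eq_zero.2 (hT x hx).2) ?_ hε).mono
          fun n hn k hk => (hn k hk).imp fun y hy => ⟨hy.1, fun t0 => ⟨hy.2.1,
            mul_left_cancel₀ (pow_ne_zero 6 t0) (by linear_combination hy.2.2)⟩⟩
        have d1 := h.hW.deriv
        have d2 := h.hV.deriv
        have d3 := h.hW
        have d4 := h.hV
        filter_upwards [t1318_iso (c := 0) (G := fun z =>
          (deriv F.V z * F.W z - 2 * F.V z * deriv F.W z) ^ 2 - w * F.V z ^ 3) (by fun_prop)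
          (by simp only [h.W0, h.W1, h.V0]; intro e; exact hw (by linear_combination -e)) x,
          nhdsWithin_le_nhds (ho.mem_nhds hx')] with z b1 b2 e
        have hz := ho.mem_nhds b2
        have e1 := (((h.hW z).hasDerivAt.fun_pow 2).fun_mul
          (h.hR.differentiableAt hz).hasDerivAt).unique ((h.hV z).hasDerivAt.congr_of_eventuallyEq
            (mem_of_superset hz fun u hu => h.eq u hu))
        refine b1 ?_
        rw [← e1, ← h.eq z b2]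
        push_cast
        linear_combination F.W z ^ 6 * e
    exact fin a1 (F.cnt1 n w hw Z a2)

theorem t1319_int {g : ℂ} (hg : g ≠ 0) (h2 : ∀ x, Symm F.W F.V x 1 → ∃ m : ℤ, x = m * g)
    (h3 : ∀ x μ, Symm F.W F.V x μ → μ = 1) (J : ℝ) {η : ℝ} (hη : 0 < η) :
    ∀ᶠ n in (F.𝒰 : Filter ℕ), ∀ i < F.P n, ∀ j < F.P n,
      ‖F.b n j - F.b n i‖ ≤ J * ‖g * F.t n i‖ →
        ‖g * F.t n j - g * F.t n i‖ ≤ η * ‖g * F.t n i‖ ∧
          ∃ m : ℤ, ‖F.b n j - F.b n i - m * (g * F.t n i)‖ ≤ η * ‖g * F.t n i‖ := by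
  by_contra hc
  have hg0 : 0 < ‖g‖ := norm_pos_iff.2 hg
  have h1 := (Ultrafilter.eventually_not.2 hc).mono fun n hn =>
    (by
      by_contra hk
      refine hn fun i hi j hj hij => ?_
      by_contra hl
      exact hk ⟨i, j, ⟨hi, hj, hij⟩, hl⟩ :
      ∃ i j, (i < F.P n ∧ j < F.P n ∧ ‖F.b n j - F.b n i‖ ≤ J * ‖g * F.t n i‖) ∧
        ¬(‖g * F.t n j - g * F.t n i‖ ≤ η * ‖g * F.t n i‖ ∧
          ∃ m : ℤ, ‖F.b n j - F.b n i - m * (g * F.t n i)‖ ≤ η * ‖g * F.t n i‖))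
  obtain ⟨k, h4⟩ := h1.choice
  obtain ⟨j, h5⟩ := h4.choice
  obtain ⟨x, μ, a1, a2, a3⟩ := F.pair (k := k) (j := j) (J := J * ‖g‖)
    (h5.mono fun n hn => ⟨hn.1.1, hn.1.2.1, by
      have := hn.1.2.2
      rwa [norm_mul, ← mul_assoc] at this⟩)
  obtain rfl := h3 x μ a3
  obtain ⟨m, rfl⟩ := h2 x a3
  obtain ⟨n, b1, b2, b3, b4⟩ := (h5.and ((Metric.tendsto_nhds.1 a1 (η * ‖g‖) (by positivity)).and
    ((Metric.tendsto_nhds.1 a2 η hη).and (F.hc 1 1 one_pos)))).exists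
  have ht := (b4 _ b1.1.1).1
  rw [dist_eq_norm, div_sub' ht, norm_div, div_lt_iff₀ (norm_pos_iff.2 ht)] at b2 b3
  rw [mul_one] at b3
  refine b1.2 ⟨?_, m, ?_⟩
  · rw [← mul_sub, norm_mul, norm_mul, mul_left_comm]
    exact mul_le_mul_of_nonneg_left b3.le hg0.le
  · have e1 : (m : ℂ) * (g * F.t n (k n)) = F.t n (k n) * (m * g) := by ring
    rw [e1, norm_mul g, ← mul_assoc η]
    exact b2.le

theorem far2 (L : ℝ) : ∀ᶠ n in (F.𝒰 : Filter ℕ), ∀ k < F.P n, ∀ y ∈ ball (0 : ℂ) L,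
    0 < ‖F.b n k - F.a n‖ ∧ ‖F.b n k - F.a n‖ ≤ 2 * ‖F.b n k + F.t n k * y - F.a n‖ ∧
      ‖F.b n k + F.t n k * y - F.a n‖ ≤ 2 * ‖F.b n k - F.a n‖ := by
  filter_upwards [F.far (2 * L), F.hc 1 1 one_pos] with n h1 h2 k hk y hy
  have h3 := h1 k hk
  have h4 := norm_pos_iff.2 (h2 k hk).1
  have h5 : ‖F.t n k * y‖ < L * ‖F.t n k‖ := by
    rw [norm_mul, mul_comm]
    exact mul_lt_mul_of_pos_right (mem_ball_zero_iff.1 hy) h4
  rw [norm_sub_rev] at h3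
  have h6 := norm_add_le (F.b n k - F.a n) (F.t n k * y)
  have h7 := norm_sub_le (F.b n k - F.a n + F.t n k * y) (F.t n k * y)
  rw [add_sub_cancel_right] at h7
  rw [add_sub_right_comm]
  have := norm_nonneg (F.t n k * y)
  exact ⟨by linarith, by linarith, by linarith⟩

/-- The closed chain and the domain bounded by it. -/
theorem chain_ev {g : ℂ} (hg : g ≠ 0) (h1 : Symm F.W F.V g 1)
    (h2 : ∀ x, Symm F.W F.V x 1 → ∃ m : ℤ, x = m * g) (h3 : ∀ x μ, Symm F.W F.V x μ → μ = 1)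
    {T : ℝ} (hT : 3 ≤ T) : ∀ᶠ n in (F.𝒰 : Filter ℕ),
    ∃ (s : ℝ) (A : Finset (Fin (F.P n))) (D : Set ℂ), (s = 1 ∨ s = -1) ∧ A.Nonempty ∧
      Bornology.IsBounded D ∧
      (∀ z ∈ frontier D, ∃ i ∈ A, ∃ y : ℂ, z = F.b n i + g * F.t n i * y ∧ |y.re| ≤ 2 ∧
        |y.im - s| ≤ 1 / 4) ∧
      (∀ i ∈ A, ∀ y : ℂ, 0 ≤ y.re → y.re ≤ 1 → 2 ≤ s * y.im → s * y.im ≤ T - 1 →
        F.b n i + g * F.t n i * y ∈ D) ∧
      (∀ j : Fin (F.P n), F.b n j ∉ D) ∧
      ∀ (p : ℂ[X]) (a : ℂ), a ≠ 0 → (∀ z ∈ D, p.eval z ≠ 0) →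
        ¬∀ i ∈ A, ∀ y : ℂ, |y.re| ≤ 2 → |y.im - s * (T - 1)| ≤ 1 / 4 →
          ‖p.eval (F.b n i + g * F.t n i * y) - a * (g * F.t n i)‖ ≤ ‖a * (g * F.t n i)‖ / 2 := by
  have hg0 : 0 < ‖g‖ := norm_pos_iff.2 hg
  obtain ⟨J, η', hη', hch⟩ := chain hT
  obtain ⟨e, he, hsep⟩ := F.sep
  filter_upwards [F.hc 1 1 one_pos, hsep,
    F.t1319_int hg h2 h3 (1 / 2) (η := min (e / ‖g‖) (1 / 4)) (by positivity),
    F.t1319_int hg h2 h3 J hη',
    F.Z_near (t1319_mem F.zero.1 F.zero.2 h1) (ε := η' * ‖g‖) (by positivity)]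
    with n a1 a2 a3 a4 a5
  have : Nonempty (Fin (F.P n)) := ⟨⟨0, F.hP n⟩⟩
  have ht : ∀ i : Fin (F.P n), F.t n i ≠ 0 := fun i => (a1 i i.2).1
  obtain ⟨s, A, D, hs, hA, -, hD⟩ := hch (Fin (F.P n)) (fun i => F.b n i)
    (fun i => g * F.t n i) (fun i => mul_ne_zero hg (ht i)) (fun i j hij => by
      obtain ⟨-, k, hk⟩ := a3 i i.2 j j.2 (by linarith)
      have ht0 : 0 < ‖g * F.t n i‖ := norm_pos_iff.2 (mul_ne_zero hg (ht i))
      have c1 := norm_sub_norm_le (k * (g * F.t n i)) (F.b n j - F.b n i)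
      rw [norm_sub_rev (k * (g * F.t n i)), norm_mul, Complex.norm_intCast] at c1
      have c2 := mul_le_mul_of_nonneg_right (min_le_right (e / ‖g‖) (1 / 4)) ht0.le
      have c3 : |(k : ℝ)| < 1 := lt_of_mul_lt_mul_right (by linarith) ht0.le
      obtain rfl : k = 0 := Int.abs_lt_one_iff.1 (by exact_mod_cast c3)
      rw [Int.cast_zero, zero_mul, sub_zero] at hk
      refine Fin.ext (a2 i i.2 j j.2
        (hk.trans ((mul_le_mul_of_nonneg_right (min_le_left _ _) ht0.le).trans_eq ?_)))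
      rw [norm_mul, ← mul_assoc, div_mul_cancel₀ _ hg0.ne'])
    (fun i => by
      obtain ⟨j, hj, h5⟩ := a5 i i.2
      refine ⟨⟨j, hj⟩, ?_⟩
      rw [norm_mul g, ← mul_assoc, mul_comm g]
      exact h5) (fun i j => a4 i i.2 j j.2)
  exact ⟨s, A, D, hs, hA, hD⟩

theorem no_chain {R : ℂ → ℂ} (h : Trio F.W F.V R) (hl : F.Lim R) {g : ℂ} (hg : g ≠ 0)
    (h1 : Symm F.W F.V g 1) (h2 : ∀ x, Symm F.W F.V x 1 → ∃ m : ℤ, x = m * g)
    (h3 : ∀ x μ, Symm F.W F.V x μ → μ = 1)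
    (h4 : ∀ s : ℝ, s = 1 ∨ s = -1 → ∀ M : ℝ, ∃ y : ℂ, 0 ≤ y.re ∧ y.re ≤ 1 ∧ 2 ≤ s * y.im ∧
      (M < ‖F.W (g * y)‖ ∨ M < ‖R (g * y)‖)) : False := by
  have hZ : ∀ y : ℂ, y.im ≠ 0 → g * y ∉ Zs F.W F.V := by
    intro y hy hz
    obtain ⟨μ, hμ⟩ := h.sym _ hz
    obtain rfl := h3 _ _ hμ
    obtain ⟨m, hm⟩ := h2 _ hμ
    rw [mul_comm g, mul_left_inj' hg] at hm
    exact hy (by rw [hm]; exact Complex.intCast_im m)
  set K : Set ℂ := closedBall (0 : ℂ) 4 ∩ {y : ℂ | 3 / 4 ≤ |y.im|} with hKd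
  have hK : IsCompact K :=
    (isCompact_closedBall _ _).inter_right (isClosed_le continuous_const (by fun_prop))
  have hKi : ∀ y ∈ K, y.im ≠ 0 := fun y hy h0 => by
    have : (3 : ℝ) / 4 ≤ |y.im| := hy.2
    rw [h0] at this
    norm_num at this
  obtain ⟨M₁, hM₁⟩ := hK.exists_bound_of_continuousOn (f := fun y => F.W (g * y))
    (F.hW.continuous.comp (by fun_prop)).continuousOn
  obtain ⟨M₂, hM₂⟩ := hK.exists_bound_of_continuousOn (f := fun y => R (g * y))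
    (h.hR.continuousOn.comp (f := fun y => g * y) (by fun_prop) fun y hy => hZ y (hKi y hy))
  set M := max 0 (max M₁ M₂) with hMd
  have hM0 : 0 ≤ M := le_max_left _ _
  have hMa : M₁ ≤ M := (le_max_left _ _).trans (le_max_right _ _)
  have hMb : M₂ ≤ M := (le_max_right _ _).trans (le_max_right _ _)
  obtain ⟨y₁, p1, p2, p3, p4⟩ := h4 1 (Or.inl rfl) (16 * M + 17)
  obtain ⟨y₂, q1, q2, q3, q4⟩ := h4 (-1) (Or.inr rfl) (16 * M + 17)
  set T := max 3 (max (1 * y₁.im + 1) (-1 * y₂.im + 1)) with hTd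
  have hT : 3 ≤ T := le_max_left _ _
  have hTa : 1 * y₁.im + 1 ≤ T := (le_max_left _ _).trans (le_max_right _ _)
  have hTb : -1 * y₂.im + 1 ≤ T := (le_max_right _ _).trans (le_max_right _ _)
  have hK' : IsCompact ((fun y => g * y) '' insert y₁ (insert y₂ K)) :=
    ((hK.insert y₂).insert y₁).image (by fun_prop)
  obtain ⟨L, hL⟩ := hK'.isBounded.subset_ball 0
  have hQ := ev_compact (l := (F.𝒰 : Filter ℕ)) hK' (Q := fun n y => ∀ k < F.P n,
      F.Off n (F.b n k + F.t n k * y) ∧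
        ‖F.t n k ^ 2 * F.q n (F.b n k + F.t n k * y) - R y‖ ≤ 1) (by
    rintro _ ⟨y, hy, rfl⟩
    obtain ⟨ε, hε, h5⟩ := hl (g * y) (hZ y (by
      rcases hy with rfl | rfl | hy
      · intro h0
        rw [h0] at p3
        norm_num at p3
      · intro h0
        rw [h0] at q3
        norm_num at q3
      · exact hKi y hy))
    exact ⟨ε, hε, (h5 1 one_pos).mono fun n hn z hz k hk => hn k hk z hz⟩)
  obtain ⟨n, a1, a6, a7, s, A, D, hs, hA, hD, hfr, hin, hbD, -⟩ := ((F.hc L 1 one_pos).and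
    (hQ.and ((F.far2 L).and (F.chain_ev hg h1 h2 h3 hT)))).exists
  have e1 : ∀ (i : ℕ) (y : ℂ), g * F.t n i * y = F.t n i * (g * y) := fun i y => by ring
  simp only [e1] at hfr hin
  obtain ⟨y₀, hy₀, r1, r2⟩ : ∃ y₀ ∈ insert y₁ (insert y₂ K),
      (∀ i ∈ A, F.b n i + F.t n i * (g * y₀) ∈ D) ∧
        (16 * M + 17 < ‖F.W (g * y₀)‖ ∨ 16 * M + 17 < ‖R (g * y₀)‖) := by
    rcases hs with rfl | rfl
    · exact ⟨y₁, Or.inl rfl, fun i hi => hin i hi y₁ p1 p2 p3 (by linarith), p4⟩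
    · exact ⟨y₂, Or.inr (Or.inl rfl), fun i hi => hin i hi y₂ q1 q2 q3 (by linarith), q4⟩
  have hKK : ∀ y ∈ K, g * y ∈ (fun y => g * y) '' insert y₁ (insert y₂ K) := fun y hy =>
    ⟨y, Or.inr (Or.inr hy), rfl⟩
  rcases r2 with r2 | r2
  · obtain ⟨i, hi, h5⟩ := t1319_static hA hD (f := fun z => (F.Φ n).eval z)
      (fun z _ => (F.Φ n).differentiable z) (c := fun i => (F.τ n * F.t n i)⁻¹) (M := M + 1)
      (fun z hz => by
        obtain ⟨i, hi, y, rfl, c1, c2⟩ := hfr z hz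
        have c3 := t1319_box hs c1 c2
        have c4 := ((a1 i i.2).2 _ (hL (hKK y c3))).1
        refine ⟨i, hi, ?_⟩
        rw [← div_eq_inv_mul]
        linarith [norm_le_norm_add_norm_sub' ((F.Φ n).eval (F.b n i + F.t n i * (g * y)) /
          (F.τ n * F.t n i)) (F.W (g * y)), hM₁ y c3])
    have c1 := h5 _ (r1 i hi)
    have c2 := ((a1 i i.2).2 _ (hL ⟨y₀, hy₀, rfl⟩)).1
    rw [← div_eq_inv_mul] at c1
    rw [norm_sub_rev] at c2
    linarith [norm_le_norm_add_norm_sub' (F.W (g * y₀))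
      ((F.Φ n).eval (F.b n i + F.t n i * (g * y₀)) / (F.τ n * F.t n i))]
  · have key : ∀ (i : Fin (F.P n)) (z : ℂ), F.Off n z →
        ‖F.t n i ^ 2 / (F.b n i - F.a n) ^ 2 * F.q₀ n z‖ =
          ‖F.t n i ^ 2 * F.q n z‖ * (‖z - F.a n‖ / ‖F.b n i - F.a n‖) ^ 2 := fun i z hz => by
      rw [(F.hq₀ n z hz.1).2 hz.2, ← norm_div, ← norm_pow, ← norm_mul]
      congr 1
      rw [div_pow]
      ring
    obtain ⟨i, hi, h5⟩ := t1319_static hA hD (f := F.q₀ n)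
      (fun z hz => (F.hq₀ n z (by
        rw [closure_eq_self_union_frontier] at hz
        rcases hz with hz | hz
        · intro k hk h0
          exact hbD ⟨k, hk⟩ (h0 ▸ hz)
        · obtain ⟨i, -, y, rfl, c1, c2⟩ := hfr z hz
          exact (a6 _ (hKK y (t1319_box hs c1 c2)) i i.2).1.1)).1)
      (c := fun i => F.t n i ^ 2 / (F.b n i - F.a n) ^ 2) (M := (M + 1) * 2 ^ 2)
      (fun z hz => by
        obtain ⟨i, hi, y, rfl, c1, c2⟩ := hfr z hz
        have c3 := t1319_box hs c1 c2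
        obtain ⟨c5, c4⟩ := a6 _ (hKK y c3) i i.2
        obtain ⟨c6, -, c7⟩ := a7 i i.2 _ (hL (hKK y c3))
        refine ⟨i, hi, ?_⟩
        rw [key i _ c5]
        gcongr
        · linarith [norm_le_norm_add_norm_sub'
            (F.t n i ^ 2 * F.q n (F.b n i + F.t n i * (g * y))) (R (g * y)), hM₂ y c3]
        · rwa [div_le_iff₀ c6])
    have c1 := h5 _ (r1 i hi)
    obtain ⟨c3, c2⟩ := a6 _ ⟨y₀, hy₀, rfl⟩ i i.2
    obtain ⟨c6, c7, -⟩ := a7 i i.2 _ (hL ⟨y₀, hy₀, rfl⟩)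
    rw [key i _ c3] at c1
    rw [norm_sub_rev] at c2
    have c8 : ‖F.t n i ^ 2 * F.q n (F.b n i + F.t n i * (g * y₀))‖ * (1 / 2) ^ 2 ≤
        (M + 1) * 2 ^ 2 := by
      refine le_trans (mul_le_mul_of_nonneg_left (pow_le_pow_left₀ (by norm_num) ?_ 2)
        (norm_nonneg _)) c1
      rw [le_div_iff₀ c6]
      linarith
    linarith [norm_le_norm_add_norm_sub' (R (g * y₀))
      (F.t n i ^ 2 * F.q n (F.b n i + F.t n i * (g * y₀)))]

theorem strip {g x₀ : ℂ} (hg : g ≠ 0) (s3 : ∀ x μ, Symm F.W F.V x μ → μ = 1 ∨ μ = -1)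
    (s4 : ∀ x ∈ Zs F.W F.V, ∃ m : ℤ, x = m * g ∨ x = x₀ + m * g) :
    ∃ K : ℕ, 0 < K ∧ F.Mult K {y : ℂ | |(y / g).re| < 2} := by
  classical
  have hcl : closure {y : ℂ | |(y / g).re| < 2} ⊆ {y : ℂ | |(y / g).re| ≤ 2} :=
    closure_lt_subset_le (by fun_prop) continuous_const
  set N : ℤ := ⌈4 + |(x₀ / g).re|⌉ with hN
  have hN1 : 4 + |(x₀ / g).re| ≤ N := Int.le_ceil _
  have hN2 := abs_nonneg (x₀ / g).re
  set T : Finset ℂ := (Finset.Icc (-N) N).image (fun m : ℤ => (m : ℂ) * g) ∪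
    (Finset.Icc (-N) N).image (fun m : ℤ => x₀ + (m : ℂ) * g) with hT
  have hI : ∀ m : ℤ, |(m : ℝ)| ≤ N → m ∈ Finset.Icc (-N) N := fun m hm =>
    Finset.mem_Icc.2 (abs_le.1 (by exact_mod_cast hm))
  refine ⟨T.card, Finset.card_pos.2 ⟨_, Finset.mem_union_left _ (Finset.mem_image_of_mem _
    (hI 0 (by rw [Int.cast_zero, abs_zero]; linarith)))⟩, F.mult T ?_⟩
  intro x μ hx y hy y' hy' he
  have c1 : |(y / g).re| ≤ 2 := hcl hy
  have c2 : |(y' / g).re| ≤ 2 := hcl hy'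
  have c3 : |(x / g).re| ≤ 4 := by
    rw [abs_le] at c1 c2 ⊢
    rcases s3 x μ hx with rfl | rfl
    · rw [he, one_mul, add_div, Complex.add_re] at c1
      constructor <;> linarith [c1.1, c1.2, c2.1, c2.2]
    · rw [he, neg_one_mul, add_div, neg_div, Complex.add_re, Complex.neg_re] at c1
      constructor <;> linarith [c1.1, c1.2, c2.1, c2.2]
  obtain ⟨m, rfl | rfl⟩ := s4 x (t1319_mem F.zero.1 F.zero.2 hx)
  · rw [mul_div_cancel_right₀ _ hg, Complex.intCast_re] at c3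
    exact Finset.mem_union_left _ (Finset.mem_image_of_mem _ (hI m (by linarith)))
  · rw [add_div, mul_div_cancel_right₀ _ hg, Complex.add_re, Complex.intCast_re] at c3
    refine Finset.mem_union_right _ (Finset.mem_image_of_mem _ (hI m ?_))
    rw [abs_le] at c3 ⊢
    constructor <;> linarith [c3.1, c3.2, le_abs_self (x₀ / g).re, neg_abs_le (x₀ / g).re]

/-- The limit differential is invariant. -/
theorem one (h0 : deriv F.V 0 = 0) {u : ℂ} (hu : u ≠ 0) (hs : ∀ (R : ℂ → ℂ) (K : ℕ) (S : Set ℂ),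
    Trio F.W F.V R → F.Lim R → IsOpen S → F.Mult K S → Star F.W F.V R u S) :
    ∀ y, F.V y = 1 := by
  classical
  obtain ⟨R, r1, r2, r3⟩ := F.lim
  have h : Trio F.W F.V R := ⟨F.hW, F.hV, F.zero.1, F.W1, F.zero.2, h0, r1, r2, F.sym⟩
  rcases h.struct with hZ | ⟨g, x₀, hg, s1, s2, s3, s4⟩
  · have hm : F.Mult hZ.toFinset.card univ := F.mult hZ.toFinset fun x μ hx _ _ _ _ _ =>
      hZ.mem_toFinset.2 (t1319_mem h.W0 h.V0 hx)
    refine h.rigid_fin hZ hu (F.cnt h r3 isOpen_univ (Finset.card_pos.2 ⟨0, ?_⟩) hm)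
      (hs R _ _ h r3 isOpen_univ hm)
    exact hZ.mem_toFinset.2 ⟨h.W0, by rw [h.V0]; exact one_ne_zero⟩
  · have hS : IsOpen {y : ℂ | |(y / g).re| < 2} := isOpen_lt (by fun_prop) continuous_const
    obtain ⟨K, hpos, hm⟩ := F.strip hg s3 s4
    rcases h.rigid_per hg s1 s3 s4 hu (F.cnt h r3 hS hpos hm) (hs R _ _ h r3 hS hm) with c | c
    · exact c
    · exact (F.no_chain h r3 hg s1 s2 c.1 c.2).elim

end Fam

end Pool.Agent.MP_1071ec_an

end

-- part MP_1071ec_an.Cls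
section

/-! Periodic entire vector fields of bounded valence. -/

set_option autoImplicit false

namespace Pool.Agent.MP_1071ec_an

open MeasureTheory Metric Set Real Filter Topology Polynomial
open Pool.Agent.MP_28f8a1_an Pool.Agent.MP_28f8a1_an.H42
open scoped ENNReal

theorem cls_inv {q : ℂ} (hq : q ≠ 0) :
    Function.Periodic.qParam 1 (Function.Periodic.invQParam 1 q) = q ∧
      |(Function.Periodic.invQParam 1 q).re| ≤ 1 / 2 := by
  have h1 := Function.Periodic.qParam_right_inv (h := 1) one_ne_zero hq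
  refine ⟨h1, (t1316_pt (T := (Function.Periodic.invQParam 1 q).im - 1) ⟨?_, hq⟩).2.2⟩
  rw [mem_ball_zero_iff]
  conv_lhs => rw [← h1]
  exact (Function.Periodic.norm_qParam_lt_iff one_pos _ _).2 (by linarith)

theorem cls_pg {F : ℂ → ℂ} (hF : Continuous F) {R C : ℝ} {N : ℕ}
    (h : ∀ x, R < ‖x‖ → ‖F x‖ ≤ C * (1 + ‖x‖) ^ N) : t40_PG F := by
  obtain ⟨B, hB⟩ := (isCompact_closedBall (0 : ℂ) R).exists_bound_of_continuousOn hF.continuousOn
  refine ⟨max 1 (max B C), N, le_max_left _ _, fun x => ?_⟩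
  have h1 : (1 : ℝ) ≤ (1 + ‖x‖) ^ N := one_le_pow₀ (by linarith [norm_nonneg x])
  have h0 : (0 : ℝ) ≤ max 1 (max B C) := le_max_of_le_left zero_le_one
  rcases lt_or_ge R ‖x‖ with hx | hx
  · exact (h x hx).trans (mul_le_mul_of_nonneg_right
      ((le_max_right _ _).trans (le_max_right _ _)) (by positivity))
  · exact ((hB x (mem_closedBall_zero_iff.2 hx)).trans
      ((le_max_left _ _).trans (le_max_right _ _))).trans (le_mul_of_one_le_right h0 h1)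

theorem cls_slope {w : ℂ → ℂ} (hw : Differentiable ℂ w) (h : t40_PG (deriv w)) :
    t40_PG (dslope w 1) := by
  obtain ⟨C, N, hC, h⟩ := h
  refine ⟨C * 2 ^ N, N, one_le_mul_of_one_le_of_one_le hC (one_le_pow₀ one_le_two), fun x => ?_⟩
  have h1 : ∀ z ∈ closedBall (0 : ℂ) (1 + ‖x‖), ‖deriv w z‖ ≤ C * 2 ^ N * (1 + ‖x‖) ^ N := by
    intro z hz
    rw [mem_closedBall_zero_iff] at hz
    rw [mul_assoc, ← mul_pow]
    refine (h z).trans (mul_le_mul_of_nonneg_left (pow_le_pow_left₀ (by positivity) ?_ N)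
      (by linarith))
    linarith [norm_nonneg x]
  have a1 : (1 : ℂ) ∈ closedBall (0 : ℂ) (1 + ‖x‖) := by simp
  rcases eq_or_ne x 1 with rfl | hne
  · rw [dslope_same]
    exact h1 _ a1
  · have h0 : 0 < ‖x - 1‖ := norm_pos_iff.2 (sub_ne_zero.2 hne)
    rw [dslope_of_ne _ hne, slope_def_field, norm_div, div_le_iff₀ h0]
    exact (convex_closedBall _ _).norm_image_sub_le_of_norm_deriv_le (fun z _ => hw z) h1 a1
      (by simp)

theorem cls_one {W : ℂ → ℂ} (hW : Differentiable ℂ W) (hp : Function.Periodic W 1)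
    (hz : ∀ x, W x = 0 ↔ ∃ k : ℤ, x = k) (h1 : deriv W 0 = 1) {m M : ℝ} (hm : 0 < m)
    (hb : ∀ y : ℂ, 2 ≤ y.im → m ≤ ‖W y‖ ∧ ‖W y‖ ≤ M) {K : ℕ}
    (hv : ∀ w : ℂ, w ≠ 4 → ∀ T : Finset ℂ,
      (∀ x ∈ T, |x.re| < 2 ∧ W x ≠ 0 ∧ 4 * deriv W x ^ 2 = w) → T.card ≤ K) (y : ℂ) :
    deriv W y = 1 + 2 * π * Complex.I * W y := by
  classical
  set w := t1316_cf 1 W with hw
  set q := Function.Periodic.qParam 1 with hq
  have hval : ∀ y, w (q y) = W y := fun y => by simpa using t1316_val hp y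
  have hcu : ∀ y, DifferentiableAt ℂ w (q y) ∧
      deriv W y = 2 * π * Complex.I * q y * deriv w (q y) := fun y => by
    simpa using t1316_cusp one_ne_zero hp (y := y) (hW _)
  have hev : ∀ᶠ y in comap Complex.im atTop, m ≤ ‖W y‖ ∧ ‖W y‖ ≤ M := t1316_ev.2 ⟨2, hb⟩
  have hw0 : DifferentiableAt ℂ w 0 := by
    refine Function.Periodic.differentiableAt_cuspFunction_zero one_pos (t1316_per hp)
      (Eventually.of_forall fun z => by fun_prop) (Asymptotics.IsBigO.of_bound M ?_)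
    filter_upwards [hev] with z hz
    simpa using hz.2
  have hwd : Differentiable ℂ w := fun s => by
    rcases eq_or_ne s 0 with rfl | hs
    · exact hw0
    · exact (cls_inv hs).1 ▸ (hcu _).1
  have hne0 : w 0 ≠ 0 := by
    have a1 := (hw0.continuousAt.tendsto.comp ((Function.Periodic.qParam_tendsto (h := 1)
      one_pos).mono_right nhdsWithin_le_nhds)).norm
    have : (comap Complex.im atTop).NeBot := comap_neBot fun t ht => by
      obtain ⟨a, ha⟩ := Filter.nonempty_of_mem ht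
      exact ⟨a * Complex.I, by simpa using ha⟩
    have a2 : m ≤ ‖w 0‖ := ge_of_tendsto a1 (hev.mono fun z hz => by
      simpa only [Function.comp_apply, ← hq, hval] using hz.1)
    exact norm_pos_iff.1 (hm.trans_le a2)
  have hqk : ∀ k : ℤ, q k = 1 := fun k => by
    rw [hq, Function.Periodic.qParam, Complex.exp_eq_one_iff]
    exact ⟨k, by push_cast; ring⟩
  have hne : ∀ s, s ≠ 1 → w s ≠ 0 := fun s hs1 h0 => by
    rcases eq_or_ne s 0 with rfl | hs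
    · exact hne0 h0
    · rw [← (cls_inv hs).1, hval] at h0
      obtain ⟨k, hk⟩ := (hz _).1 h0
      exact hs1 (by rw [← (cls_inv hs).1, hk]; exact hqk k)
  have hq0 : q 0 = 1 := by simpa using hqk 0
  have hw1 : w 1 = 0 := by rw [← hq0, hval]; exact (hz 0).2 ⟨0, by simp⟩
  have hd1 : 2 * π * Complex.I * deriv w 1 = 1 := by
    have := (hcu 0).2
    rw [h1, hq0, mul_one] at this
    exact this.symm
  have hme : MeromorphicAt (fun s => 4 * (2 * π * Complex.I * s⁻¹ * deriv w s⁻¹) ^ 2) 0 := by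
    refine mero_of_valence one_pos (K := K) (fun s hs => ?_) fun v hv4 T hT => ?_
    · have h0 : s ≠ 0 := hs.2
      have d1 := (t15_inv h0 (hwd.deriv _)).differentiableAt
      exact (((((differentiableAt_inv h0).const_mul _).mul d1).pow 2).const_mul _
        ).differentiableWithinAt
    · have hi : ∀ s ∈ T, s⁻¹ ≠ 0 := fun s hs => inv_ne_zero (hT s hs).1.2
      rw [← Finset.card_image_of_injOn (f := fun s => Function.Periodic.invQParam 1 s⁻¹)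
        (fun s hs t ht e => inv_injective (by
          rw [← (cls_inv (hi s hs)).1, ← (cls_inv (hi t ht)).1]
          exact congrArg _ e))]
      refine hv v hv4 _ fun x hx => ?_
      obtain ⟨s, hs, rfl⟩ := Finset.mem_image.1 hx
      obtain ⟨a1, a2⟩ := cls_inv (hi s hs)
      rw [← hq] at a1
      refine ⟨by linarith, ?_, ?_⟩
      · rw [← hval, a1]
        refine hne _ fun e => ?_
        have a3 := mem_ball_zero_iff.1 (hT s hs).1.1
        rw [inv_eq_one.1 e, norm_one] at a3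
        exact lt_irrefl _ a3
      · rw [(hcu _).2, a1]
        exact (hT s hs).2
  obtain ⟨δ, C, N, hδ, hC⟩ := growth_of_mero hme
  have hpg : t40_PG (deriv w) := by
    refine cls_pg hwd.deriv.continuous (R := max 1 δ⁻¹) (C := 1 + |C|) (N := N) fun x hx => ?_
    have x1 : 1 < ‖x‖ := (le_max_left _ _).trans_lt hx
    have x0 : 0 < ‖x‖ := by linarith
    have a1 := hC x⁻¹ ⟨by
      rw [mem_ball_zero_iff, norm_inv]
      exact inv_lt_of_inv_lt₀ hδ ((le_max_right _ _).trans_lt hx), inv_ne_zero (norm_pos_iff.1 x0)⟩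
    simp only [inv_inv, norm_mul, norm_pow, norm_inv, Complex.norm_I, Complex.norm_real,
      Complex.norm_ofNat, Real.norm_of_nonneg Real.pi_pos.le, inv_pow, mul_one] at a1
    rw [mul_inv_le_iff₀ (by positivity)] at a1
    have a2 : ‖deriv w x‖ ≤ 2 * π * ‖x‖ * ‖deriv w x‖ :=
      le_mul_of_one_le_left (norm_nonneg _) (by nlinarith [Real.pi_gt_three])
    have a3 : ‖deriv w x‖ ^ 2 ≤ (2 * π * ‖x‖ * ‖deriv w x‖) ^ 2 := by gcongr
    have a4 : C * ‖x‖ ^ N ≤ |C| * (1 + ‖x‖) ^ N :=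
      mul_le_mul (le_abs_self C) (by gcongr; linarith) (by positivity) (abs_nonneg C)
    have a5 : (1 : ℝ) ≤ (1 + ‖x‖) ^ N := one_le_pow₀ (by linarith)
    nlinarith [sq_nonneg (‖deriv w x‖ - 1), sq_nonneg ‖deriv w x‖]
  have hdd : Differentiable ℂ (dslope w 1) := differentiableOn_univ.1
    ((Complex.differentiableOn_dslope univ_mem).2 hwd.differentiableOn)
  have hc := t40_const hdd (fun x => by
    rcases eq_or_ne x 1 with rfl | hx
    · rw [dslope_same]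
      intro h0
      rw [h0, mul_zero] at hd1
      exact zero_ne_one hd1
    · rw [dslope_of_ne _ hx, slope_def_field, hw1, sub_zero]
      exact div_ne_zero (hne x hx) (sub_ne_zero.2 hx)) (cls_slope hwd hpg)
  have hform : w = fun x => (x - 1) * deriv w 1 := funext fun x => by
    have := sub_smul_dslope w 1 x
    rw [hc x 1, dslope_same, hw1, sub_zero, smul_eq_mul] at this
    exact this.symm
  have hder : deriv w (q y) = deriv w 1 := by
    have : HasDerivAt w (1 * deriv w 1) (q y) := by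
      rw [hform]
      exact hform ▸ ((hasDerivAt_id' (q y)).sub_const 1).mul_const (deriv w 1)
    rw [this.deriv, one_mul]
  rw [(hcu y).2, hder, ← hval y, congrFun hform (q y)]
  linear_combination hd1

/-- The conclusion means `W y = (exp (2 π i s y) - 1) / (2 π i s)`. -/
theorem classify {W : ℂ → ℂ} (hW : Differentiable ℂ W) (hp : ∀ y, W (y + 1) = W y)
    (hz : ∀ x, W x = 0 ↔ ∃ k : ℤ, x = k) (h1 : deriv W 0 = 1) {s : ℝ} (hs : s = 1 ∨ s = -1)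
    {m M : ℝ} (hm : 0 < m)
    (hb : ∀ y : ℂ, 0 ≤ y.re → y.re ≤ 1 → 2 ≤ s * y.im → m ≤ ‖W y‖ ∧ ‖W y‖ ≤ M) {K : ℕ}
    (hv : ∀ w : ℂ, w ≠ 4 → ∀ T : Finset ℂ,
      (∀ x ∈ T, |x.re| < 2 ∧ W x ≠ 0 ∧ 4 * deriv W x ^ 2 = w) → T.card ≤ K) (y : ℂ) :
    deriv W y = 1 + 2 * π * Complex.I * s * W y := by
  classical
  have hp' : Function.Periodic W 1 := hp
  have hb' : ∀ y : ℂ, 2 ≤ s * y.im → m ≤ ‖W y‖ ∧ ‖W y‖ ≤ M := fun y hy => by
    have e := hp'.sub_int_mul_eq (x := y) ⌊y.re⌋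
    rw [mul_one] at e
    rw [← e]
    refine hb _ ?_ ?_ ?_
    · rw [Complex.sub_re, Complex.intCast_re]
      linarith [Int.floor_le y.re]
    · rw [Complex.sub_re, Complex.intCast_re]
      linarith [Int.lt_floor_add_one y.re]
    · rwa [Complex.sub_im, Complex.intCast_im, sub_zero]
  rcases hs with rfl | rfl
  · simpa using cls_one hW hp' hz h1 hm (fun y hy => hb' y (by linarith)) hv y
  · have hd : ∀ x, deriv (fun y => -W (-y)) x = deriv W (-x) := fun x => by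
      rw [deriv.fun_neg, deriv_comp_neg, neg_neg]
    have := cls_one (W := fun y => -W (-y)) (by fun_prop) (fun y => by
        simp only [neg_add, ← sub_eq_add_neg, hp'.sub_eq]) (fun x => by
        rw [neg_eq_zero, hz]
        exact ⟨fun ⟨k, hk⟩ => ⟨-k, by push_cast; rw [← hk, neg_neg]⟩,
          fun ⟨k, hk⟩ => ⟨-k, by push_cast; rw [hk]⟩⟩) (by rw [hd, neg_zero, h1]) hm
      (M := M) (fun y hy => by
        rw [norm_neg]
        exact hb' _ (by rw [Complex.neg_im]; linarith)) (K := K) (fun v hv4 T hT => by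
        rw [← Finset.card_image_of_injective T neg_injective]
        refine hv v hv4 _ fun x hx => ?_
        obtain ⟨z, hz, rfl⟩ := Finset.mem_image.1 hx
        obtain ⟨a1, a2, a3⟩ := hT z hz
        exact ⟨by rwa [Complex.neg_re, abs_neg], neg_ne_zero.1 a2, by rwa [hd] at a3⟩) (-y)
    rw [hd, neg_neg] at this
    rw [this]
    push_cast
    ring

end Pool.Agent.MP_1071ec_an

end

-- part MP_1071ec_an.End
section

/-! A closed chain of charts surrounds the further pole. -/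

set_option autoImplicit false

namespace Pool.Agent.MP_1071ec_an

open MeasureTheory Metric Set Real Filter Topology Polynomial
open Pool.Agent.MP_28f8a1_an Pool.Agent.MP_28f8a1_an.H42
open scoped ENNReal
open Pool.Agent.MP_28f8a1_an.H42.Fam (t1319_mem t1319_box t1319_static)

namespace Fam

variable (F : Fam)

/-- All scales are multiplied by `g`. -/
noncomputable def scale {g : ℂ} (hg : g ≠ 0) : Fam :=
  { F with
    t := fun n k => g * F.t n k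
    W := fun y => F.W (g * y) / g
    V := fun y => F.V (g * y)
    far := fun L => (F.far (L * ‖g‖)).mono fun n hn k hk => by
      rw [norm_mul, ← mul_assoc]
      exact hn k hk
    hW := (F.hW.comp (f := fun y => g * y) (by fun_prop)).div_const _
    hV := F.hV.comp (f := fun y => g * y) (by fun_prop)
    W1 := by
      have hd : HasDerivAt F.W 1 (g * 0) := by
        rw [mul_zero, ← F.W1]
        exact (F.hW 0).hasDerivAt
      have := ((hd.comp 0 ((hasDerivAt_id (0 : ℂ)).const_mul g)).div_const g).deriv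
      rw [one_mul, mul_one, div_self hg] at this
      exact this
    hc := fun L η hη => by
      have hg0 : 0 < ‖g‖ := norm_pos_iff.2 hg
      refine (F.hc (‖g‖ * L) (min η (‖g‖ * η)) (by positivity)).mono fun n hn k hk => ?_
      obtain ⟨ht, hy⟩ := hn k hk
      refine ⟨mul_ne_zero hg ht, fun y h1 => ?_⟩
      obtain ⟨h2, h3⟩ := hy (g * y) (by
        rw [mem_ball_zero_iff] at h1 ⊢
        rw [norm_mul]
        exact mul_lt_mul_of_pos_left h1 hg0)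
      have e1 : g * F.t n k * y = F.t n k * (g * y) := by ring
      rw [e1, show F.τ n * (g * F.t n k) = F.τ n * F.t n k * g by ring, ← div_div, ← sub_div,
        norm_div, div_le_iff₀' hg0]
      exact ⟨h2.trans (min_le_right _ _), h3.trans (min_le_left _ _)⟩ }

/-- The normalised periodic case. -/
structure Unit : Prop where
  V1 : ∀ y, F.V y = 1
  per : ∀ y, F.W (y + 1) = F.W y
  zer : ∀ x, F.W x = 0 ↔ ∃ m : ℤ, x = m
  tra : ∀ x μ : ℂ, μ ≠ 0 → (∀ y, F.W (x + μ * y) = μ * F.W y) → μ = 1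

theorem exists_unit (hV : ∀ y, F.V y = 1) (hx : ∃ x, x ≠ 0 ∧ F.W x = 0) :
    ∃ (g : ℂ) (hg : g ≠ 0), (F.scale hg).Unit := by
  obtain ⟨g, hg, p1, p2, p3⟩ := sym_periodic F.hW F.zero.1 F.W1 (fun x h => by
    obtain ⟨μ, h1, h2⟩ := F.sym x ⟨h, by rw [hV]; exact one_ne_zero⟩
    exact ⟨μ, h1, fun y => (h2 y).1⟩) hx
  refine ⟨g, hg, fun y => hV _, fun y => ?_, fun y => ?_, fun u μ hμ h => p3 (g * u) μ hμ fun y => ?_⟩
  · simp only [scale, mul_add, mul_one, p1]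
  · simp only [scale]
    rw [div_eq_zero_iff, or_iff_left hg, p2]
    exact exists_congr fun m => by rw [mul_comm g, mul_left_inj' hg]
  · have h2 := h (y / g)
    have e1 : g * (u + μ * (y / g)) = g * u + μ * y := by field_simp
    simp only [scale] at h2
    rw [e1, mul_div_cancel₀ _ hg, ← mul_div_assoc, div_left_inj' hg] at h2
    exact h2

variable {F}

theorem Unit.symm (H : F.Unit) : Symm F.W F.V 1 1 ∧
    (∀ x, Symm F.W F.V x 1 → ∃ m : ℤ, x = m * 1) ∧ ∀ x μ, Symm F.W F.V x μ → μ = 1 :=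
  ⟨⟨one_ne_zero, fun y => by rw [one_mul, one_mul, add_comm, H.per, H.V1, H.V1]; simp⟩,
    fun x hx => by simpa [F.zero.1, H.zer] using (hx.2 0).1,
    fun x μ hx => H.tra x μ hx.1 fun y => (hx.2 y).1⟩

theorem box5 {s : ℝ} (hs : s = 1 ∨ s = -1) {y : ℂ} (a1 : |y.re| ≤ 2) (a2 : |y.im - s| ≤ 1 / 4)
    {L : ℝ} (hL : 5 ≤ L) : y ∈ ball (0 : ℂ) L :=
  closedBall_subset_ball (by linarith) (t1319_box hs a1 a2).1

theorem Unit.chain (H : F.Unit) {T : ℝ} (hT : 3 ≤ T) : ∀ᶠ n in (F.𝒰 : Filter ℕ),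
    ∃ (s : ℝ) (A : Finset (Fin (F.P n))) (D : Set ℂ), (s = 1 ∨ s = -1) ∧ A.Nonempty ∧
      Bornology.IsBounded D ∧
      (∀ z ∈ frontier D, ∃ i ∈ A, ∃ y : ℂ, z = F.b n i + F.t n i * y ∧ |y.re| ≤ 2 ∧
        |y.im - s| ≤ 1 / 4) ∧
      (∀ i ∈ A, ∀ y : ℂ, 0 ≤ y.re → y.re ≤ 1 → 2 ≤ s * y.im → s * y.im ≤ T - 1 →
        F.b n i + F.t n i * y ∈ D) ∧
      (∀ z ∈ D, (F.Ψ n).eval z ≠ 0 ∧ (F.Φ₀ n).eval z ≠ 0) ∧
      ∀ (p : ℂ[X]) (a : ℂ), a ≠ 0 → (∀ z ∈ D, p.eval z ≠ 0) →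
        ¬∀ i ∈ A, ∀ y : ℂ, |y.re| ≤ 2 → |y.im - s * (T - 1)| ≤ 1 / 4 →
          ‖p.eval (F.b n i + F.t n i * y) - a * F.t n i‖ ≤ ‖a * F.t n i‖ / 2 := by
  filter_upwards [F.chain_ev one_ne_zero H.symm.1 H.symm.2.1 H.symm.2.2 hT,
    F.hc 5 (1 / 2) one_half_pos] with n ⟨s, A, D, hs, hA, hD, hfr, hin, hb, hl⟩ h1
  simp only [one_mul] at hfr hin hl
  refine ⟨s, A, D, hs, hA, hD, hfr, hin, fun z hz => ?_, hl⟩
  have h2 := t1294_max (F := fun z => (F.Ψ n).eval z - 1) hD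
    (fun z _ => ((F.Ψ n).differentiable z).sub_const _) (C := 1 / 2) (fun z h => by
      obtain ⟨i, -, y, rfl, a1, a2⟩ := hfr z h
      exact H.V1 y ▸ ((h1 i i.2).2 y (box5 hs a1 a2 le_rfl)).2) hz
  have h3 : (F.Ψ n).eval z ≠ 0 := fun h0 => by
    rw [h0] at h2
    norm_num at h2
  refine ⟨h3, fun h0 => ?_⟩
  obtain ⟨k, hk, rfl⟩ := F.hz n z h3 h0
  exact hb ⟨k, hk⟩ hz

/-- The successor of the base point in the chain. -/
theorem Unit.next (H : F.Unit) : ∃ m : ℕ → ℕ, (∀ n, m n < F.P n) ∧ ∀ η > 0,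
    ∀ᶠ n in (F.𝒰 : Filter ℕ), ‖F.b n (m n) - F.b n 0 - F.t n 0‖ ≤ η * ‖F.t n 0‖ ∧
      ‖F.t n (m n) - F.t n 0‖ ≤ η * ‖F.t n 0‖ := by
  choose j hj hmin using fun n => Finset.exists_min_image (Finset.range (F.P n))
    (fun j => ‖F.b n j - F.b n 0 - F.t n 0‖) ⟨0, Finset.mem_range.2 (F.hP n)⟩
  have h1 : ∀ ε : ℝ, 0 < ε → ∀ᶠ n in (F.𝒰 : Filter ℕ),
      ‖F.b n (j n) - F.b n 0 - F.t n 0‖ ≤ ε * ‖F.t n 0‖ := fun ε hε =>
    (F.Z_near (t1319_mem F.zero.1 F.zero.2 H.symm.1) hε).mono fun n hn => by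
      obtain ⟨i, hi, h⟩ := hn 0 (F.hP n)
      rw [mul_one] at h
      exact (hmin n i (Finset.mem_range.2 hi)).trans h
  refine ⟨j, fun n => Finset.mem_range.1 (hj n), fun η hη => ?_⟩
  filter_upwards [h1 η hη, h1 1 one_pos,
    F.t1319_int one_ne_zero H.symm.2.1 H.symm.2.2 2 hη] with n a1 a2 a3
  simp only [one_mul] at a3
  exact ⟨a1, (a3 0 (F.hP n) _ (Finset.mem_range.1 (hj n)) (by
    linarith [norm_le_norm_sub_add (F.b n (j n) - F.b n 0) (F.t n 0)])).1⟩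

/-- At one end the limit field is bounded above and below. -/
theorem Unit.bdd_end (H : F.Unit) : ∃ s m M : ℝ, (s = 1 ∨ s = -1) ∧ 0 < m ∧
    ∀ y : ℂ, 0 ≤ y.re → y.re ≤ 1 → 2 ≤ s * y.im → m ≤ ‖F.W y‖ ∧ ‖F.W y‖ ≤ M := by
  obtain ⟨m, M, hm, -, hK⟩ := t1294_bounds F.hW.continuous fun x => (H.zer x).1
  by_contra hc
  have h4 : ∀ s : ℝ, s = 1 ∨ s = -1 → ∃ y : ℂ, 0 ≤ y.re ∧ y.re ≤ 1 ∧ 2 ≤ s * y.im ∧
      (‖F.W y‖ < m / 16 ∨ M + m < ‖F.W y‖) := fun s hs => by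
    by_contra h
    push Not at h
    exact hc ⟨s, m / 16, M + m, hs, by positivity, h⟩
  obtain ⟨y₁, p1, p2, p3, p4⟩ := h4 1 (Or.inl rfl)
  obtain ⟨y₂, q1, q2, q3, q4⟩ := h4 (-1) (Or.inr rfl)
  set T := max 3 (max (1 * y₁.im + 1) (-1 * y₂.im + 1)) with hTd
  have hT : 3 ≤ T := le_max_left _ _
  have hTa : 1 * y₁.im + 1 ≤ T := (le_max_left _ _).trans (le_max_right _ _)
  have hTb : -1 * y₂.im + 1 ≤ T := (le_max_right _ _).trans (le_max_right _ _)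
  have n1 := norm_nonneg y₁
  have n2 := norm_nonneg y₂
  have hL : 5 ≤ ‖y₁‖ + ‖y₂‖ + 5 := by linarith
  obtain ⟨n, a1, a7, s, A, D, hs, hA, hD, hfr, hin, hne, -⟩ :=
    ((F.hc (‖y₁‖ + ‖y₂‖ + 5) (m / 16) (by positivity)).and
      ((F.far2 (‖y₁‖ + ‖y₂‖ + 5)).and (H.chain hT))).exists
  obtain ⟨y₀, hy₀, r1, r2⟩ : ∃ y₀ ∈ ball (0 : ℂ) (‖y₁‖ + ‖y₂‖ + 5),
      (∀ i ∈ A, F.b n i + F.t n i * y₀ ∈ D) ∧ (‖F.W y₀‖ < m / 16 ∨ M + m < ‖F.W y₀‖) := by
    rcases hs with rfl | rfl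
    · exact ⟨y₁, mem_ball_zero_iff.2 (by linarith),
        fun i hi => hin i hi y₁ p1 p2 p3 (by linarith), p4⟩
    · exact ⟨y₂, mem_ball_zero_iff.2 (by linarith),
        fun i hi => hin i hi y₂ q1 q2 q3 (by linarith), q4⟩
  have hw : ∀ i : Fin (F.P n), ∀ y ∈ ball (0 : ℂ) (‖y₁‖ + ‖y₂‖ + 5),
      |‖(F.Φ n).eval (F.b n i + F.t n i * y) / (F.τ n * F.t n i)‖ - ‖F.W y‖| ≤ m / 16 :=
    fun i y hy => (abs_norm_sub_norm_le _ _).trans ((a1 i i.2).2 y hy).1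
  rcases r2 with r2 | r2
  · have key : ∀ (i : Fin (F.P n)) (z : ℂ), (F.Φ₀ n).eval z ≠ 0 →
        ‖F.τ n * F.t n i / (F.b n i - F.a n) * ((F.Φ₀ n).eval z)⁻¹‖ *
          ‖(F.Φ n).eval z / (F.τ n * F.t n i)‖ * ‖F.b n i - F.a n‖ = ‖z - F.a n‖ := by
      intro i z hz
      have b1 := F.hτ n
      have b2 := (a1 i i.2).1
      have b3 := norm_pos_iff.1 (a7 i i.2 y₀ hy₀).1
      rw [← norm_mul, ← norm_mul, F.hΦ]
      congr 1
      field_simp
    have hf : ∀ z ∈ frontier D, ∃ i ∈ A, (F.Φ₀ n).eval z ≠ 0 ∧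
        m / 2 ≤ ‖(F.Φ n).eval z / (F.τ n * F.t n i)‖ ∧ 0 < ‖F.b n i - F.a n‖ ∧
        ‖z - F.a n‖ ≤ 2 * ‖F.b n i - F.a n‖ := fun z hz => by
      obtain ⟨i, hi, y, rfl, c1, c2⟩ := hfr z hz
      have c3 := box5 hs c1 c2 hL
      have c4 : m / 2 ≤ ‖(F.Φ n).eval (F.b n i + F.t n i * y) / (F.τ n * F.t n i)‖ := by
        linarith [(abs_le.1 (hw i y c3)).1, (hK s hs y c1 c2).1]
      refine ⟨i, hi, fun h0 => ?_, c4, (a7 i i.2 y c3).1, (a7 i i.2 y c3).2.2⟩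
      rw [F.hΦ, h0, mul_zero, zero_div, norm_zero] at c4
      linarith
    obtain ⟨i, hi, h5⟩ := t1319_static hA hD (f := fun z => ((F.Φ₀ n).eval z)⁻¹)
      (fun z hz => ((F.Φ₀ n).differentiable z).inv (by
        rw [closure_eq_self_union_frontier] at hz
        exact hz.elim (fun h => (hne z h).2) fun h => (hf z h).elim fun i hi => hi.2.1))
      (c := fun i => F.τ n * F.t n i / (F.b n i - F.a n)) (M := 4 / m)
      (fun z hz => by
        obtain ⟨i, hi, c1, c2, c3, c4⟩ := hf z hz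
        refine ⟨i, hi, ?_⟩
        rw [← key i z c1] at c4
        have c5 := le_of_mul_le_mul_right c4 c3
        rw [le_div_iff₀ hm]
        nlinarith [norm_nonneg (F.τ n * F.t n i / (F.b n i - F.a n) * ((F.Φ₀ n).eval z)⁻¹)])
    have c1 := h5 _ (r1 i hi)
    obtain ⟨c2, c3, -⟩ := a7 i i.2 y₀ hy₀
    rw [← key i _ (hne _ (r1 i hi)).2, ← mul_assoc] at c3
    have c4 := le_of_mul_le_mul_right ((one_mul _).trans_le c3) c2
    have c5 := (abs_le.1 (hw i y₀ hy₀)).2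
    rw [le_div_iff₀ hm] at c1
    nlinarith [norm_nonneg (F.τ n * F.t n i / (F.b n i - F.a n) *
      ((F.Φ₀ n).eval (F.b n i + F.t n i * y₀))⁻¹),
      norm_nonneg ((F.Φ n).eval (F.b n i + F.t n i * y₀) / (F.τ n * F.t n i))]
  · obtain ⟨i, hi, h5⟩ := t1319_static hA hD (f := fun z => (F.Φ n).eval z)
      (fun z _ => (F.Φ n).differentiable z) (c := fun i => (F.τ n * F.t n i)⁻¹) (M := M + m / 16)
      (fun z hz => by
        obtain ⟨i, hi, y, rfl, c1, c2⟩ := hfr z hz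
        refine ⟨i, hi, ?_⟩
        rw [← div_eq_inv_mul]
        linarith [(abs_le.1 (hw i y (box5 hs c1 c2 hL))).2, (hK s hs y c1 c2).2])
    have c1 := h5 _ (r1 i hi)
    rw [← div_eq_inv_mul] at c1
    linarith [(abs_le.1 (hw i y₀ hy₀)).1]

theorem Unit.val (H : F.Unit) : ∃ K : ℕ, ∀ w : ℂ, w ≠ 4 → ∀ T : Finset ℂ,
    (∀ x ∈ T, |x.re| < 2 ∧ F.W x ≠ 0 ∧ 4 * deriv F.W x ^ 2 = w) → T.card ≤ K := by
  obtain ⟨R, r1, r2, r3⟩ := F.lim
  have h : Trio F.W F.V R := ⟨F.hW, F.hV, F.zero.1, F.W1, F.zero.2,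
    by rw [show F.V = fun _ => 1 from funext H.V1, deriv_const], r1, r2, F.sym⟩
  obtain ⟨K, hK, hm⟩ := F.strip (x₀ := 0) one_ne_zero (fun x μ hx => Or.inl (H.symm.2.2 x μ hx))
    fun x hx => ((H.zer x).1 hx.1).imp fun m hm => Or.inl (by rw [hm, mul_one])
  refine ⟨6 * K, fun w hw T hT => ((F.cnt h r3 (isOpen_lt (by fun_prop) continuous_const) hK hm).2
    w hw T fun x hx => ?_).le⟩
  obtain ⟨a1, a2, a3⟩ := hT x hx
  have e : ∀ y, F.W y ≠ 0 → R y = (F.W y ^ 2)⁻¹ := fun y hy =>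
    eq_inv_of_mul_eq_one_right (H.V1 y ▸ r2 y fun h => hy h.1)
  refine ⟨⟨by simpa using a1, fun h => a2 h.1⟩, ?_⟩
  have e1 : R =ᶠ[𝓝 x] fun y => (F.W y ^ 2)⁻¹ :=
    (F.hW.continuous.continuousAt.eventually_ne a2).mono e
  rw [e1.deriv_eq, (((F.hW x).hasDerivAt.fun_pow 2).fun_inv (pow_ne_zero 2 a2)).deriv, e x a2, ← a3]
  field_simp
  ring

/-- The residue relation at the further pole. -/
theorem Unit.theta (H : F.Unit) {G : ℕ → ℂ[X]}
    (hG : ∀ L η : ℝ, 0 < η → ∀ᶠ n in (F.𝒰 : Filter ℕ), ∀ k < F.P n, ∀ y ∈ ball (0 : ℂ) L,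
      ‖(F.b n k + F.t n k * y - F.a n) * (G n).eval (F.b n k + F.t n k * y) / F.t n k - 1‖ ≤ η) :
    ∃ s : ℝ, (s = 1 ∨ s = -1) ∧ ∀ ε > 0, ∀ᶠ n in (F.𝒰 : Filter ℕ), (F.Ψ n).eval (F.a n) ≠ 0 ∧
      (F.Φ₀ n).eval (F.a n) ≠ 0 ∧ ‖(G n).eval (F.a n) * ((F.Φ₀ n).eval (F.a n) - F.τ n) /
        (F.Φ₀ n).eval (F.a n) - 2 * π * Complex.I * s‖ ≤ ε := by
  obtain ⟨s₀, m₀, M₀, hs₀, hm₀, hb⟩ := H.bdd_end
  obtain ⟨K, hK₀⟩ := H.val
  have hcl := classify F.hW H.per H.zer F.W1 hs₀ hm₀ hb hK₀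
  refine ⟨s₀, hs₀, fun ε hε => ?_⟩
  have hκ : ‖2 * π * Complex.I * s₀‖ ≤ 7 := by
    have : |s₀| = 1 := by rcases hs₀ with rfl | rfl <;> simp
    simp only [norm_mul, Complex.norm_ofNat, Complex.norm_real, Complex.norm_I, Real.norm_eq_abs,
      this, abs_of_pos pi_pos]
    linarith [pi_lt_d2]
  generalize 2 * π * Complex.I * s₀ = κ at hcl hκ ⊢
  obtain ⟨m, M, hm, hmM, hK⟩ := t1294_bounds F.hW.continuous fun x => (H.zer x).1
  obtain ⟨T₁, η₁, p1, q1⟩ := t1294_alt F.hW H.per M hm (Or.inl rfl)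
  obtain ⟨T₂, η₂, p2, q2⟩ := t1294_alt F.hW H.per M hm (Or.inr rfl)
  set T := max 3 (max T₁ T₂)
  have hT : 3 ≤ T := le_max_left _ _
  have hM : 0 < M := hm.trans_le hmM
  obtain ⟨η, hη, e1, e2, e3, e4, e5⟩ : ∃ η > 0, η ≤ m / 4 ∧ η ≤ 1 / 2 ∧ η ≤ η₁ ∧ η ≤ η₂ ∧
      η * (9 + 7 * M) ≤ ε * (m / 2) := by
    refine ⟨min (min (min (m / 4) (1 / 2)) (min η₁ η₂)) (ε * (m / 2) / (9 + 7 * M)),
      by positivity, ?_, ?_, ?_, ?_, (le_div_iff₀ (by positivity)).1 (min_le_right _ _)⟩ <;>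
    simp only [min_le_iff, le_refl, true_or, or_true]
  filter_upwards [F.hc (T + 3) η hη, hG 5 η hη, F.far2 5, H.chain hT]
    with n a1 a2 a3 ⟨s, A, D, hs, hA, hD, hfr, hin, hne, hl⟩
  have haD : F.a n ∈ D := by
    by_contra ha
    refine t1294_static (Ψ := F.Ψ n) hA (F.hτ n) hs hT hD hfr hin (fun z hz _ => ?_) hl hm hmM
      (hK s hs) (fun i => ⟨(a1 i i.2).1, fun y hy => H.V1 y ▸ (a1 i i.2).2 y hy⟩) e1 e2 ?_
    · rw [F.hΦ]
      exact mul_ne_zero (sub_ne_zero.2 fun h => ha (h ▸ hz)) (hne z hz).2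
    · rcases hs with rfl | rfl
      · exact q1 T η ((le_max_left _ _).trans (le_max_right _ _)) e3
      · exact q2 T η ((le_max_right _ _).trans (le_max_right _ _)) e4
  refine ⟨(hne _ haD).1, (hne _ haD).2, ?_⟩
  have hf : ∀ z ∈ frontier D, (F.Φ₀ n).eval z ≠ 0 ∧ ‖(G n).eval z *
      ((derivative (F.Φ n)).eval z - F.τ n) / (F.Φ₀ n).eval z - κ‖ ≤ ε := fun z hz => by
    obtain ⟨i, -, y, rfl, c1, c2⟩ := hfr z hz
    have c3 := box5 hs c1 c2 le_rfl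
    obtain ⟨ht, c4⟩ := a1 i i.2
    have hτ := F.hτ n
    have c5 := (c4 y (ball_subset_ball (by linarith) c3)).1
    have c6 := a2 i i.2 y c3
    obtain ⟨c7, c8⟩ := hK s hs y c1 c2
    have c9 := t1277_cauchy (f := fun v => t1294_w (F.Φ n) (F.b n i) (F.t n i) (F.τ n) v - F.W v)
      (x := 0) (z := y) (R := T + 3) one_pos ((t1294_diff _ _ _ _).sub F.hW).differentiableOn
      (fun v hv => (c4 v hv).1) (ball_subset_ball (by linarith) c3)
    have d1 : HasDerivAt (fun v => t1294_w (F.Φ n) (F.b n i) (F.t n i) (F.τ n) v - F.W v) _ y :=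
      ((((F.Φ n).hasDerivAt _).comp y
        (((hasDerivAt_id' y).const_mul (F.t n i)).const_add (F.b n i))).div_const _).sub
        (F.hW y).hasDerivAt
    rw [d1.deriv, div_one, hcl, mul_one, mul_div_mul_right _ _ ht] at c9
    have c10 : F.b n i + F.t n i * y - F.a n ≠ 0 :=
      norm_pos_iff.1 (by linarith [(a3 i i.2 y c3).1, (a3 i i.2 y c3).2.1])
    rw [F.hΦ] at c5
    generalize F.b n i + F.t n i * y = z at *
    have c11 : m / 2 ≤ ‖(z - F.a n) * (F.Φ₀ n).eval z / (F.τ n * F.t n i)‖ := by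
      linarith [(abs_le.1 ((abs_norm_sub_norm_le _ _).trans c5)).1]
    have c12 : (F.Φ₀ n).eval z ≠ 0 := fun h0 => by
      rw [h0, mul_zero, zero_div, norm_zero] at c11
      linarith
    refine ⟨c12, le_of_mul_le_mul_right ?_ (half_pos hm)⟩
    calc _ ≤ ‖((G n).eval z * ((derivative (F.Φ n)).eval z - F.τ n) / (F.Φ₀ n).eval z - κ) *
            ((z - F.a n) * (F.Φ₀ n).eval z / (F.τ n * F.t n i))‖ := by
          rw [norm_mul]
          gcongr
      _ = ‖((z - F.a n) * (G n).eval z / F.t n i - 1) *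
            (((derivative (F.Φ n)).eval z / F.τ n - (1 + κ * F.W y)) + κ * F.W y) +
            ((derivative (F.Φ n)).eval z / F.τ n - (1 + κ * F.W y)) -
            κ * ((z - F.a n) * (F.Φ₀ n).eval z / (F.τ n * F.t n i) - F.W y)‖ := by
          congr 1
          field_simp
          ring
      _ ≤ η * (η + 7 * M) + η + 7 * η := by
          refine (norm_sub_le _ _).trans (add_le_add ((norm_add_le _ _).trans
            (add_le_add ?_ c9)) ?_)
          · rw [norm_mul]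
            refine mul_le_mul c6 ((norm_add_le _ _).trans (add_le_add c9 ?_)) (norm_nonneg _) hη.le
            rw [norm_mul]
            gcongr
          · rw [norm_mul]
            gcongr
      _ ≤ _ := by nlinarith
  have h1 := t1294_max (F := fun z => (G n).eval z *
      ((derivative (F.Φ n)).eval z - F.τ n) / (F.Φ₀ n).eval z - κ) hD (fun z hz =>
    ((((G n).differentiable z).mul (((derivative (F.Φ n)).differentiable z).sub_const _)).div
      ((F.Φ₀ n).differentiable z) (by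
        rw [closure_eq_self_union_frontier] at hz
        exact hz.elim (fun h => (hne z h).2) fun h => (hf z h).1)).sub_const _)
    (fun z hz => (hf z hz).2) haD
  rwa [show F.Φ n = (X - C (F.a n)) * F.Φ₀ n from Polynomial.funext fun z => by simp [F.hΦ],
    derivative_mul, eval_add, eval_mul, eval_mul, derivative_X_sub_C, eval_one, one_mul, eval_sub,
    eval_X, eval_C, sub_self, zero_mul, add_zero] at h1

end Fam

end Pool.Agent.MP_1071ec_an

end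

-- part MP_1071ec_an.Par2
section

/-! The limit objects are seen from every point of the cycle; the fixed point is far away. -/

set_option autoImplicit false

namespace Pool.Agent.MP_1071ec_an

open MeasureTheory Metric Set Real Filter Topology Polynomial
open Pool.Agent.MP_28f8a1_an Pool.Agent.MP_28f8a1_an.H42
open scoped ENNReal


variable {e : ℕ}

theorem Cy.Pd_α (Y : Cy e) (k : ℕ) : Pd e Y.c Y.α k = lam e Y.α ^ k := by
  induction k with
  | zero => rw [Pd_zero, pow_zero]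
  | succ k ih => rw [Pd_succ', ih, Y.α_iter, pow_succ', lam]

namespace Setup

variable (σ : Setup e)

/-- The same vector field is seen from every point of the cycle. -/
theorem transport (he : 1 ≤ e) (hρ : Tendsto (fun n => (σ.Y n).ρ) σ.𝒰 (𝓝 1)) {W V : ℂ → ℂ}
    (hW : Differentiable ℂ W) (hV : Differentiable ℂ V)
    (c1 : ∀ L η : ℝ, 0 < η → ∀ᶠ n in (σ.𝒰 : Filter ℕ), ∀ y ∈ ball (0 : ℂ) L,
      ‖(σ.Fr n (σ.A n y) - σ.A n y) / σ.r n / ((σ.Y n).ρ - 1) - W y‖ ≤ η)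
    (c2 : ∀ L η : ℝ, 0 < η → ∀ᶠ n in (σ.𝒰 : Filter ℕ), ∀ y ∈ ball (0 : ℂ) L,
      ‖(σ.Ψ n).eval (σ.A n y) - V y‖ ≤ η) (L η : ℝ) (hη : 0 < η) :
    ∀ᶠ n in (σ.𝒰 : Filter ℕ), ∀ k < (σ.Y n).K.card, σ.t n (k + 1) ≠ 0 ∧ ∀ y ∈ ball (0 : ℂ) L,
      ‖(σ.Φ n).eval (σ.p n (k + 1) + σ.t n (k + 1) * y) / (((σ.Y n).ρ - 1) * σ.t n (k + 1)) -
        W y‖ ≤ η ∧ ‖(σ.Ψ n).eval (σ.p n (k + 1) + σ.t n (k + 1) * y) - V y‖ ≤ η := by
  obtain ⟨s, ⟨h1, -⟩, hs⟩ := good_radius σ.Enull (lt_add_one (4 * |L|))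
  have hs0 : 0 < s := lt_of_le_of_lt (by positivity) h1
  have hWV : Continuous fun y => (W y, V y) := hW.continuous.prodMk hV.continuous
  obtain ⟨m, hm⟩ := (isCompact_closedBall (0 : ℂ) s).exists_bound_of_continuousOn hWV.continuousOn
  simp only [Prod.norm_mk, max_le_iff] at hm
  have hm0 : 0 ≤ m := (norm_nonneg _).trans (hm 0 (mem_closedBall_self hs0.le)).1
  obtain ⟨δ, hδ, hcont⟩ := Metric.uniformContinuousOn_iff.mp
    ((isCompact_closedBall (0 : ℂ) s).uniformContinuousOn_of_continuous hWV.continuousOn)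
    (η / 3) (by positivity)
  simp only [Prod.dist_eq, max_lt_iff] at hcont
  simp only [dist_eq_norm] at hcont
  obtain ⟨a, ha, a1, a3, a4⟩ : ∃ a > 0, a ≤ 1 / 10 ∧ a * s < δ ∧ 10 * a * (m + 2) ≤ η / 3 := by
    obtain ⟨a, ha, a1, a2⟩ := small_pos (f := fun a => a * s) (by fun_prop) (c := δ)
      (by simpa using hδ) (b := 1 / 10) (by positivity)
    obtain ⟨a', ha', a3, a4⟩ := small_pos (f := fun a => 10 * a * (m + 2)) (by fun_prop)
      (c := η / 3) (by simpa using hη) ha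
    exact ⟨a', ha', a3.trans a1, a2 a' ha' a3, (a4 a' ha' le_rfl).le⟩
  have ham : 0 ≤ a * m := by positivity
  set R := 34 * (s + 1) / a with hR
  have hsR : 10 * (s + 1) ≤ R / 34 := by
    rw [hR, le_div_iff₀ (by norm_num), le_div_iff₀ ha]
    nlinarith
  filter_upwards [σ.branches he R, σ.all_α he hs (R := R) (by linarith) ha, σ.sphere_B hs,
    c1 (s + 1) a ha, c2 (s + 1) a ha, σ.near_id he hρ (s + 1) one_pos]
    with n g1 g2 g3 g4 g5 g6 k hk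
  obtain ⟨G, hG, hG0⟩ := g1 _ le_rfl
  rw [σ.p_card] at hG0
  obtain ⟨h, hb, h0⟩ := g1 (k + 1) hk
  have hr := σ.rpos n
  have hr' := σ.r_ne n
  have hτ : (σ.Y n).ρ - 1 ≠ 0 := sub_ne_zero.mpr (σ.ρne n)
  have hR0 : 0 < R * σ.r n := mul_pos (by linarith) hr
  have hu := hb.univ isOpen_ball
  obtain ⟨t1, t2⟩ := σ.t_eq hR0 hb h0
  have hd0 : deriv h (σ.p n 0) ≠ 0 := hu.ne _ (mem_ball_self hR0)
  have hRa : a * (R * σ.r n) = 34 * ((s + 1) * σ.r n) := by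
    rw [hR]
    field_simp
  have h34 : ∀ x : ℂ, ‖x‖ ≤ s → 34 * ‖σ.A n x - σ.p n 0‖ ≤ a * (R * σ.r n) := fun x hx => by
    rw [A, add_sub_cancel_left, σ.norm_r, hRa]
    nlinarith
  have hxs1 : ∀ x : ℂ, ‖x‖ ≤ s → x ∈ ball (0 : ℂ) (s + 1) := fun x hx =>
    mem_ball_zero_iff.mpr (by linarith)
  have hval : ∀ x : ℂ, ‖x‖ ≤ s →
      ‖h (σ.A n x) - σ.p n (k + 1) - σ.t n (k + 1) * x‖ ≤ a * (‖σ.t n (k + 1)‖ * ‖x‖) :=
    fun x hx => by
      have := lin_val hR0 hu (η := a) (by linarith) (h34 x hx)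
      rw [h0, A, add_sub_cancel_left, ← mul_assoc, ← t1, mul_assoc, ← norm_mul, ← mul_assoc, ← t1,
        norm_mul] at this
      exact this
  have hdisp : ∀ x : ℂ, ‖x‖ ≤ s → ‖σ.Fr n (h (σ.A n x)) - h (σ.A n x) -
      deriv h (σ.p n 0) * (σ.Fr n (σ.A n x) - σ.A n x)‖ ≤
      a * ‖deriv h (σ.p n 0) * (σ.Fr n (σ.A n x) - σ.A n x)‖ := fun x hx => by
    rw [σ.comm hG hG0 hb h0 (by linarith), norm_mul, ← mul_assoc]
    refine lin_two hR0 hu (by linarith) (h34 x hx) ?_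
    have b1 := g6 x (hxs1 x hx)
    rw [norm_div, Complex.norm_real, Real.norm_eq_abs, abs_of_pos hr, div_le_one hr] at b1
    have b2 := norm_sub_le_norm_sub_add_norm_sub (σ.Fr n (σ.A n x)) (σ.A n x) (σ.p n 0)
    rw [show σ.A n x - σ.p n 0 = σ.r n * x by simp [A], σ.norm_r] at b2
    rw [hRa]
    nlinarith
  have hΨ : ∀ x : ℂ, ‖x - 0‖ ≤ s → 
      ‖(σ.Ψ n).eval (h (σ.A n x)) - V x‖ ≤ 10 * a * (m + 1) + a := by
    refine max_disc hs0 (R := R) (by linarith) (fun x hx => ?_) fun x hx => ?_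
    · have hxA := σ.A_mem0 (n := n).mpr (mem_ball_zero_iff.mp hx)
      exact (((σ.Ψ n).differentiableAt.comp x
        ((hb.diff.differentiableAt (isOpen_ball.mem_nhds hxA)).comp x
          (σ.A_deriv n x).differentiableAt)).sub (hV x)).differentiableWithinAt
    · rw [sub_zero] at hx
      have hx0 : x ≠ 0 := norm_pos_iff.mp (hx ▸ hs0)
      have hxR : ‖x‖ < R := by linarith
      have hxA := σ.A_mem0 (n := n).mpr hxR
      have hB : σ.A n x ∉ (σ.Y n).B := fun hB => hx0 (σ.A_inj n (by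
        rw [σ.A_zero]
        exact g3 x (mem_sphere_zero_iff_norm.mpr hx) hB))
      have hB' : h (σ.A n x) ∉ (σ.Y n).B := fun hB' =>
        hB (hb.inv _ hxA ▸ (σ.Y n).iter_mem hB' _)
      have b1 := g5 x (hxs1 x hx.le)
      have b2 := g2 k hk h hb h0 x (mem_sphere_zero_iff_norm.mpr hx)
      have b3 := σ.Ψ_eq n hB
      rw [(σ.Y n).q_eq (σ.pmem n 0) hB, show σ.A n x - σ.p n 0 = σ.r n * x by simp [A]] at b3
      change _ = _ * (σ.u n x / _) at b3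
      have hu0 : σ.u n x ≠ 0 := by
        intro h1
        change ‖1 - _ / σ.u n x‖ ≤ a at b2
        rw [h1, div_zero, sub_zero, norm_one] at b2
        linarith
      by_cases hF : σ.Fr n (σ.A n x) - σ.A n x = 0
      · have b6 := hdisp x hx.le
        rw [hF, mul_zero, sub_zero, norm_zero, mul_zero, norm_le_zero_iff] at b6
        rw [b3, hF] at b1
        rw [σ.Ψ_eq n hB', b6]
        simp only [zero_div, ne_eq, OfNat.ofNat_ne_zero, not_false_eq_true, zero_pow,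
          zero_mul] at b1 ⊢
        nlinarith
      obtain ⟨b4, b5⟩ := σ.α_eq he hb h0 hx0 hxR hu0
      have hdF := mul_ne_zero hd0 hF
      refine H42.Setup.ratio_est (a := σ.α n k h x) (u := (σ.Ψ n).eval (σ.A n x))
        (θ₁ := (σ.Fr n (h (σ.A n x)) - h (σ.A n x)) /
          (deriv h (σ.p n 0) * (σ.Fr n (σ.A n x) - σ.A n x)))
        (θ₂ := deriv h (σ.A n x) / deriv h (σ.p n 0)) ha a1 ?_ ?_
        b2 ?_ b1 ?_
      · rw [div_sub_one hdF, norm_div, div_le_iff₀ (norm_pos_iff.mpr hdF)]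
        exact hdisp x hx.le
      · rw [div_sub_one hd0, norm_div, div_le_iff₀ (norm_pos_iff.mpr hd0)]
        exact lin_deriv hR0 hu (by linarith) (h34 x hx.le)
      · linarith [norm_sub_norm_le ((σ.Ψ n).eval (σ.A n x)) (V x),
          (hm x (mem_closedBall_zero_iff.mpr hx.le)).2]
      · rw [b3, σ.Ψ_eq n hB', (σ.Y n).q_eq (σ.pmem n (k + 1)) hB']
        field_simp
        linear_combination (-(σ.Fr n (h (σ.A n x)) - h (σ.A n x)) ^ 2) * b5
  refine ⟨t2, fun y hy => ?_⟩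
  have hyL := mem_ball_zero_iff.mp hy
  obtain ⟨z, hz, hzz⟩ := koebe (mul_pos hs0 hr)
    (hu.mono (ball_subset_ball (mul_le_mul_of_nonneg_right (show s ≤ R by linarith) hr.le)))
    (show σ.p n (k + 1) + σ.t n (k + 1) * y ∈ _ by
      rw [mem_ball, dist_eq_norm, h0, add_sub_cancel_left, t1, mul_assoc, norm_mul, σ.norm_r,
        mul_div_assoc]
      refine mul_lt_mul_of_pos_left ?_ (norm_pos_iff.mpr hd0)
      nlinarith [le_abs_self L])
  have hz' := σ.A_div n z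
  set x := (z - σ.p n 0) / σ.r n
  have hxs : ‖x‖ < s := σ.A_mem0.mp (hz'.symm ▸ hz)
  have k1 := hΨ x (by rw [sub_zero]; exact hxs.le)
  have k2 := hval x hxs.le
  have k6 := hdisp x hxs.le
  have k7 := g4 x (hxs1 x hxs.le)
  rw [hz'] at k1 k2 k6 k7
  rw [hzz] at k1 k2 k6
  rw [add_sub_cancel_left, ← mul_sub, norm_mul, mul_left_comm] at k2
  have k3 := le_of_mul_le_mul_left k2 (norm_pos_iff.mpr t2)
  obtain ⟨k4, k5⟩ := hcont x (mem_closedBall_zero_iff.mpr hxs.le) y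
    (mem_closedBall_zero_iff.mpr (by linarith [le_abs_self L, abs_nonneg L])) (by
      rw [norm_sub_rev]
      nlinarith)
  refine ⟨?_, (norm_sub_le_norm_sub_add_norm_sub _ (V x) _).trans (by linarith)⟩
  rw [σ.Φ_eq]
  set v := σ.Fr n (σ.p n (k + 1) + σ.t n (k + 1) * y) - (σ.p n (k + 1) + σ.t n (k + 1) * y)
  set w := (σ.Fr n z - z) / σ.r n / ((σ.Y n).ρ - 1) with hw
  have k8 : ‖v / (((σ.Y n).ρ - 1) * σ.t n (k + 1)) - w‖ ≤ a * ‖w‖ := by
    have hτt := mul_ne_zero hτ t2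
    have e1 : deriv h (σ.p n 0) * (σ.Fr n z - z) = w * (((σ.Y n).ρ - 1) * σ.t n (k + 1)) := by
      rw [hw, t1]
      field_simp
    rw [e1, norm_mul, ← mul_assoc a] at k6
    rwa [div_sub' hτt, norm_div, div_le_iff₀ (norm_pos_iff.mpr hτt),
      mul_comm (((σ.Y n).ρ - 1) * σ.t n (k + 1)) w]
  have k9 : ‖w‖ ≤ m + 1 := by
    linarith [norm_le_norm_add_norm_sub' w (W x), (hm x (mem_closedBall_zero_iff.mpr hxs.le)).1]
  have k10 := norm_sub_le_norm_sub_add_norm_sub (v / (((σ.Y n).ρ - 1) * σ.t n (k + 1))) w (W y)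
  have k11 := norm_sub_le_norm_sub_add_norm_sub w (W x) (W y)
  nlinarith

theorem t_zero (n : ℕ) : σ.t n 0 = σ.r n := by rw [t, Pd_zero, div_one]

theorem p_surj (n : ℕ) {z : ℂ} (hz : z ∈ (σ.Y n).K) : ∃ k < (σ.Y n).K.card, σ.p n k = z := by
  obtain ⟨k, hk, h⟩ := Finset.surj_on_of_inj_on_of_card_le (s := Finset.range (σ.Y n).K.card)
    (t := (σ.Y n).K) (fun k _ => σ.p n k) (fun k _ => σ.pK n _)
    (fun i j hi hj h => σ.pinj n i (Finset.mem_range.mp hi) j (Finset.mem_range.mp hj) h)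
    (by simp) z hz
  exact ⟨k, Finset.mem_range.mp hk, h.symm⟩

theorem not_K (n : ℕ) {z : ℂ} : (∀ k < (σ.Y n).K.card, σ.p n k ≠ z) ↔ z ∉ (σ.Y n).K :=
  ⟨fun h hz => (σ.p_surj n hz).elim fun k hk => h k hk.1 hk.2,
    fun h k _ hk => h (hk ▸ σ.pK n k)⟩

theorem not_B (n : ℕ) {z : ℂ} :
    ((∀ k < (σ.Y n).K.card, σ.p n k ≠ z) ∧ (σ.Y n).α ≠ z) ↔ z ∉ (σ.Y n).B := by
  rw [σ.not_K, (σ.Y n).mem_B, not_or, and_comm, ne_comm]

/-- Inverse branches act on the poles like forward iterates. -/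
theorem br_B {n k : ℕ} (hk : k ≤ (σ.Y n).K.card) {G h : ℂ → ℂ} {R : ℝ}
    (hG : Br e (σ.Y n).c (σ.Y n).K.card G (ball (σ.p n 0) (R * σ.r n)))
    (hG0 : G (σ.p n 0) = σ.p n 0) (hb : Br e (σ.Y n).c k h (ball (σ.p n 0) (R * σ.r n)))
    (h0 : h (σ.p n 0) = σ.p n k) {z : ℂ} (hz : z ∈ (σ.Y n).B)
    (hx : 8 * ‖z - σ.p n 0‖ < R / 34 * σ.r n) :
    h z = (fq e (σ.Y n).c)^[(σ.Y n).K.card - k] z := by
  have hr := σ.rpos n
  have h1 := σ.comm hG hG0 hb h0 (x := (z - σ.p n 0) / σ.r n) (by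
    rwa [norm_div, Complex.norm_real, Real.norm_eq_abs, abs_of_pos hr, ← mul_div_assoc,
      div_lt_iff₀ hr])
  have h2 := hb.inv z (by
    rw [mem_ball, dist_eq_norm]
    linarith [norm_nonneg (z - σ.p n 0)])
  rw [σ.A_div, Fr, (σ.Y n).fixB z hz] at h1
  rw [← h1, ← Nat.sub_add_cancel hk, Function.iterate_add_apply, h2, Nat.add_sub_cancel]

theorem far0 (he : 1 ≤ e) (hP : Tendsto (fun n => (σ.Y n).K.card) σ.𝒰 atTop) {L : ℝ}
    (hL : 1 ≤ L) : ∀ᶠ n in (σ.𝒰 : Filter ℕ), L * σ.r n ≤ ‖(σ.Y n).α - σ.p n 0‖ := by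
  classical
  obtain ⟨m, hm⟩ := pack (κ := 1 / (288 * L)) (by positivity)
  filter_upwards [σ.branches he (300 * L), hP.eventually_gt_atTop m] with n g1 g2
  by_contra hc
  rw [not_le] at hc
  have hr := σ.rpos n
  have hLr : 0 < L * σ.r n := by positivity
  have hR : 0 < 300 * L * σ.r n := by positivity
  obtain ⟨G, hG, hG0⟩ := g1 _ le_rfl
  rw [σ.p_card] at hG0
  have hα : (σ.Y n).α ∈ ball (σ.p n 0) (300 * L * σ.r n) := by
    rw [mem_ball, dist_eq_norm]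
    linarith
  have key : ∀ k ≤ (σ.Y n).K.card, ∀ h, Br e (σ.Y n).c k h (ball (σ.p n 0) (300 * L * σ.r n)) →
      h (σ.p n 0) = σ.p n k → h (σ.Y n).α = (σ.Y n).α ∧
        2 / 3 ≤ ‖lam e (σ.Y n).α‖ ^ k * ‖deriv h (σ.p n 0)‖ ∧
        ‖lam e (σ.Y n).α‖ ^ k * ‖deriv h (σ.p n 0)‖ ≤ 2 := fun k hk h hb h0 => by
    have a1 := σ.br_B hk hG hG0 hb h0 (σ.Y n).αB (by linarith)
    rw [(σ.Y n).α_iter] at a1
    have a2 := congrArg norm (hb.mul_deriv isOpen_ball hα)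
    rw [a1, (σ.Y n).Pd_α, norm_mul, norm_pow, norm_one] at a2
    have a3 := abs_le.1 ((abs_norm_sub_norm_le _ _).trans (lin_deriv hR (hb.univ isOpen_ball)
      (η := 1 / 2) (z := (σ.Y n).α) (by norm_num) (by linarith)))
    have a4 : 0 ≤ ‖lam e (σ.Y n).α‖ ^ k := by positivity
    exact ⟨a1, by nlinarith [a3.2], by nlinarith [a3.1]⟩
  obtain ⟨-, b1, b2⟩ := key _ le_rfl G hG (hG0.trans (σ.p_card n).symm)
  obtain ⟨-, b3, b4⟩ := σ.G_deriv hR hG hG0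
  have b0 := norm_nonneg (lam e (σ.Y n).α)
  generalize ‖lam e (σ.Y n).α‖ = l at *
  have b5 : 0 ≤ l ^ (σ.Y n).K.card := by positivity
  have b6 : ∀ k ≤ (σ.Y n).K.card, 1 / 3 ≤ l ^ k ∧ l ^ k ≤ 4 := fun k hk => by
    rcases le_total l 1 with h | h
    · exact ⟨le_trans (by nlinarith) (pow_le_pow_of_le_one b0 h hk),
        (pow_le_one₀ b0 h).trans (by norm_num)⟩
    · exact ⟨le_trans (by norm_num) (one_le_pow₀ h),
        (pow_le_pow_right₀ h hk).trans (by nlinarith)⟩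
  have b7 : ∀ k ≤ (σ.Y n).K.card, ‖σ.p n k - (σ.Y n).α‖ ≤ 12 * (L * σ.r n) ∧
      ∀ z ∈ (σ.Y n).B, σ.p n k ≠ z → σ.r n / 24 ≤ ‖σ.p n k - z‖ := fun k hk => by
    obtain ⟨h, hb, h0⟩ := g1 k hk
    obtain ⟨a1, a2, a3⟩ := key k hk h hb h0
    obtain ⟨a4, a5⟩ := b6 k hk
    have a6 := norm_nonneg (deriv h (σ.p n 0))
    refine ⟨?_, fun z hz hne => ?_⟩
    · have a7 := lin_val_le hR (hb.univ isOpen_ball) (z := (σ.Y n).α) (by linarith)
      rw [a1, h0, norm_sub_rev] at a7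
      have a8 : ‖deriv h (σ.p n 0)‖ ≤ 6 := by nlinarith
      nlinarith [norm_nonneg ((σ.Y n).α - σ.p n 0)]
    · by_contra hlt
      have hsub : ball (σ.p n 0) (σ.r n) ⊆ ball (σ.p n 0) (300 * L * σ.r n) :=
        ball_subset_ball (by nlinarith)
      obtain ⟨w, hw, rfl⟩ := koebe hr ((hb.univ isOpen_ball).mono hsub) (show z ∈ _ by
        rw [mem_ball, dist_eq_norm, h0, norm_sub_rev]
        have a8 : 1 / 6 ≤ ‖deriv h (σ.p n 0)‖ := by nlinarith
        nlinarith)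
      refine hne (h0.symm.trans (congrArg h (not_not.1 fun h1 => ?_)))
      exact absurd (σ.iso n w (hb.inv w (hsub hw) ▸ (σ.Y n).iter_mem hz k) (Ne.symm h1))
        (not_le.2 (mem_ball_iff_norm.1 hw))
  have := hm ((Finset.range (σ.Y n).K.card).image (σ.p n)) (σ.Y n).α (12 * (L * σ.r n))
    (by positivity) (fun z hz => by
      obtain ⟨k, hk, rfl⟩ := Finset.mem_image.1 hz
      exact (b7 k (Finset.mem_range.1 hk).le).1) (fun z hz z' hz' hne => by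
      obtain ⟨k, hk, rfl⟩ := Finset.mem_image.1 hz
      obtain ⟨k', -, rfl⟩ := Finset.mem_image.1 hz'
      refine le_of_eq_of_le ?_ ((b7 k (Finset.mem_range.1 hk).le).2 _ (σ.pmem n k') hne)
      field_simp
      norm_num)
  rw [Finset.card_image_of_injOn fun i hi j hj h =>
    σ.pinj n i (by simpa using hi) j (by simpa using hj) h, Finset.card_range] at this
  omega

/-- The fixed point leaves all charts. -/
def Far : Prop := ∀ L : ℝ, ∀ᶠ n in (σ.𝒰 : Filter ℕ), ∀ k < (σ.Y n).K.card,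
  L * ‖σ.t n k‖ ≤ ‖(σ.Y n).α - σ.p n k‖

theorem far (he : 1 ≤ e) (hP : Tendsto (fun n => (σ.Y n).K.card) σ.𝒰 atTop) : σ.Far := by
  intro L
  have hL : 1 ≤ 4 * (|L| + 1) := by linarith [abs_nonneg L]
  filter_upwards [σ.branches he (4 * (|L| + 1)), σ.far0 he hP hL] with n g1 g2 k hk
  obtain ⟨h, hb, h0⟩ := g1 k hk.le
  have hr := σ.rpos n
  have hR : 0 < 4 * (|L| + 1) * σ.r n := by positivity
  by_contra hc
  obtain ⟨w, hw, h1⟩ := koebe hR (hb.univ isOpen_ball) (show (σ.Y n).α ∈ _ by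
    rw [(σ.t_eq hR hb h0).1, norm_mul, Complex.norm_real, Real.norm_eq_abs, abs_of_pos hr] at hc
    rw [mem_ball, dist_eq_norm, h0]
    have := mul_nonneg (norm_nonneg (deriv h (σ.p n 0))) hr.le
    nlinarith [le_abs_self L])
  have h2 := hb.inv w hw
  rw [h1, (σ.Y n).α_iter] at h2
  rw [← h2] at hw
  exact absurd g2 (not_le.2 (mem_ball_iff_norm.1 hw))

/-- The family of charts along the cycle. -/
noncomputable def fam (he : 1 ≤ e) (hρ : Tendsto (fun n => (σ.Y n).ρ) σ.𝒰 (𝓝 1)) (hf : σ.Far)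
    {W V : ℂ → ℂ} (hW : Differentiable ℂ W) (hV : Differentiable ℂ V) (h1 : deriv W 0 = 1)
    (c1 : ∀ L η : ℝ, 0 < η → ∀ᶠ n in (σ.𝒰 : Filter ℕ), ∀ y ∈ ball (0 : ℂ) L,
      ‖(σ.Fr n (σ.A n y) - σ.A n y) / σ.r n / ((σ.Y n).ρ - 1) - W y‖ ≤ η)
    (c2 : ∀ L η : ℝ, 0 < η → ∀ᶠ n in (σ.𝒰 : Filter ℕ), ∀ y ∈ ball (0 : ℂ) L,
      ‖(σ.Ψ n).eval (σ.A n y) - V y‖ ≤ η) : Fam where
  𝒰 := σ.𝒰
  P := fun n => (σ.Y n).K.card
  b := σ.p
  t := σ.t
  Φ := σ.Φ
  Ψ := σ.Ψ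
  τ := fun n => (σ.Y n).ρ - 1
  q := fun n => (σ.Y n).q
  W := W
  V := V
  a := fun n => (σ.Y n).α
  Φ₀ := σ.Φ₀
  q₀ := fun n => (σ.Y n).U (σ.Y n).α
  hP := fun n => (σ.Y n).ne.card_pos
  hτ := fun n => sub_ne_zero.mpr (σ.ρne n)
  hb := fun n k _ => ⟨by rw [σ.Φ_eq, Fr, (σ.Y n).fix _ (σ.pK n _), sub_self],
    ((σ.Y n).psi_at (σ.ρne n) (fun z hz => σ.Ψ_eq n hz) (σ.pK n k)).1⟩
  hinj := σ.pinj
  hΦ := σ.Φ_fac
  hz := fun n z h h' => σ.p_surj n ((σ.Ψ_ne n h).2 h')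
  hq := fun n z h => ⟨(σ.Y n).q_diff ((σ.not_B n).mp h), by
    rw [σ.Φ_eq, σ.Ψ_eq n ((σ.not_B n).mp h)]⟩
  hq₀ := fun n z h => ⟨(σ.Y n).U_diff fun h1 =>
      ((σ.Y n).mem_B.1 h1).resolve_right ((σ.not_K n).1 h), fun h1 => by
    rw [(σ.Y n).q_eq (σ.Y n).αB ((σ.not_B n).mp ⟨h, h1⟩),
      mul_div_cancel₀ _ (pow_ne_zero 2 (sub_ne_zero.2 h1.symm))]⟩
  cnt0 := fun n T h => ((σ.Y n).q_cnt he).1 T fun z hz => ⟨(σ.not_B n).mp (h z hz).1, (h z hz).2⟩
  cnt1 := fun n w hw T h =>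
    ((σ.Y n).q_cnt he).2 w hw T fun z hz => ⟨(σ.not_B n).mp (h z hz).1, (h z hz).2⟩
  far := hf
  hW := hW
  hV := hV
  W1 := h1
  hc := fun L η hη => by
    filter_upwards [σ.transport he hρ hW hV c1 c2 L η hη, c1 L η hη, c2 L η hη]
      with n g1 g2 g3 k hk
    rcases k with _ | k
    · rw [σ.t_zero]
      refine ⟨σ.r_ne n, fun y hy => ⟨?_, g3 y hy⟩⟩
      rw [σ.Φ_eq, mul_comm ((σ.Y n).ρ - 1), ← div_div]
      exact g2 y hy
    · exact g1 k (by omega)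

theorem r_small (he : 1 ≤ e) (L : ℝ) : ∀ᶠ n in (σ.𝒰 : Filter ℕ), L * σ.r n ≤ 4 := by
  filter_upwards [σ.branches he (3 * L)] with n hn
  obtain ⟨h, hb, -⟩ := hn 1 (σ.Y n).ne.card_pos
  by_contra hc
  have hm : (σ.Y n).c ∈ ball (σ.p n 0) (3 * L * σ.r n) := by
    rw [mem_ball, dist_eq_norm]
    linarith [norm_sub_le (σ.Y n).c (σ.p n 0), σ.cle n, σ.ble n]
  have h1 := hb.inv _ hm
  rw [Function.iterate_one, fq, add_eq_right] at h1
  exact pow_ne_zero _ (hb.ne_zero he isOpen_ball one_pos hm) h1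

end Setup

end Pool.Agent.MP_1071ec_an

end

-- part MP_1071ec_an.Par3
section

/-! The limit differential is invariant; the residue relation at the fixed point. -/

set_option autoImplicit false

namespace Pool.Agent.MP_1071ec_an

open MeasureTheory Metric Set Real Filter Topology Polynomial
open Pool.Agent.MP_28f8a1_an Pool.Agent.MP_28f8a1_an.H42
open scoped ENNReal


variable {e : ℕ}

theorem Cy.fac (Y : Cy e) (j : ℕ) :
    ∃ G : ℂ[X], ∀ z, (fq e Y.c)^[j] z - z = (z - Y.α) * G.eval z := by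
  obtain ⟨p, hp⟩ := t1322_poly e Y.c j
  obtain ⟨G, hG⟩ : X - C Y.α ∣ p - X := dvd_iff_isRoot.2 (by simp [hp, Y.α_iter])
  exact ⟨G, fun z => by simpa [hp] using congrArg (eval z) hG⟩

theorem Cy.fac_α (Y : Cy e) {j : ℕ} {G : ℂ[X]}
    (h : ∀ z, (fq e Y.c)^[j] z - z = (z - Y.α) * G.eval z) : G.eval Y.α = lam e Y.α ^ j - 1 := by
  have h1 := (iter_deriv (e := e) (c := Y.c) j Y.α).fun_sub (hasDerivAt_id' Y.α)
  have h2 := ((hasDerivAt_id' Y.α).sub_const Y.α).fun_mul (G.hasDerivAt Y.α)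
  rw [funext h, Y.Pd_α] at h1
  simpa using h2.unique h1

namespace Setup

variable (σ : Setup e)

theorem q_chart {n : ℕ} {y : ℂ} (hB : σ.A n y ∉ (σ.Y n).B) :
    y ≠ 0 ∧ σ.u n y = y ^ 2 * (σ.r n ^ 2 * (σ.Y n).q (σ.A n y)) := by
  have hy : y ≠ 0 := by
    rintro rfl
    exact hB (σ.A_zero n ▸ σ.pmem n 0)
  refine ⟨hy, ?_⟩
  rw [(σ.Y n).q_eq (σ.pmem n 0) hB, show σ.A n y - σ.p n 0 = σ.r n * y by simp [A]]
  change (σ.Y n).U _ (σ.A n y) = _
  have := σ.r_ne n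
  field_simp

theorem β_lim (he : 1 ≤ e) (hρ : Tendsto (fun n => (σ.Y n).ρ) σ.𝒰 (𝓝 1)) {W R : ℂ → ℂ}
    (hW : Differentiable ℂ W)
    (c1 : ∀ L η : ℝ, 0 < η → ∀ᶠ n in (σ.𝒰 : Filter ℕ), ∀ y ∈ ball (0 : ℂ) L,
      ‖(σ.Fr n (σ.A n y) - σ.A n y) / σ.r n / ((σ.Y n).ρ - 1) - W y‖ ≤ η)
    {x : ℂ} {ε L : ℝ} (hε : 0 < ε) (hR : DifferentiableOn ℂ R (ball x ε)) (hx : R x ≠ 0)
    (hc : ∀ η > 0, ∀ᶠ n in (σ.𝒰 : Filter ℕ), ∀ y ∈ ball x ε, σ.A n y ∉ (σ.Y n).B ∧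
      ‖σ.r n ^ 2 * (σ.Y n).q (σ.A n y) - R y‖ ≤ η) (hL : 34 * ‖x‖ < L) {G : ℕ → ℂ → ℂ}
    (hG : ∀ᶠ n in (σ.𝒰 : Filter ℕ),
      Br e (σ.Y n).c ((σ.Y n).K.card - 1 + 1) (G n) (ball (σ.p n 0) (L * σ.r n)) ∧
      G n (σ.p n 0) = σ.p n ((σ.Y n).K.card - 1 + 1)) :
    Tendsto (fun n => (1 - σ.α n ((σ.Y n).K.card - 1) (G n) x) / ((σ.Y n).ρ - 1)) σ.𝒰
      (𝓝 (2 * deriv W x + W x * deriv R x / R x)) := by
  set w : ℕ → ℂ → ℂ := fun n y => (σ.Fr n (σ.A n y) - σ.A n y) / σ.r n / ((σ.Y n).ρ - 1) with hw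
  set y : ℕ → ℂ := fun n => (G n (σ.A n x) - σ.p n 0) / σ.r n with hy
  have hτ : ∀ n, (σ.Y n).ρ - 1 ≠ 0 := fun n => sub_ne_zero.mpr (σ.ρne n)
  have hd : ∀ n v, HasDerivAt (w n)
      ((Pd e (σ.Y n).c (σ.A n v) (σ.Y n).K.card - 1) / ((σ.Y n).ρ - 1)) v := fun n v => by
    have := ((((iter_deriv (e := e) (c := (σ.Y n).c) (σ.Y n).K.card (σ.A n v)).comp v
      (σ.A_deriv n v)).sub (σ.A_deriv n v)).div_const (σ.r n : ℂ)).div_const ((σ.Y n).ρ - 1)
    refine this.congr_deriv ?_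
    have := σ.r_ne n
    field_simp
  have hxL : ‖x‖ < L := by linarith [norm_nonneg x]
  have h1 : ∀ᶠ n in (σ.𝒰 : Filter ℕ), σ.Fr n (σ.A n (y n)) = σ.A n x ∧ ‖y n‖ ≤ 4 * ‖x‖ ∧
      Pd e (σ.Y n).c (σ.A n (y n)) (σ.Y n).K.card * deriv (G n) (σ.A n x) = 1 := by
    filter_upwards [hG] with n ⟨g1, g2⟩
    rw [Nat.sub_add_cancel (σ.Y n).ne.card_pos] at g1 g2
    rw [σ.p_card] at g2
    have hr := σ.rpos n
    have hR0 : 0 < L * σ.r n := mul_pos ((norm_nonneg _).trans_lt hxL) hr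
    have hxA := σ.A_mem0 (n := n).mpr hxL
    have e1 : σ.A n x - σ.p n 0 = σ.r n * x := by simp [A]
    rw [hy, σ.A_div]
    refine ⟨g1.inv _ hxA, ?_, g1.mul_deriv isOpen_ball hxA⟩
    have := lin_val_le hR0 (g1.univ isOpen_ball) (z := σ.A n x) (by
      rw [e1, σ.norm_r]
      nlinarith)
    rw [g2, e1, σ.norm_r] at this
    rw [norm_div, Complex.norm_real, Real.norm_eq_abs, abs_of_pos hr, div_le_iff₀ hr]
    nlinarith [(σ.G_deriv hR0 g1 g2).2.2, mul_nonneg hr.le (norm_nonneg x)]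
  have h2 : ∀ n, σ.Fr n (σ.A n (y n)) = σ.A n x →
      (σ.Fr n (σ.A n (y n)) - σ.A n (y n)) / σ.r n = x - y n := fun n h => by
    have := σ.r_ne n
    rw [h]
    simp only [A]
    field_simp
    ring
  have hyx : Tendsto y σ.𝒰 (𝓝 x) := by
    refine Metric.tendsto_nhds.mpr fun η hη => ?_
    filter_upwards [h1, σ.near_id he hρ (4 * ‖x‖ + 1) (half_pos hη)] with n g1 g2
    have := g2 (y n) (mem_ball_zero_iff.mpr (by linarith [g1.2.1]))
    rw [h2 n g1.1] at this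
    rw [dist_eq_norm, norm_sub_rev]
    linarith
  have hl := lie_limit (l := σ.𝒰) (Q := fun n v => σ.r n ^ 2 * (σ.Y n).q (σ.A n v)) (w := w)
    (τ := fun n => (σ.Y n).ρ - 1) hε hR hW.differentiableOn hx
    (by simpa using hρ.sub_const 1) hyx (by
      filter_upwards [h1, hc 1 one_pos] with n g1 g2
      refine ⟨hτ n, fun v hv => ((((σ.Y n).q_diff (g2 v hv).1).comp v
        (σ.A_deriv n v).differentiableAt).const_mul _).differentiableWithinAt,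
        fun v _ => (hd n v).differentiableAt.differentiableWithinAt, ?_⟩
      simp only [hw]
      rw [h2 n g1.1, mul_div_cancel₀ _ (hτ n), add_sub_cancel])
    (fun η hη => by
      filter_upwards [hc η hη, c1 (‖x‖ + ε) η hη] with n g1 g2 v hv
      refine ⟨(g1 v hv).2, g2 v ?_⟩
      rw [mem_ball, dist_eq_norm] at hv
      rw [mem_ball_zero_iff]
      linarith [norm_le_norm_add_norm_sub' v x])
  refine hl.congr' ?_
  filter_upwards [h1, hG, hc (‖R x‖ / 2) (by positivity), hyx.eventually (ball_mem_nhds x hε)]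
    with n ⟨g1, _, g3⟩ ⟨g4, g5⟩ g6 g7
  obtain ⟨a1, a2⟩ := σ.q_chart (g6 x (mem_ball_self hε)).1
  obtain ⟨a3, a4⟩ := σ.q_chart (g6 _ g7).1
  have a5 : (σ.r n : ℂ) ^ 2 * (σ.Y n).q (σ.A n x) ≠ 0 := fun h => by
    have := (g6 x (mem_ball_self hε)).2
    rw [h, zero_sub, norm_neg] at this
    linarith [norm_pos_iff.mpr hx]
  obtain ⟨-, a6⟩ := σ.α_eq he g4 g5 a1 hxL (a2 ▸ mul_ne_zero (pow_ne_zero _ a1) a5)
  have a7 : G n (σ.A n x) = σ.A n (y n) := (σ.A_div n _).symm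
  rw [Nat.sub_add_cancel (σ.Y n).ne.card_pos, σ.p_card, a7,
    show σ.A n (y n) - σ.p n 0 = σ.r n * y n by simp [A]] at a6
  change _ = σ.u n (y n) * _ * _ at a6
  rw [a2, a4] at a6
  rw [(hd n _).deriv, mul_div_cancel₀ _ (hτ n), add_sub_cancel]
  congr 2
  have a8 := left_ne_zero_of_mul_eq_one g3
  have hr := σ.r_ne n
  rw [div_eq_iff (mul_ne_zero a5 (pow_ne_zero _ a8))]
  refine mul_left_cancel₀ (mul_ne_zero (pow_ne_zero 2 a1) (pow_ne_zero 2 (mul_ne_zero hr a3))) ?_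
  linear_combination (-Pd e (σ.Y n).c (σ.A n (y n)) (σ.Y n).K.card ^ 2) * a6 -
    (x ^ 2 * (σ.r n * y n) ^ 2 * (σ.r n ^ 2 * (σ.Y n).q (σ.A n (y n))) *
      (1 + Pd e (σ.Y n).c (σ.A n (y n)) (σ.Y n).K.card * deriv (G n) (σ.A n x))) * g3

/-- The error along the whole cycle over a set with bounded multiplicity. -/
theorem err_mult (he : 1 ≤ e) {n K : ℕ} {S X : Set ℂ} {L a : ℝ} (ha : 0 < a) (ha1 : a ≤ 1)
    (hL : 0 < L) (hX : X ⊆ ball 0 L) (hS : thickening (a * L) X ⊆ S)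
    (hm : ∀ (v : ℂ) (J : Finset ℕ), (∀ k ∈ J, k < (σ.Y n).K.card ∧ ∃ y ∈ S, ‖y‖ < 2 * L ∧
      σ.p n k + σ.t n k * y = v) → J.card ≤ K) (hr4 : 34 * L / a * σ.r n ≤ 4) {h : ℂ → ℂ}
    (hb : Br e (σ.Y n).c ((σ.Y n).K.card - 1) h (ball (σ.p n 0) (34 * L / a * σ.r n)))
    (h0 : h (σ.p n 0) = σ.p n ((σ.Y n).K.card - 1)) {Z : Set ℂ} (hZ : MeasurableSet Z)
    (hZX : ∀ z ∈ Z, ∃ y ∈ X, σ.A n y = z) :
    LI Z ((σ.Y n).Err ((σ.Y n).K.card - 1) h) ≤ K * LI (ball 0 7) (σ.Y n).err := by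
  have hr := σ.rpos n
  have hP := (σ.Y n).ne.card_pos
  have hLR : L ≤ 34 * L / a := by
    rw [le_div_iff₀ ha]
    nlinarith
  have hR0 : 0 < 34 * L / a * σ.r n := by positivity
  refine LI_Err' he (σ.Y n) (σ.cle n) (by linarith [σ.ble n]) hb hZ (fun z hz => ?_)
    fun v J hJ => ?_
  · obtain ⟨y, hy, rfl⟩ := hZX z hz
    exact σ.A_mem0.mpr ((mem_ball_zero_iff.mp (hX hy)).trans_le hLR)
  rw [← Finset.card_image_of_injOn (f := fun j => (σ.Y n).K.card - 1 - j) fun i hi j hj hij => by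
    have := (hJ i hi).1
    have := (hJ j hj).1
    simp only at hij
    omega]
  refine hm v _ fun k hk => ?_
  obtain ⟨j, hj, rfl⟩ := Finset.mem_image.mp hk
  obtain ⟨j1, z, hz, hv⟩ := hJ j hj
  obtain ⟨y, hy, rfl⟩ := hZX z hz
  have hyL := mem_ball_zero_iff.mp (hX hy)
  have b1 := hb.iter j1
  have b2 : (fq e (σ.Y n).c)^[j] (h (σ.p n 0)) = σ.p n ((σ.Y n).K.card - 1 - j) := by
    rw [h0, ← σ.p_iter n j ((σ.Y n).K.card - 1 - j), Nat.sub_add_cancel j1]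
  obtain ⟨t1, t2⟩ := σ.t_eq hR0 b1 b2
  have b3 := lin_val hR0 (b1.univ isOpen_ball) (η := a) (z := σ.A n y) (by linarith) (by
    rw [A, add_sub_cancel_left, σ.norm_r, show a * (34 * L / a * σ.r n) = 34 * (σ.r n * L) by
      field_simp]
    gcongr)
  rw [hv, b2, A, add_sub_cancel_left, ← mul_assoc, ← t1, mul_assoc, ← norm_mul, ← mul_assoc, ← t1,
    norm_mul] at b3
  set k := (σ.Y n).K.card - 1 - j
  have b4 : ‖(v - σ.p n k) / σ.t n k - y‖ < a * L := by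
    rw [div_sub' t2, norm_div, div_lt_iff₀ (norm_pos_iff.mpr t2)]
    refine b3.trans_lt ?_
    rw [mul_assoc, mul_comm L]
    have := norm_pos_iff.mpr t2
    gcongr
  refine ⟨by omega, (v - σ.p n k) / σ.t n k,
    hS (mem_thickening_iff.mpr ⟨y, hy, by rwa [dist_eq_norm]⟩), ?_, by field_simp; ring⟩
  nlinarith [norm_le_norm_add_norm_sub' ((v - σ.p n k) / σ.t n k) y]

theorem star (he : 1 ≤ e) (hρ : Tendsto (fun n => (σ.Y n).ρ) σ.𝒰 (𝓝 1)) (hf : σ.Far)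
    {W V : ℂ → ℂ}
    (hW : Differentiable ℂ W) (hV : Differentiable ℂ V) (h1 : deriv W 0 = 1)
    (c1 : ∀ L η : ℝ, 0 < η → ∀ᶠ n in (σ.𝒰 : Filter ℕ), ∀ y ∈ ball (0 : ℂ) L,
      ‖(σ.Fr n (σ.A n y) - σ.A n y) / σ.r n / ((σ.Y n).ρ - 1) - W y‖ ≤ η)
    (c2 : ∀ L η : ℝ, 0 < η → ∀ᶠ n in (σ.𝒰 : Filter ℕ), ∀ y ∈ ball (0 : ℂ) L,
      ‖(σ.Ψ n).eval (σ.A n y) - V y‖ ≤ η) {u : ℂ}
    (hu : Tendsto (fun n => ((σ.Y n).ρ - 1) * (‖(σ.Y n).ρ - 1‖⁻¹ : ℝ)) σ.𝒰 (𝓝 u))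
    (R : ℂ → ℂ) (K : ℕ) (S : Set ℂ) (hT : Trio W V R)
    (hl : (σ.fam he hρ hf hW hV h1 c1 c2).Lim R)
    (hS : IsOpen S) (hm : (σ.fam he hρ hf hW hV h1 c1 c2).Mult K S) : Star W V R u S := by
  obtain ⟨C, hC, hrate⟩ := σ.rate 7 le_rfl
  refine ⟨18 * K * C / π, fun N x ε μ hdisj hx => ?_⟩
  have hX : IsCompact (⋃ i ∈ Finset.range N, closedBall (x i) (ε i)) :=
    (Finset.range N).isCompact_biUnion fun i _ => isCompact_closedBall _ _
  set X := ⋃ i ∈ Finset.range N, closedBall (x i) (ε i)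
  have hXi : ∀ i < N, closedBall (x i) (ε i) ⊆ X := fun i hi =>
    subset_iUnion₂ (s := fun i (_ : i ∈ Finset.range N) => closedBall (x i) (ε i)) i
      (Finset.mem_range.mpr hi)
  have hXS : X ⊆ S \ Zs W V := iUnion₂_subset fun i hi => (hx i (Finset.mem_range.mp hi)).2.2.2.1
  obtain ⟨L, hL, hXL⟩ := hX.isBounded.subset_ball_lt 0 0
  obtain ⟨δ, hδ, hth⟩ := hX.exists_thickening_subset_open hS fun y hy => (hXS hy).1
  obtain ⟨a, ha, a1, a2⟩ : ∃ a > 0, a ≤ 1 ∧ a * L ≤ δ :=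
    ⟨min 1 (δ / L), by positivity, min_le_left _ _, (le_div_iff₀ hL).mp (min_le_right _ _)⟩
  have hLR : 34 * L ≤ 34 * L / a := by
    rw [le_div_iff₀ ha]
    nlinarith
  have hc : ∀ η > 0, ∀ᶠ n in (σ.𝒰 : Filter ℕ), ∀ y ∈ X, σ.A n y ∉ (σ.Y n).B ∧
      ‖σ.r n ^ 2 * (σ.Y n).q (σ.A n y) - R y‖ ≤ η := fun η hη => ev_compact hX fun x hx => by
    obtain ⟨ε, hε, h⟩ := hl x (hXS hx).2
    refine ⟨ε, hε, (h η hη).mono fun n hn y hy => ?_⟩
    have := hn 0 (σ.Y n).ne.card_pos y hy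
    simp only [fam, Fam.Off, σ.t_zero] at this
    exact ⟨(σ.not_B n).mp this.1, this.2⟩
  have hex : ∀ n, ∃ G : ℂ → ℂ, (∀ k ≤ (σ.Y n).K.card, ∃ h,
      Br e (σ.Y n).c k h (ball (σ.p n 0) (34 * L / a * σ.r n)) ∧ h (σ.p n 0) = σ.p n k) →
        Br e (σ.Y n).c ((σ.Y n).K.card - 1 + 1) G (ball (σ.p n 0) (34 * L / a * σ.r n)) ∧
        G (σ.p n 0) = σ.p n ((σ.Y n).K.card - 1 + 1) := fun n => by
    have hP := (σ.Y n).ne.card_pos
    by_cases hn : ∀ k ≤ (σ.Y n).K.card, ∃ h,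
      Br e (σ.Y n).c k h (ball (σ.p n 0) (34 * L / a * σ.r n)) ∧ h (σ.p n 0) = σ.p n k
    · obtain ⟨G, hG⟩ := hn ((σ.Y n).K.card - 1 + 1) (by omega)
      exact ⟨G, fun _ => hG⟩
    · exact ⟨0, fun h => absurd h hn⟩
  choose G hG using hex
  have hev := (σ.branches he _).mono hG
  have hlim : Tendsto (fun n => ∑ i ∈ Finset.range N, μ i * ε i ^ 2 *
      -(((σ.Y n).ρ - 1) * (‖(σ.Y n).ρ - 1‖⁻¹ : ℝ) *
        ((1 - σ.α n ((σ.Y n).K.card - 1) (G n) (x i)) / ((σ.Y n).ρ - 1))).re) σ.𝒰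
      (𝓝 (∑ i ∈ Finset.range N, μ i * ε i ^ 2 *
        -(u * (2 * deriv W (x i) + W (x i) * deriv R (x i) / R (x i))).re)) := by
    refine tendsto_finsetSum _ fun i hi => ?_
    have hi' := Finset.mem_range.mp hi
    obtain ⟨b1, b2, -, b4, b5⟩ := hx i hi'
    have hxi := mem_closedBall_self (x := x i) b1.le
    exact ((Complex.continuous_re.tendsto _).comp (hu.mul (σ.β_lim he hρ hW c1 b1
      (hT.hR.mono fun y hy => (b4 (ball_subset_closedBall hy)).2)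
      (norm_pos_iff.mp (b2.trans_le (b5 _ hxi)))
      (fun η hη => (hc η hη).mono fun n hn y hy => hn y (hXi i hi' (ball_subset_closedBall hy)))
      (by linarith [mem_ball_zero_iff.mp (hXL (hXi i hi' hxi))]) hev))).neg.const_mul _
  refine le_of_tendsto hlim ?_
  filter_upwards [hev, hm (2 * L), σ.r_small he (34 * L / a),
    (Filter.eventually_all_finset (Finset.range N)).mpr fun i hi =>
      hc (μ i / 2) (half_pos (hx i (Finset.mem_range.mp hi)).2.1)] with n ⟨g1, g2⟩ g3 g4 g5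
  have hτ := σ.τ_pos n
  have hτ' : (σ.Y n).ρ - 1 ≠ 0 := norm_pos_iff.mp hτ
  set Er := (σ.Y n).Err ((σ.Y n).K.card - 1) fun v => fq e (σ.Y n).c (G n v)
  have k1 : ∀ i ∈ Finset.range N, ENNReal.ofReal (μ i * (π * ε i ^ 2 *
      (-(1 - σ.α n ((σ.Y n).K.card - 1) (G n) (x i))).re)) ≤
      ENNReal.ofReal 18 * LI (ball (σ.A n (x i)) (ε i * σ.r n)) Er := fun i hi => by
    have hi' := Finset.mem_range.mp hi
    obtain ⟨b1, b2, b3, -, b5⟩ := hx i hi'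
    have hx0 : 0 < ‖x i‖ := by linarith
    obtain ⟨l1, l2⟩ := σ.loc_unb he (by linarith) g1 g2 (x := x i) (ε := ε i)
      (m := 8 / (μ i * ‖x i‖ ^ 2)) (C := 3 / 2 * ‖x i‖) (by positivity)
      (fun y hy => ball_subset_ball (by linarith) (hXL (hXi i hi' (ball_subset_closedBall hy))))
      (fun y hy => by
        obtain ⟨l3, l4⟩ := g5 i hi y (hXi i hi' (ball_subset_closedBall hy))
        have l5 := b5 y (ball_subset_closedBall hy)
        rw [mem_ball, dist_eq_norm] at hy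
        have l6 := norm_le_norm_add_norm_sub y (x i)
        refine ⟨fun h => absurd h l3, ?_, by linarith [norm_le_norm_add_norm_sub' y (x i)]⟩
        rw [(σ.q_chart l3).2, norm_mul, norm_pow, inv_div]
        calc _ = (‖x i‖ / 2) ^ 2 * (μ i / 2) := by ring
          _ ≤ _ := by
            gcongr
            · linarith
            · linarith [norm_le_norm_add_norm_sub
                ((σ.r n : ℂ) ^ 2 * (σ.Y n).q (σ.A n y)) (R y)])
    have l7 := t37_mean b1 l1.neg (u := fun y => ‖1 - σ.α n ((σ.Y n).K.card - 1) (G n) y‖ -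
      (1 - σ.α n ((σ.Y n).K.card - 1) (G n) y).re)
      (l1.continuousOn.norm.sub (Complex.continuous_re.comp_continuousOn l1.continuousOn))
      (fun y _ => by
        simp only [Pi.neg_apply, Complex.neg_re]
        linarith [norm_nonneg (1 - σ.α n ((σ.Y n).K.card - 1) (G n) y)])
    rw [ENNReal.ofReal_mul b2.le]
    refine (mul_le_mul_right (l7.trans l2) _).trans_eq ?_
    rw [← mul_assoc, ← ENNReal.ofReal_mul b2.le]
    congr 2
    field_simp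
    norm_num
  have k2 : ∑ i ∈ Finset.range N, LI (ball (σ.A n (x i)) (ε i * σ.r n)) Er ≤
      K * LI (ball 0 7) (σ.Y n).err := by
    refine (sum_LI_le (Ω := ⋃ i ∈ Finset.range N, ball (σ.A n (x i)) (ε i * σ.r n)) _
      (fun i hi j hj hij => Set.disjoint_left.mpr fun z z1 z2 => ?_) (fun _ _ => measurableSet_ball)
      (fun i hi => subset_iUnion₂ (s := fun i (_ : i ∈ Finset.range N) =>
        ball (σ.A n (x i)) (ε i * σ.r n)) i hi) _).trans ?_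
    · rw [← σ.A_div n z] at z1 z2
      exact Set.disjoint_left.mp (hdisj i (by simpa using hi) j (by simpa using hj) hij)
        (σ.A_mem.mp z1) (σ.A_mem.mp z2)
    · refine σ.err_mult he ha a1 hL hXL ((thickening_mono a2 X).trans hth) g3 g4
        (g1.iter (j := 1) (by omega)) (by
          change fq e _ (G n _) = _
          rw [g2, σ.pstep])
        ((Finset.range N).measurableSet_biUnion fun _ _ => measurableSet_ball) fun z hz => ?_
      obtain ⟨i, hi, hz⟩ := mem_iUnion₂.mp hz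
      rw [← σ.A_div n z] at hz
      exact ⟨_, hXi i (Finset.mem_range.mp hi) (ball_subset_closedBall (σ.A_mem.mp hz)),
        σ.A_div n z⟩
  have k3 := (ofReal_sum_le _ _).trans ((Finset.sum_le_sum k1).trans
    ((Finset.mul_sum _ _ _).symm.trans_le
      (mul_le_mul_right (k2.trans (mul_le_mul_right (hrate n) _)) _)))
  rw [← ENNReal.ofReal_natCast, ← ENNReal.ofReal_mul (by positivity),
    ← ENNReal.ofReal_mul (by positivity), ENNReal.ofReal_le_ofReal_iff (by positivity)] at k3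
  have hπ := pi_pos
  calc _ = (∑ i ∈ Finset.range N, μ i * (π * ε i ^ 2 *
        (-(1 - σ.α n ((σ.Y n).K.card - 1) (G n) (x i))).re)) / (π * ‖(σ.Y n).ρ - 1‖) := by
        rw [Finset.sum_div]
        refine Finset.sum_congr rfl fun i _ => ?_
        rw [mul_right_comm ((σ.Y n).ρ - 1), mul_div_cancel₀ _ hτ', mul_comm _ ((_ : ℝ) : ℂ),
          Complex.re_ofReal_mul, Complex.neg_re]
        field_simp
    _ ≤ 18 * (K * (C * ‖(σ.Y n).ρ - 1‖)) / (π * ‖(σ.Y n).ρ - 1‖) := by gcongr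
    _ = _ := by field_simp

theorem p_back {n m : ℕ} (hm : m ≤ (σ.Y n).K.card) :
    (fq e (σ.Y n).c)^[(σ.Y n).K.card - m] (σ.p n 0) = σ.p n m := by
  rw [← σ.p_card, ← σ.p_iter n ((σ.Y n).K.card - m) m, Nat.add_sub_cancel' hm]

theorem br_eq {n m : ℕ} (hm : m ≤ (σ.Y n).K.card) {G h : ℂ → ℂ} {R : ℝ} (hR : 0 < R)
    (hG : Br e (σ.Y n).c (σ.Y n).K.card G (ball (σ.p n 0) R)) (hG0 : G (σ.p n 0) = σ.p n 0)
    (hb : Br e (σ.Y n).c m h (ball (σ.p n 0) R)) (h0 : h (σ.p n 0) = σ.p n m) :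
    EqOn (fun w => (fq e (σ.Y n).c)^[(σ.Y n).K.card - m] (G w)) h (ball (σ.p n 0) R) := by
  have := hG.iter (Nat.sub_le _ m)
  rw [Nat.sub_sub_self hm] at this
  exact this.unique hb (mem_ball_self hR) (by rw [hG0, h0, σ.p_back hm])

theorem comm' {n k m : ℕ} (hk : k ≤ (σ.Y n).K.card) (hm : m ≤ (σ.Y n).K.card) {G h h' : ℂ → ℂ}
    {R : ℝ} (hG : Br e (σ.Y n).c (σ.Y n).K.card G (ball (σ.p n 0) (R * σ.r n)))
    (hG0 : G (σ.p n 0) = σ.p n 0) (hb : Br e (σ.Y n).c k h (ball (σ.p n 0) (R * σ.r n)))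
    (h0 : h (σ.p n 0) = σ.p n k) (hb' : Br e (σ.Y n).c m h' (ball (σ.p n 0) (R * σ.r n)))
    (h0' : h' (σ.p n 0) = σ.p n m) (hd : ‖deriv h' (σ.p n 0)‖ ≤ 2)
    (hp : 8 * ‖σ.p n m - σ.p n 0‖ < R / 34 * σ.r n) {x : ℂ} (hx : 8 * ‖x‖ < R / 34) :
    (fq e (σ.Y n).c)^[(σ.Y n).K.card - m] (h (σ.A n x)) =
      h ((fq e (σ.Y n).c)^[(σ.Y n).K.card - m] (σ.A n x)) := by
  have hr := σ.rpos n
  have hR : 0 < R := by linarith [norm_nonneg x]
  have hR0 := mul_pos hR hr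
  have hsub : ball (σ.p n 0) (R / 34 * σ.r n) ⊆ ball (σ.p n 0) (R * σ.r n) :=
    ball_subset_ball (by nlinarith)
  obtain ⟨-, -, d3⟩ := σ.G_deriv hR0 hG hG0
  have hm1 : MapsTo G (ball (σ.p n 0) (R / 34 * σ.r n)) (ball (σ.p n 0) (R * σ.r n)) :=
    fun z hz => by
      rw [mem_ball, dist_eq_norm] at hz ⊢
      have := lin_val_le hR0 (hG.univ isOpen_ball) (z := z) (by linarith)
      rw [hG0] at this
      nlinarith [norm_nonneg (z - σ.p n 0)]
  have hm2 : MapsTo h' (ball (σ.p n 0) (R / 34 * σ.r n)) (ball (σ.p n 0) (R * σ.r n)) :=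
    fun z hz => by
      rw [mem_ball, dist_eq_norm] at hz ⊢
      have := lin_val_le hR0 (hb'.univ isOpen_ball) (z := z) (by linarith)
      rw [h0'] at this
      nlinarith [norm_nonneg (z - σ.p n 0),
        norm_sub_le_norm_sub_add_norm_sub (h' z) (σ.p n m) (σ.p n 0)]
  have b1 : Br e (σ.Y n).c (m + k) (fun z => (fq e (σ.Y n).c)^[(σ.Y n).K.card - m] (h (G z)))
      (ball (σ.p n 0) (R / 34 * σ.r n)) :=
    ⟨(iter_diff _).comp_differentiableOn (hb.diff.comp (hG.diff.mono hsub) hm1), fun z hz => by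
      rw [← Function.iterate_add_apply, show m + k + ((σ.Y n).K.card - m) = (σ.Y n).K.card + k by
        omega, Function.iterate_add_apply, hb.inv _ (hm1 hz), hG.inv _ (hsub hz)]⟩
  have b2 : Br e (σ.Y n).c (m + k) (fun z => h (h' z)) (ball (σ.p n 0) (R / 34 * σ.r n)) :=
    ⟨hb.diff.comp (hb'.diff.mono hsub) hm2, fun z hz => by
      rw [Function.iterate_add_apply, hb.inv _ (hm2 hz), hb'.inv _ (hsub hz)]⟩
  obtain ⟨k1, k2⟩ := σ.ret_inv (s := R / 34) (by linarith) hG hG0 hx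
  have b3 := b1.unique b2 (mem_ball_self (by positivity)) (by
    rw [hG0, h0, h0', σ.br_B hk hG hG0 hb h0 (σ.pmem n m) hp]
    refine (σ.Y n).iter_inj ((σ.Y n).iter_mem (σ.pmem n k) _) ((σ.Y n).iter_mem (σ.pmem n m) _) k ?_
    have := σ.p_iter n k 0
    rw [zero_add] at this
    rw [← Function.iterate_add_apply, add_comm, Function.iterate_add_apply, this, σ.p_back hm,
      ← Function.iterate_add_apply, Nat.add_sub_cancel' hk, (σ.Y n).fix _ (σ.pK n m)]) k1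
  have b4 := σ.br_eq hm hR0 hG hG0 hb' h0' (hsub k1)
  simp only [k2] at b3 b4
  rw [b3, b4]

theorem succ0 (he : 1 ≤ e) (hρ : Tendsto (fun n => (σ.Y n).ρ) σ.𝒰 (𝓝 1)) {g : ℂ} {m : ℕ → ℕ}
    (hm : ∀ n, m n < (σ.Y n).K.card) (h1 : ∀ η > 0, ∀ᶠ n in (σ.𝒰 : Filter ℕ),
      ‖σ.p n (m n) - σ.p n 0 - g * σ.r n‖ ≤ η * σ.r n ∧ ‖σ.t n (m n) - σ.r n‖ ≤ η * σ.r n)
    (L : ℝ) {η : ℝ} (hη : 0 < η) : ∀ᶠ n in (σ.𝒰 : Filter ℕ), ∀ x ∈ ball (0 : ℂ) L,
      ‖((fq e (σ.Y n).c)^[(σ.Y n).K.card - m n] (σ.A n x) - σ.A n x) / σ.r n - g‖ ≤ η := by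
  set s := 8 * |L| + 1 with hs
  have hs0 : 0 < s := by positivity
  obtain ⟨a, ha, a1, a2⟩ : ∃ a > 0, a ≤ 1 ∧ a * (3 * s + 2) ≤ η :=
    ⟨min 1 (η / (3 * s + 2)), by positivity, min_le_left _ _,
      (le_div_iff₀ (by positivity)).mp (min_le_right _ _)⟩
  filter_upwards [σ.branches he (34 * s / a), h1 a ha, σ.near_id he hρ L ha]
    with n hn ⟨g1, g2⟩ g3 x hx
  obtain ⟨G, hG, hG0⟩ := hn _ le_rfl
  rw [σ.p_card] at hG0
  obtain ⟨h, hb, h0⟩ := hn _ (hm n).le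
  have hr := σ.rpos n
  have hr' := σ.r_ne n
  have hR : 0 < 34 * s / a * σ.r n := by positivity
  have hsR : s ≤ 34 * s / a := by
    rw [le_div_iff₀ ha]
    nlinarith
  obtain ⟨h3, h4⟩ := σ.ret_inv hsR hG hG0 (y := x) (by
    linarith [mem_ball_zero_iff.mp hx, le_abs_self L])
  have h5 := σ.br_eq (hm n).le hR hG hG0 hb h0 (ball_subset_ball (by gcongr) h3)
  simp only [h4] at h5
  rw [mem_ball, dist_eq_norm] at h3
  have h6 := lin_val hR (hb.univ isOpen_ball) (η := a) (z := σ.Fr n (σ.A n x)) (by linarith) (by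
    rw [show a * (34 * s / a * σ.r n) = 34 * (s * σ.r n) by field_simp]
    linarith)
  have hn' : ∀ v : ℂ, ‖v / σ.r n‖ = ‖v‖ / σ.r n := fun v => by
    rw [norm_div, Complex.norm_real, Real.norm_eq_abs, abs_of_pos hr]
  have h7 := g3 x hx
  rw [hn', div_le_iff₀ hr] at h7
  rw [(σ.t_eq hR hb h0).1, ← sub_one_mul, mul_comm, σ.norm_r, mul_comm a] at g2
  have h8 := le_of_mul_le_mul_left g2 hr
  have h9 : ‖deriv h (σ.p n 0)‖ ≤ 2 := by
    linarith [norm_le_norm_add_norm_sub' (deriv h (σ.p n 0)) 1, norm_one (α := ℂ)]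
  rw [h0] at h6
  rw [h5, div_sub' hr', hn', div_le_iff₀ hr]
  generalize σ.Fr n (σ.A n x) = w at *
  calc _ = ‖(h w - σ.p n (m n) - deriv h (σ.p n 0) * (w - σ.p n 0)) +
        (σ.p n (m n) - σ.p n 0 - g * σ.r n) + (deriv h (σ.p n 0) - 1) * (w - σ.p n 0) +
        (w - σ.A n x)‖ := by
        congr 1
        ring
    _ ≤ a * 2 * (s * σ.r n) + a * σ.r n + a * (s * σ.r n) + a * σ.r n := by
        refine (norm_add_le _ _).trans (add_le_add ((norm_add_le _ _).trans (add_le_add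
          ((norm_add_le _ _).trans (add_le_add (h6.trans ?_) g1)) ?_)) h7)
        · gcongr
        · rw [norm_mul]
          gcongr
    _ ≤ _ := by nlinarith

/-- An iterate looks like the same translation in all charts. -/
theorem succ (he : 1 ≤ e) (hρ : Tendsto (fun n => (σ.Y n).ρ) σ.𝒰 (𝓝 1)) {g : ℂ} {m : ℕ → ℕ}
    (hm : ∀ n, m n < (σ.Y n).K.card) (h1 : ∀ η > 0, ∀ᶠ n in (σ.𝒰 : Filter ℕ),
      ‖σ.p n (m n) - σ.p n 0 - g * σ.r n‖ ≤ η * σ.r n ∧ ‖σ.t n (m n) - σ.r n‖ ≤ η * σ.r n)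
    (L : ℝ) {η : ℝ} (hη : 0 < η) : ∀ᶠ n in (σ.𝒰 : Filter ℕ), ∀ k < (σ.Y n).K.card,
      ∀ y ∈ ball (0 : ℂ) L, ‖((fq e (σ.Y n).c)^[(σ.Y n).K.card - m n] (σ.p n k + σ.t n k * y) -
        (σ.p n k + σ.t n k * y)) / σ.t n k - g‖ ≤ η := by
  set s := 4 * |L| + 1 with hs
  have hs0 : 0 < s := by positivity
  have hg := norm_nonneg g
  obtain ⟨a, ha, a1, a2⟩ : ∃ a > 0, a ≤ 1 ∧ a * (‖g‖ + 2) ≤ η :=
    ⟨min 1 (η / (‖g‖ + 2)), by positivity, min_le_left _ _,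
      (le_div_iff₀ (by positivity)).mp (min_le_right _ _)⟩
  set R := 300 * (s + ‖g‖ + 2) / a with hR
  have hsR : 300 * (s + ‖g‖ + 2) ≤ R := by
    rw [hR, le_div_iff₀ ha]
    nlinarith
  filter_upwards [σ.branches he R, h1 1 one_pos, σ.succ0 he hρ hm h1 s ha]
    with n hn ⟨g1, g2⟩ g3 k hk y hy
  obtain ⟨G, hG, hG0⟩ := hn _ le_rfl
  rw [σ.p_card] at hG0
  obtain ⟨h', hb', h0'⟩ := hn _ (hm n).le
  obtain ⟨h, hb, h0⟩ := hn _ hk.le
  have hr := σ.rpos n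
  have hr' := σ.r_ne n
  have hR0 : 0 < R * σ.r n := mul_pos (by linarith) hr
  have hu := hb.univ isOpen_ball
  obtain ⟨t1, t2⟩ := σ.t_eq hR0 hb h0
  have hd0 : deriv h (σ.p n 0) ≠ 0 := hu.ne _ (mem_ball_self hR0)
  have hRa : a * (R * σ.r n) = 300 * ((s + ‖g‖ + 2) * σ.r n) := by
    rw [hR]
    field_simp
  have hyL := mem_ball_zero_iff.mp hy
  obtain ⟨z, hz, hzz⟩ := koebe (mul_pos hs0 hr)
    (hu.mono (ball_subset_ball (mul_le_mul_of_nonneg_right (show s ≤ R by linarith) hr.le)))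
    (show σ.p n k + σ.t n k * y ∈ _ by
      rw [mem_ball, dist_eq_norm, h0, add_sub_cancel_left, t1, mul_assoc, norm_mul, σ.norm_r,
        mul_div_assoc]
      refine mul_lt_mul_of_pos_left ?_ (norm_pos_iff.mpr hd0)
      nlinarith [le_abs_self L])
  have hz' := σ.A_div n z
  set x := (z - σ.p n 0) / σ.r n
  have hxs : ‖x‖ < s := σ.A_mem0.mp (hz'.symm ▸ hz)
  have k1 := g3 x (mem_ball_zero_iff.2 hxs)
  rw [(σ.t_eq hR0 hb' h0').1, ← sub_one_mul, mul_comm, σ.norm_r, mul_comm 1] at g2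
  have k2 := σ.comm' hk.le (hm n).le hG hG0 hb h0 hb' h0' (by
    linarith [le_of_mul_le_mul_left g2 hr, norm_le_norm_add_norm_sub' (deriv h' (σ.p n 0)) 1,
      norm_one (α := ℂ)]) (by
    have := norm_le_norm_sub_add (σ.p n (m n) - σ.p n 0) (g * σ.r n)
    rw [mul_comm g, σ.norm_r] at this
    rw [mul_comm g] at g1
    nlinarith) (x := x) (by linarith)
  rw [hz'] at k1 k2
  rw [mem_ball, dist_eq_norm] at hz
  rw [← hzz, k2, t1]
  generalize (fq e (σ.Y n).c)^[(σ.Y n).K.card - m n] z = w at *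
  have k3 : ‖(w - z) / σ.r n‖ ≤ ‖g‖ + 1 := by
    linarith [norm_le_norm_add_norm_sub' ((w - z) / σ.r n) g]
  have k4 := k3
  rw [norm_div, Complex.norm_real, Real.norm_eq_abs, abs_of_pos hr, div_le_iff₀ hr] at k4
  have k5 := lin_two hR0 hu (η := a) (z := z) (z' := w) (by linarith) (by rw [hRa]; nlinarith)
    (by rw [hRa]; nlinarith [norm_sub_le_norm_sub_add_norm_sub w z (σ.p n 0)])
  have k6 : ‖(h w - h z) / (deriv h (σ.p n 0) * σ.r n) - (w - z) / σ.r n‖ ≤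
      a * ‖(w - z) / σ.r n‖ := by
    rw [show (h w - h z) / (deriv h (σ.p n 0) * σ.r n) - (w - z) / σ.r n =
      (h w - h z - deriv h (σ.p n 0) * (w - z)) / (deriv h (σ.p n 0) * σ.r n) by field_simp,
      norm_div, norm_mul, norm_div, div_le_iff₀ (by positivity)]
    refine k5.trans_eq ?_
    field_simp
  nlinarith [norm_sub_le_norm_sub_add_norm_sub ((h w - h z) / (deriv h (σ.p n 0) * σ.r n))
    ((w - z) / σ.r n) g]

theorem case_one (he : 1 ≤ e) (hρ : Tendsto (fun n => (σ.Y n).ρ) σ.𝒰 (𝓝 1))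
    (hP : Tendsto (fun n => (σ.Y n).K.card) σ.𝒰 atTop) : ∃ (j : ℕ → ℕ) (s : ℝ),
    (s = 1 ∨ s = -1) ∧ (∀ n, j n ≤ (σ.Y n).K.card) ∧ ∀ ε > 0, ∀ᶠ n in (σ.𝒰 : Filter ℕ),
      (σ.Y n).s ≠ 0 ∧ lam e (σ.Y n).α ^ (σ.Y n).K.card - 1 ≠ 0 ∧
      ‖(lam e (σ.Y n).α ^ j n - 1) * (lam e (σ.Y n).α ^ (σ.Y n).K.card - 1 - ((σ.Y n).ρ - 1)) /
        (lam e (σ.Y n).α ^ (σ.Y n).K.card - 1) - 2 * π * Complex.I * s‖ ≤ ε := by
  obtain ⟨W, V, hW, hV, h1, h2, c1, c2⟩ := σ.field he hρ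
  have hf := σ.far he hP
  have hn1 : ∀ n, ‖((σ.Y n).ρ - 1) * (‖(σ.Y n).ρ - 1‖⁻¹ : ℝ)‖ = 1 := fun n => by
    rw [norm_mul, Complex.norm_real, norm_inv, norm_norm, mul_inv_cancel₀ (σ.τ_pos n).ne']
  obtain ⟨u, hu⟩ := t1294_ulim σ.𝒰 (R := 1) (Eventually.of_forall fun n => (hn1 n).le)
  have hu0 : u ≠ 0 := norm_pos_iff.mp
    (one_pos.trans_le (ge_of_tendsto' hu.norm fun n => (hn1 n).ge))
  have hV1 : ∀ y, V y = 1 := (σ.fam he hρ hf hW hV h1 c1 c2).one h2 hu0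
    (σ.star he hρ hf hW hV h1 c1 c2 hu)
  by_cases hx : ∃ x, x ≠ 0 ∧ W x = 0
  · obtain ⟨g, hg, H⟩ := (σ.fam he hρ hf hW hV h1 c1 c2).exists_unit hV1 hx
    have hg0 := norm_pos_iff.2 hg
    obtain ⟨m, hm, h3⟩ := H.next
    simp only [Fam.scale, fam, σ.t_zero] at hm h3
    have h4 := σ.succ he hρ (g := g) hm fun η hη => by
      filter_upwards [h3 η hη, h3 (η / ‖g‖) (by positivity)] with n ⟨_, a1⟩ ⟨a2, _⟩
      have a3 : ‖(σ.r n : ℂ)‖ = σ.r n := by simpa using σ.norm_r n 1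
      rw [← mul_sub, norm_mul, norm_mul, a3, mul_left_comm] at a1
      rw [norm_mul, a3, ← mul_assoc, div_mul_cancel₀ _ hg0.ne'] at a2
      exact ⟨a2, le_of_mul_le_mul_left a1 hg0⟩
    choose G hG using fun n => (σ.Y n).fac ((σ.Y n).K.card - m n)
    obtain ⟨s, hs, h5⟩ := H.theta (G := G) fun L η hη => by
      filter_upwards [h4 (‖g‖ * L) (η := ‖g‖ * η) (by positivity)] with n a1 k hk y hy
      have a2 := a1 k hk (g * y) (by
        rw [mem_ball_zero_iff] at hy ⊢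
        rw [norm_mul]
        exact mul_lt_mul_of_pos_left hy hg0)
      simp only [Fam.scale, fam]
      rw [← hG, mul_comm g (σ.t n k), mul_assoc, ← div_div, div_sub_one hg, norm_div,
        div_le_iff₀' hg0]
      exact a2
    refine ⟨fun n => (σ.Y n).K.card - m n, s, hs, fun n => Nat.sub_le _ _, fun ε hε => ?_⟩
    filter_upwards [h5 ε hε] with n ⟨a1, a2, a3⟩
    simp only [Fam.scale, fam] at a1 a2 a3
    rw [(σ.Y n).fac_α fun z => (σ.Φ_eq n z).symm.trans (σ.Φ_fac n z)] at a2 a3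
    rw [(σ.Y n).fac_α (hG n)] at a3
    refine ⟨fun h0 => (σ.Ψ_ne n a1).1 ?_, a2, a3⟩
    rw [(σ.Y n).t1048_N' (σ.Y n).αB, (σ.Y n).w_α, h0, neg_zero, zero_mul]
  exfalso
  have hz : ∀ x, W x = 0 → x = 0 := fun x h => not_not.1 fun h' => hx ⟨x, h', h⟩
  have ha : σ.Alone := by
    intro L
    obtain ⟨η, hη, hm⟩ : ∃ η > 0, ∀ y : ℂ, 1 ≤ ‖y‖ → ‖y‖ ≤ L → η < ‖W y‖ := by
      have hK : IsCompact (closedBall (0 : ℂ) L \ ball 0 1) :=
        (isCompact_closedBall _ _).diff isOpen_ball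
      obtain ⟨η, hη, h⟩ := hK.exists_forall_le' (f := fun y => ‖W y‖) (a := 0)
        hW.continuous.norm.continuousOn fun y hy => norm_pos_iff.mpr fun h => hy.2 (by
          rw [hz y h]
          exact mem_ball_self one_pos)
      exact ⟨η / 2, half_pos hη, fun y g1 g2 => (half_lt_self hη).trans_le
        (h y ⟨mem_closedBall_zero_iff.mpr g2, by simpa using g1⟩)⟩
    filter_upwards [c1 L η hη] with n hn z hzB hzL
    by_contra hne
    have hA := σ.A_div n z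
    set y := (z - σ.p n 0) / σ.r n
    have y1 : ‖y‖ < L := σ.A_mem0.mp (by rw [hA]; rwa [mem_ball, dist_eq_norm])
    have y2 := σ.iso n z hzB hne
    rw [← hA, A, add_sub_cancel_left, σ.norm_r] at y2
    have := hn y (mem_ball_zero_iff.mpr y1)
    rw [hA, Fr, (σ.Y n).fixB z hzB, sub_self, zero_div, zero_div, zero_sub, norm_neg] at this
    exact absurd (hm y (le_of_mul_le_mul_left (by rwa [mul_one]) (σ.rpos n)) y1.le)
      (not_lt.mpr this)
  obtain ⟨U, hU, hlim⟩ := σ.limit ha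
  refine σ.finish he ha hU hlim fun x hx => ?_
  obtain ⟨n, g1, g2⟩ := ((σ.sol he ha hU hlim 0 (by norm_num) x 1 one_pos).and
    (σ.transport he hρ hW hV c1 c2 (‖x‖ + 1) (1 / 2) one_half_pos)).exists
  obtain ⟨y, hy, g3⟩ := (g1 0 (σ.Y n).ne.card_pos).1 hx
  have := ((g2 0 (σ.Y n).ne.card_pos).2 y (by
    rw [mem_ball, dist_eq_norm] at hy
    rw [mem_ball_zero_iff]
    linarith [norm_le_norm_add_norm_sub' y x])).2
  refine (σ.Ψ_ne n fun h => ?_).1 g3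
  rw [h, hV1] at this
  norm_num at this

end Setup

end Pool.Agent.MP_1071ec_an

end
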